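import Pool.Agent.R97.ArcCore

set_option autoImplicit false

namespace Pool.Agent.R97.Arc

open Real Set MeasureTheory Filter Topology
open scoped NNReal

/-- the determinant of two plane vectors -/
def det (z w : ℂ) : ℝ := z.re * w.im - z.im * w.re

theorem det_eq (z w : ℂ) : det z w = ((starRingEnd ℂ) z * w).im := by
  unfold det
  rw [Complex.mul_im, Complex.conj_re, Complex.conj_im]
  ring

theorem det_self (z : ℂ) : det z z = 0 := by unfold det; ring

theorem det_swap (z w : ℂ) : det w z = - det z w := by unfold det; ring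

theorem det_conj (z w : ℂ) : det ((starRingEnd ℂ) z) ((starRingEnd ℂ) w) = - det z w := by
  unfold det
  rw [Complex.conj_re, Complex.conj_im, Complex.conj_re, Complex.conj_im]
  ring

/-- `w ↦ det z w` as a continuous linear map -/
noncomputable def detL (z : ℂ) : ℂ →L[ℝ] ℝ := z.re • Complex.imCLM - z.im • Complex.reCLM

theorem detL_apply (z w : ℂ) : detL z w = det z w := by
  unfold detL det
  simp

theorem continuous_det : Continuous fun p : ℂ × ℂ => det p.1 p.2 := by
  unfold det
  fun_prop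

theorem hasDerivAt_det {F : ℝ → ℂ} {v : ℂ} {y : ℝ} (z : ℂ) (h : HasDerivAt F v y) :
    HasDerivAt (fun t => det z (F t)) (det z v) y := by
  have := (detL z).hasFDerivAt.comp_hasDerivAt y h
  rw [detL_apply] at this
  exact this

/-- an angle function which starts at 0 and has positive sine stays in `(0,π)` -/
theorem angle_range {D : ℝ → ℝ} {a b : ℝ} (hab : a < b) (hD : ContinuousOn D (Icc a b))
    (h0 : D a = 0) (hs : ∀ t ∈ Ioc a b, 0 < sin (D t)) : 0 < D b ∧ D b < π := by
  have hb := hs b ⟨hab, le_rfl⟩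
  constructor
  · by_contra hcon
    push Not at hcon
    rcases lt_or_ge (-π) (D b) with h | h
    · have := sin_nonpos_of_nonpos_of_neg_pi_le hcon h.le
      linarith
    · have hmem : -π ∈ Icc (D b) (D a) := ⟨h, by rw [h0]; linarith [pi_pos]⟩
      obtain ⟨t, ht, e⟩ := intermediate_value_Icc' hab.le hD hmem
      rcases ht.1.eq_or_lt with h1 | h1
      · rw [← h1, h0] at e
        linarith [pi_pos]
      · have := hs t ⟨h1, ht.2⟩
        rw [e, sin_neg, sin_pi] at this
        linarith
  · by_contra hcon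
    push Not at hcon
    have hmem : π ∈ Icc (D a) (D b) := ⟨by rw [h0]; exact pi_pos.le, hcon⟩
    obtain ⟨t, ht, e⟩ := intermediate_value_Icc hab.le hD hmem
    rcases ht.1.eq_or_lt with h1 | h1
    · rw [← h1, h0] at e
      linarith [pi_pos]
    · have := hs t ⟨h1, ht.2⟩
      rw [e, sin_pi] at this
      linarith

theorem Lp.exp {f : ℝ → ℝ} {c d : ℝ} (hf : Lp f c d) : Lp (fun x => Real.exp (f x)) c d := by
  obtain ⟨B, hB, hb⟩ := hf.bdd
  obtain ⟨K, hK, h1⟩ := hf
  refine ⟨Real.exp B * K, by positivity, ?_⟩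
  have key : ∀ x ∈ Icc c d, ∀ y ∈ Icc c d,
      Real.exp (f x) - Real.exp (f y) ≤ Real.exp B * K * |x - y| := by
    intro x hx y hy
    have a1 : Real.exp (f y) = Real.exp (f x) * Real.exp (f y - f x) := by
      rw [← Real.exp_add]; congr 1; ring
    have a2 := Real.add_one_le_exp (f y - f x)
    have a3 : Real.exp (f x) - Real.exp (f y) ≤ Real.exp (f x) * (f x - f y) := by
      rw [a1]
      nlinarith [Real.exp_pos (f x)]
    have a4 : f x - f y ≤ K * |x - y| := (le_abs_self _).trans (h1 x hx y hy)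
    have a5 : Real.exp (f x) ≤ Real.exp B := Real.exp_le_exp.mpr ((le_abs_self _).trans (hb x hx))
    calc Real.exp (f x) - Real.exp (f y) ≤ Real.exp (f x) * (f x - f y) := a3
      _ ≤ Real.exp (f x) * (K * |x - y|) := mul_le_mul_of_nonneg_left a4 (Real.exp_pos _).le
      _ ≤ Real.exp B * (K * |x - y|) := mul_le_mul_of_nonneg_right a5 (by positivity)
      _ = Real.exp B * K * |x - y| := by ring
  intro x hx y hy
  rw [abs_le]
  constructor
  · have := key y hy x hx
    rw [abs_sub_comm] at this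
    linarith
  · exact key x hx y hy

section lift

variable {F : ℝ → ℂ} {K : ℝ≥0} (hL : LipschitzWith K F) (h0 : ∀ y, F y ≠ 0)

/-- logarithmic derivative -/
noncomputable def qq (F : ℝ → ℂ) (y : ℝ) : ℂ := deriv F y / F y

/-- the logarithm -/
noncomputable def Lc (F : ℝ → ℂ) (y : ℝ) : ℂ := ∫ t in (0 : ℝ)..y, qq F t

include hL h0

omit h0 in
theorem qq_le (y : ℝ) : ‖qq F y‖ ≤ K / ‖F y‖ := by
  unfold qq
  rw [norm_div]
  exact div_le_div_of_nonneg_right (norm_deriv_le_of_lipschitz hL) (norm_nonneg _)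

theorem qq_bound (c d : ℝ) : ∃ B : ℝ, 0 ≤ B ∧ ∀ y ∈ Icc c d, ‖qq F y‖ ≤ B := by
  have hc : Continuous fun y => (K : ℝ) / ‖F y‖ :=
    continuous_const.div (hL.continuous.norm) fun y => norm_ne_zero_iff.mpr (h0 y)
  obtain ⟨B, hB⟩ := isCompact_Icc.exists_bound_of_continuousOn (s := Icc c d) hc.continuousOn
  refine ⟨|B|, abs_nonneg _, fun y hy => ?_⟩
  refine (qq_le hL y).trans ?_
  have := hB y hy
  rw [Real.norm_eq_abs] at this
  exact (le_abs_self _).trans (this.trans (le_abs_self _))

omit h0 in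
theorem qq_meas : Measurable (qq F) :=
  (measurable_deriv F).div hL.continuous.measurable

theorem qq_int : LocallyIntegrable (qq F) volume := by
  have hc : Continuous fun y => (K : ℝ) / ‖F y‖ :=
    continuous_const.div (hL.continuous.norm) fun y => norm_ne_zero_iff.mpr (h0 y)
  refine hc.locallyIntegrable.mono (qq_meas hL).aestronglyMeasurable ?_
  refine Eventually.of_forall fun y => ?_
  refine (qq_le hL y).trans ?_
  rw [Real.norm_eq_abs]
  exact le_abs_self _

theorem qq_ii (x y : ℝ) : IntervalIntegrable (qq F) volume x y :=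
  intervalIntegrable_iff.mpr (((qq_int hL h0).integrableOn_isCompact isCompact_uIcc).mono_set
    uIoc_subset_uIcc)

theorem Lc_sub (x y : ℝ) : Lc F y - Lc F x = ∫ t in x..y, qq F t :=
  intervalIntegral.integral_interval_sub_left (qq_ii hL h0 _ _) (qq_ii hL h0 _ _)

theorem Lc_lip (c d : ℝ) : ∃ B : ℝ, 0 ≤ B ∧ ∀ x ∈ Icc c d, ∀ y ∈ Icc c d,
    ‖Lc F x - Lc F y‖ ≤ B * |x - y| := by
  obtain ⟨B, hB, hb⟩ := qq_bound hL h0 c d
  refine ⟨B, hB, fun x hx y hy => ?_⟩
  rw [Lc_sub hL h0]
  refine (intervalIntegral.norm_integral_le_of_norm_le_const (C := B) ?_)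
  intro t ht
  have h1 := uIoc_subset_uIcc ht
  have h2 := uIcc_subset_Icc hy hx h1
  exact hb t h2

theorem Lc_deriv : ∀ᵐ y, HasDerivAt (Lc F) (qq F y) y := by
  filter_upwards [LocallyIntegrable.ae_hasDerivAt_integral (qq_int hL h0)] with y hy
  exact hy 0

theorem F_eq (y : ℝ) : F y = F 0 * Complex.exp (Lc F y) := by
  -- a function with a.e. zero derivative
  have hAC : ∀ c d : ℝ, AbsolutelyContinuousOnInterval
      (F • fun t => Complex.exp (-Lc F t)) c d := by
    intro c d
    apply AbsolutelyContinuousOnInterval.smul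
    · exact (hL.lipschitzOnWith (s := uIcc c d)).absolutelyContinuousOnInterval
    · obtain ⟨B, hB, hb⟩ := Lc_lip hL h0 (min c d) (max c d)
      have hbd : ∃ R : ℝ, ∀ t ∈ uIcc c d, (-Lc F t).re ≤ R := by
        refine ⟨‖Lc F (min c d)‖ + B * |max c d - min c d|, fun t ht => ?_⟩
        have ht' : t ∈ Icc (min c d) (max c d) := ht
        have h1 := hb t ht' (min c d) ⟨le_rfl, min_le_max⟩
        have h2 : (-Lc F t).re ≤ ‖Lc F t‖ := by
          have := Complex.re_le_norm (-Lc F t)
          rwa [norm_neg] at this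
        have h3 : ‖Lc F t‖ ≤ ‖Lc F (min c d)‖ + ‖Lc F t - Lc F (min c d)‖ := by
          have := norm_add_le (Lc F (min c d)) (Lc F t - Lc F (min c d))
          simpa using this
        have h4 : |t - min c d| ≤ |max c d - min c d| := by
          rw [abs_of_nonneg (by linarith [ht'.1]), abs_of_nonneg (by linarith [ht'.1, ht'.2])]
          linarith [ht'.2]
        have h5 : B * |t - min c d| ≤ B * |max c d - min c d| := mul_le_mul_of_nonneg_left h4 hB
        linarith
      obtain ⟨R, hR⟩ := hbd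
      have hexp : LipschitzOnWith ⟨Real.exp R, (Real.exp_pos R).le⟩ Complex.exp
          {z : ℂ | z.re ≤ R} := by
        refine Convex.lipschitzOnWith_of_nnnorm_deriv_le (𝕜 := ℂ)
          (fun z _ => Complex.differentiableAt_exp) ?_ ?_
        · intro z hz
          rw [Complex.deriv_exp, ← NNReal.coe_le_coe, coe_nnnorm, Complex.norm_exp]
          exact Real.exp_le_exp.mpr hz
        · exact convex_halfSpace_re_le R
      have hneg : LipschitzOnWith ⟨B, hB⟩ (fun t => -Lc F t) (uIcc c d) := by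
        refine LipschitzOnWith.of_dist_le_mul fun x hx y hy => ?_
        rw [dist_neg_neg, dist_eq_norm, Real.dist_eq]
        exact hb x hx y hy
      exact (hexp.comp hneg hR).absolutelyContinuousOnInterval
  have hz : ∀ᵐ t, HasDerivAt (F • fun t => Complex.exp (-Lc F t)) 0 t := by
    filter_upwards [Lc_deriv hL h0, hL.ae_differentiableAt_real] with t h1 h2
    have h3 := h2.hasDerivAt
    have h4 : HasDerivAt (fun t => Complex.exp (-Lc F t))
        (Complex.exp (-Lc F t) * (-qq F t)) t := h1.neg.cexp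
    have h5 := h3.smul h4
    have e : F t • (Complex.exp (-Lc F t) * -qq F t) + deriv F t • Complex.exp (-Lc F t) = 0 := by
      rw [smul_eq_mul, smul_eq_mul]
      unfold qq
      field_simp [h0 t]
      ring
    rw [e] at h5
    exact h5
  obtain ⟨C, hC⟩ := (hAC 0 y).const_of_ae_hasDerivAt_zero (by
    filter_upwards [hz] with t ht _
    exact ht)
  have c1 := hC 0 left_mem_uIcc
  have c2 := hC y right_mem_uIcc
  have c3 : F 0 * Complex.exp (-Lc F 0) = F y * Complex.exp (-Lc F y) := c1.trans c2.symm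
  have hL0 : Lc F 0 = 0 := by unfold Lc; simp
  rw [hL0, neg_zero, Complex.exp_zero, mul_one] at c3
  rw [c3, mul_assoc, ← Complex.exp_add, neg_add_cancel, Complex.exp_zero, mul_one]

theorem norm_F (y : ℝ) : ‖F y‖ = ‖F 0‖ * Real.exp (Lc F y).re := by
  rw [F_eq hL h0 y, norm_mul, Complex.norm_exp]

/-- the determinant in terms of the angle -/
theorem det_angle (x y : ℝ) : det (F x) (F y) =
    ‖F 0‖ ^ 2 * Real.exp ((Lc F x).re + (Lc F y).re) * sin ((Lc F y).im - (Lc F x).im) := by
  rw [det_eq, F_eq hL h0 x, F_eq hL h0 y, map_mul, ← Complex.exp_conj]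
  have e1 : (starRingEnd ℂ) (F 0) * Complex.exp ((starRingEnd ℂ) (Lc F x)) *
      (F 0 * Complex.exp (Lc F y)) =
      ((‖F 0‖ ^ 2 : ℝ) : ℂ) * Complex.exp ((starRingEnd ℂ) (Lc F x) + Lc F y) := by
    rw [Complex.exp_add]
    have : (starRingEnd ℂ) (F 0) * F 0 = ((‖F 0‖ ^ 2 : ℝ) : ℂ) := by
      rw [mul_comm, Complex.mul_conj, Complex.normSq_eq_norm_sq]
    rw [← this]
    ring
  rw [e1, Complex.im_ofReal_mul, Complex.exp_im, Complex.add_re,
    Complex.add_im, Complex.conj_re, Complex.conj_im]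
  rw [neg_add_eq_sub]
  ring

end lift

end Pool.Agent.R97.Arc
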