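import Pool.Agent.R97.ArcReal

set_option autoImplicit false

namespace Pool.Agent.R97.Arc

open Real Set MeasureTheory Filter Topology

theorem core_real (Θ u : ℝ → ℝ) (Y1 δ : ℝ) (hδ : 1 < δ) (hΘc : Continuous Θ)
    (hΘL : ∀ c d, Lp Θ c d) (huL : ∀ c d, Lp u c d) (hu0 : ∀ y, 0 < u y) (hu1 : ∀ y < Y1, u y ≤ 1)
    (hM : ∀ y, y + δ < Y1 → Θ (y + δ) - Θ y ≤ π)
    (hmono : ∀ x y, x < y → y ≤ x + δ → y < Y1 → Θ x < Θ y)
    (hae : ∀ᵐ y, y + δ < Y1 → ∃ ψ, Θ (y + δ) - Θ y ≤ ψ ∧ ψ ≤ π ∧
      HasDerivAt Θ (sin ψ / u y) y ∧ HasDerivAt u (cos ψ - u y) y) : False := by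
  have hδ0 : 0 < δ := by linarith
  -- strict monotonicity
  have hsm : ∀ x y, x < y → y < Y1 → Θ x < Θ y := by
    have key : ∀ n : ℕ, ∀ x y, x < y → y ≤ x + n * δ → y < Y1 → Θ x < Θ y := by
      intro n
      induction n with
      | zero =>
        intro x y h1 h2 _
        simp at h2
        linarith
      | succ n ih =>
        intro x y h1 h2 h3
        rcases le_or_gt y (x + δ) with h | h
        · exact hmono x y h1 h h3
        · have a1 := hmono x (x + δ) (by linarith) le_rfl (by linarith)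
          have a2 := ih (x + δ) y h (by push_cast at h2; linarith) h3
          linarith
    intro x y h1 h2
    obtain ⟨n, hn⟩ := exists_nat_ge ((y - x) / δ)
    refine key n x y h1 ?_ h2
    rw [div_le_iff₀ hδ0] at hn
    linarith
  have hm : ∀ x y, x ≤ y → y < Y1 → Θ x ≤ Θ y := by
    intro x y h1 h2
    rcases h1.eq_or_lt with rfl | h
    · exact le_rfl
    · exact (hsm x y h h2).le
  -- the function `b`
  let b : ℝ → ℝ := fun y => Real.log 2 - Real.log (1 + u y)
  have hb0 : ∀ y < Y1, 0 ≤ b y := by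
    intro y hy
    have : Real.log (1 + u y) ≤ Real.log 2 :=
      Real.log_le_log (by linarith [hu0 y]) (by linarith [hu1 y hy])
    simp only [b]; linarith
  have hb1 : ∀ y, b y ≤ Real.log 2 := by
    intro y
    have : 0 ≤ Real.log (1 + u y) := Real.log_nonneg (by linarith [hu0 y])
    simp only [b]; linarith
  have hbL : ∀ c d, Lp b c d := by
    intro c d
    have h1 : Lp (fun y => 1 + u y) c d := (Lp.const 1).add (huL c d)
    exact (Lp.const _).sub (h1.log one_pos fun x _ => by linarith [hu0 x])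
  have hbd : ∀ y ψ, HasDerivAt u (cos ψ - u y) y →
      HasDerivAt b (-((cos ψ - u y) / (1 + u y))) y := by
    intro y ψ h
    have h1 : HasDerivAt (fun y => 1 + u y) (cos ψ - u y) y := h.const_add 1
    have h2 := h1.log (by linarith [hu0 y])
    have h3 := (hasDerivAt_const y (Real.log 2)).sub h2
    rw [zero_sub] at h3
    exact h3
  -- primitive
  let P : ℝ → ℝ := fun y => ∫ x in (0 : ℝ)..y, Θ x
  have hPd : ∀ y, HasDerivAt P (Θ y) y := fun y => (hΘc.integral_hasStrictDerivAt 0 y).hasDerivAt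
  have hPL : ∀ c d, Lp P c d := fun c d => Lp.integral hΘc
  let A : ℝ → ℝ := fun y => P (y + δ) - P y
  have hA : ∀ y, A y = ∫ x in y..(y + δ), Θ x := fun y =>
    intervalIntegral.integral_interval_sub_left (hΘc.intervalIntegrable _ _)
      (hΘc.intervalIntegrable _ _)
  have hA1 : ∀ y, y + δ < Y1 → δ * Θ y ≤ A y := by
    intro y hy
    rw [hA]
    have h1 : ∫ x in y..(y + δ), Θ y ≤ ∫ x in y..(y + δ), Θ x :=
      intervalIntegral.integral_mono_on (by linarith) (by simp)
        (hΘc.intervalIntegrable _ _) fun x hx => hm y x hx.1 (by linarith [hx.2])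
    rw [intervalIntegral.integral_const, smul_eq_mul, add_sub_cancel_left] at h1
    exact h1
  have hA2 : ∀ y, y + δ < Y1 → A y ≤ δ * Θ (y + δ) := by
    intro y hy
    rw [hA]
    have h1 : ∫ x in y..(y + δ), Θ x ≤ ∫ x in y..(y + δ), Θ (y + δ) :=
      intervalIntegral.integral_mono_on (by linarith) (hΘc.intervalIntegrable _ _) (by simp)
        fun x hx => hm x (y + δ) hx.2 hy
    rw [intervalIntegral.integral_const, smul_eq_mul, add_sub_cancel_left] at h1
    exact h1
  have hAL : ∀ c d, Lp A c d := fun c d => ((hPL _ _).shift δ).sub (hPL c d)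
  have hAd : ∀ y, HasDerivAt A (Θ (y + δ) - Θ y) y := fun y =>
    ((hPd (y + δ)).comp_add_const y δ).sub (hPd y)
  -- the function `W`
  let W : ℝ → ℝ := fun y => A y - Θ y - (Θ (y + δ) - Θ y) * b y
  have hWL : ∀ c d, Lp W c d := fun c d =>
    ((hAL c d).sub (hΘL c d)).sub ((((hΘL _ _).shift δ).sub (hΘL c d)).mul (hbL c d))
  have hshift : ∀ᵐ y, y + δ + δ < Y1 → ∃ ψ, Θ (y + δ + δ) - Θ (y + δ) ≤ ψ ∧ ψ ≤ π ∧
      HasDerivAt Θ (sin ψ / u (y + δ)) (y + δ) ∧
      HasDerivAt u (cos ψ - u (y + δ)) (y + δ) :=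
    (measurePreserving_add_right volume δ).quasiMeasurePreserving.ae hae
  have hWd : ∀ᵐ y, y + δ + δ < Y1 → ∃ w p, HasDerivAt W w y ∧ HasDerivAt Θ p (y + δ) ∧ 0 ≤ p ∧
      w ≤ -(p * b y) := by
    filter_upwards [hae, hshift] with y h1 h2 hy
    obtain ⟨ψ, a1, a2, a3, a4⟩ := h1 (by linarith)
    obtain ⟨ψ', c1, c2, c3, -⟩ := h2 hy
    have hMpos : 0 < Θ (y + δ + δ) - Θ (y + δ) := by
      have := hsm (y + δ) (y + δ + δ) (by linarith) hy
      linarith
    have hp : 0 ≤ sin ψ' / u (y + δ) :=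
      div_nonneg (sin_nonneg_of_nonneg_of_le_pi (by linarith) c2) (hu0 _).le
    have hb := hbd y ψ a4
    have hW := ((hAd y).sub a3).sub (((c3.comp_add_const y δ).sub a3).mul hb)
    refine ⟨Θ (y + δ) - Θ y - sin ψ / u y - ((sin ψ' / u (y + δ) - sin ψ / u y) * b y +
      (Θ (y + δ) - Θ y) * -((cos ψ - u y) / (1 + u y))), _, hW, c3, hp, ?_⟩
    have hMy : 0 ≤ Θ (y + δ) - Θ y := by
      have := hm y (y + δ) (by linarith) (by linarith)
      linarith
    have hk := key_P (hu0 y) hMy a1 a2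
    have hk' : Θ (y + δ) - Θ y ≤ sin ψ / u y * (1 - b y) +
      (Θ (y + δ) - Θ y) * -((cos ψ - u y) / (1 + u y)) := hk
    linarith
  have hanti : ∀ x y, x ≤ y → y + δ + δ < Y1 → W y ≤ W x := by
    intro x y hxy hy
    have := mono_of_ae hxy (hWL x y).neg (by
      filter_upwards [hWd] with z hz hzI
      obtain ⟨w, p, h1, -, h3, h4⟩ := hz (by linarith [hzI.2])
      refine ⟨-w, ?_, h1.neg⟩
      have := mul_nonneg h3 (hb0 z (by linarith [hzI.2]))
      linarith)
    linarith
  -- `Θ` is bounded below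
  set y1 : ℝ := Y1 - δ - δ - 1 with hy1
  have hlow : ∀ y ≤ y1, (W y1 - δ * π) / (δ - 1) ≤ Θ y := by
    intro y hy
    rw [div_le_iff₀ (by linarith)]
    have a1 := hanti y y1 hy (by rw [hy1]; linarith)
    have a2 := hA2 y (by linarith)
    have a3 := hM y (by linarith)
    have a4 : 0 ≤ (Θ (y + δ) - Θ y) * b y :=
      mul_nonneg (by linarith [hm y (y + δ) (by linarith) (by linarith)]) (hb0 y (by linarith))
    have a5 : W y ≤ A y - Θ y := by simp only [W]; linarith
    have a6 : δ * (Θ (y + δ) - Θ y) ≤ δ * π := mul_le_mul_of_nonneg_left a3 hδ0.le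
    nlinarith
  set I : ℝ := sInf (Θ '' Iic y1) with hI
  have hbdd : BddBelow (Θ '' Iic y1) := by
    refine ⟨(W y1 - δ * π) / (δ - 1), ?_⟩
    rintro _ ⟨y, hy, rfl⟩
    exact hlow y hy
  have hne : (Θ '' Iic y1).Nonempty := ⟨Θ y1, y1, mem_Iic.mpr le_rfl, rfl⟩
  have hI1 : ∀ y ≤ y1, I ≤ Θ y := fun y hy => csInf_le hbdd ⟨y, hy, rfl⟩
  have hI2 : ∀ ε > 0, ∃ z ≤ y1, ∀ y ≤ z, Θ y < I + ε := by
    intro ε hε
    obtain ⟨_, ⟨z, hz, rfl⟩, hz2⟩ := exists_lt_of_csInf_lt hne (show sInf (Θ '' Iic y1) < I + ε by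
      rw [← hI]; linarith)
    refine ⟨z, hz, fun y hy => (hm y z hy ?_).trans_lt hz2⟩
    have : z ≤ y1 := hz
    rw [hy1] at this
    linarith
  have hI3 : ∀ y < Y1, I < Θ y := by
    intro y hy
    have h1 := hI1 (min (y - 1) y1) (min_le_right _ _)
    have h2 := hsm (min (y - 1) y1) y (by
      have := min_le_left (y - 1) y1
      linarith) hy
    linarith
  -- the function `V`
  let V : ℝ → ℝ := fun y => -(W y - (δ - 1) * I)
  have hVL : ∀ c d, Lp V c d := fun c d => ((hWL c d).sub (Lp.const _)).neg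
  have hVmono : ∀ x y, x ≤ y → y + δ + δ < Y1 → V x ≤ V y := by
    intro x y hxy hy
    have := hanti x y hxy hy
    simp only [V]; linarith
  have hVup : ∀ y, y + δ < Y1 → V y + (δ - 1) * (Θ y - I) ≤ (Θ (y + δ) - I) * b y := by
    intro y hy
    have a1 := hA1 y hy
    have a2 : (Θ y - I) * b y ≥ 0 :=
      mul_nonneg (by linarith [hI3 y (by linarith)]) (hb0 y (by linarith))
    simp only [V, W]
    nlinarith
  have hVlow : ∀ y, y + δ < Y1 → -(δ * (Θ (y + δ) - I)) ≤ V y := by
    intro y hy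
    have a1 := hA2 y hy
    have a2 : 0 ≤ (Θ (y + δ) - Θ y) * b y :=
      mul_nonneg (by linarith [hm y (y + δ) (by linarith) (by linarith)]) (hb0 y (by linarith))
    have a3 := hI3 y (by linarith)
    simp only [V, W]
    nlinarith
  have hVnn : ∀ y, y + δ + δ < Y1 → 0 ≤ V y := by
    intro y hy
    by_contra hcon
    push Not at hcon
    obtain ⟨z, hz, hz2⟩ := hI2 (-V y / δ) (div_pos (by linarith) hδ0)
    have b1 := hz2 (min (z - δ) (y - 1) + δ) (by
      have := min_le_left (z - δ) (y - 1)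
      linarith)
    have b2 := hVmono (min (z - δ) (y - 1)) y (by
      have := min_le_right (z - δ) (y - 1)
      linarith) hy
    have b3 := hVlow (min (z - δ) (y - 1)) (by
      have := min_le_right (z - δ) (y - 1)
      linarith)
    have b4 : Θ (min (z - δ) (y - 1) + δ) - I < -V y / δ := by linarith
    rw [lt_div_iff₀ hδ0] at b4
    linarith
  -- the exponential bound
  have hexp1 : ∀ x, x + δ < Y1 → Θ (x + (δ - 1)) - I ≤ 5 * (Θ x - I) := by
    intro x hx
    set m0 : ℝ := Θ (x + (δ - 1)) - Θ x with hm0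
    have hm0nn : 0 ≤ m0 := by
      have := hm x (x + (δ - 1)) (by linarith) (by linarith)
      rw [hm0]; linarith
    have hQ := mono_of_ae (h := fun y => Θ y + m0 * b y - m0 * y) (c := x - 1) (d := x)
      (by linarith) (((hΘL _ _).add ((Lp.const m0).mul (hbL _ _))).sub ((Lp.const m0).mul Lp.id)) (by
        filter_upwards [hae] with y h1 hy
        obtain ⟨ψ, a1, a2, a3, a4⟩ := h1 (by linarith [hy.2])
        have hb := hbd y ψ a4
        have hd := (a3.add (hb.const_mul m0)).sub ((hasDerivAt_id y).const_mul m0)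
        refine ⟨_, ?_, hd⟩
        have hmy : m0 ≤ Θ (y + δ) - Θ y := by
          have c1 := hm y x hy.2.le (by linarith)
          have c2 := hm (x + (δ - 1)) (y + δ) (by linarith [hy.1]) (by linarith [hy.2])
          rw [hm0]; linarith
        have hk := key_P (hu0 y) hm0nn (hmy.trans a1) a2
        have hs : 0 ≤ sin ψ / u y :=
          div_nonneg (sin_nonneg_of_nonneg_of_le_pi (hm0nn.trans (hmy.trans a1)) a2) (hu0 y).le
        have hbn : 0 ≤ Real.log 2 - Real.log (1 + u y) := hb0 y (by linarith [hy.2])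
        have := mul_nonneg hs hbn
        nlinarith)
    have hQ' : Θ (x - 1) + m0 * b (x - 1) - m0 * (x - 1) ≤ Θ x + m0 * b x - m0 * x := hQ
    have e1 := hb1 x
    have e2 := hb0 (x - 1) (by linarith)
    have e3 := hI3 (x - 1) (by linarith)
    have e4 := Real.log_two_lt_d9
    have e5 : m0 * (b x - b (x - 1)) ≤ m0 * (3 / 4) :=
      mul_le_mul_of_nonneg_left (by linarith) hm0nn
    have e6 : m0 ≤ 4 * (Θ x - I) := by nlinarith
    have e7 : Θ (x + (δ - 1)) = Θ x + m0 := by rw [hm0]; ring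
    rw [e7]; linarith
  have hexpn : ∀ n : ℕ, ∀ x, x + n * (δ - 1) + δ < Y1 →
      Θ (x + n * (δ - 1)) - I ≤ 5 ^ n * (Θ x - I) := by
    intro n
    induction n with
    | zero => intro x _; simp
    | succ n ih =>
      intro x hx
      push_cast at hx ⊢
      have e : x + (n + 1) * (δ - 1) = (x + (δ - 1)) + n * (δ - 1) := by ring
      rw [e] at hx ⊢
      have a1 := ih (x + (δ - 1)) hx
      have hn : (0 : ℝ) ≤ n * (δ - 1) := mul_nonneg (by positivity) (by linarith)
      have a2 := hexp1 x (by linarith)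
      calc Θ (x + (δ - 1) + n * (δ - 1)) - I ≤ 5 ^ n * (Θ (x + (δ - 1)) - I) := a1
        _ ≤ 5 ^ n * (5 * (Θ x - I)) := mul_le_mul_of_nonneg_left a2 (by positivity)
        _ = 5 ^ (n + 1) * (Θ x - I) := by ring
  obtain ⟨n, hn⟩ := exists_nat_ge (δ / (δ - 1))
  rw [div_le_iff₀ (by linarith)] at hn
  have hG : ∀ x, x + n * (δ - 1) + δ < Y1 → Θ (x + δ) - I ≤ 5 ^ n * (Θ x - I) := by
    intro x hx
    have a1 := hexpn n x hx
    have a2 := hm (x + δ) (x + n * (δ - 1)) (by linarith) (by linarith)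
    linarith
  set q : ℝ := (δ - 1) / 5 ^ n with hq
  have hq0 : 0 < q := div_pos (by linarith) (by positivity)
  have hqG : ∀ x, x + n * (δ - 1) + δ < Y1 → q * (Θ (x + δ) - I) ≤ (δ - 1) * (Θ x - I) := by
    intro x hx
    calc q * (Θ (x + δ) - I) ≤ q * (5 ^ n * (Θ x - I)) := mul_le_mul_of_nonneg_left (hG x hx) hq0.le
      _ = (δ - 1) * (Θ x - I) := by rw [hq]; field_simp
  -- the final monotone quantity
  let G : ℝ → ℝ := fun y => Θ (y + δ) - I
  let H : ℝ → ℝ := fun y => V y * (G y)⁻¹ - q * Real.log (G y)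
  have hGpos : ∀ y, y + δ < Y1 → 0 < G y := by
    intro y hy
    have := hI3 (y + δ) hy
    simp only [G]; linarith
  have hH : ∀ x y, x ≤ y → y + n * (δ - 1) + δ < Y1 → H x ≤ H y := by
    intro x y hxy hy
    have hy2 : y + δ + δ < Y1 := by linarith
    have hGc : ∀ z ∈ Icc x y, G x ≤ G z := by
      intro z hz
      have := hm (x + δ) (z + δ) (by linarith [hz.1]) (by linarith [hz.2])
      simp only [G]; linarith
    have hGL : Lp G x y := ((hΘL _ _).shift δ).sub (Lp.const I)
    have hGx : 0 < G x := hGpos x (by linarith)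
    refine mono_of_ae hxy (((hVL x y).mul (hGL.inv hGx hGc)).sub
      ((Lp.const q).mul (hGL.log hGx hGc))) ?_
    filter_upwards [hWd] with z hz hzI
    obtain ⟨w, p, h1, h2, h3, h4⟩ := hz (by linarith [hzI.2])
    have hVz : HasDerivAt V (-w) z := by
      have := (h1.sub (hasDerivAt_const z ((δ - 1) * I))).neg
      rwa [sub_zero] at this
    have hGz : HasDerivAt G p z := by
      have := (h2.comp_add_const z δ).sub (hasDerivAt_const z I)
      rwa [sub_zero] at this
    have hGzpos : 0 < G z := hGpos z (by linarith [hzI.2])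
    have hd := (hVz.mul (hGz.inv hGzpos.ne')).sub ((hGz.log hGzpos.ne').const_mul q)
    refine ⟨_, ?_, hd⟩
    have k1 := hVup z (by linarith [hzI.2])
    have k2 := hqG z (by linarith [hzI.2])
    have k3 : V z + q * G z ≤ G z * b z := by
      simp only [G] at k1 k2 ⊢
      linarith
    have k4 : 0 ≤ (-w - p * b z) := by linarith
    have e : -w * (G z)⁻¹ + V z * (-p / G z ^ 2) - q * (p / G z) =
        ((-w - p * b z) * G z + p * (G z * b z - (V z + q * G z))) / G z ^ 2 := by
      field_simp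
      ring
    show 0 ≤ -w * (G z)⁻¹ + V z * (-p / G z ^ 2) - q * (p / G z)
    rw [e]
    apply div_nonneg _ (by positivity)
    have := mul_nonneg k4 hGzpos.le
    have := mul_nonneg h3 (sub_nonneg.mpr k3)
    linarith
  -- contradiction
  set y3 : ℝ := Y1 - n * (δ - 1) - δ - 1 with hy3
  obtain ⟨z, hz, hz2⟩ := hI2 (Real.exp (-(H y3) / q)) (Real.exp_pos _)
  set y := min (z - δ) (y3 - 1) with hy
  have hyz : y ≤ z - δ := min_le_left _ _
  have hyy : y ≤ y3 - 1 := min_le_right _ _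
  have hn0 : (0 : ℝ) ≤ n * (δ - 1) := mul_nonneg (by positivity) (by linarith)
  have f1 := hz2 (y + δ) (by linarith)
  have f2 := hH y y3 (by linarith) (by rw [hy3]; linarith)
  have hyY : y + δ + δ < Y1 := by
    rw [hy3] at hyy
    linarith
  have f3 := hVnn y hyY
  have f4 := hGpos y (by linarith)
  have f5 : 0 ≤ V y * (G y)⁻¹ := mul_nonneg f3 (inv_nonneg.mpr f4.le)
  have f6 : -(H y3) / q ≤ Real.log (G y) := by
    rw [div_le_iff₀ hq0]
    simp only [H] at f2 ⊢
    linarith
  have f7 : Real.exp (-(H y3) / q) ≤ G y := by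
    rw [← Real.le_log_iff_exp_le f4]
    exact f6
  simp only [G] at f7
  linarith

end Pool.Agent.R97.Arc
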