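import Pool.Agent.R97.ArcPos

set_option autoImplicit false

namespace Pool.Agent.R97.Arc

open Real Set MeasureTheory Filter Topology
open scoped NNReal

theorem core_ext (F : ℝ → ℂ) (K : ℝ≥0) (hL : LipschitzWith K F) (h0 : ∀ y, F y ≠ 0)
    (Y1 δ : ℝ) (hδ : 1 < δ) (hu : ∀ y < Y1, ‖F y‖ ≤ Real.exp y)
    (hd : ∀ᵐ y, y < Y1 → ‖deriv F y‖ = Real.exp y)
    (hne : ∀ S < Y1, ∀ σ ∈ Ioo (S - δ) S, ¬ IsLocalExtr (fun τ => det (F S) (F τ)) σ) :
    False := by
  have hδ0 : 0 < δ := by linarith
  have hFc := hL.continuous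
  have hc : ∀ S, Continuous fun τ => det (F S) (F τ) := fun S =>
    continuous_det.comp (continuous_const.prodMk hFc)
  have hor : ∀ S < Y1, StrictMonoOn (fun τ => det (F S) (F τ)) (Icc (S - δ) S) ∨
      StrictAntiOn (fun τ => det (F S) (F τ)) (Icc (S - δ) S) := by
    intro S hS
    refine ContinuousOn.strictMonoOn_of_injOn_Icc' (by linarith) (hc S).continuousOn ?_
    have key : ∀ x ∈ Icc (S - δ) S, ∀ z ∈ Icc (S - δ) S, x < z →
        det (F S) (F x) ≠ det (F S) (F z) := by
      intro x hx z hz hxz heq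
      obtain ⟨c, hc1, hc2⟩ := exists_isLocalExtr_Ioo hxz (hc S).continuousOn heq
      exact hne S hS c ⟨by linarith [hc1.1, hx.1], by linarith [hc1.2, hz.2]⟩ hc2
    intro x hx z hz heq
    rcases lt_trichotomy x z with h | h | h
    · exact absurd heq (key x hx z hz h)
    · exact h
    · exact absurd heq.symm (key z hz x hx h)
  -- the sign
  have hgc : Continuous fun S => det (F S) (F (S - δ)) :=
    continuous_det.comp (hFc.prodMk (hFc.comp (continuous_id.sub continuous_const)))
  have hg0 : ∀ S < Y1, det (F S) (F (S - δ)) ≠ 0 := by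
    intro S hS
    have m1 : S - δ ∈ Icc (S - δ) S := ⟨le_rfl, by linarith⟩
    have m2 : S ∈ Icc (S - δ) S := ⟨by linarith, le_rfl⟩
    rcases hor S hS with h | h
    · have := h m1 m2 (by linarith)
      simp only [det_self] at this
      exact this.ne
    · have := h m1 m2 (by linarith)
      simp only [det_self] at this
      exact this.ne'
  have hsign : (∀ S < Y1, det (F S) (F (S - δ)) < 0) ∨ (∀ S < Y1, 0 < det (F S) (F (S - δ))) := by
    by_contra hcon
    push Not at hcon
    obtain ⟨⟨S1, hS1, h1⟩, ⟨S2, hS2, h2⟩⟩ := hcon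
    have hmem : (0 : ℝ) ∈ Icc (det (F S2) (F (S2 - δ))) (det (F S1) (F (S1 - δ))) := ⟨h2, h1⟩
    obtain ⟨S, hS, e⟩ := (isPreconnected_Iio (a := Y1)).intermediate_value hS2 hS1
      hgc.continuousOn hmem
    exact hg0 S hS e
  rcases hsign with hs | hs
  · refine core_pos F K hL h0 Y1 δ hδ hu hd fun S hS => ?_
    rcases hor S hS with h | h
    · exact h
    · have m1 : S - δ ∈ Icc (S - δ) S := ⟨le_rfl, by linarith⟩
      have m2 : S ∈ Icc (S - δ) S := ⟨by linarith, le_rfl⟩
      have := h m1 m2 (by linarith)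
      simp only [det_self] at this
      linarith [hs S hS]
  · have hL' : LipschitzWith K fun y => (starRingEnd ℂ) (F y) := by
      refine LipschitzWith.of_dist_le_mul fun x y => ?_
      have := hL.dist_le_mul x y
      rw [dist_eq_norm] at this ⊢
      rw [← map_sub, Complex.norm_conj]
      exact this
    refine core_pos (fun y => (starRingEnd ℂ) (F y)) K hL' ?_ Y1 δ hδ ?_ ?_ fun S hS => ?_
    · intro y
      simpa using h0 y
    · intro y hy
      rw [Complex.norm_conj]
      exact hu y hy
    · filter_upwards [hd, hL.ae_differentiableAt_real] with y h1 h2 hy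
      have h3 : HasDerivAt (fun y => (starRingEnd ℂ) (F y)) ((starRingEnd ℂ) (deriv F y)) y :=
        Complex.conjCLE.toContinuousLinearMap.hasFDerivAt.comp_hasDerivAt y h2.hasDerivAt
      rw [h3.deriv, Complex.norm_conj]
      exact h1 hy
    · simp only [det_conj]
      rcases hor S hS with h | h
      · have m1 : S - δ ∈ Icc (S - δ) S := ⟨le_rfl, by linarith⟩
        have m2 : S ∈ Icc (S - δ) S := ⟨by linarith, le_rfl⟩
        have := h m1 m2 (by linarith)
        simp only [det_self] at this
        linarith [hs S hS]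
      · exact h.neg

end Pool.Agent.R97.Arc
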