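import Pool.Agent.R97.ArcExt
import Mathlib.Topology.EMetricSpace.BoundedVariation

set_option autoImplicit false

namespace Pool.Agent.R97.Arc

open Real Set MeasureTheory Filter Topology
open scoped NNReal

/-- length of the arc `γ|[a,t]` -/
noncomputable def V (γ : ℝ → ℂ) (a t : ℝ) : ℝ := (eVariationOn γ (Icc a t)).toReal

section

variable {γ : ℝ → ℂ} {a b : ℝ}

theorem V_fin (hV : eVariationOn γ (Icc a b) ≠ ⊤) {x y : ℝ} (h1 : a ≤ x) (h2 : y ≤ b) :
    eVariationOn γ (Icc x y) ≠ ⊤ :=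
  ne_top_of_le_ne_top hV (eVariationOn.mono γ (Icc_subset_Icc h1 h2))

theorem V_add (hV : eVariationOn γ (Icc a b) ≠ ⊤) {x y : ℝ} (h1 : a ≤ x) (h2 : x ≤ y)
    (h3 : y ≤ b) : V γ a y = V γ a x + (eVariationOn γ (Icc x y)).toReal := by
  have := eVariationOn.Icc_add_Icc γ (s := univ) h1 h2 (mem_univ x)
  simp only [univ_inter] at this
  unfold V
  rw [← this, ENNReal.toReal_add]
  · exact V_fin hV le_rfl (h2.trans h3)
  · exact V_fin hV h1 h3

theorem V_mono (hV : eVariationOn γ (Icc a b) ≠ ⊤) {x y : ℝ} (h1 : a ≤ x) (h2 : x ≤ y)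
    (h3 : y ≤ b) : V γ a x ≤ V γ a y := by
  rw [V_add hV h1 h2 h3]
  have : 0 ≤ (eVariationOn γ (Icc x y)).toReal := ENNReal.toReal_nonneg
  linarith

theorem V_dist (hV : eVariationOn γ (Icc a b) ≠ ⊤) {x y : ℝ} (h1 : a ≤ x) (h2 : x ≤ y)
    (h3 : y ≤ b) : dist (γ x) (γ y) ≤ V γ a y - V γ a x := by
  rw [V_add hV h1 h2 h3, add_sub_cancel_left]
  have h4 := eVariationOn.edist_le γ (s := Icc x y) (x := x) (y := y) ⟨le_rfl, h2⟩ ⟨h2, le_rfl⟩
  rw [dist_edist]
  exact ENNReal.toReal_mono (V_fin hV h1 h3) h4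

theorem V_dist' (hV : eVariationOn γ (Icc a b) ≠ ⊤) {x y : ℝ} (hx : x ∈ Icc a b)
    (hy : y ∈ Icc a b) : dist (γ x) (γ y) ≤ |V γ a x - V γ a y| := by
  rcases le_total x y with h | h
  · have := V_dist hV hx.1 h hy.2
    rw [abs_sub_comm]
    exact this.trans (le_abs_self _)
  · have := V_dist hV hy.1 h hx.2
    rw [dist_comm]
    exact this.trans (le_abs_self _)

theorem V_a : V γ a a = 0 := by
  unfold V
  rw [Icc_self, eVariationOn.subsingleton γ subsingleton_singleton, ENNReal.toReal_zero]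

theorem V_eq (hV : eVariationOn γ (Icc a b) ≠ ⊤) {x y : ℝ} (hx : x ∈ Icc a b)
    (hy : y ∈ Icc a b) (h : V γ a x = V γ a y) : γ x = γ y := by
  have := V_dist' hV hx hy
  rw [h, sub_self, abs_zero] at this
  exact dist_le_zero.mp this

theorem V_pos (hV : eVariationOn γ (Icc a b) ≠ ⊤)
    (hn : ∀ d > 0, ∃ t ∈ Icc a (a + d), t ≤ b ∧ γ t ≠ γ a) {t : ℝ} (h1 : a < t) (h2 : t ≤ b) :
    0 < V γ a t := by
  obtain ⟨s, hs, hsb, hne⟩ := hn (t - a) (by linarith)
  have hst : s ≤ t := by linarith [hs.2]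
  have h3 := V_mono hV hs.1 hst h2
  have h4 := V_dist hV le_rfl hs.1 hsb
  rw [V_a, sub_zero] at h4
  have h5 : 0 < dist (γ a) (γ s) := dist_pos.mpr hne.symm
  linarith

theorem V_cont (hc : ContinuousOn γ (Icc a b)) (hV : eVariationOn γ (Icc a b) ≠ ⊤) :
    ContinuousOn (V γ a) (Icc a b) := by
  intro x hx
  have hl : Tendsto (fun y ↦ (eVariationOn γ (Icc a b ∩ Icc y x)).toReal) (𝓝[Icc a b] x)
      (𝓝 (0 : ℝ)) := by
    have h1 : ContinuousWithinAt γ (Icc a b ∩ Iic x) x := (hc x hx).mono inter_subset_left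
    have h2 := BoundedVariationOn.tendsto_eVariationOn_Icc_zero_left (f := γ) (s := Icc a b) hV h1
    exact (ENNReal.tendsto_toReal ENNReal.zero_ne_top).comp h2
  have hr : Tendsto (fun y ↦ (eVariationOn γ (Icc a b ∩ Icc x y)).toReal) (𝓝[Icc a b] x)
      (𝓝 (0 : ℝ)) := by
    have h1 : ContinuousWithinAt γ (Icc a b ∩ Ici x) x := (hc x hx).mono inter_subset_left
    have h2 := BoundedVariationOn.tendsto_eVariationOn_Icc_zero_right (f := γ) (s := Icc a b) hV x h1
    exact (ENNReal.tendsto_toReal ENNReal.zero_ne_top).comp h2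
  have hsum := hl.add hr
  rw [add_zero] at hsum
  have key : ∀ᶠ y in 𝓝[Icc a b] x, ‖V γ a y - V γ a x‖ ≤
      (eVariationOn γ (Icc a b ∩ Icc y x)).toReal + (eVariationOn γ (Icc a b ∩ Icc x y)).toReal := by
    filter_upwards [self_mem_nhdsWithin] with y hy
    have n1 : 0 ≤ (eVariationOn γ (Icc a b ∩ Icc y x)).toReal := ENNReal.toReal_nonneg
    have n2 : 0 ≤ (eVariationOn γ (Icc a b ∩ Icc x y)).toReal := ENNReal.toReal_nonneg
    rw [Real.norm_eq_abs]
    rcases le_total y x with h | h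
    · have h1 := V_add hV hy.1 h hx.2
      have h2 : Icc a b ∩ Icc y x = Icc y x :=
        inter_eq_right.mpr (Icc_subset_Icc hy.1 hx.2)
      rw [h2] at n1 ⊢
      rw [abs_sub_comm, abs_of_nonneg (by linarith)]
      linarith
    · have h1 := V_add hV hx.1 h hy.2
      have h2 : Icc a b ∩ Icc x y = Icc x y :=
        inter_eq_right.mpr (Icc_subset_Icc hx.1 hy.2)
      rw [h2] at n2 ⊢
      rw [abs_of_nonneg (by linarith)]
      linarith
  have := squeeze_zero_norm' key hsum
  exact tendsto_sub_nhds_zero_iff.mp this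

end

/-- the fundamental theorem of calculus for Lipschitz plane curves, in norm -/
theorem lip_norm_le {F : ℝ → ℂ} {K : ℝ≥0} (hL : LipschitzWith K F) {x y : ℝ} (hxy : x ≤ y) :
    ‖F y - F x‖ ≤ ∫ t in x..y, ‖deriv F t‖ := by
  have hmeas : Measurable (deriv F) := measurable_deriv F
  have hint : LocallyIntegrable (deriv F) volume := by
    have hc : Continuous fun _ : ℝ => (K : ℝ) := continuous_const
    refine hc.locallyIntegrable.mono hmeas.aestronglyMeasurable ?_
    refine Eventually.of_forall fun y => ?_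
    refine (norm_deriv_le_of_lipschitz hL).trans ?_
    rw [Real.norm_eq_abs]
    exact le_abs_self _
  have hii : ∀ x y : ℝ, IntervalIntegrable (deriv F) volume x y := fun x y =>
    intervalIntegrable_iff.mpr ((hint.integrableOn_isCompact isCompact_uIcc).mono_set
      uIoc_subset_uIcc)
  have hP : LipschitzWith K fun y => ∫ t in (0 : ℝ)..y, deriv F t := by
    refine LipschitzWith.of_dist_le_mul fun x y => ?_
    rw [dist_eq_norm, intervalIntegral.integral_interval_sub_left (hii _ _) (hii _ _),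
      Real.dist_eq]
    refine intervalIntegral.norm_integral_le_of_norm_le_const fun t _ => ?_
    exact norm_deriv_le_of_lipschitz hL
  have hAC : AbsolutelyContinuousOnInterval (fun y => F y - ∫ t in (0 : ℝ)..y, deriv F t) x y :=
    ((hL.sub hP).lipschitzOnWith (s := uIcc x y)).absolutelyContinuousOnInterval
  have hz : ∀ᵐ t, HasDerivAt (fun y => F y - ∫ t in (0 : ℝ)..y, deriv F t) 0 t := by
    filter_upwards [LocallyIntegrable.ae_hasDerivAt_integral hint, hL.ae_differentiableAt_real]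
      with t h1 h2
    have := h2.hasDerivAt.sub (h1 0)
    rwa [sub_self] at this
  obtain ⟨C, hC⟩ := hAC.const_of_ae_hasDerivAt_zero (by
    filter_upwards [hz] with t ht _
    exact ht)
  have c1 := hC x left_mem_uIcc
  have c2 := hC y right_mem_uIcc
  have c3 : F y - F x = ∫ t in x..y, deriv F t := by
    rw [← intervalIntegral.integral_interval_sub_left (hii 0 y) (hii 0 x)]
    have := c2.trans c1.symm
    linear_combination this
  rw [c3]
  exact intervalIntegral.norm_integral_le_integral_norm hxy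

end Pool.Agent.R97.Arc
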