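import Pool.Agent.R97.ArcLen

set_option autoImplicit false

namespace Pool.Agent.R97.Arc

open Real Set MeasureTheory Filter Topology
open scoped NNReal

/-- parameters in `(a,t]` of support points of the chord `[γ a, γ t]` -/
def supp (γ : ℝ → ℂ) (a b t : ℝ) : Set ℝ :=
  {τ | τ ∈ Ioc a t ∧ (γ a = γ t ∨ IsLocalExtrOn (fun s => det (γ t - γ a) (γ s)) (Icc a b) τ)}

theorem exp_lip {u v Y : ℝ} (hu : u ≤ Y) (hv : v ≤ Y) :
    |Real.exp u - Real.exp v| ≤ Real.exp Y * |u - v| := by
  have key : ∀ u v : ℝ, u ≤ v → v ≤ Y → Real.exp v - Real.exp u ≤ Real.exp Y * (v - u) := by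
    intro u v h1 h2
    have a1 : Real.exp u = Real.exp v * Real.exp (u - v) := by
      rw [← Real.exp_add]; congr 1; ring
    have a2 := Real.add_one_le_exp (u - v)
    have a3 : Real.exp v ≤ Real.exp Y := Real.exp_le_exp.mpr h2
    rw [a1]
    have a4 := mul_le_mul_of_nonneg_left a2 (Real.exp_pos v).le
    have a5 := mul_le_mul_of_nonneg_right a3 (sub_nonneg.mpr h1)
    linarith
  rcases le_total u v with h | h
  · rw [abs_sub_comm, abs_of_nonneg (sub_nonneg.mpr (Real.exp_le_exp.mpr h)), abs_sub_comm,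
      abs_of_nonneg (sub_nonneg.mpr h)]
    exact key u v h hv
  · rw [abs_of_nonneg (sub_nonneg.mpr (Real.exp_le_exp.mpr h)), abs_of_nonneg (sub_nonneg.mpr h)]
    exact key v u h hu

/-- variation comparison -/
theorem eVar_le_of_edist {f : ℝ → ℂ} {g : ℝ → ℝ} {s : Set ℝ}
    (h : ∀ x ∈ s, ∀ y ∈ s, x ≤ y → edist (f y) (f x) ≤ edist (g y) (g x)) :
    eVariationOn f s ≤ eVariationOn g s := by
  refine iSup_le ?_
  rintro ⟨n, ⟨u, hu, us⟩⟩
  refine le_trans ?_ (eVariationOn.sum_le (f := g) (n := n) hu us)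
  exact Finset.sum_le_sum fun i _ => h _ (us i) _ (us (i + 1)) (hu (Nat.le_succ _))

theorem frequently_ratio {γ : ℝ → ℂ} {a b : ℝ} (hc : ContinuousOn γ (Icc a b))
    (hV : eVariationOn γ (Icc a b) ≠ ⊤)
    (hn : ∀ d > 0, ∃ t ∈ Icc a (a + d), t ≤ b ∧ γ t ≠ γ a) {c : ℝ} (hc1 : 0 < c)
    (hc2 : c < Real.exp (-1)) {t1 : ℝ} (ht1 : a < t1) (ht1b : t1 ≤ b) :
    ∃ t ∈ Ioo a t1, ∃ τ ∈ supp γ a b t, c * V γ a t < V γ a τ := by
  by_contra hcon
  push Not at hcon
  have hab : a < b := lt_of_lt_of_le ht1 ht1b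
  have hVc := V_cont hc hV
  have hc3 : c < 1 := hc2.trans (by rw [Real.exp_lt_one_iff]; norm_num)
  -- δ
  obtain ⟨δ, hδc, hδ⟩ : ∃ δ, c = Real.exp (-δ) ∧ 1 < δ := by
    refine ⟨-Real.log c, ?_, ?_⟩
    · rw [neg_neg, Real.exp_log hc1]
    · have := Real.log_lt_log hc1 hc2
      rw [Real.log_exp] at this
      linarith
  -- Y1
  have hVt1 : 0 < V γ a t1 := V_pos hV hn ht1 ht1b
  obtain ⟨Y1, hY1⟩ : ∃ Y1, Real.exp Y1 < V γ a t1 := by
    refine ⟨Real.log (V γ a t1) - 1, ?_⟩
    rw [Real.exp_sub, Real.exp_log hVt1, div_lt_iff₀ (Real.exp_pos _)]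
    have : 1 < Real.exp 1 := by rw [Real.one_lt_exp_iff]; norm_num
    nlinarith
  have hVb : V γ a t1 ≤ V γ a b := V_mono hV ht1.le ht1b le_rfl
  -- the reparametrisation
  have hT : ∀ y : ℝ, ∃ t, t ∈ Icc a b ∧ V γ a t = Real.exp (min y Y1) := by
    intro y
    have hmem : Real.exp (min y Y1) ∈ Icc (V γ a a) (V γ a b) := by
      rw [V_a]
      refine ⟨(Real.exp_pos _).le, ?_⟩
      have : Real.exp (min y Y1) ≤ Real.exp Y1 := Real.exp_le_exp.mpr (min_le_right _ _)
      linarith
    obtain ⟨t, ht, e⟩ := intermediate_value_Icc hab.le hVc hmem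
    exact ⟨t, ht, e⟩
  choose T hTm hTV using hT
  have hTa : ∀ y, a < T y := by
    intro y
    rcases (hTm y).1.eq_or_lt with h | h
    · exfalso
      have := hTV y
      rw [← h, V_a] at this
      exact (Real.exp_pos _).ne this
    · exact h
  have hTt1 : ∀ y, T y < t1 := by
    intro y
    by_contra h
    push Not at h
    have h1 := V_mono hV ht1.le h (hTm y).2
    rw [hTV y] at h1
    have : Real.exp (min y Y1) ≤ Real.exp Y1 := Real.exp_le_exp.mpr (min_le_right _ _)
    linarith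
  -- the curve
  set F : ℝ → ℂ := fun y => γ (T y) - γ a with hF
  have hne : ∀ y, F y ≠ 0 := by
    intro y h
    have h1 : γ a = γ (T y) := (sub_eq_zero.mp h).symm
    have h2 : T y ∈ supp γ a b (T y) := ⟨⟨hTa y, le_rfl⟩, Or.inl h1⟩
    have h3 := hcon (T y) ⟨hTa y, hTt1 y⟩ (T y) h2
    have h4 : 0 < V γ a (T y) := by rw [hTV]; exact Real.exp_pos _
    nlinarith
  have hdist : ∀ x y, dist (F x) (F y) ≤ |Real.exp (min x Y1) - Real.exp (min y Y1)| := by
    intro x y
    have h1 := V_dist' hV (hTm x) (hTm y)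
    rw [hTV, hTV] at h1
    rw [hF]
    simp only [dist_sub_right]
    exact h1
  have hL : LipschitzWith ⟨Real.exp Y1, (Real.exp_pos _).le⟩ F := by
    refine LipschitzWith.of_dist_le_mul fun x y => ?_
    have h1 := exp_lip (min_le_right x Y1) (min_le_right y Y1)
    have h2 : |min x Y1 - min y Y1| ≤ |x - y| := abs_inf_sub_inf_le_abs x y Y1
    refine (hdist x y).trans (h1.trans ?_)
    rw [Real.dist_eq]
    exact mul_le_mul_of_nonneg_left h2 (Real.exp_pos _).le
  have hexpmin : ∀ y < Y1, Real.exp (min y Y1) = Real.exp y := by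
    intro y hy
    rw [min_eq_left hy.le]
  have hu : ∀ y < Y1, ‖F y‖ ≤ Real.exp y := by
    intro y hy
    have h1 := V_dist hV le_rfl (hTm y).1 (hTm y).2
    rw [V_a, sub_zero, hTV, hexpmin y hy, dist_comm, dist_eq_norm] at h1
    exact h1
  -- γ in terms of F
  have hKL : ∀ t ∈ Icc a b, 0 < V γ a t → V γ a t ≤ Real.exp Y1 →
      γ t = F (Real.log (V γ a t)) + γ a := by
    intro t ht h1 h2
    have h3 : Real.log (V γ a t) ≤ Y1 := by
      rw [Real.log_le_iff_le_exp h1]
      exact h2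
    have h4 : V γ a t = V γ a (T (Real.log (V γ a t))) := by
      rw [hTV, min_eq_left h3, Real.exp_log h1]
    rw [hF]
    simp only [sub_add_cancel]
    exact V_eq hV ht (hTm _) h4
  -- the speed
  have hmeas : Measurable fun y => ‖deriv F y‖ := (measurable_deriv F).norm
  have hint : LocallyIntegrable (fun y => ‖deriv F y‖) volume := by
    have hc : Continuous fun _ : ℝ => (Real.exp Y1 : ℝ) := continuous_const
    refine hc.locallyIntegrable.mono hmeas.aestronglyMeasurable ?_
    refine Eventually.of_forall fun y => ?_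
    rw [norm_norm]
    refine (norm_deriv_le_of_lipschitz hL).trans ?_
    rw [Real.norm_eq_abs]
    exact le_abs_self _
  have hii : ∀ x y : ℝ, IntervalIntegrable (fun y => ‖deriv F y‖) volume x y := fun x y =>
    intervalIntegrable_iff.mpr ((hint.integrableOn_isCompact isCompact_uIcc).mono_set
      uIoc_subset_uIcc)
  set G : ℝ → ℝ := fun y => ∫ t in (0 : ℝ)..y, ‖deriv F t‖ with hG
  have hGsub : ∀ x y, G y - G x = ∫ t in x..y, ‖deriv F t‖ := fun x y =>
    intervalIntegral.integral_interval_sub_left (hii _ _) (hii _ _)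
  have hGmono : Monotone G := by
    intro x y hxy
    have := intervalIntegral.integral_nonneg (f := fun t => ‖deriv F t‖) (μ := volume) hxy
      (fun t _ => norm_nonneg _)
    rw [← hGsub] at this
    linarith
  have hlen : ∀ x y, x < y → y < Y1 → Real.exp y - Real.exp x ≤ G y - G x := by
    intro x y hxy hy
    have hVx : V γ a (T x) = Real.exp x := by rw [hTV, hexpmin x (hxy.trans hy)]
    have hVy : V γ a (T y) = Real.exp y := by rw [hTV, hexpmin y hy]
    have hTxy : T x ≤ T y := by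
      by_contra h
      push Not at h
      have := V_mono hV (hTm y).1 h.le (hTm x).2
      rw [hVx, hVy, Real.exp_le_exp] at this
      linarith
    have hadd := V_add hV (hTm x).1 hTxy (hTm y).2
    rw [hVx, hVy] at hadd
    -- monotone comparison function
    set H : ℝ → ℝ := fun t => G (Real.log (V γ a t)) with hH
    have hVbd : ∀ t ∈ Icc (T x) (T y), 0 < V γ a t ∧ V γ a t ≤ Real.exp Y1 ∧ t ∈ Icc a b := by
      intro t ht
      have ht' : t ∈ Icc a b := ⟨(hTm x).1.trans ht.1, ht.2.trans (hTm y).2⟩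
      have h1 := V_mono hV (hTm x).1 ht.1 ht'.2
      have h2 := V_mono hV ht'.1 ht.2 (hTm y).2
      rw [hVx] at h1
      rw [hVy] at h2
      exact ⟨lt_of_lt_of_le (Real.exp_pos _) h1, h2.trans (Real.exp_le_exp.mpr hy.le), ht'⟩
    have hHm : MonotoneOn H (Icc (T x) (T y)) := by
      intro s hs t ht hst
      refine hGmono (Real.log_le_log (hVbd s hs).1 ?_)
      exact V_mono hV (hVbd s hs).2.2.1 hst (hVbd t ht).2.2.2
    have h1 : eVariationOn γ (Icc (T x) (T y)) ≤ eVariationOn H (Icc (T x) (T y)) := by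
      refine eVar_le_of_edist fun s hs t ht hst => ?_
      have h2 := hKL s (hVbd s hs).2.2 (hVbd s hs).1 (hVbd s hs).2.1
      have h3 := hKL t (hVbd t ht).2.2 (hVbd t ht).1 (hVbd t ht).2.1
      have h4 : Real.log (V γ a s) ≤ Real.log (V γ a t) :=
        Real.log_le_log (hVbd s hs).1 (V_mono hV (hVbd s hs).2.2.1 hst (hVbd t ht).2.2.2)
      have h5 := lip_norm_le hL h4
      rw [← hGsub] at h5
      rw [edist_dist, edist_dist, h2, h3, dist_add_right, dist_eq_norm, Real.dist_eq]
      exact ENNReal.ofReal_le_ofReal (h5.trans (le_abs_self _))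
    have h2 := hHm.eVariationOn_eq (a := T x) (b := T y) ⟨le_rfl, hTxy⟩ ⟨hTxy, le_rfl⟩
    rw [inter_self] at h2
    rw [h2] at h1
    have h3 := ENNReal.toReal_mono ENNReal.ofReal_ne_top h1
    have h4 : H (T y) - H (T x) = G y - G x := by
      rw [hH]
      simp only [hVx, hVy, Real.log_exp]
    rw [h4, ENNReal.toReal_ofReal (sub_nonneg.mpr (hGmono hxy.le))] at h3
    linarith
  have hd : ∀ᵐ y, y < Y1 → ‖deriv F y‖ = Real.exp y := by
    filter_upwards [LocallyIntegrable.ae_hasDerivAt_integral hint, hL.ae_differentiableAt_real]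
      with y h1 h2 hy
    have h3 := h1 0
    refine le_antisymm ?_ ?_
    · -- upper bound through slopes
      have hs1 : Tendsto (fun z => ‖slope F y z‖) (𝓝[≠] y) (𝓝 ‖deriv F y‖) :=
        (hasDerivAt_iff_tendsto_slope.mp h2.hasDerivAt).norm
      have hs2 : Tendsto (fun z => ‖slope Real.exp y z‖) (𝓝[≠] y) (𝓝 ‖Real.exp y‖) :=
        (hasDerivAt_iff_tendsto_slope.mp (Real.hasDerivAt_exp y)).norm
      have h4 := le_of_tendsto_of_tendsto hs1 hs2 (by
        have : ∀ᶠ z in 𝓝[≠] y, z < Y1 :=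
          mem_nhdsWithin_of_mem_nhds (Iio_mem_nhds hy)
        filter_upwards [this] with z hz
        rw [slope_def_module, slope_def_module, norm_smul, norm_smul]
        refine mul_le_mul_of_nonneg_left ?_ (norm_nonneg _)
        have := hdist z y
        rw [hexpmin z hz, hexpmin y hy, dist_eq_norm] at this
        rw [Real.norm_eq_abs]
        exact this)
      rwa [Real.norm_eq_abs, abs_of_pos (Real.exp_pos y)] at h4
    · have h4 : HasDerivAt (fun z => G z - Real.exp z) (‖deriv F y‖ - Real.exp y) y :=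
        h3.sub (Real.hasDerivAt_exp y)
      have h5 : MonotoneOn (fun z => G z - Real.exp z) (Iio Y1) := by
        intro p hp q hq hpq
        rcases hpq.eq_or_lt with h | h
        · rw [h]
        · have := hlen p q h hq
          simp only
          linarith
      have h6 : 0 ≤ derivWithin (fun z => G z - Real.exp z) (Iio Y1) y :=
        h5.derivWithin_nonneg
      rw [h4.hasDerivWithinAt.derivWithin ((isOpen_Iio).uniqueDiffOn y hy)] at h6
      linarith
  refine core_ext F _ hL hne Y1 δ hδ hu hd ?_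
  intro S hS σ hσ hext
  have hσY : σ < Y1 := hσ.2.trans hS
  have hVS : V γ a (T S) = Real.exp S := by rw [hTV, hexpmin S hS]
  have hVσ : V γ a (T σ) = Real.exp σ := by rw [hTV, hexpmin σ hσY]
  have hlt : T σ < T S := by
    by_contra h
    push Not at h
    have := V_mono hV (hTm S).1 h (hTm σ).2
    rw [hVS, hVσ, Real.exp_le_exp] at this
    linarith [hσ.2]
  -- near `T σ` the value `V` is positive and below `exp Y1`
  have hVcw : ContinuousWithinAt (V γ a) (Icc a b) (T σ) := hVc (T σ) (hTm σ)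
  have hnear : ∀ᶠ t in 𝓝[Icc a b] (T σ), 0 < V γ a t ∧ V γ a t < Real.exp Y1 := by
    have h1 : Ioo 0 (Real.exp Y1) ∈ 𝓝 (V γ a (T σ)) := by
      rw [hVσ]
      exact Ioo_mem_nhds (Real.exp_pos _) (Real.exp_lt_exp.mpr hσY)
    exact hVcw h1
  have hlogc : Tendsto (fun t => Real.log (V γ a t)) (𝓝[Icc a b] (T σ)) (𝓝 σ) := by
    have h1 : Tendsto (fun t => Real.log (V γ a t)) (𝓝[Icc a b] (T σ))
        (𝓝 (Real.log (V γ a (T σ)))) :=
      hVcw.log (by rw [hVσ]; exact (Real.exp_pos _).ne')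
    rwa [hVσ, Real.log_exp] at h1
  have hdetadd : ∀ z w v : ℂ, det z (w + v) = det z w + det z v := by
    intro z w v
    unfold det
    rw [Complex.add_re, Complex.add_im]
    ring
  have hconv : ∀ᶠ t in 𝓝[Icc a b] (T σ), det (γ (T S) - γ a) (γ t) =
      det (F S) (F (Real.log (V γ a t))) + det (F S) (γ a) := by
    filter_upwards [hnear, self_mem_nhdsWithin] with t h1 h2
    have h3 := hKL t h2 h1.1 h1.2.le
    rw [← hdetadd, ← h3]
  have hself : det (γ (T S) - γ a) (γ (T σ)) = det (F S) (F σ) + det (F S) (γ a) := by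
    rw [← hdetadd]
    congr 1
    rw [hF]
    simp only [sub_add_cancel]
  have hmem : T σ ∈ supp γ a b (T S) := by
    refine ⟨⟨hTa σ, hlt.le⟩, Or.inr ?_⟩
    rcases hext with hmin | hmax
    · left
      have h1 : ∀ᶠ t in 𝓝[Icc a b] (T σ), det (F S) (F σ) ≤
          det (F S) (F (Real.log (V γ a t))) := hlogc.eventually hmin
      show ∀ᶠ t in 𝓝[Icc a b] (T σ), det (γ (T S) - γ a) (γ (T σ)) ≤ det (γ (T S) - γ a) (γ t)
      filter_upwards [h1, hconv] with t h2 h3
      rw [h3, hself]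
      linarith
    · right
      have h1 : ∀ᶠ t in 𝓝[Icc a b] (T σ), det (F S) (F (Real.log (V γ a t))) ≤
          det (F S) (F σ) := hlogc.eventually hmax
      show ∀ᶠ t in 𝓝[Icc a b] (T σ), det (γ (T S) - γ a) (γ t) ≤ det (γ (T S) - γ a) (γ (T σ))
      filter_upwards [h1, hconv] with t h2 h3
      rw [h3, hself]
      linarith
  have h1 := hcon (T S) ⟨hTa S, hTt1 S⟩ (T σ) hmem
  rw [hVS, hVσ, hδc, ← Real.exp_add, Real.exp_le_exp] at h1
  linarith [hσ.1]

end Pool.Agent.R97.Arc
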