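import Pool.Agent.R97.ArcAngle

set_option autoImplicit false

namespace Pool.Agent.R97.Arc

open Real Set MeasureTheory Filter Topology
open scoped NNReal

theorem det_angle' {F : ℝ → ℂ} {K : ℝ≥0} (hL : LipschitzWith K F) (h0 : ∀ y, F y ≠ 0) (x y : ℝ)
    (q : ℂ) : det (F x) (q * F y) =
    ‖F 0‖ ^ 2 * Real.exp ((Lc F x).re + (Lc F y).re) * ‖q‖ *
      sin (q.arg + (Lc F y).im - (Lc F x).im) := by
  rw [det_eq, F_eq hL h0 x, F_eq hL h0 y, map_mul, ← Complex.exp_conj]
  have e0 : q = (‖q‖ : ℂ) * Complex.exp (q.arg * Complex.I) := (Complex.norm_mul_exp_arg_mul_I q).symm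
  have e1 : (starRingEnd ℂ) (F 0) * Complex.exp ((starRingEnd ℂ) (Lc F x)) *
      (q * (F 0 * Complex.exp (Lc F y))) =
      ((‖F 0‖ ^ 2 * ‖q‖ : ℝ) : ℂ) * Complex.exp ((starRingEnd ℂ) (Lc F x) + Lc F y +
        q.arg * Complex.I) := by
    rw [Complex.exp_add, Complex.exp_add]
    have : (starRingEnd ℂ) (F 0) * F 0 = ((‖F 0‖ ^ 2 : ℝ) : ℂ) := by
      rw [mul_comm, Complex.mul_conj, Complex.normSq_eq_norm_sq]
    rw [Complex.ofReal_mul, ← this]
    calc _ = (starRingEnd ℂ) (F 0) * F 0 * Complex.exp ((starRingEnd ℂ) (Lc F x)) * q *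
          Complex.exp (Lc F y) := by ring
      _ = (starRingEnd ℂ) (F 0) * F 0 * Complex.exp ((starRingEnd ℂ) (Lc F x)) *
          ((‖q‖ : ℂ) * Complex.exp (q.arg * Complex.I)) * Complex.exp (Lc F y) := by rw [← e0]
      _ = _ := by ring
  rw [e1, Complex.im_ofReal_mul, Complex.exp_im, Complex.add_re, Complex.add_im, Complex.add_re,
    Complex.add_im, Complex.conj_re, Complex.conj_im, Complex.mul_I_re, Complex.mul_I_im,
    Complex.ofReal_re, Complex.ofReal_im]
  have e2 : -(Lc F x).im + (Lc F y).im + q.arg = q.arg + (Lc F y).im - (Lc F x).im := by ring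
  rw [e2]
  simp only [neg_zero, add_zero]
  ring

theorem core_pos (F : ℝ → ℂ) (K : ℝ≥0) (hL : LipschitzWith K F) (h0 : ∀ y, F y ≠ 0)
    (Y1 δ : ℝ) (hδ : 1 < δ) (hu : ∀ y < Y1, ‖F y‖ ≤ Real.exp y)
    (hd : ∀ᵐ y, y < Y1 → ‖deriv F y‖ = Real.exp y)
    (hm : ∀ S < Y1, StrictMonoOn (fun σ => det (F S) (F σ)) (Icc (S - δ) S)) : False := by
  have hδ0 : 0 < δ := by linarith
  have hF0 : 0 < ‖F 0‖ := norm_pos_iff.mpr (h0 0)
  have hcont : Continuous (Lc F) := by
    unfold Lc
    exact intervalIntegral.continuous_primitive (qq_ii hL h0) 0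
  have hΘc : Continuous fun y => (Lc F y).im := Complex.continuous_im.comp hcont
  have hΘL : ∀ c d, Lp (fun y => (Lc F y).im) c d := by
    intro c d
    obtain ⟨B, hB, hb⟩ := Lc_lip hL h0 c d
    refine ⟨B, hB, fun x hx y hy => ?_⟩
    have := Complex.abs_im_le_norm (Lc F x - Lc F y)
    rw [Complex.sub_im] at this
    exact this.trans (hb x hx y hy)
  have hReL : ∀ c d, Lp (fun y => (Lc F y).re) c d := by
    intro c d
    obtain ⟨B, hB, hb⟩ := Lc_lip hL h0 c d
    refine ⟨B, hB, fun x hx y hy => ?_⟩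
    have := Complex.abs_re_le_norm (Lc F x - Lc F y)
    rw [Complex.sub_re] at this
    exact this.trans (hb x hx y hy)
  have hue : ∀ y, ‖F 0‖ * Real.exp ((Lc F y).re - y) = ‖F y‖ / Real.exp y := by
    intro y
    rw [norm_F hL h0 y, Real.exp_sub]
    ring
  -- positive sine
  have hsin : ∀ x y, x < y → y ≤ x + δ → y < Y1 → 0 < sin ((Lc F y).im - (Lc F x).im) := by
    intro x y h1 h2 h3
    have a1 := hm y h3 (a := x) (b := y) ⟨by linarith, h1.le⟩ ⟨by linarith, le_rfl⟩ h1
    simp only [det_self] at a1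
    rw [det_swap, det_angle hL h0 x y] at a1
    have a2 : 0 < ‖F 0‖ ^ 2 * Real.exp ((Lc F x).re + (Lc F y).re) := by positivity
    by_contra hcon
    push Not at hcon
    nlinarith
  have hrange : ∀ x y, x < y → y ≤ x + δ → y < Y1 →
      0 < (Lc F y).im - (Lc F x).im ∧ (Lc F y).im - (Lc F x).im < π := by
    intro x y h1 h2 h3
    refine angle_range (D := fun t => (Lc F t).im - (Lc F x).im) h1 ?_ (sub_self _) ?_
    · exact (hΘc.sub continuous_const).continuousOn
    · intro t ht
      exact hsin x t ht.1 (ht.2.trans h2) (lt_of_le_of_lt ht.2 h3)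
  refine core_real (fun y => (Lc F y).im) (fun y => ‖F 0‖ * Real.exp ((Lc F y).re - y)) Y1 δ hδ
    hΘc hΘL ?_ ?_ ?_ ?_ ?_ ?_
  · intro c d
    exact (Lp.const _).mul (((hReL c d).sub Lp.id).exp)
  · intro y
    positivity
  · intro y hy
    rw [hue, div_le_one (Real.exp_pos _)]
    exact hu y hy
  · intro y hy
    exact (hrange y (y + δ) (by linarith) le_rfl hy).2.le
  · intro x y h1 h2 h3
    have := (hrange x y h1 h2 h3).1
    linarith
  · filter_upwards [Lc_deriv hL h0, hL.ae_differentiableAt_real, hd] with y h1 h2 h3 hy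
    have h4 := h3 (by linarith)
    have hFy : 0 < ‖F y‖ := norm_pos_iff.mpr (h0 y)
    have hq : ‖qq F y‖ = Real.exp y / ‖F y‖ := by
      unfold qq
      rw [norm_div, h4]
    have hq0 : 0 < ‖qq F y‖ := by rw [hq]; positivity
    have hqF : deriv F y = qq F y * F y := by
      unfold qq
      field_simp [h0 y]
    have hu' : ‖F 0‖ * Real.exp ((Lc F y).re - y) = ‖qq F y‖⁻¹ := by
      rw [hue, hq, inv_div]
    have hup : ∀ x, 0 < ‖F 0‖ ^ 2 * Real.exp ((Lc F x).re + (Lc F y).re) * ‖qq F y‖ := by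
      intro x; positivity
    -- derivative signs
    have hs : ∀ S, y ≤ S → S ≤ y + δ →
        0 ≤ sin ((qq F y).arg + (Lc F y).im - (Lc F S).im) := by
      intro S hS1 hS2
      have m1 := (hm S (by linarith)).monotoneOn
      have m2 : HasDerivWithinAt (fun σ => det (F S) (F σ)) (det (F S) (deriv F y))
          (Icc (S - δ) S) y := (hasDerivAt_det (F S) h2.hasDerivAt).hasDerivWithinAt
      have m3 : 0 ≤ det (F S) (deriv F y) := by
        have := m1.derivWithin_nonneg (x := y)
        rwa [m2.derivWithin (uniqueDiffOn_Icc (by linarith) y ⟨by linarith, hS1⟩)] at this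
      rw [hqF, det_angle' hL h0] at m3
      by_contra hcon
      push Not at hcon
      nlinarith [hup S]
    have s0 := hs y le_rfl (by linarith)
    rw [add_sub_cancel_right] at s0
    have s1 := hs (y + δ) (by linarith) le_rfl
    have hψ : 0 ≤ (qq F y).arg := by
      by_contra hcon
      push Not at hcon
      have := sin_neg_of_neg_of_neg_pi_lt hcon (Complex.neg_pi_lt_arg _)
      linarith
    have hψ' : (qq F y).arg ≤ π := Complex.arg_le_pi _
    have hR := hrange y (y + δ) (by linarith) le_rfl hy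
    refine ⟨(qq F y).arg, ?_, hψ', ?_, ?_⟩
    · by_contra hcon
      push Not at hcon
      have := sin_neg_of_neg_of_neg_pi_lt
        (x := (qq F y).arg + (Lc F y).im - (Lc F (y + δ)).im) (by
          linarith) (by linarith [hR.2])
      linarith
    · have e : sin (qq F y).arg / (‖F 0‖ * Real.exp ((Lc F y).re - y)) = (qq F y).im := by
        rw [hu', div_inv_eq_mul, Complex.sin_arg]
        field_simp
      rw [e]
      exact Complex.imCLM.hasFDerivAt.comp_hasDerivAt y h1
    · have e : cos (qq F y).arg - ‖F 0‖ * Real.exp ((Lc F y).re - y) =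
          ‖F 0‖ * (Real.exp ((Lc F y).re - y) * ((qq F y).re - 1)) := by
        have hqn : qq F y ≠ 0 := norm_pos_iff.mp hq0
        rw [← mul_assoc, hu', Complex.cos_arg hqn]
        field_simp
      rw [e]
      have hre : HasDerivAt (fun t => (Lc F t).re) (qq F y).re y :=
        Complex.reCLM.hasFDerivAt.comp_hasDerivAt y h1
      exact ((hre.sub (hasDerivAt_id y)).exp).const_mul _

end Pool.Agent.R97.Arc
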