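import Mathlib

/-!
Real analysis core for MP_c53602_gt (paper proof by helper761).
-/

set_option autoImplicit false

namespace Pool.Agent.R97.Arc

open Real Set MeasureTheory Filter Topology

/-- `h` is Lipschitz on `[c,d]`. -/
def Lp (h : ℝ → ℝ) (c d : ℝ) : Prop :=
  ∃ K : ℝ, 0 ≤ K ∧ ∀ x ∈ Icc c d, ∀ y ∈ Icc c d, |h x - h y| ≤ K * |x - y|

namespace Lp

variable {f g : ℝ → ℝ} {c d : ℝ}

theorem const (a : ℝ) : Lp (fun _ => a) c d := ⟨0, le_rfl, fun x _ y _ => by simp⟩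

theorem id : Lp (fun x => x) c d := ⟨1, zero_le_one, fun x _ y _ => by simp⟩

theorem add (hf : Lp f c d) (hg : Lp g c d) : Lp (fun x => f x + g x) c d := by
  obtain ⟨K, hK, h1⟩ := hf
  obtain ⟨K', hK', h2⟩ := hg
  refine ⟨K + K', by positivity, fun x hx y hy => ?_⟩
  have e : f x + g x - (f y + g y) = (f x - f y) + (g x - g y) := by ring
  rw [e, add_mul]
  exact (abs_add_le _ _).trans (add_le_add (h1 x hx y hy) (h2 x hx y hy))

theorem neg (hf : Lp f c d) : Lp (fun x => - f x) c d := by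
  obtain ⟨K, hK, h1⟩ := hf
  refine ⟨K, hK, fun x hx y hy => ?_⟩
  have e : - f x - - f y = -(f x - f y) := by ring
  rw [e, abs_neg]
  exact h1 x hx y hy

theorem sub (hf : Lp f c d) (hg : Lp g c d) : Lp (fun x => f x - g x) c d := by
  have := hf.add hg.neg
  simpa only [sub_eq_add_neg] using this

theorem bdd (hf : Lp f c d) : ∃ B : ℝ, 0 ≤ B ∧ ∀ x ∈ Icc c d, |f x| ≤ B := by
  obtain ⟨K, hK, h1⟩ := hf
  refine ⟨|f c| + K * |d - c|, by positivity, fun x hx => ?_⟩
  have hc : c ∈ Icc c d := ⟨le_rfl, hx.1.trans hx.2⟩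
  have h2 := h1 x hx c hc
  have h3 : |x - c| ≤ |d - c| := by
    rw [abs_of_nonneg (by linarith [hx.1]), abs_of_nonneg (by linarith [hx.1, hx.2])]
    linarith [hx.2]
  have h4 : |f x| ≤ |f c| + |f x - f c| := by
    have := abs_add_le (f c) (f x - f c)
    simpa using this
  have h5 : K * |x - c| ≤ K * |d - c| := mul_le_mul_of_nonneg_left h3 hK
  linarith

theorem mul (hf : Lp f c d) (hg : Lp g c d) : Lp (fun x => f x * g x) c d := by
  obtain ⟨B, hB, b1⟩ := hf.bdd
  obtain ⟨B', hB', b2⟩ := hg.bdd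
  obtain ⟨K, hK, h1⟩ := hf
  obtain ⟨K', hK', h2⟩ := hg
  refine ⟨B * K' + B' * K, by positivity, fun x hx y hy => ?_⟩
  have e : f x * g x - f y * g y = f x * (g x - g y) + g y * (f x - f y) := by ring
  rw [e]
  refine (abs_add_le _ _).trans ?_
  rw [abs_mul, abs_mul, add_mul]
  refine add_le_add ?_ ?_
  · rw [mul_assoc]
    exact mul_le_mul (b1 x hx) (h2 x hx y hy) (abs_nonneg _) hB
  · rw [mul_assoc]
    exact mul_le_mul (b2 y hy) (h1 x hx y hy) (abs_nonneg _) hB'

theorem log {m : ℝ} (hm : 0 < m) (hf : Lp f c d) (h : ∀ x ∈ Icc c d, m ≤ f x) :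
    Lp (fun x => Real.log (f x)) c d := by
  obtain ⟨K, hK, h1⟩ := hf
  refine ⟨K / m, by positivity, ?_⟩
  have key : ∀ x ∈ Icc c d, ∀ y ∈ Icc c d, Real.log (f x) - Real.log (f y) ≤ K / m * |x - y| := by
    intro x hx y hy
    have px : 0 < f x := hm.trans_le (h x hx)
    have py : 0 < f y := hm.trans_le (h y hy)
    rw [← Real.log_div px.ne' py.ne']
    have a1 : Real.log (f x / f y) ≤ f x / f y - 1 := Real.log_le_sub_one_of_pos (by positivity)
    have a2 : f x / f y - 1 = (f x - f y) / f y := by field_simp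
    have a3 : (f x - f y) / f y ≤ |f x - f y| / f y := by gcongr; exact le_abs_self _
    have a4 : |f x - f y| / f y ≤ |f x - f y| / m :=
      div_le_div_of_nonneg_left (abs_nonneg _) hm (h y hy)
    have a5 : |f x - f y| / m ≤ K * |x - y| / m := by gcongr; exact h1 x hx y hy
    calc Real.log (f x / f y) ≤ K * |x - y| / m := by linarith
      _ = K / m * |x - y| := by ring
  intro x hx y hy
  rw [abs_le]
  constructor
  · have := key y hy x hx
    rw [abs_sub_comm] at this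
    linarith
  · exact key x hx y hy

theorem inv {m : ℝ} (hm : 0 < m) (hf : Lp f c d) (h : ∀ x ∈ Icc c d, m ≤ f x) :
    Lp (fun x => (f x)⁻¹) c d := by
  obtain ⟨K, hK, h1⟩ := hf
  refine ⟨K / m ^ 2, by positivity, fun x hx y hy => ?_⟩
  have px : 0 < f x := hm.trans_le (h x hx)
  have py : 0 < f y := hm.trans_le (h y hy)
  have e : (f x)⁻¹ - (f y)⁻¹ = (f y - f x) / (f x * f y) := by field_simp
  rw [e, abs_div, abs_of_pos (mul_pos px py), abs_sub_comm]
  have a1 : m ^ 2 ≤ f x * f y := by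
    rw [sq]
    exact mul_le_mul (h x hx) (h y hy) hm.le px.le
  calc |f x - f y| / (f x * f y) ≤ |f x - f y| / m ^ 2 :=
        div_le_div_of_nonneg_left (abs_nonneg _) (by positivity) a1
    _ ≤ K * |x - y| / m ^ 2 := by gcongr; exact h1 x hx y hy
    _ = K / m ^ 2 * |x - y| := by ring

theorem shift (a : ℝ) (hf : Lp f (c + a) (d + a)) : Lp (fun x => f (x + a)) c d := by
  obtain ⟨K, hK, h1⟩ := hf
  refine ⟨K, hK, fun x hx y hy => ?_⟩
  have := h1 (x + a) ⟨by linarith [hx.1], by linarith [hx.2]⟩ (y + a)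
    ⟨by linarith [hy.1], by linarith [hy.2]⟩
  rwa [add_sub_add_right_eq_sub] at this

theorem lipschitz (hf : Lp f c d) : ∃ K : NNReal, LipschitzOnWith K f (Icc c d) := by
  obtain ⟨K, hK, h1⟩ := hf
  refine ⟨⟨K, hK⟩, LipschitzOnWith.of_dist_le_mul fun x hx y hy => ?_⟩
  rw [Real.dist_eq, Real.dist_eq]
  exact h1 x hx y hy

/-- integrals of continuous functions -/
theorem integral (hf : Continuous f) : Lp (fun y => ∫ x in (0 : ℝ)..y, f x) c d := by
  obtain ⟨B, hB⟩ := isCompact_Icc.exists_bound_of_continuousOn (s := Icc c d) hf.continuousOn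
  refine ⟨|B|, abs_nonneg _, fun x hx y hy => ?_⟩
  have e : (∫ t in (0 : ℝ)..x, f t) - ∫ t in (0 : ℝ)..y, f t = ∫ t in y..x, f t :=
    intervalIntegral.integral_interval_sub_left (hf.intervalIntegrable _ _)
      (hf.intervalIntegrable _ _)
  rw [e, ← Real.norm_eq_abs]
  refine (intervalIntegral.norm_integral_le_of_norm_le_const (C := |B|) ?_)
  intro t ht
  have ht' : t ∈ Icc c d := by
    have h1 := uIoc_subset_uIcc ht
    have h2 := uIcc_subset_Icc hy hx h1
    exact h2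
  exact (hB t ht').trans (le_abs_self _)

end Lp

/-- A Lipschitz function with a.e. nonnegative derivative is monotone. -/
theorem mono_of_ae {h : ℝ → ℝ} {c d : ℝ} (hcd : c ≤ d) (hL : Lp h c d)
    (hd : ∀ᵐ y, y ∈ Ioo c d → ∃ v, 0 ≤ v ∧ HasDerivAt h v y) : h c ≤ h d := by
  obtain ⟨K, hK⟩ := hL.lipschitz
  have hAC : AbsolutelyContinuousOnInterval h c d := by
    apply LipschitzOnWith.absolutelyContinuousOnInterval (K := K)
    rwa [uIcc_of_le hcd]
  have h1 := hAC.integral_deriv_eq_sub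
  have h2 : 0 ≤ ∫ x in c..d, deriv h x := by
    apply intervalIntegral.integral_nonneg_of_ae_restrict hcd
    rw [EventuallyLE, ae_restrict_iff' measurableSet_Icc]
    have hc : ∀ᵐ x : ℝ, x ≠ c := by simp [ae_iff, measure_singleton]
    have hdd : ∀ᵐ x : ℝ, x ≠ d := by simp [ae_iff, measure_singleton]
    filter_upwards [hd, hc, hdd] with x hx hxc hxd hxI
    obtain ⟨v, hv, hv2⟩ := hx ⟨lt_of_le_of_ne hxI.1 (Ne.symm hxc), lt_of_le_of_ne hxI.2 hxd⟩
    show 0 ≤ deriv h x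
    rw [hv2.deriv]
    exact hv
  linarith

theorem half_tan {ψ : ℝ} (h0 : 0 ≤ ψ) (h1 : ψ ≤ π) : ψ * (1 + cos ψ) ≤ 2 * sin ψ := by
  have e1 : cos ψ = 2 * cos (ψ / 2) ^ 2 - 1 := by
    rw [← Real.cos_two_mul]; congr 1; ring
  have e2 : sin ψ = 2 * sin (ψ / 2) * cos (ψ / 2) := by
    rw [← Real.sin_two_mul]; congr 1; ring
  have hc : 0 ≤ cos (ψ / 2) := cos_nonneg_of_mem_Icc ⟨by linarith, by linarith⟩
  have key : ψ / 2 * cos (ψ / 2) ≤ sin (ψ / 2) := by
    rcases eq_or_lt_of_le h1 with h1 | h1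
    · rw [h1]
      rw [cos_pi_div_two, sin_pi_div_two]; norm_num
    · have hc' : 0 < cos (ψ / 2) := cos_pos_of_mem_Ioo ⟨by linarith, by linarith⟩
      have := Real.le_tan (x := ψ / 2) (by linarith) (by linarith)
      rw [tan_eq_sin_div_cos, le_div_iff₀ hc'] at this
      exact this
  rw [e1, e2]
  nlinarith

/-- the pointwise inequality (P) -/
theorem key_P {u ψ m : ℝ} (hu : 0 < u) (hm0 : 0 ≤ m) (hmψ : m ≤ ψ) (hψ : ψ ≤ π) :
    m ≤ sin ψ / u * (1 - (log 2 - log (1 + u))) + m * (-((cos ψ - u) / (1 + u))) := by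
  have hψ0 : 0 ≤ ψ := hm0.trans hmψ
  have h1u : 0 < 1 + u := by linarith
  have hs : 0 ≤ sin ψ := sin_nonneg_of_nonneg_of_le_pi hψ0 hψ
  have hc : 0 ≤ 1 + cos ψ := by linarith [neg_one_le_cos ψ]
  -- v = 2/(1+u)
  have hlog : log 2 - log (1 + u) ≤ 2 / (1 + u) - 1 := by
    rw [← log_div (by norm_num) h1u.ne']
    exact log_le_sub_one_of_pos (by positivity)
  have a1 : 2 / (1 + u) ≤ (1 - (log 2 - log (1 + u))) / u := by
    rw [le_div_iff₀ hu]
    have : 2 / (1 + u) * u = 2 - 2 / (1 + u) := by field_simp; ring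
    linarith
  have a2 : m * (1 + cos ψ) / (1 + u) ≤ 2 * sin ψ / (1 + u) := by
    apply div_le_div_of_nonneg_right _ h1u.le
    exact (mul_le_mul_of_nonneg_right hmψ hc).trans (half_tan hψ0 hψ)
  have a3 : 2 * sin ψ / (1 + u) ≤ sin ψ / u * (1 - (log 2 - log (1 + u))) := by
    have : sin ψ * (2 / (1 + u)) ≤ sin ψ * ((1 - (log 2 - log (1 + u))) / u) :=
      mul_le_mul_of_nonneg_left a1 hs
    calc 2 * sin ψ / (1 + u) = sin ψ * (2 / (1 + u)) := by ring
      _ ≤ sin ψ * ((1 - (log 2 - log (1 + u))) / u) := this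
      _ = sin ψ / u * (1 - (log 2 - log (1 + u))) := by ring
  have a4 : m + m * ((cos ψ - u) / (1 + u)) = m * (1 + cos ψ) / (1 + u) := by
    field_simp
    ring
  linarith

end Pool.Agent.R97.Arc
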