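import Mathlib

/-!
Sets of large upper density without asymmetric infinite sumsets `mB + ℓB + t`.
-/

set_option autoImplicit false

open Filter

namespace Pool.Agent.R97.AsymSum

/-- the pattern in the unit interval -/
def Reg (r f1 f2 : ℝ) (J : ℕ) : Set ℝ :=
  {y | (∃ j : ℕ, j ≤ J ∧ r ^ (2 * j + 1) < y ∧ y < r ^ (2 * j)) ∧ ¬ (r * f1 ≤ y ∧ y ≤ r * f2)} ∪
    {y | f1 < y ∧ y < f2}

section pattern

variable {r f1 f2 k : ℝ} {J : ℕ}

lemma gap (hr0 : 0 < r) (hr1 : r < 1) {j i : ℕ} {z : ℝ} (h1 : r ^ (2 * (j + 1)) ≤ z)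
    (h2 : z ≤ r ^ (2 * j + 1)) (h3 : r ^ (2 * i + 1) < z) (h4 : z < r ^ (2 * i)) : False := by
  rcases le_or_gt (j + 1) i with h | h
  · have : r ^ (2 * i) ≤ r ^ (2 * (j + 1)) := pow_le_pow_of_le_one hr0.le hr1.le (by omega)
    linarith
  · have : r ^ (2 * j + 1) ≤ r ^ (2 * i + 1) := pow_le_pow_of_le_one hr0.le hr1.le (by omega)
    linarith

/-- no `y` has `y`, `k y` and `y / r` all in the pattern -/
lemma pattern_free (hr0 : 0 < r) (hr1 : r < 1) (hf1 : r ^ 2 ≤ f1) (hf2 : f2 < r)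
    (hk1 : 1 < k) (hkf1 : f2 ≤ k * f1) (hkf2 : k * f2 ≤ r) {y z : ℝ}
    (hy : y ∈ Reg r f1 f2 J) (hz : z ∈ Reg r f1 f2 J) (hzy : y = r * z)
    (hky : k * y ∈ Reg r f1 f2 J) : False := by
  have hk0 : 0 < k := by linarith
  rcases hy with ⟨⟨j, hj, hj1, hj2⟩, hn⟩ | ⟨hy1, hy2⟩
  · rcases Nat.eq_zero_or_pos j with rfl | hjp
    · -- y > r so z > 1
      have hz1 : 1 < z := by
        have : r * 1 < r * z := by rw [← hzy]; simpa using hj1
        exact lt_of_mul_lt_mul_left this hr0.le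
      rcases hz with ⟨⟨i, hi, hi1, hi2⟩, _⟩ | ⟨h1, h2⟩
      · have : r ^ (2 * i) ≤ 1 := pow_le_one₀ hr0.le hr1.le
        linarith
      · linarith
    · obtain ⟨j, rfl⟩ : ∃ j', j = j' + 1 := ⟨j - 1, by omega⟩
      have e1 : r ^ (2 * (j + 1) + 1) = r * r ^ (2 * (j + 1)) := by ring
      have e2 : r ^ (2 * (j + 1)) = r * r ^ (2 * j + 1) := by ring
      have hz1 : r ^ (2 * (j + 1)) < z := by
        rw [e1, hzy] at hj1
        exact lt_of_mul_lt_mul_left hj1 hr0.le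
      have hz2 : z < r ^ (2 * j + 1) := by
        rw [hzy, e2] at hj2
        exact lt_of_mul_lt_mul_left hj2 hr0.le
      rcases hz with ⟨⟨i, hi, hi1, hi2⟩, _⟩ | ⟨h1, h2⟩
      · exact gap hr0 hr1 hz1.le hz2.le hi1 hi2
      · apply hn
        rw [hzy]
        exact ⟨(mul_lt_mul_of_pos_left h1 hr0).le, (mul_lt_mul_of_pos_left h2 hr0).le⟩
  · have h1 : f2 < k * y := by
      have : k * f1 < k * y := mul_lt_mul_of_pos_left hy1 hk0
      linarith
    have h2 : k * y < r := by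
      have : k * y < k * f2 := mul_lt_mul_of_pos_left hy2 hk0
      linarith
    rcases hky with ⟨⟨i, hi, hi1, hi2⟩, _⟩ | ⟨h3, h4⟩
    · refine gap (j := 0) hr0 hr1 (z := k * y) ?_ ?_ hi1 hi2
      · simp only [zero_add, mul_one]; nlinarith
      · simp only [mul_zero, zero_add, pow_one]; exact h2.le
    · linarith

lemma reg_lt_one (hr0 : 0 < r) (hr1 : r < 1) (hf2 : f2 < r) {y : ℝ} (hy : y ∈ Reg r f1 f2 J) :
    y < 1 := by
  rcases hy with ⟨⟨i, hi, hi1, hi2⟩, _⟩ | ⟨h1, h2⟩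
  · have : r ^ (2 * i) ≤ 1 := pow_le_one₀ hr0.le hr1.le
    linarith
  · linarith

lemma lt_reg (hr0 : 0 < r) (hr1 : r < 1) (hJ : 1 ≤ J) (hf1 : r ^ 2 ≤ f1) {y : ℝ}
    (hy : y ∈ Reg r f1 f2 J) : r ^ (2 * J + 1) < y := by
  rcases hy with ⟨⟨i, hi, hi1, hi2⟩, _⟩ | ⟨h1, h2⟩
  · have : r ^ (2 * J + 1) ≤ r ^ (2 * i + 1) := pow_le_pow_of_le_one hr0.le hr1.le (by omega)
    linarith
  · have : r ^ (2 * J + 1) ≤ r ^ 2 := pow_le_pow_of_le_one hr0.le hr1.le (by omega)
    linarith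

/-- lower endpoints of the complementary intervals -/
noncomputable def lo (r f1 f2 : ℝ) (J : ℕ) (s : ℕ) : ℝ :=
  if s = 0 then 0 else if s = 1 then f2 else if s = J + 1 then r * f1 else
    if s = J + 2 then r ^ 2 else r ^ (2 * s)

/-- upper endpoints of the complementary intervals -/
noncomputable def hi (r f1 f2 : ℝ) (J : ℕ) (s : ℕ) : ℝ :=
  if s = 0 then r ^ (2 * J + 1) else if s = 1 then r else if s = J + 1 then r * f2 else
    if s = J + 2 then f1 else r ^ (2 * s - 1)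

lemma lo_zero : lo r f1 f2 J 0 = 0 := by simp [lo]
lemma hi_zero : hi r f1 f2 J 0 = r ^ (2 * J + 1) := by simp [hi]
lemma lo_one : lo r f1 f2 J 1 = f2 := by simp [lo]
lemma hi_one : hi r f1 f2 J 1 = r := by simp [hi]
lemma lo_a (hJ : 1 ≤ J) : lo r f1 f2 J (J + 1) = r * f1 := by
  unfold lo; rw [if_neg (by omega), if_neg (by omega), if_pos rfl]
lemma hi_a (hJ : 1 ≤ J) : hi r f1 f2 J (J + 1) = r * f2 := by
  unfold hi; rw [if_neg (by omega), if_neg (by omega), if_pos rfl]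
lemma lo_b : lo r f1 f2 J (J + 2) = r ^ 2 := by
  unfold lo; rw [if_neg (by omega), if_neg (by omega), if_neg (by omega), if_pos rfl]
lemma hi_b : hi r f1 f2 J (J + 2) = f1 := by
  unfold hi; rw [if_neg (by omega), if_neg (by omega), if_neg (by omega), if_pos rfl]
lemma lo_mid {s : ℕ} (h1 : 2 ≤ s) (h2 : s ≤ J) : lo r f1 f2 J s = r ^ (2 * s) := by
  unfold lo
  rw [if_neg (by omega), if_neg (by omega), if_neg (by omega), if_neg (by omega)]
lemma hi_mid {s : ℕ} (h1 : 2 ≤ s) (h2 : s ≤ J) : hi r f1 f2 J s = r ^ (2 * s - 1) := by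
  unfold hi
  rw [if_neg (by omega), if_neg (by omega), if_neg (by omega), if_neg (by omega)]

lemma cover (hr0 : 0 < r) (hr1 : r < 1) (hJ : 1 ≤ J) {z : ℝ} (hz0 : 0 < z) (hz1 : z < 1)
    (hz : z ∉ Reg r f1 f2 J) :
    ∃ s ∈ Finset.range (J + 3), lo r f1 f2 J s ≤ z ∧ z ≤ hi r f1 f2 J s := by
  obtain ⟨s, hs1, hs2⟩ := exists_nat_pow_near_of_lt_one hz0 hz1.le hr0 hr1
  rcases le_or_gt z (r ^ (2 * J + 1)) with hsmall | hbig
  · exact ⟨0, by simp, by rw [lo_zero]; exact hz0.le, by rw [hi_zero]; exact hsmall⟩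
  have hsJ : s ≤ 2 * J := by
    by_contra hcon
    have : r ^ s ≤ r ^ (2 * J + 1) := pow_le_pow_of_le_one hr0.le hr1.le (by omega)
    linarith
  have level1 : r ^ 2 ≤ z → z ≤ r →
      ∃ s ∈ Finset.range (J + 3), lo r f1 f2 J s ≤ z ∧ z ≤ hi r f1 f2 J s := by
    intro h1 h2
    by_cases hzf : z ≤ f1
    · exact ⟨J + 2, by simp, by rw [lo_b]; exact h1, by rw [hi_b]; exact hzf⟩
    · push Not at hzf
      by_cases hzf2 : z < f2
      · exact absurd (Or.inr ⟨hzf, hzf2⟩) hz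
      · push Not at hzf2
        exact ⟨1, by simp, by rw [lo_one]; exact hzf2, by rw [hi_one]; exact h2⟩
  rcases Nat.even_or_odd' s with ⟨j, rfl | rfl⟩
  · rcases eq_or_lt_of_le hs2 with heq | hlt
    · -- boundary point
      have hj0 : j ≠ 0 := by
        rintro rfl
        simp at heq
        linarith
      rcases Nat.lt_or_ge j 2 with hj2 | hj2
      · have hj1 : j = 1 := by omega
        subst hj1
        apply level1
        · rw [heq]
        · rw [heq]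
          have : r ^ (2 * 1) ≤ r ^ 1 := pow_le_pow_of_le_one hr0.le hr1.le (by omega)
          simpa using this
      · refine ⟨j, by simp; omega, ?_, ?_⟩
        · rw [lo_mid hj2 (by omega)]
          exact heq.ge
        · rw [hi_mid hj2 (by omega), heq]
          exact pow_le_pow_of_le_one hr0.le hr1.le (by omega)
    · have hT : ∃ j : ℕ, j ≤ J ∧ r ^ (2 * j + 1) < z ∧ z < r ^ (2 * j) := ⟨j, by omega, hs1, hlt⟩
      have : r * f1 ≤ z ∧ z ≤ r * f2 := by
        by_contra hcon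
        exact hz (Or.inl ⟨hT, hcon⟩)
      exact ⟨J + 1, by simp, by rw [lo_a hJ]; exact this.1, by rw [hi_a hJ]; exact this.2⟩
  · -- odd: z in (r^(2j+2), r^(2j+1)]
    rcases Nat.eq_zero_or_pos j with rfl | hjp
    · simp only [mul_zero, zero_add, pow_one] at hs1 hs2
      exact level1 hs1.le hs2
    · refine ⟨j + 1, by simp; omega, ?_, ?_⟩
      · rw [lo_mid (by omega) (by omega)]
        exact hs1.le
      · rw [hi_mid (by omega) (by omega), (by omega : 2 * (j + 1) - 1 = 2 * j + 1)]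
        exact hs2

/-- total length of the complementary intervals -/
lemma total_len (hr0 : 0 < r) (hr1 : r < 1) (hJ : 1 ≤ J) :
    ∑ s ∈ Finset.range (J + 3), (hi r f1 f2 J s - lo r f1 f2 J s) ≤
      r ^ (2 * J + 1) + r / (1 + r) - (f2 - f1) * (1 - r) := by
  have key : ∀ K : ℕ, 1 ≤ K → K ≤ J → ∑ s ∈ Finset.range (K + 1), (hi r f1 f2 J s - lo r f1 f2 J s) ≤
      r ^ (2 * J + 1) + (r - f2) - (r - r ^ 2) + r / (1 + r) * (1 - r ^ (2 * K)) := by
    intro K hK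
    induction K, hK using Nat.le_induction with
    | base =>
      intro _
      rw [Finset.sum_range_succ, Finset.sum_range_succ, Finset.sum_range_zero, lo_zero, hi_zero,
        lo_one, hi_one]
      have : r / (1 + r) * (1 - r ^ (2 * 1)) = r - r ^ 2 := by
        field_simp
        ring
      rw [this]
      linarith
    | succ K hK ih =>
      intro hKJ
      rw [Finset.sum_range_succ]
      have h1 := ih (by omega)
      rw [lo_mid (s := K + 1) (by omega) hKJ, hi_mid (s := K + 1) (by omega) hKJ,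
        (by omega : 2 * (K + 1) - 1 = 2 * K + 1)]
      have : r / (1 + r) * (1 - r ^ (2 * (K + 1))) = r / (1 + r) * (1 - r ^ (2 * K)) +
          (r ^ (2 * K + 1) - r ^ (2 * (K + 1))) := by
        field_simp
        ring
      rw [this]
      linarith
  rw [Finset.sum_range_succ, Finset.sum_range_succ, lo_a hJ, hi_a hJ, lo_b, hi_b]
  have h := key J hJ le_rfl
  have h2 : r / (1 + r) * (1 - r ^ (2 * J)) ≤ r / (1 + r) := by
    have h3 : 0 ≤ r / (1 + r) := by positivity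
    have h4 : 0 ≤ r ^ (2 * J) := by positivity
    nlinarith
  nlinarith

end pattern


/-- the upper natural density of a set of positive integers -/
noncomputable def upperDensity (A : Set ℕ) : ℝ :=
  limsup (fun N : ℕ => ((A ∩ Set.Icc 1 N).ncard : ℝ) / (N : ℝ)) atTop

/-- the `i`-th block: all `n` such that the ball of radius `i` about `n` lies in `S^(i+1) R` -/
def block (R : Set ℝ) (S i : ℕ) : Set ℕ :=
  {n | ∀ x : ℝ, |x - n| ≤ i → x / (S : ℝ) ^ (i + 1) ∈ R}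

/-- the union of the blocks, together with everything not divisible by `D` -/
def theSet (R : Set ℝ) (S D : ℕ) : Set ℕ := {n | ¬ D ∣ n ∨ ∃ i, n ∈ block R S i}

lemma count_le (N D : ℕ) (hD : 1 ≤ D) (u v : ℝ) (huv : u ≤ v) :
    (((Finset.Icc 1 N).filter (fun n : ℕ => D ∣ n ∧ u ≤ n ∧ (n : ℝ) ≤ v)).card : ℝ) ≤
      (v - u) / D + 1 := by
  have hD0 : (0 : ℝ) < D := by exact_mod_cast hD
  have h1 : ((Finset.Icc 1 N).filter (fun n : ℕ => D ∣ n ∧ u ≤ n ∧ (n : ℝ) ≤ v)).card ≤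
      (Finset.Icc ⌈u / D⌉ ⌊v / D⌋).card := by
    apply Finset.card_le_card_of_injOn (fun n : ℕ => ((n / D : ℕ) : ℤ))
    · intro n hn
      rw [Finset.mem_coe, Finset.mem_filter] at hn
      obtain ⟨-, ⟨c, rfl⟩, h2, h3⟩ := hn
      rw [Finset.mem_coe, Finset.mem_Icc]
      simp only [Nat.mul_div_cancel_left c hD]
      push_cast at h2 h3
      constructor
      · apply Int.ceil_le.mpr
        rw [div_le_iff₀ hD0]
        push_cast
        linarith
      · apply Int.le_floor.mpr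
        rw [le_div_iff₀ hD0]
        push_cast
        linarith
    · intro a ha b hb hab
      rw [Finset.mem_coe, Finset.mem_filter] at ha hb
      have h := Nat.cast_injective (R := ℤ) hab
      have ha2 := Nat.div_mul_cancel ha.2.1
      have hb2 := Nat.div_mul_cancel hb.2.1
      rw [← ha2, ← hb2, h]
  have h2 : (((Finset.Icc ⌈u / D⌉ ⌊v / D⌋).card : ℕ) : ℝ) ≤ (v - u) / D + 1 := by
    rw [Int.card_Icc]
    rcases le_or_gt 0 (⌊v / D⌋ + 1 - ⌈u / D⌉) with h | h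
    · have e : (((⌊v / D⌋ + 1 - ⌈u / D⌉).toNat : ℕ) : ℝ) = (⌊v / D⌋ : ℝ) + 1 - (⌈u / D⌉ : ℝ) := by
        have := Int.toNat_of_nonneg h
        have h3 : (((⌊v / D⌋ + 1 - ⌈u / D⌉).toNat : ℤ) : ℝ) = ((⌊v / D⌋ + 1 - ⌈u / D⌉ : ℤ) : ℝ) := by
          rw [this]
        push_cast at h3
        rw [← h3]
      rw [e]
      have h4 := Int.floor_le (v / D)
      have h5 := Int.le_ceil (u / D)
      have : (v - u) / D = v / D - u / D := by ring
      linarith
    · rw [Int.toNat_of_nonpos h.le]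
      have : 0 ≤ (v - u) / D := div_nonneg (by linarith) hD0.le
      simp
      linarith
  calc _ ≤ (((Finset.Icc ⌈u / D⌉ ⌊v / D⌋).card : ℕ) : ℝ) := by exact_mod_cast h1
    _ ≤ _ := h2

section density

variable {r f1 f2 : ℝ} {J : ℕ}

lemma lo_le_hi (hr0 : 0 < r) (hr1 : r < 1) (hf1 : r ^ 2 ≤ f1) (hf12 : f1 ≤ f2) (hf2 : f2 < r)
    (hJ : 1 ≤ J) {s : ℕ} (hs : s < J + 3) : lo r f1 f2 J s ≤ hi r f1 f2 J s := by
  rcases Nat.lt_or_ge s 2 with h | h
  · interval_cases s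
    · rw [lo_zero, hi_zero]; positivity
    · rw [lo_one, hi_one]; exact hf2.le
  · rcases Nat.lt_or_ge s (J + 1) with h2 | h2
    · rw [lo_mid h (by omega), hi_mid h (by omega)]
      exact pow_le_pow_of_le_one hr0.le hr1.le (by omega)
    · rcases Nat.lt_or_ge s (J + 2) with h3 | h3
      · obtain rfl : s = J + 1 := by omega
        rw [lo_a hJ, hi_a hJ]
        exact mul_le_mul_of_nonneg_left hf12 hr0.le
      · obtain rfl : s = J + 2 := by omega
        rw [lo_b, hi_b]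
        exact hf1

open Classical in
/-- the multiples of `D` up to `S^(i+1)` outside the block -/
noncomputable def bad (R : Set ℝ) (S D i : ℕ) : Finset ℕ :=
  (Finset.Icc 1 (S ^ (i + 1))).filter (fun n : ℕ => D ∣ n ∧ n ∉ block R S i)

lemma mem_bad {R : Set ℝ} {S D i n : ℕ} : n ∈ bad R S D i ↔
    (1 ≤ n ∧ n ≤ S ^ (i + 1)) ∧ D ∣ n ∧ n ∉ block R S i := by
  simp [bad]

lemma bad_sub {R : Set ℝ} {S D i : ℕ} : bad R S D i ⊆ Finset.Icc 1 (S ^ (i + 1)) := by
  intro n hn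
  rw [mem_bad] at hn
  simpa using hn.1

lemma bad_count (hr0 : 0 < r) (hr1 : r < 1) (hf1 : r ^ 2 ≤ f1) (hf12 : f1 ≤ f2) (hf2 : f2 < r)
    (hJ : 1 ≤ J) (S D i : ℕ) (hS : 1 ≤ S) (hD : 1 ≤ D) :
    ((bad (Reg r f1 f2 J) S D i).card : ℝ) ≤
      (S : ℝ) ^ (i + 1) * ((∑ s ∈ Finset.range (J + 3), (hi r f1 f2 J s - lo r f1 f2 J s)) / D) +
        (J + 4) * (2 * i + 1) := by
  classical
  set N : ℝ := (S : ℝ) ^ (i + 1) with hN
  have hS0 : (0 : ℝ) < S := by exact_mod_cast hS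
  have hN0 : 0 < N := by positivity
  have hD0 : (1 : ℝ) ≤ D := by exact_mod_cast hD
  set F : ℕ → Finset ℕ := fun s => (Finset.Icc 1 (S ^ (i + 1))).filter
    (fun n : ℕ => D ∣ n ∧ N * lo r f1 f2 J s - i ≤ n ∧ (n : ℝ) ≤ N * hi r f1 f2 J s + i) with hF
  set G1 : Finset ℕ := Finset.Icc 1 i with hG1
  set G2 : Finset ℕ := Finset.Icc (S ^ (i + 1) - i) (S ^ (i + 1)) with hG2
  have hsub : bad (Reg r f1 f2 J) S D i ⊆
      ((Finset.range (J + 3)).biUnion F) ∪ (G1 ∪ G2) := by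
    intro n hn
    rw [mem_bad] at hn
    obtain ⟨⟨hn1, hn2⟩, hn3, hn4⟩ := hn
    simp only [block, Set.mem_ofPred_eq, not_forall] at hn4
    obtain ⟨x, hx1, hx2⟩ := hn4
    rw [abs_le] at hx1
    rw [Finset.mem_union, Finset.mem_union]
    rcases le_or_gt x 0 with hx0 | hx0
    · right; left
      rw [hG1, Finset.mem_Icc]
      refine ⟨hn1, ?_⟩
      have : (n : ℝ) ≤ i := by linarith
      exact_mod_cast this
    rcases le_or_gt N x with hxN | hxN
    · right; right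
      rw [hG2, Finset.mem_Icc]
      refine ⟨?_, hn2⟩
      have : N ≤ (n : ℝ) + i := by linarith
      rw [hN] at this
      have h2 : S ^ (i + 1) ≤ n + i := by exact_mod_cast this
      omega
    · left
      have hz0 : 0 < x / N := div_pos hx0 hN0
      have hz1 : x / N < 1 := by rw [div_lt_one hN0]; exact hxN
      obtain ⟨s, hs, h1, h2⟩ := cover hr0 hr1 hJ hz0 hz1 hx2
      rw [Finset.mem_biUnion]
      refine ⟨s, hs, ?_⟩
      rw [hF]
      simp only
      rw [Finset.mem_filter, Finset.mem_Icc]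
      refine ⟨⟨hn1, hn2⟩, hn3, ?_, ?_⟩
      · rw [le_div_iff₀ hN0] at h1
        linarith
      · rw [div_le_iff₀ hN0] at h2
        linarith
  have hcard := (Finset.card_le_card hsub).trans (Finset.card_union_le _ _)
  have hcard2 := Finset.card_union_le G1 G2
  have hG1c : G1.card = i := by rw [hG1, Nat.card_Icc]; omega
  have hG2c : G2.card ≤ i + 1 := by rw [hG2, Nat.card_Icc]; omega
  have hbi : (((Finset.range (J + 3)).biUnion F).card : ℝ) ≤
      ∑ s ∈ Finset.range (J + 3), (N * ((hi r f1 f2 J s - lo r f1 f2 J s) / D) + (2 * i + 1)) := by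
    calc (((Finset.range (J + 3)).biUnion F).card : ℝ) ≤
          ((∑ s ∈ Finset.range (J + 3), (F s).card : ℕ) : ℝ) := by
            exact_mod_cast Finset.card_biUnion_le
      _ = ∑ s ∈ Finset.range (J + 3), ((F s).card : ℝ) := by push_cast; rfl
      _ ≤ _ := by
        apply Finset.sum_le_sum
        intro s hs
        rw [Finset.mem_range] at hs
        have hlh := lo_le_hi hr0 hr1 hf1 hf12 hf2 hJ hs
        have hi0 : (0 : ℝ) ≤ i := Nat.cast_nonneg i
        have h := count_le (S ^ (i + 1)) D hD (N * lo r f1 f2 J s - i) (N * hi r f1 f2 J s + i)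
          (by nlinarith)
        refine h.trans ?_
        have e : (N * hi r f1 f2 J s + i - (N * lo r f1 f2 J s - i)) / D =
            N * ((hi r f1 f2 J s - lo r f1 f2 J s) / D) + 2 * i / D := by ring
        rw [e]
        have : 2 * (i : ℝ) / D ≤ 2 * i := div_le_self (by positivity) hD0
        linarith
  rw [Finset.sum_add_distrib, ← Finset.mul_sum, ← Finset.sum_div, Finset.sum_const,
    Finset.card_range, nsmul_eq_mul] at hbi
  have hfin : ((bad (Reg r f1 f2 J) S D i).card : ℝ) ≤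
      (((Finset.range (J + 3)).biUnion F).card : ℝ) + (i + (i + 1)) := by
    have : (bad (Reg r f1 f2 J) S D i).card ≤
      ((Finset.range (J + 3)).biUnion F).card + (i + (i + 1)) := by omega
    exact_mod_cast this
  push_cast at hbi
  nlinarith

lemma good_count (hr0 : 0 < r) (hr1 : r < 1) (hf1 : r ^ 2 ≤ f1) (hf12 : f1 ≤ f2) (hf2 : f2 < r)
    (hJ : 1 ≤ J) (S D i : ℕ) (hS : 1 ≤ S) (hD : 1 ≤ D) :
    (S : ℝ) ^ (i + 1) *
        (1 - (∑ s ∈ Finset.range (J + 3), (hi r f1 f2 J s - lo r f1 f2 J s)) / D) -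
        (J + 4) * (2 * i + 1) ≤
      (((theSet (Reg r f1 f2 J) S D) ∩ Set.Icc 1 (S ^ (i + 1))).ncard : ℝ) := by
  classical
  have h := bad_count hr0 hr1 hf1 hf12 hf2 hJ S D i hS hD
  have hsub : ((Finset.Icc 1 (S ^ (i + 1)) \ bad (Reg r f1 f2 J) S D i : Finset ℕ) : Set ℕ) ⊆
      (theSet (Reg r f1 f2 J) S D) ∩ Set.Icc 1 (S ^ (i + 1)) := by
    intro n hn
    rw [Finset.mem_coe, Finset.mem_sdiff, mem_bad, Finset.mem_Icc] at hn
    refine ⟨?_, by simpa using hn.1⟩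
    by_cases hd : D ∣ n
    · right
      refine ⟨i, ?_⟩
      by_contra hcon
      exact hn.2 ⟨hn.1, hd, hcon⟩
    · left; exact hd
  have h1 := Set.ncard_le_ncard hsub ((Set.finite_Icc 1 (S ^ (i + 1))).inter_of_right _)
  rw [Set.ncard_coe_finset, Finset.card_sdiff_of_subset bad_sub, Nat.card_Icc] at h1
  have h2 : (bad (Reg r f1 f2 J) S D i).card ≤ S ^ (i + 1) := by
    have := Finset.card_le_card (bad_sub (R := Reg r f1 f2 J) (S := S) (D := D) (i := i))
    rw [Nat.card_Icc] at this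
    omega
  have h3 : ((S ^ (i + 1) - (bad (Reg r f1 f2 J) S D i).card : ℕ) : ℝ) ≤
      (((theSet (Reg r f1 f2 J) S D) ∩ Set.Icc 1 (S ^ (i + 1))).ncard : ℝ) := by
    have : S ^ (i + 1) - (bad (Reg r f1 f2 J) S D i).card ≤
        ((theSet (Reg r f1 f2 J) S D) ∩ Set.Icc 1 (S ^ (i + 1))).ncard := by omega
    exact_mod_cast this
  rw [Nat.cast_sub h2] at h3
  push_cast at h3
  linarith

lemma density_lt (hr0 : 0 < r) (hr1 : r < 1) (hf1 : r ^ 2 ≤ f1) (hf12 : f1 ≤ f2) (hf2 : f2 < r)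
    (hJ : 1 ≤ J) (S D : ℕ) (hS : 2 ≤ S) (hD : 1 ≤ D) (c : ℝ)
    (hc : c < 1 - (∑ s ∈ Finset.range (J + 3), (hi r f1 f2 J s - lo r f1 f2 J s)) / D) :
    c < upperDensity (theSet (Reg r f1 f2 J) S D) := by
  set L := 1 - (∑ s ∈ Finset.range (J + 3), (hi r f1 f2 J s - lo r f1 f2 J s)) / D with hL
  obtain ⟨c', hc1, hc2⟩ := exists_between hc
  refine lt_of_lt_of_le hc1 ?_
  have hbdd : IsBoundedUnder (· ≤ ·) atTop (fun N : ℕ =>
      (((theSet (Reg r f1 f2 J) S D) ∩ Set.Icc 1 N).ncard : ℝ) / (N : ℝ)) := by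
    refine ⟨1, ?_⟩
    rw [eventually_map]
    filter_upwards with N
    apply div_le_one_of_le₀ _ (Nat.cast_nonneg N)
    have : ((theSet (Reg r f1 f2 J) S D) ∩ Set.Icc 1 N).ncard ≤ (Set.Icc 1 N).ncard :=
      Set.ncard_le_ncard Set.inter_subset_right (Set.finite_Icc 1 N)
    rw [← Finset.coe_Icc, Set.ncard_coe_finset, Nat.card_Icc] at this
    have h2 : ((theSet (Reg r f1 f2 J) S D) ∩ Set.Icc 1 N).ncard ≤ N := by
      rw [← Finset.coe_Icc]; omega
    exact_mod_cast h2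
  apply le_limsup_of_frequently_le _ hbdd
  -- the error term tends to zero
  have hS1 : (1 : ℝ) < S := by exact_mod_cast hS
  have ht : Tendsto (fun i : ℕ => (J + 4 : ℝ) * (2 * i + 1) / (S : ℝ) ^ (i + 1)) atTop (nhds 0) := by
    have h1 := tendsto_pow_const_div_const_pow_of_one_lt 1 hS1
    have h0 := tendsto_pow_const_div_const_pow_of_one_lt 0 hS1
    have h2 : Tendsto (fun i : ℕ => (J + 4 : ℝ) / S * (2 * ((i : ℝ) ^ 1 / (S : ℝ) ^ i) +
        ((i : ℝ) ^ 0 / (S : ℝ) ^ i))) atTop (nhds ((J + 4 : ℝ) / S * (2 * 0 + 0))) :=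
      (((h1.const_mul 2).add h0).const_mul _)
    simp only [mul_zero, add_zero] at h2
    refine h2.congr fun i => ?_
    have : (S : ℝ) ≠ 0 := by positivity
    field_simp
    ring
  have hev : ∀ᶠ i : ℕ in atTop, (J + 4 : ℝ) * (2 * i + 1) / (S : ℝ) ^ (i + 1) < L - c' :=
    ht.eventually (gt_mem_nhds (by linarith))
  rw [frequently_atTop]
  intro N0
  obtain ⟨i, hi1, hi2⟩ := (hev.and (eventually_ge_atTop N0)).exists
  refine ⟨S ^ (i + 1), ?_, ?_⟩
  · have : i + 1 < S ^ (i + 1) := Nat.lt_pow_self (by omega)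
    omega
  · have hg := good_count hr0 hr1 hf1 hf12 hf2 hJ S D i (by omega) hD
    have hN0 : (0 : ℝ) < (S : ℝ) ^ (i + 1) := by positivity
    push_cast
    rw [le_div_iff₀ hN0]
    rw [div_lt_iff₀ hN0] at hi1
    rw [← hL] at hg
    nlinarith

end density

section avoid

variable {r f1 f2 k : ℝ} {J : ℕ}

lemma zero_notMem (hr0 : 0 < r) (hr1 : r < 1) (hJ : 1 ≤ J) (hf1 : r ^ 2 ≤ f1) (S D : ℕ) :
    0 ∉ theSet (Reg r f1 f2 J) S D := by
  rintro (h | ⟨i, hi⟩)
  · exact h (dvd_zero D)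
  · have := hi 0 (by simp)
    have h2 := lt_reg hr0 hr1 hJ hf1 this
    have h3 : 0 < r ^ (2 * J + 1) := by positivity
    simp at h2
    linarith

/-- for fixed `b₁` and `t` no large `b` can be added -/
lemma avoid (m l : ℕ) (hl : 1 ≤ l) (hlm : l < m) (hr : r = (l : ℝ) / (m + l)) (hk : k = (m : ℝ) / l)
    (hf1 : r ^ 2 ≤ f1) (hf2 : f2 < r) (hkf1 : f2 ≤ k * f1) (hkf2 : k * f2 ≤ r) (hJ : 1 ≤ J)
    (S : ℕ) (hS : 2 ≤ S) (hS2 : (m + l + 1 : ℝ) ≤ S * r ^ (2 * J + 1)) (b₁ t : ℕ) :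
    ∃ b₀ : ℕ, ∀ b : ℕ, b₀ ≤ b →
      (∃ i, m * b₁ + l * b + t ∈ block (Reg r f1 f2 J) S i) →
      (∃ i, m * b + l * b₁ + t ∈ block (Reg r f1 f2 J) S i) →
      (∃ i, m * b + l * b + t ∈ block (Reg r f1 f2 J) S i) → False := by
  have hl0 : (0 : ℝ) < l := by exact_mod_cast hl
  have hm0 : (0 : ℝ) < m := by exact_mod_cast (by omega : 0 < m)
  have hlm' : (l : ℝ) < m := by exact_mod_cast hlm
  have hr0 : 0 < r := by rw [hr]; positivity
  have hr1 : r < 1 := by rw [hr, div_lt_one (by positivity)]; linarith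
  have hk1 : 1 < k := by rw [hk, one_lt_div hl0]; exact hlm'
  have hS0 : (0 : ℝ) < S := by exact_mod_cast (by omega : 0 < S)
  set C := m * b₁ + l * b₁ + t with hC
  refine ⟨C + 1 + S ^ (C + 1), ?_⟩
  rintro b hb ⟨i1, h1⟩ ⟨i2, h2⟩ ⟨i3, h3⟩
  have hbC : C < b := by omega
  -- bounds for block elements
  have bnd : ∀ (n i : ℕ), n ∈ block (Reg r f1 f2 J) S i →
      r ^ (2 * J + 1) * (S : ℝ) ^ (i + 1) < n ∧ (n : ℝ) < (S : ℝ) ^ (i + 1) := by
    intro n i hn
    have hx := hn n (by simp)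
    have hN : (0 : ℝ) < (S : ℝ) ^ (i + 1) := by positivity
    constructor
    · have := lt_reg hr0 hr1 hJ hf1 hx
      rwa [lt_div_iff₀ hN] at this
    · have := reg_lt_one hr0 hr1 hf2 hx
      rwa [div_lt_one hN] at this
  -- the blocks coincide
  have same : ∀ (n n' i i' : ℕ), n ∈ block (Reg r f1 f2 J) S i → n' ∈ block (Reg r f1 f2 J) S i' →
      n' ≤ (m + l + 1) * n → i' ≤ i := by
    intro n n' i i' hn hn' hle
    by_contra hcon
    push Not at hcon
    obtain ⟨h4, h5⟩ := bnd n i hn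
    obtain ⟨h6, h7⟩ := bnd n' i' hn'
    have h8 : (S : ℝ) ^ (i + 1) * S ≤ (S : ℝ) ^ (i' + 1) := by
      rw [← pow_succ]
      exact pow_le_pow_right₀ (by exact_mod_cast (by omega : 1 ≤ S)) (by omega)
    have h9 : (n' : ℝ) ≤ (m + l + 1) * n := by exact_mod_cast hle
    have hrp : 0 < r ^ (2 * J + 1) := by positivity
    have h10 : (m + l + 1 : ℝ) * (S : ℝ) ^ (i + 1) ≤ r ^ (2 * J + 1) * (S : ℝ) ^ (i' + 1) := by
      calc (m + l + 1 : ℝ) * (S : ℝ) ^ (i + 1) ≤ (S * r ^ (2 * J + 1)) * (S : ℝ) ^ (i + 1) :=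
            mul_le_mul_of_nonneg_right hS2 (by positivity)
        _ = r ^ (2 * J + 1) * ((S : ℝ) ^ (i + 1) * S) := by ring
        _ ≤ _ := mul_le_mul_of_nonneg_left h8 hrp.le
    have h11 : (m + l + 1 : ℝ) * n ≤ (m + l + 1 : ℝ) * (S : ℝ) ^ (i + 1) :=
      mul_le_mul_of_nonneg_left h5.le (by positivity)
    linarith
  have q1 : b ≤ m * b₁ + l * b + t := by nlinarith
  have q2 : b ≤ m * b + l * b₁ + t := by nlinarith
  have q3 : b ≤ m * b + l * b + t := by nlinarith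
  have u1 : m * b₁ + l * b + t ≤ (m + l + 1) * b := by nlinarith
  have u2 : m * b + l * b₁ + t ≤ (m + l + 1) * b := by nlinarith
  have u3 : m * b + l * b + t ≤ (m + l + 1) * b := by nlinarith
  have hM : ∀ x : ℕ, b ≤ x → (m + l + 1) * b ≤ (m + l + 1) * x := fun x hx =>
    Nat.mul_le_mul_left _ hx
  have e12 : i1 = i2 := le_antisymm
    (same _ _ _ _ h2 h1 (u1.trans (hM _ q2))) (same _ _ _ _ h1 h2 (u2.trans (hM _ q1)))
  have e13 : i1 = i3 := le_antisymm
    (same _ _ _ _ h3 h1 (u1.trans (hM _ q3))) (same _ _ _ _ h1 h3 (u3.trans (hM _ q1)))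
  subst e12 e13
  have hiC : C ≤ i1 := by
    by_contra hcon
    push Not at hcon
    have h4 := (bnd _ _ h1).2
    have h5 : (m * b₁ + l * b + t : ℕ) < S ^ (i1 + 1) := by exact_mod_cast h4
    have h6 : S ^ (i1 + 1) ≤ S ^ (C + 1) := Nat.pow_le_pow_right (by omega) (by omega)
    omega
  have hiC' : (C : ℝ) ≤ i1 := by exact_mod_cast hiC
  have hCr : (C : ℝ) = m * b₁ + l * b₁ + t := by rw [hC]; push_cast; ring
  have hb1 : (0 : ℝ) ≤ m * b₁ := by positivity
  have hb2 : (0 : ℝ) ≤ l * b₁ := by positivity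
  have ht0 : (0 : ℝ) ≤ t := by positivity
  have p1 := h1 ((l : ℝ) * b) (by
    push_cast
    rw [abs_le]
    constructor <;> linarith)
  have p2 := h2 ((m : ℝ) * b) (by
    push_cast
    rw [abs_le]
    constructor <;> linarith)
  have p3 := h3 (((m : ℝ) + l) * b) (by
    push_cast
    rw [abs_le]
    constructor <;> linarith)
  have hN : (0 : ℝ) < (S : ℝ) ^ (i1 + 1) := by positivity
  refine pattern_free hr0 hr1 hf1 hf2 hk1 hkf1 hkf2 p1 p3 ?_ ?_
  · rw [hr]
    field_simp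
  · have : k * ((l : ℝ) * b / (S : ℝ) ^ (i1 + 1)) = (m : ℝ) * b / (S : ℝ) ^ (i1 + 1) := by
      rw [hk]
      field_simp
    rw [this]
    exact p2

end avoid

/-- The set of all `m b₁ + ℓ b₂ + t` with `b₁, b₂ ∈ B`, in both orders and with `b₁ = b₂` allowed. -/
def sums (m l t : ℕ) (B : Set ℕ) : Set ℕ := {x | ∃ b₁ ∈ B, ∃ b₂ ∈ B, x = m * b₁ + l * b₂ + t}

theorem main (m l D : ℕ) (hl : 1 ≤ l) (hlm : l < m) (hD : 1 ≤ D) (hDml : D ∣ m + l) :
    ∃ A : Set ℕ, 0 ∉ A ∧ 1 - (l : ℝ) / (D * (m + 2 * l)) < upperDensity A ∧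
      ∀ B : Set ℕ, B.Infinite → ∀ t : ℕ, D ∣ t → ¬ sums m l t B ⊆ A := by
  have hl0 : (0 : ℝ) < l := by exact_mod_cast hl
  have hm0 : (0 : ℝ) < m := by exact_mod_cast (by omega : 0 < m)
  have hD0 : (0 : ℝ) < D := by exact_mod_cast hD
  have hlm' : (l : ℝ) < m := by exact_mod_cast hlm
  obtain ⟨r, hr⟩ : ∃ r : ℝ, r = (l : ℝ) / (m + l) := ⟨_, rfl⟩
  obtain ⟨k, hk⟩ : ∃ k : ℝ, k = (m : ℝ) / l := ⟨_, rfl⟩
  have hr0 : 0 < r := by rw [hr]; positivity
  have hr1 : r < 1 := by rw [hr, div_lt_one (by positivity)]; linarith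
  have hk1 : 1 < k := by rw [hk, one_lt_div hl0]; exact hlm'
  have hk0 : 0 < k := by linarith
  have hrk : r * k < 1 := by
    have : r * k = m / (m + l) := by
      rw [hr, hk]
      field_simp
    rw [this, div_lt_one (by positivity)]
    linarith
  obtain ⟨f1, hf1⟩ : ∃ f1 : ℝ, f1 = max (r ^ 2) (r / k ^ 2) := ⟨_, rfl⟩
  obtain ⟨f2, hf2⟩ : ∃ f2 : ℝ, f2 = r / k := ⟨_, rfl⟩
  have a1 : r ^ 2 ≤ f1 := by rw [hf1]; exact le_max_left _ _
  have a2 : f2 < r := by
    rw [hf2, div_lt_iff₀ hk0]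
    nlinarith
  have a3 : f2 ≤ k * f1 := by
    have : r / k ^ 2 ≤ f1 := by rw [hf1]; exact le_max_right _ _
    calc f2 = k * (r / k ^ 2) := by rw [hf2]; field_simp
      _ ≤ _ := mul_le_mul_of_nonneg_left this hk0.le
  have a4 : k * f2 ≤ r := by
    rw [hf2]
    apply le_of_eq
    field_simp
  have a5 : f1 < f2 := by
    rw [hf1, hf2]
    apply max_lt
    · rw [lt_div_iff₀ hk0]
      nlinarith
    · rw [div_lt_div_iff₀ (by positivity) hk0]
      nlinarith [mul_pos hr0 hk0, mul_lt_mul_of_pos_left hk1 (mul_pos hr0 hk0)]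
  have hgain : 0 < (f2 - f1) * (1 - r) := mul_pos (by linarith) (by linarith)
  obtain ⟨J0, hJ0⟩ := exists_pow_lt_of_lt_one hgain hr1
  obtain ⟨J, hJ⟩ : ∃ J : ℕ, J = J0 + 1 := ⟨_, rfl⟩
  have hJ1 : 1 ≤ J := by omega
  have hJp : r ^ (2 * J + 1) < (f2 - f1) * (1 - r) :=
    lt_of_le_of_lt (pow_le_pow_of_le_one hr0.le hr1.le (by omega)) hJ0
  obtain ⟨S0, hS0⟩ := exists_nat_gt ((m + l + 1 : ℝ) / r ^ (2 * J + 1))
  obtain ⟨S, hS⟩ : ∃ S : ℕ, S = S0 + 2 := ⟨_, rfl⟩
  have hrp : 0 < r ^ (2 * J + 1) := by positivity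
  have hS2 : (m + l + 1 : ℝ) ≤ S * r ^ (2 * J + 1) := by
    rw [div_lt_iff₀ hrp] at hS0
    rw [hS]
    push_cast
    nlinarith
  refine ⟨theSet (Reg r f1 f2 J) S D, zero_notMem hr0 hr1 hJ1 a1 S D, ?_, ?_⟩
  · apply density_lt hr0 hr1 a1 a5.le a2 hJ1 S D (by omega) hD
    have h1 := total_len (f1 := f1) (f2 := f2) hr0 hr1 hJ1
    have h2 : ∑ s ∈ Finset.range (J + 3), (hi r f1 f2 J s - lo r f1 f2 J s) < r / (1 + r) := by
      linarith
    have h3 : r / (1 + r) = l / (m + 2 * l) := by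
      rw [hr]
      field_simp
      ring
    have h4 : (l : ℝ) / (D * (m + 2 * l)) = (r / (1 + r)) / D := by
      rw [h3]
      field_simp
    rw [h4]
    have h5 := div_lt_div_of_pos_right h2 hD0
    linarith
  · intro B hB t ht hsub
    -- an infinite subset in one residue class
    have : Infinite B := hB.to_subtype
    have : NeZero D := ⟨by omega⟩
    obtain ⟨y, hy⟩ := Finite.exists_infinite_fiber (fun b : B => ((b : ℕ) : ZMod D))
    have hB' : {b : ℕ | b ∈ B ∧ ((b : ℕ) : ZMod D) = y}.Infinite := by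
      have h1 := Set.infinite_coe_iff.mp hy
      have h2 := h1.image (f := fun b : B => (b : ℕ)) (fun a _ b _ h => Subtype.ext h)
      refine h2.mono ?_
      rintro _ ⟨b, hb, rfl⟩
      exact ⟨b.2, hb⟩
    obtain ⟨b₁, hb1, hb1y⟩ := hB'.nonempty
    obtain ⟨b₀, hb0⟩ := avoid m l hl hlm hr hk a1 a2 a3 a4 hJ1 S (by omega) hS2 b₁ t
    obtain ⟨b, ⟨hbB, hby⟩, hbb⟩ := hB'.exists_gt b₀
    have hdvd : ∀ x y' : ℕ, ((x : ℕ) : ZMod D) = y → ((y' : ℕ) : ZMod D) = y →
        D ∣ m * x + l * y' + t := by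
      intro x y' hx hy'
      rw [← ZMod.natCast_eq_zero_iff]
      push_cast
      rw [hx, hy']
      have h1 : ((m + l : ℕ) : ZMod D) = 0 := by rwa [ZMod.natCast_eq_zero_iff]
      have h2 : ((t : ℕ) : ZMod D) = 0 := by rwa [ZMod.natCast_eq_zero_iff]
      push_cast at h1
      rw [h2, add_zero, ← add_mul, h1, zero_mul]
    have inblock : ∀ x ∈ B, ∀ y' ∈ B, ((x : ℕ) : ZMod D) = y → ((y' : ℕ) : ZMod D) = y →
        ∃ i, m * x + l * y' + t ∈ block (Reg r f1 f2 J) S i := by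
      intro x hx y' hy' hxy hyy
      rcases hsub ⟨x, hx, y', hy', rfl⟩ with h | h
      · exact absurd (hdvd x y' hxy hyy) h
      · exact h
    exact hb0 b hbb.le (inblock b₁ hb1 b hbB hb1y hby) (inblock b hbB b₁ hb1 hby hb1y)
      (inblock b hbB b hbB hby hby)

end Pool.Agent.R97.AsymSum
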