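import Mathlib

/-!
# Moments of sums of independent signs, in counting form
-/

namespace Pool.Agent.R97.SignMoments

open Finset

/-- The sign of an element of `ZMod 2`. -/
noncomputable def sg (a : ZMod 2) : ℝ := if a = 0 then 1 else -1

@[simp] theorem sg_zero : sg 0 = 1 := by simp [sg]

@[simp] theorem sg_one : sg 1 = -1 := by simp [sg]

theorem zmod2_cases (a : ZMod 2) : a = 0 ∨ a = 1 := by
  revert a; decide

theorem sg_add (a b : ZMod 2) : sg (a + b) = sg a * sg b := by
  rcases zmod2_cases a with rfl | rfl <;> rcases zmod2_cases b with rfl | rfl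
  · simp
  · simp
  · simp
  · have : (1 : ZMod 2) + 1 = 0 := by decide
    rw [this]; simp

theorem sg_sq (a : ZMod 2) : sg a ^ 2 = 1 := by
  rcases zmod2_cases a with rfl | rfl <;> simp

theorem sg_add_one (a : ZMod 2) : sg (a + 1) = -sg a := by
  rw [sg_add]; simp

variable {ι : Type*} [Fintype ι] [DecidableEq ι]

/-- Sum of the signs over `T`. -/
noncomputable def X (T : Finset ι) (x : ι → ZMod 2) : ℝ := ∑ i ∈ T, sg (x i)

theorem X_flip {T : Finset ι} {a : ι} (ha : a ∉ T) (x : ι → ZMod 2) :
    X T (x + Pi.single a 1) = X T x := by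
  unfold X
  refine Finset.sum_congr rfl fun i hi => ?_
  have : i ≠ a := fun h => ha (h ▸ hi)
  simp [Pi.single_eq_of_ne this]

theorem sum_odd {a : ι} (F : (ι → ZMod 2) → ℝ) (hF : ∀ x, F (x + Pi.single a 1) = F x) :
    ∑ x : ι → ZMod 2, F x * sg (x a) = 0 := by
  let d : ι → ZMod 2 := Pi.single a 1
  let e : (ι → ZMod 2) ≃ (ι → ZMod 2) := Equiv.addRight d
  have h : ∑ x : ι → ZMod 2, (F (e x) * sg (e x a)) = ∑ x : ι → ZMod 2, F x * sg (x a) :=
    Equiv.sum_comp e (fun x => F x * sg (x a))
  have h2 : ∀ x : ι → ZMod 2, F (e x) * sg (e x a) = -(F x * sg (x a)) := by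
    intro x
    have e1 : e x = x + d := rfl
    have e2 : (x + d) a = x a + 1 := by simp [d]
    have e3 : F (x + d) = F x := hF x
    rw [e1, e3, e2, sg_add_one]
    ring
  rw [Finset.sum_congr rfl (fun x _ => h2 x), Finset.sum_neg_distrib] at h
  linarith

theorem moment2 (T : Finset ι) :
    ∑ x : ι → ZMod 2, X T x ^ 2 = T.card * (2 : ℝ) ^ Fintype.card ι := by
  induction T using Finset.induction_on with
  | empty => simp [X]
  | insert a T ha ih =>
    have h1 : ∀ x : ι → ZMod 2, X (insert a T) x ^ 2 =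
        X T x ^ 2 + 2 * (X T x * sg (x a)) + 1 := by
      intro x
      have e : X (insert a T) x = sg (x a) + X T x := by
        unfold X
        rw [Finset.sum_insert ha]
      rw [e]
      have := sg_sq (x a)
      nlinarith [this]
    rw [Finset.sum_congr rfl (fun x _ => h1 x), Finset.sum_add_distrib, Finset.sum_add_distrib,
      ← Finset.mul_sum, sum_odd (fun x => X T x) (fun x => X_flip ha x), ih,
      Finset.card_insert_of_notMem ha]
    simp only [Finset.sum_const, Finset.card_univ, Fintype.card_pi, ZMod.card, Finset.prod_const,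
      nsmul_eq_mul]
    push_cast
    ring

theorem moment4 (T : Finset ι) :
    ∑ x : ι → ZMod 2, X T x ^ 4 ≤ 3 * (T.card : ℝ) ^ 2 * (2 : ℝ) ^ Fintype.card ι := by
  induction T using Finset.induction_on with
  | empty => simp [X]
  | insert a T ha ih =>
    have h1 : ∀ x : ι → ZMod 2, X (insert a T) x ^ 4 =
        X T x ^ 4 + 4 * (X T x ^ 3 * sg (x a)) + 6 * X T x ^ 2 + 4 * (X T x * sg (x a)) + 1 := by
      intro x
      have e : X (insert a T) x = sg (x a) + X T x := by
        unfold X
        rw [Finset.sum_insert ha]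
      rw [e]
      have h2 := sg_sq (x a)
      have h3 : sg (x a) ^ 3 = sg (x a) := by
        rw [pow_succ, h2, one_mul]
      have h4 : sg (x a) ^ 4 = 1 := by
        have : sg (x a) ^ 4 = (sg (x a) ^ 2) ^ 2 := by ring
        rw [this, h2]; norm_num
      calc (sg (x a) + X T x) ^ 4 = X T x ^ 4 + 4 * (X T x ^ 3 * sg (x a)) +
            6 * X T x ^ 2 * sg (x a) ^ 2 + 4 * (X T x * sg (x a) ^ 3) + sg (x a) ^ 4 := by ring
        _ = _ := by rw [h2, h3, h4]; ring
    rw [Finset.sum_congr rfl (fun x _ => h1 x)]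
    simp only [Finset.sum_add_distrib, ← Finset.mul_sum]
    rw [sum_odd (fun x => X T x) (fun x => X_flip ha x),
      sum_odd (fun x => X T x ^ 3) (fun x => by rw [X_flip ha x]), moment2,
      Finset.card_insert_of_notMem ha]
    simp only [Finset.sum_const, Finset.card_univ, Fintype.card_pi, ZMod.card, Finset.prod_const,
      nsmul_eq_mul]
    push_cast
    have hp : (0 : ℝ) < 2 ^ Fintype.card ι := by positivity
    nlinarith [ih, hp]

/-- The sum over all coordinates is at least `q/2` for a proportion at least `55/512`. -/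
theorem large_card {q : ℝ} (hq : 0 < q) (hq2 : q ^ 2 = Fintype.card ι) :
    (55 / 512 : ℝ) * 2 ^ Fintype.card ι ≤
      ((Finset.univ.filter (fun x : ι → ZMod 2 => q / 2 ≤ X Finset.univ x)).card : ℝ) := by
  classical
  have hp : (0 : ℝ) < 2 ^ Fintype.card ι := by positivity
  -- polynomial minorant of the indicator
  have key : ∀ x : ι → ZMod 2,
      1 - ((X Finset.univ x) ^ 2 / q ^ 2 / 4 - 17 / 16) ^ 2 ≤
        (if q / 2 ≤ |X Finset.univ x| then (1 : ℝ) else 0) := by
    intro x
    split_ifs with h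
    · nlinarith [sq_nonneg ((X Finset.univ x) ^ 2 / q ^ 2 / 4 - 17 / 16)]
    · push Not at h
      have h1 : (X Finset.univ x) ^ 2 ≤ (q / 2) ^ 2 := by
        rw [← sq_abs]
        exact pow_le_pow_left₀ (abs_nonneg _) h.le 2
      have h2 : (X Finset.univ x) ^ 2 / q ^ 2 ≤ 1 / 4 := by
        rw [div_le_iff₀ (by positivity)]
        nlinarith
      nlinarith
  have hsum := Finset.sum_le_sum (fun x (_ : x ∈ (Finset.univ : Finset (ι → ZMod 2))) => key x)
  have hR : ∑ x : ι → ZMod 2, (if q / 2 ≤ |X Finset.univ x| then (1 : ℝ) else 0) =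
      ((Finset.univ.filter (fun x : ι → ZMod 2 => q / 2 ≤ |X Finset.univ x|)).card : ℝ) := by
    rw [Finset.sum_ite]; simp
  have hL : ∑ x : ι → ZMod 2, (1 - ((X Finset.univ x) ^ 2 / q ^ 2 / 4 - 17 / 16) ^ 2) =
      (1 - 289 / 256) * 2 ^ Fintype.card ι
        + 17 / 32 / q ^ 2 * ∑ x : ι → ZMod 2, (X Finset.univ x) ^ 2
        - 1 / 16 / q ^ 4 * ∑ x : ι → ZMod 2, (X Finset.univ x) ^ 4 := by
    have e : ∀ x : ι → ZMod 2, (1 - ((X Finset.univ x) ^ 2 / q ^ 2 / 4 - 17 / 16) ^ 2) =
        (1 - 289 / 256) + 17 / 32 / q ^ 2 * (X Finset.univ x) ^ 2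
          - 1 / 16 / q ^ 4 * (X Finset.univ x) ^ 4 := by
      intro x
      field_simp
      ring
    rw [Finset.sum_congr rfl (fun x _ => e x), Finset.sum_sub_distrib, Finset.sum_add_distrib,
      ← Finset.mul_sum, ← Finset.mul_sum]
    simp only [Finset.sum_const, Finset.card_univ, Fintype.card_pi, ZMod.card, Finset.prod_const,
      nsmul_eq_mul]
    push_cast
    ring
  have m2 := moment2 (Finset.univ : Finset ι)
  have m4 := moment4 (Finset.univ : Finset ι)
  rw [Finset.card_univ] at m2 m4
  rw [hL, hR, m2] at hsum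
  rw [← hq2] at hsum m4
  have e2 : 17 / 32 / q ^ 2 * (q ^ 2 * (2 : ℝ) ^ Fintype.card ι) =
      17 / 32 * 2 ^ Fintype.card ι := by
    field_simp
  have e4 : 1 / 16 / q ^ 4 * ∑ x : ι → ZMod 2, (X Finset.univ x) ^ 4 ≤
      3 / 16 * 2 ^ Fintype.card ι := by
    calc 1 / 16 / q ^ 4 * ∑ x : ι → ZMod 2, (X Finset.univ x) ^ 4
        ≤ 1 / 16 / q ^ 4 * (3 * (q ^ 2) ^ 2 * 2 ^ Fintype.card ι) := by
          apply mul_le_mul_of_nonneg_left m4; positivity
      _ = 3 / 16 * 2 ^ Fintype.card ι := by
          field_simp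
  rw [e2] at hsum
  -- symmetry
  have hsym : (Finset.univ.filter (fun x : ι → ZMod 2 => q / 2 ≤ |X Finset.univ x|)).card ≤
      2 * (Finset.univ.filter (fun x : ι → ZMod 2 => q / 2 ≤ X Finset.univ x)).card := by
    have hsub : (Finset.univ.filter (fun x : ι → ZMod 2 => q / 2 ≤ |X Finset.univ x|)) ⊆
        (Finset.univ.filter (fun x : ι → ZMod 2 => q / 2 ≤ X Finset.univ x)) ∪
        (Finset.univ.filter (fun x : ι → ZMod 2 => q / 2 ≤ X Finset.univ x)).image
          (fun x => x + 1) := by
      intro x hx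
      simp only [Finset.mem_filter, Finset.mem_univ, true_and] at hx
      rw [Finset.mem_union]
      rcases le_abs.1 hx with h | h
      · left; simpa using h
      · right
        rw [Finset.mem_image]
        refine ⟨x + 1, ?_, ?_⟩
        · simp only [Finset.mem_filter, Finset.mem_univ, true_and]
          have : X Finset.univ (x + 1) = -X Finset.univ x := by
            unfold X
            rw [← Finset.sum_neg_distrib]
            refine Finset.sum_congr rfl fun i _ => ?_
            have : (x + 1) i = x i + 1 := rfl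
            rw [this, sg_add_one]
          rw [this]; exact h
        · funext i
          have : (1 : ZMod 2) + 1 = 0 := by decide
          show x i + 1 + 1 = x i
          rw [add_assoc, this, add_zero]
    calc _ ≤ _ := Finset.card_le_card hsub
      _ ≤ _ := Finset.card_union_le _ _
      _ ≤ _ := by
        have := Finset.card_image_le (s := Finset.univ.filter
          (fun x : ι → ZMod 2 => q / 2 ≤ X Finset.univ x)) (f := fun x => x + 1)
        omega
  have hsym' : ((Finset.univ.filter (fun x : ι → ZMod 2 => q / 2 ≤ |X Finset.univ x|)).card : ℝ) ≤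
      2 * ((Finset.univ.filter (fun x : ι → ZMod 2 => q / 2 ≤ X Finset.univ x)).card : ℝ) := by
    exact_mod_cast hsym
  nlinarith

/-- Chebyshev with fourth moments for one set. -/
theorem tail_card (T : Finset ι) {w q : ℝ} (hw : 0 ≤ w) (hq : 0 < q) :
    ((Finset.univ.filter (fun x : ι → ZMod 2 => q ≤ w * |X T x|)).card : ℝ) ≤
      3 * (T.card : ℝ) ^ 2 * w ^ 4 / q ^ 4 * 2 ^ Fintype.card ι := by
  classical
  have h1 : ∀ x : ι → ZMod 2, (if q ≤ w * |X T x| then (1 : ℝ) else 0) ≤
      w ^ 4 / q ^ 4 * X T x ^ 4 := by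
    intro x
    split_ifs with h
    · rw [div_mul_eq_mul_div, le_div_iff₀ (by positivity), one_mul]
      calc q ^ 4 ≤ (w * |X T x|) ^ 4 := pow_le_pow_left₀ hq.le h 4
        _ = w ^ 4 * X T x ^ 4 := by
          rw [mul_pow]
          congr 1
          have : |X T x| ^ 4 = (|X T x| ^ 2) ^ 2 := by ring
          rw [this, sq_abs]; ring
    · positivity
  have h2 := Finset.sum_le_sum (fun x (_ : x ∈ (Finset.univ : Finset (ι → ZMod 2))) => h1 x)
  have hL : ∑ x : ι → ZMod 2, (if q ≤ w * |X T x| then (1 : ℝ) else 0) =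
      ((Finset.univ.filter (fun x : ι → ZMod 2 => q ≤ w * |X T x|)).card : ℝ) := by
    rw [Finset.sum_ite]; simp
  rw [hL, ← Finset.mul_sum] at h2
  calc _ ≤ _ := h2
    _ ≤ w ^ 4 / q ^ 4 * (3 * (T.card : ℝ) ^ 2 * (2 : ℝ) ^ Fintype.card ι) := by
      apply mul_le_mul_of_nonneg_left (moment4 T); positivity
    _ = _ := by ring

end Pool.Agent.R97.SignMoments
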