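import Mathlib
import Pool.Agent.R97.SignMoments

/-!
# A group of periodic binary sequences, a sparse Bohr dense set and a dense set avoiding it
-/

namespace Pool.Agent.R97.BohrPart

open Finset Pool.Agent.R97.SignMoments

/-! ## The periods -/

/-- Exponents. -/
def aa (k : ℕ) : ℕ := (k + 4) ^ 2

/-- Periods. -/
def NN (k : ℕ) : ℕ := 4 ^ aa k

theorem NN_pos (k : ℕ) : 0 < NN k := by unfold NN; positivity

theorem aa_mono {j k : ℕ} (h : j ≤ k) : aa j ≤ aa k := by
  unfold aa; exact Nat.pow_le_pow_left (by omega) 2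

theorem aa_gap {j k : ℕ} (h : j < k) : aa j + (2 * k + 7) ≤ aa k := by
  obtain ⟨m, rfl⟩ : ∃ m, k = m + 1 := ⟨k - 1, by omega⟩
  have h1 : aa j ≤ aa m := aa_mono (by omega)
  have h2 : aa (m + 1) = aa m + (2 * (m + 1) + 7) := by unfold aa; ring
  omega

theorem NN_dvd {j k : ℕ} (h : j ≤ k) : NN j ∣ NN k := pow_dvd_pow 4 (aa_mono h)

theorem NN_div {j k : ℕ} (h : j ≤ k) : NN k / NN j = 4 ^ (aa k - aa j) := by
  unfold NN
  rw [Nat.pow_div (aa_mono h) (by norm_num)]

theorem NN_mul_div {j k : ℕ} (h : j ≤ k) : NN j * (NN k / NN j) = NN k :=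
  Nat.mul_div_cancel' (NN_dvd h)

theorem two_mul_lt_div {j k : ℕ} (h : j < k) : 2 * k < NN k / NN j := by
  rw [NN_div h.le]
  have h1 : k + 1 ≤ aa k - aa j := by have := aa_gap h; omega
  have h2 : 4 ^ (k + 1) ≤ 4 ^ (aa k - aa j) := Nat.pow_le_pow_right (by norm_num) h1
  have h3 : 2 * k < 4 ^ (k + 1) := by
    have h4 : k + 1 < 2 ^ (k + 1) := Nat.lt_two_pow_self
    have h5 : (4 : ℕ) ^ (k + 1) = 2 ^ (k + 1) * 2 ^ (k + 1) := by
      rw [← mul_pow]; norm_num
    rw [h5]
    nlinarith
  omega

/-! ## Periodic functions, weights and sign sums -/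

/-- The function has period `NN k`. -/
abbrev Per (k : ℕ) (f : ℕ → ZMod 2) : Prop := Function.Periodic f (NN k)

theorem Per.mono {j k : ℕ} (h : j ≤ k) {f : ℕ → ZMod 2} (hf : Per j f) : Per k f := by
  obtain ⟨c, hc⟩ := NN_dvd h
  have : Function.Periodic f (c * NN j) := hf.nat_mul c
  rw [mul_comm] at this
  unfold Per
  rw [hc]
  exact this

theorem Per.add {k : ℕ} {f g : ℕ → ZMod 2} (hf : Per k f) (hg : Per k g) : Per k (f + g) := by
  intro i
  show f (i + NN k) + g (i + NN k) = f i + g i
  rw [hf i, hg i]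

theorem Per.zero (k : ℕ) : Per k 0 := fun _ => rfl

theorem Per.one (k : ℕ) : Per k 1 := fun _ => rfl

/-- The weight at level `j`. -/
def wt (j : ℕ) (f : ℕ → ZMod 2) : ℕ := ((range (NN j)).filter (fun i => f i = 1)).card

theorem wt_add (j : ℕ) (f g : ℕ → ZMod 2) : wt j (f + g) ≤ wt j f + wt j g := by
  unfold wt
  refine le_trans (card_le_card ?_) (card_union_le _ _)
  intro i hi
  simp only [mem_filter, mem_range, mem_union] at hi ⊢
  obtain ⟨h1, h2⟩ := hi
  have h3 : f i + g i = 1 := h2
  rcases zmod2_cases (f i) with h | h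
  · rw [h, zero_add] at h3
    exact Or.inr ⟨h1, h3⟩
  · exact Or.inl ⟨h1, h⟩

theorem add_self (f : ℕ → ZMod 2) : f + f = 0 := by
  funext i
  show f i + f i = 0
  rcases zmod2_cases (f i) with h | h <;> rw [h] <;> decide

theorem wt_big {j i : ℕ} (h : j < i) {f : ℕ → ZMod 2} (hf : Per j f) (hw : wt i f ≤ 2 * i) :
    f = 0 := by
  by_contra hne
  have : ∃ s, f s = 1 := by
    by_contra hcon
    push Not at hcon
    apply hne
    funext s
    rcases zmod2_cases (f s) with h | h
    · exact h
    · exact absurd h (hcon s)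
  obtain ⟨s, hs⟩ := this
  set r := s % NN j with hr
  have hr1 : r < NN j := Nat.mod_lt _ (NN_pos j)
  have hr2 : f r = 1 := by rw [hr, hf.map_mod_nat]; exact hs
  have hsub : (range (NN i / NN j)).image (fun t => r + NN j * t) ⊆
      (range (NN i)).filter (fun i => f i = 1) := by
    intro u hu
    obtain ⟨t, ht, rfl⟩ := mem_image.1 hu
    rw [mem_range] at ht
    rw [mem_filter, mem_range]
    constructor
    · have h1 := NN_mul_div h.le
      have h2 : NN j * (t + 1) ≤ NN j * (NN i / NN j) := Nat.mul_le_mul_left _ ht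
      rw [h1] at h2
      nlinarith
    · have := hf.nat_mul t r
      rw [Nat.cast_id, mul_comm] at this
      show f (r + NN j * t) = 1
      rw [this]; exact hr2
  have hc := card_le_card hsub
  rw [card_image_of_injective, card_range] at hc
  · have := two_mul_lt_div h
    unfold wt at hw
    omega
  · intro t t' htt
    have h1 : r + NN j * t = r + NN j * t' := htt
    have h2 : NN j * t = NN j * t' := by omega
    exact Nat.eq_of_mul_eq_mul_left (NN_pos j) h2

/-- The sparse set: at some level `j` the function has period `NN j` and weight at most `j`. -/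
def DD (f : ℕ → ZMod 2) : Prop := ∃ j, Per j f ∧ wt j f ≤ j

theorem DD.zero : DD 0 := ⟨0, Per.zero 0, by simp [wt]⟩

/-- If `d + d'` has period `NN l` one can replace `d, d'` by elements of the sparse set with
period `NN l`. -/
theorem reduce {l : ℕ} {d d' : ℕ → ZMod 2} (hd : DD d) (hd' : DD d') (h : Per l (d + d')) :
    ∃ e e', DD e ∧ DD e' ∧ Per l e ∧ Per l e' ∧ e + e' = d + d' := by
  obtain ⟨i, hi, hwi⟩ := hd
  obtain ⟨i', hi', hwi'⟩ := hd'
  -- symmetric in i, i'
  have main : ∀ (i i' : ℕ) (d d' : ℕ → ZMod 2), i' ≤ i → Per i d → wt i d ≤ i → Per i' d' →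
      wt i' d' ≤ i' → Per l (d + d') →
      ∃ e e', DD e ∧ DD e' ∧ Per l e ∧ Per l e' ∧ e + e' = d + d' := by
    intro i i' d d' hii hi hwi hi' hwi' h
    by_cases hil : i ≤ l
    · exact ⟨d, d', ⟨i, hi, hwi⟩, ⟨i', hi', hwi'⟩, hi.mono hil, hi'.mono (hii.trans hil), rfl⟩
    · push Not at hil
      rcases lt_or_eq_of_le hii with hlt | rfl
      · -- d has period NN (i-1)
        have hd0 : d = 0 := by
          have h1 : Per (i - 1) (d + d') := h.mono (by omega)
          have h2 : Per (i - 1) d' := hi'.mono (by omega)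
          have h3 : Per (i - 1) (d + d' + d') := h1.add h2
          have h4 : d + d' + d' = d := by rw [add_assoc, add_self, add_zero]
          rw [h4] at h3
          exact wt_big (j := i - 1) (i := i) (by omega) h3 (by omega)
        subst hd0
        rw [zero_add] at h
        exact ⟨0, d', DD.zero, ⟨i', hi', hwi'⟩, Per.zero l, h, rfl⟩
      · have h0 : d + d' = 0 := by
          apply wt_big hil h
          have := wt_add i' d d'
          omega
        exact ⟨0, 0, DD.zero, DD.zero, Per.zero l, Per.zero l, by rw [h0, add_zero]⟩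
  rcases le_total i' i with hle | hle
  · exact main i i' d d' hle hi hwi hi' hwi' h
  · rw [add_comm] at h
    obtain ⟨e, e', h1, h2, h3, h4, h5⟩ := main i' i d' d hle hi' hwi' hi hwi h
    exact ⟨e', e, h2, h1, h4, h3, by rw [add_comm, h5, add_comm]⟩

/-- The sign sum at level `k`. -/
noncomputable def S (k : ℕ) (f : ℕ → ZMod 2) : ℝ := ∑ i ∈ range (NN k), sg (f i)

theorem S_one_add (k : ℕ) (f : ℕ → ZMod 2) : S k (1 + f) = -S k f := by
  unfold S
  rw [← sum_neg_distrib]
  refine sum_congr rfl fun i _ => ?_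
  show sg (1 + f i) = _
  rw [add_comm, sg_add_one]

/-- Half of the blocks. -/
def tt (k : ℕ) (i : ℕ) : ZMod 2 := if (i / NN k) % 2 = 0 then 0 else 1

theorem NN_succ (k : ℕ) : NN (k + 1) = 2 * NN k * (2 * 4 ^ (2 * k + 8)) := by
  unfold NN
  have : aa (k + 1) = aa k + (2 * k + 9) := by unfold aa; ring
  rw [this, pow_add, show 2 * k + 9 = (2 * k + 8) + 1 by ring, pow_succ]
  ring

theorem tt_shift (k i : ℕ) : tt k (i + NN k) = 1 + tt k i := by
  unfold tt
  rw [Nat.add_div_right _ (NN_pos k)]
  have : (1 : ZMod 2) + 1 = 0 := by decide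
  by_cases h : (i / NN k) % 2 = 0
  · have h2 : ¬ ((i / NN k).succ % 2 = 0) := by omega
    rw [if_neg h2, if_pos h, add_zero]
  · have h2 : ((i / NN k).succ % 2 = 0) := by omega
    rw [if_pos h2, if_neg h, this]

theorem tt_shift2 (k i : ℕ) : tt k (i + 2 * NN k) = tt k i := by
  have h : i + 2 * NN k = i + NN k + NN k := by ring
  rw [h, tt_shift, tt_shift, ← add_assoc]
  have : (1 : ZMod 2) + 1 = 0 := by decide
  rw [this, zero_add]

theorem tt_per (k : ℕ) : Per (k + 1) (tt k) := by
  have h : Function.Periodic (tt k) (2 * NN k) := tt_shift2 k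
  have h2 := h.nat_mul (2 * 4 ^ (2 * k + 8))
  unfold Per
  rw [NN_succ, mul_comm]
  exact_mod_cast h2

theorem S_half {k : ℕ} {g : ℕ → ZMod 2} (hg : Per k g) : S (k + 1) (tt k + g) = 0 := by
  unfold S
  rw [NN_succ]
  have hF : ∀ i, sg ((tt k + g) (i + NN k)) = -sg ((tt k + g) i) := by
    intro i
    show sg (tt k (i + NN k) + g (i + NN k)) = -sg (tt k i + g i)
    rw [tt_shift, hg i, show 1 + tt k i + g i = (tt k i + g i) + 1 by ring, sg_add_one]
  have hm : ∀ m : ℕ, ∑ i ∈ range (2 * NN k * m), sg ((tt k + g) i) = 0 := by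
    intro m
    induction m with
    | zero => simp
    | succ m ih =>
      rw [Nat.mul_succ, Finset.sum_range_add, ih, zero_add, two_mul (NN k), Finset.sum_range_add]
      rw [← Finset.sum_add_distrib]
      refine Finset.sum_eq_zero fun i _ => ?_
      have e : (NN k + NN k) * m + (NN k + i) = (NN k + NN k) * m + i + NN k := by ring
      rw [e, hF]
      ring
  exact hm _

/-- The good functions at level `k`. -/
def Good (k : ℕ) (f : ℕ → ZMod 2) : Prop :=
  Per k f ∧ ∀ d d', DD d → DD d' → Per k d → Per k d' → 0 < S k (f + d + d')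

/-- The dense set. -/
def BB (g : ℕ → ZMod 2) : Prop := ∃ k f, Good (k + 1) f ∧ g = tt k + f

theorem BB_sum_aux {k l : ℕ} (hkl : k ≤ l) {x y : ℕ → ZMod 2} (hx : Good (k + 1) x)
    (hy : Good (l + 1) y) {d d' : ℕ → ZMod 2} (hd : DD d) (hd' : DD d') :
    (tt k + x) + (tt l + y) ≠ 1 + d + d' := by
  intro heq
  have hPk : Per (l + 1) (tt k + x) := ((tt_per k).add hx.1).mono (by omega)
  have hPl : Per (l + 1) (tt l + y) := (tt_per l).add hy.1
  have hP : Per (l + 1) (d + d') := by
    have h1 : d + d' = 1 + ((tt k + x) + (tt l + y)) := by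
      rw [heq, ← add_assoc, ← add_assoc, add_self, zero_add]
    rw [h1]
    exact (Per.one _).add (hPk.add hPl)
  obtain ⟨e, e', he, he', hpe, hpe', hee⟩ := reduce hd hd' hP
  have heq2 : (tt k + x) + (tt l + y) = 1 + (e + e') := by rw [heq, hee, add_assoc]
  rcases lt_or_eq_of_le hkl with hlt | rfl
  · -- k < l
    have hpos := hy.2 e e' he he' hpe hpe'
    have h1 : y + e + e' = 1 + (tt l + (tt k + x)) := by
      have h2 : e + e' = 1 + ((tt k + x) + (tt l + y)) := by
        rw [heq2, ← add_assoc, add_self, zero_add]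
      calc y + e + e' = y + (e + e') := by rw [add_assoc]
        _ = y + (1 + ((tt k + x) + (tt l + y))) := by rw [h2]
        _ = 1 + (tt l + (tt k + x)) + (y + y) := by abel
        _ = 1 + (tt l + (tt k + x)) := by rw [add_self, add_zero]
    have hg : Per l (tt k + x) := ((tt_per k).add hx.1).mono (by omega)
    rw [h1, S_one_add, S_half hg] at hpos
    norm_num at hpos
  · have hpos := hx.2 e e' he he' hpe hpe'
    have hpos2 := hy.2 0 0 DD.zero DD.zero (Per.zero _) (Per.zero _)
    rw [add_zero, add_zero] at hpos2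
    have h1 : y = 1 + (x + e + e') := by
      calc y = (tt k + tt k) + (x + x) + y := by rw [add_self, add_self]; simp
        _ = ((tt k + x) + (tt k + y)) + x := by abel
        _ = 1 + (e + e') + x := by rw [heq2]
        _ = 1 + (x + e + e') := by abel
    rw [h1, S_one_add] at hpos2
    linarith

/-- `B + B` misses `1 + D + D`. -/
theorem BB_sum {b b' d d' : ℕ → ZMod 2} (hb : BB b) (hb' : BB b') (hd : DD d) (hd' : DD d') :
    b + b' ≠ 1 + d + d' := by
  obtain ⟨k, x, hx, rfl⟩ := hb
  obtain ⟨l, y, hy, rfl⟩ := hb'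
  rcases le_total k l with h | h
  · exact BB_sum_aux h hx hy hd hd'
  · rw [add_comm (tt k + x)]
    exact BB_sum_aux h hy hx hd hd'

end Pool.Agent.R97.BohrPart
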