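import Mathlib
import Pool.Agent.R97.BohrPart

/-!
# The good functions have positive density at every level
-/

namespace Pool.Agent.R97.BohrDens

open Finset Pool.Agent.R97.SignMoments Pool.Agent.R97.BohrPart

/-- Periodic extension. -/
def ext (k : ℕ) (x : Fin (NN k) → ZMod 2) : ℕ → ZMod 2 :=
  fun i => x ⟨i % NN k, Nat.mod_lt _ (NN_pos k)⟩

theorem ext_per (k : ℕ) (x : Fin (NN k) → ZMod 2) : Per k (ext k x) := by
  intro i
  unfold ext
  simp [Nat.add_mod_right]

theorem ext_apply (k : ℕ) (x : Fin (NN k) → ZMod 2) (i : Fin (NN k)) : ext k x i = x i := by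
  unfold ext
  congr 1
  exact Fin.ext (Nat.mod_eq_of_lt i.2)

theorem ext_injective (k : ℕ) : Function.Injective (ext k) := by
  intro x y h
  funext i
  rw [← ext_apply k x, ← ext_apply k y, h]

theorem ext_surj (k : ℕ) {f : ℕ → ZMod 2} (hf : Per k f) : ext k (fun i => f i) = f := by
  funext i
  unfold ext
  exact hf.map_mod_nat i

/-- A residue class. -/
def cls (k j r : ℕ) : Finset (Fin (NN k)) := univ.filter (fun i => i.1 % NN j = r)

theorem card_cls {j k r : ℕ} (h : j ≤ k) (hr : r < NN j) : (cls k j r).card = NN k / NN j := by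
  rw [← card_range (NN k / NN j)]
  have hmul := NN_mul_div h
  refine Finset.card_nbij (fun i => i.1 / NN j) ?_ ?_ ?_
  · intro i hi
    simp only [coe_range, Set.mem_Iio]
    rw [Nat.div_lt_iff_lt_mul (NN_pos j), mul_comm, hmul]
    exact i.2
  · intro i hi i' hi' hii
    simp only [cls, coe_filter, mem_univ, true_and, Set.mem_ofPred_eq] at hi hi'
    have h1 : i.1 / NN j = i'.1 / NN j := hii
    apply Fin.ext
    rw [← Nat.div_add_mod i.1 (NN j), ← Nat.div_add_mod i'.1 (NN j), h1, hi, hi']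
  · intro t ht
    simp only [coe_range, Set.mem_Iio] at ht
    have h1 : r + NN j * t < NN k := by
      have h2 : NN j * (t + 1) ≤ NN j * (NN k / NN j) := Nat.mul_le_mul_left _ ht
      rw [hmul] at h2
      nlinarith
    refine ⟨⟨r + NN j * t, h1⟩, ?_, ?_⟩
    · simp only [cls, coe_filter, mem_univ, true_and, Set.mem_ofPred_eq]
      rw [Nat.add_mul_mod_self_left, Nat.mod_eq_of_lt hr]
    · show (r + NN j * t) / NN j = t
      rw [Nat.add_mul_div_left _ _ (NN_pos j), Nat.div_eq_of_lt hr, zero_add]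

/-- Bound for the sum over a union of few residue classes. -/
theorem bound_union {j k : ℕ} {x : Fin (NN k) → ZMod 2} {c : ℝ}
    (hc : 0 ≤ c) (hx : ∀ r < NN j, (j : ℝ) * |X (cls k j r) x| ≤ c) (P : ℕ → Prop)
    [DecidablePred P] (hP : ∀ i, P (i % NN j) ↔ P i)
    (hcard : ((range (NN j)).filter P).card ≤ j) :
    |X (univ.filter (fun i : Fin (NN k) => P i.1)) x| ≤ c := by
  classical
  set R := (range (NN j)).filter P with hR
  have hsum : X (univ.filter (fun i : Fin (NN k) => P i.1)) x = ∑ r ∈ R, X (cls k j r) x := by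
    unfold X
    rw [← Finset.sum_fiberwise_of_maps_to (s := univ.filter (fun i : Fin (NN k) => P i.1))
      (t := R) (g := fun i => i.1 % NN j)]
    · refine sum_congr rfl fun r hr => ?_
      refine sum_congr ?_ fun _ _ => rfl
      ext i
      simp only [mem_filter, mem_univ, true_and, cls]
      constructor
      · exact fun h => h.2
      · intro h
        refine ⟨?_, h⟩
        rw [← hP, h]
        exact (mem_filter.1 hr).2
    · intro i hi
      simp only [mem_filter, mem_univ, true_and] at hi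
      rw [hR, mem_filter, mem_range]
      exact ⟨Nat.mod_lt _ (NN_pos j), (hP _).2 hi⟩
  rw [hsum]
  refine le_trans (Finset.abs_sum_le_sum_abs _ _) ?_
  rcases Nat.eq_zero_or_pos j with h0 | hj
  · have : R = ∅ := by
      rw [← Finset.card_eq_zero]; omega
    rw [this]; simpa using hc
  · have hj' : (0 : ℝ) < j := by exact_mod_cast hj
    have h1 : (j : ℝ) * ∑ r ∈ R, |X (cls k j r) x| ≤ j * c := by
      rw [Finset.mul_sum]
      calc ∑ r ∈ R, (j : ℝ) * |X (cls k j r) x| ≤ ∑ r ∈ R, c := by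
            refine sum_le_sum fun r hr => hx r ?_
            have := (mem_filter.1 hr).1
            exact mem_range.1 this
        _ = R.card * c := by rw [sum_const, nsmul_eq_mul]
        _ ≤ j * c := by
            apply mul_le_mul_of_nonneg_right _ hc
            exact_mod_cast hcard
    exact le_of_mul_le_mul_left h1 hj'

theorem level_le {k : ℕ} {d : ℕ → ZMod 2} (hd : DD d) (hk : Per k d) :
    ∃ j ≤ k, Per j d ∧ wt j d ≤ j := by
  obtain ⟨j, hj, hw⟩ := hd
  by_cases h : j ≤ k
  · exact ⟨j, h, hj, hw⟩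
  · push Not at h
    have : d = 0 := wt_big h hk (by omega)
    subst this
    exact ⟨0, Nat.zero_le _, Per.zero 0, by simp [wt]⟩

theorem sg_eq (a : ZMod 2) : sg a = 1 - 2 * (if a = 1 then 1 else 0) := by
  rcases zmod2_cases a with rfl | rfl
  · simp
  · simp; norm_num

theorem S_expand {k : ℕ} (x : Fin (NN k) → ZMod 2) (d d' : ℕ → ZMod 2) :
    S k (ext k x + d + d') = X univ x - 2 * X (univ.filter (fun i : Fin (NN k) => d i.1 = 1)) x
      - 2 * X (univ.filter (fun i : Fin (NN k) => d' i.1 = 1)) x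
      + 4 * X (univ.filter (fun i : Fin (NN k) => (d i.1 = 1 ∧ d' i.1 = 1))) x := by
  unfold S X
  rw [Finset.sum_range, Finset.sum_filter, Finset.sum_filter, Finset.sum_filter,
    Finset.mul_sum, Finset.mul_sum, Finset.mul_sum, ← Finset.sum_sub_distrib,
    ← Finset.sum_sub_distrib, ← Finset.sum_add_distrib]
  refine sum_congr rfl fun i _ => ?_
  have e : (ext k x + d + d') (i : ℕ) = x i + d i + d' i := by
    show ext k x (i : ℕ) + d i + d' i = _
    rw [ext_apply]
  rw [e, sg_add, sg_add, sg_eq (d i), sg_eq (d' i)]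
  by_cases h1 : d i = 1 <;> by_cases h2 : d' i = 1 <;> simp [h1, h2] <;> ring

/-- Sufficient condition for goodness. -/
theorem good_of {k : ℕ} {x : Fin (NN k) → ZMod 2} {q : ℝ} (hq : 0 < q)
    (h1 : q / 2 ≤ X univ x)
    (h2 : ∀ j ≤ k, ∀ r < NN j, (j : ℝ) * |X (cls k j r) x| < q / 20) : Good k (ext k x) := by
  refine ⟨ext_per k x, fun d d' hd hd' hk hk' => ?_⟩
  obtain ⟨j, hjk, hj, hw⟩ := level_le hd hk
  obtain ⟨j', hjk', hj', hw'⟩ := level_le hd' hk'
  have hc : (0 : ℝ) ≤ q / 20 := by positivity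
  have b1 : |X (univ.filter (fun i : Fin (NN k) => d i.1 = 1)) x| ≤ q / 20 :=
    bound_union hc (fun r hr => (h2 j hjk r hr).le) (fun i => d i = 1)
      (fun i => by rw [hj.map_mod_nat]) hw
  have b2 : |X (univ.filter (fun i : Fin (NN k) => d' i.1 = 1)) x| ≤ q / 20 :=
    bound_union hc (fun r hr => (h2 j' hjk' r hr).le) (fun i => d' i = 1)
      (fun i => by rw [hj'.map_mod_nat]) hw'
  have b3 : |X (univ.filter (fun i : Fin (NN k) => (d i.1 = 1 ∧ d' i.1 = 1))) x| ≤ q / 20 := by
    rcases le_total j j' with hle | hle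
    · refine bound_union hc (fun r hr => (h2 j' hjk' r hr).le) (fun i => d i = 1 ∧ d' i = 1)
        (fun i => by rw [hj'.map_mod_nat, (hj.mono hle).map_mod_nat]) ?_
      refine le_trans (card_le_card ?_) hw'
      intro i hi
      simp only [mem_filter] at hi ⊢
      exact ⟨hi.1, hi.2.2⟩
    · refine bound_union hc (fun r hr => (h2 j hjk r hr).le) (fun i => d i = 1 ∧ d' i = 1)
        (fun i => by rw [hj.map_mod_nat, (hj'.mono hle).map_mod_nat]) ?_
      refine le_trans (card_le_card ?_) hw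
      intro i hi
      simp only [mem_filter] at hi ⊢
      exact ⟨hi.1, hi.2.1⟩
  rw [S_expand]
  have c1 := abs_le.1 b1
  have c2 := abs_le.1 b2
  have c3 := abs_le.1 b3
  linarith [c1.1, c1.2, c2.1, c2.2, c3.1, c3.2]

theorem num_bound (j : ℕ) : (480000 : ℝ) * (j : ℝ) ^ 4 / NN j ≤ (3 / 64) * (1 / 2) ^ (j + 1) := by
  have hN : (0 : ℝ) < NN j := by exact_mod_cast NN_pos j
  rw [div_le_iff₀ hN]
  have h1 : (j : ℝ) ≤ 2 ^ j := by exact_mod_cast (Nat.lt_two_pow_self (n := j)).le
  have h2 : (j : ℝ) ^ 4 ≤ (2 ^ j) ^ 4 := pow_le_pow_left₀ (by positivity) h1 4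
  have h3 : (2 : ℝ) ^ (25 + 5 * j) ≤ NN j := by
    unfold NN aa
    push_cast
    rw [show (4 : ℝ) = 2 ^ 2 by norm_num, ← pow_mul]
    apply pow_le_pow_right₀ (by norm_num)
    nlinarith
  have h4 : (1 / 2 : ℝ) ^ (j + 1) * 2 ^ (j + 1) = 1 := by
    rw [← mul_pow]; norm_num
  have h5 : (2 : ℝ) ^ (25 + 5 * j) = 2 ^ 24 * (2 ^ j) ^ 4 * 2 ^ (j + 1) := by
    rw [← pow_mul, ← pow_add, ← pow_add]; congr 1; ring
  have hp : (0 : ℝ) < (1 / 2 : ℝ) ^ (j + 1) := by positivity
  calc (480000 : ℝ) * (j : ℝ) ^ 4 ≤ 480000 * (2 ^ j) ^ 4 := by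
        apply mul_le_mul_of_nonneg_left h2; norm_num
    _ = 480000 * (2 ^ j) ^ 4 * ((1 / 2 : ℝ) ^ (j + 1) * 2 ^ (j + 1)) := by rw [h4, mul_one]
    _ ≤ 3 / 64 * 2 ^ 24 * (2 ^ j) ^ 4 * ((1 / 2 : ℝ) ^ (j + 1) * 2 ^ (j + 1)) := by
        apply mul_le_mul_of_nonneg_right _ (by positivity)
        apply mul_le_mul_of_nonneg_right _ (by positivity)
        norm_num
    _ = 3 / 64 * (1 / 2) ^ (j + 1) * (2 ^ 24 * (2 ^ j) ^ 4 * 2 ^ (j + 1)) := by ring
    _ = 3 / 64 * (1 / 2) ^ (j + 1) * 2 ^ (25 + 5 * j) := by rw [h5]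
    _ ≤ 3 / 64 * (1 / 2) ^ (j + 1) * NN j := by
        apply mul_le_mul_of_nonneg_left h3; positivity

open Classical in
/-- The good functions have density at least `31/512`. -/
theorem good_card (k : ℕ) : (31 / 512 : ℝ) * 2 ^ NN k ≤
    ((univ.filter (fun x : Fin (NN k) → ZMod 2 => Good k (ext k x))).card : ℝ) := by
  set q : ℝ := 2 ^ aa k with hqdef
  have hq : 0 < q := by positivity
  have hq2 : q ^ 2 = Fintype.card (Fin (NN k)) := by
    rw [Fintype.card_fin, hqdef]
    unfold NN
    push_cast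
    rw [← pow_mul, mul_comm, pow_mul]
    norm_num
  have hbig := large_card (ι := Fin (NN k)) hq hq2
  rw [Fintype.card_fin] at hbig hq2
  have hsub : univ.filter (fun x : Fin (NN k) → ZMod 2 => q / 2 ≤ X univ x) ⊆
      (univ.filter (fun x : Fin (NN k) → ZMod 2 => Good k (ext k x))) ∪
      (range (k + 1)).biUnion (fun j => (range (NN j)).biUnion (fun r =>
        univ.filter (fun x : Fin (NN k) → ZMod 2 => q / 20 ≤ (j : ℝ) * |X (cls k j r) x|))) := by
    intro x hx
    simp only [mem_filter, mem_univ, true_and] at hx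
    rw [mem_union]
    by_cases h : ∀ j ≤ k, ∀ r < NN j, (j : ℝ) * |X (cls k j r) x| < q / 20
    · left
      simp only [mem_filter, mem_univ, true_and]
      exact good_of hq hx h
    · right
      push Not at h
      obtain ⟨j, hj, r, hr, h⟩ := h
      simp only [mem_biUnion, mem_range, mem_filter, mem_univ, true_and]
      exact ⟨j, by omega, r, hr, h⟩
  have hcard := le_trans (card_le_card hsub) (card_union_le _ _)
  have hbad : ((((range (k + 1)).biUnion (fun j => (range (NN j)).biUnion (fun r =>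
        univ.filter (fun x : Fin (NN k) → ZMod 2 =>
          q / 20 ≤ (j : ℝ) * |X (cls k j r) x|)))).card : ℕ) : ℝ) ≤ 3 / 64 * 2 ^ NN k := by
    have hj : ∀ j ∈ range (k + 1), ((((range (NN j)).biUnion (fun r =>
        univ.filter (fun x : Fin (NN k) → ZMod 2 =>
          q / 20 ≤ (j : ℝ) * |X (cls k j r) x|))).card : ℕ) : ℝ) ≤
        (3 / 64) * (1 / 2) ^ (j + 1) * 2 ^ NN k := by
      intro j hj
      rw [mem_range] at hj
      have hjk : j ≤ k := by omega
      have hNj : (0 : ℝ) < NN j := by exact_mod_cast NN_pos j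
      have hNk : (0 : ℝ) < NN k := by exact_mod_cast NN_pos k
      have hr : ∀ r ∈ range (NN j), (((univ.filter (fun x : Fin (NN k) → ZMod 2 =>
          q / 20 ≤ (j : ℝ) * |X (cls k j r) x|)).card : ℕ) : ℝ) ≤
          480000 * (j : ℝ) ^ 4 / (NN j) ^ 2 * 2 ^ NN k := by
        intro r hr
        rw [mem_range] at hr
        have := tail_card (cls k j r) (w := (j : ℝ)) (q := q / 20) (by positivity) (by positivity)
        rw [Fintype.card_fin, card_cls hjk hr] at this
        refine le_trans this (le_of_eq ?_)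
        have e1 : ((NN k / NN j : ℕ) : ℝ) = (NN k : ℝ) / NN j := by
          rw [Nat.cast_div (NN_dvd hjk) (by positivity)]
        have e2 : (q / 20) ^ 4 = (NN k : ℝ) ^ 2 / 160000 := by
          rw [← hq2]; ring
        rw [e1, e2]
        field_simp
        ring
      have h1 := Finset.card_biUnion_le (s := range (NN j)) (t := fun r =>
        univ.filter (fun x : Fin (NN k) → ZMod 2 => q / 20 ≤ (j : ℝ) * |X (cls k j r) x|))
      have h2 : ((((range (NN j)).biUnion (fun r =>
        univ.filter (fun x : Fin (NN k) → ZMod 2 =>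
          q / 20 ≤ (j : ℝ) * |X (cls k j r) x|))).card : ℕ) : ℝ) ≤
          ∑ r ∈ range (NN j), (((univ.filter (fun x : Fin (NN k) → ZMod 2 =>
          q / 20 ≤ (j : ℝ) * |X (cls k j r) x|)).card : ℕ) : ℝ) := by exact_mod_cast h1
      refine le_trans h2 (le_trans (sum_le_sum hr) ?_)
      rw [sum_const, card_range, nsmul_eq_mul]
      have h3 := num_bound j
      calc (NN j : ℝ) * (480000 * (j : ℝ) ^ 4 / (NN j) ^ 2 * 2 ^ NN k)
          = (480000 * (j : ℝ) ^ 4 / NN j) * 2 ^ NN k := by field_simp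
        _ ≤ _ := by
          apply mul_le_mul_of_nonneg_right h3; positivity
    have h1 := Finset.card_biUnion_le (s := range (k + 1)) (t := fun j =>
      (range (NN j)).biUnion (fun r =>
        univ.filter (fun x : Fin (NN k) → ZMod 2 => q / 20 ≤ (j : ℝ) * |X (cls k j r) x|)))
    have h2 : ((((range (k + 1)).biUnion (fun j => (range (NN j)).biUnion (fun r =>
        univ.filter (fun x : Fin (NN k) → ZMod 2 =>
          q / 20 ≤ (j : ℝ) * |X (cls k j r) x|)))).card : ℕ) : ℝ) ≤
        ∑ j ∈ range (k + 1), ((((range (NN j)).biUnion (fun r =>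
        univ.filter (fun x : Fin (NN k) → ZMod 2 =>
          q / 20 ≤ (j : ℝ) * |X (cls k j r) x|))).card : ℕ) : ℝ) := by exact_mod_cast h1
    refine le_trans h2 (le_trans (sum_le_sum hj) ?_)
    have hgeo : ∀ m : ℕ, ∑ j ∈ range m, (1 / 2 : ℝ) ^ (j + 1) = 1 - (1 / 2) ^ m := by
      intro m
      induction m with
      | zero => simp
      | succ m ih => rw [sum_range_succ, ih]; ring
    rw [← Finset.sum_mul, ← Finset.mul_sum, hgeo]
    have hp : (0 : ℝ) < (1 / 2 : ℝ) ^ (k + 1) := by positivity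
    apply mul_le_mul_of_nonneg_right _ (by positivity)
    linarith
  have hcard' : ((univ.filter (fun x : Fin (NN k) → ZMod 2 => q / 2 ≤ X univ x)).card : ℝ) ≤
      ((univ.filter (fun x : Fin (NN k) → ZMod 2 => Good k (ext k x))).card : ℝ) +
      ((((range (k + 1)).biUnion (fun j => (range (NN j)).biUnion (fun r =>
        univ.filter (fun x : Fin (NN k) → ZMod 2 =>
          q / 20 ≤ (j : ℝ) * |X (cls k j r) x|)))).card : ℕ) : ℝ) := by exact_mod_cast hcard
  linarith

end Pool.Agent.R97.BohrDens
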