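import Mathlib

/-!
# Convolution powers of functions on `ZMod n`
-/

namespace Pool.Agent.R97.DiceConv

open Finset

variable {n : ℕ} [NeZero n]

/-- The `N`-fold convolution power of `p`. -/
noncomputable def c (p : ZMod n → ℝ) : ℕ → ZMod n → ℝ
  | 0, x => if x = 0 then 1 else 0
  | N + 1, x => ∑ a, p a * c p N (x - a)

@[simp] theorem c_zero (p : ZMod n → ℝ) (x : ZMod n) : c p 0 x = if x = 0 then 1 else 0 := rfl

theorem c_succ (p : ZMod n → ℝ) (N : ℕ) (x : ZMod n) :
    c p (N + 1) x = ∑ a, p a * c p N (x - a) := rfl

theorem c_nonneg {p : ZMod n → ℝ} (hp : ∀ a, 0 ≤ p a) (N : ℕ) : ∀ x, 0 ≤ c p N x := by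
  induction N with
  | zero => intro x; rw [c_zero]; split_ifs <;> norm_num
  | succ N ih =>
    intro x
    rw [c_succ]
    exact Finset.sum_nonneg (fun a _ => mul_nonneg (hp a) (ih _))

theorem c_sum (p : ZMod n → ℝ) (N : ℕ) : ∑ x, c p N x = (∑ a, p a) ^ N := by
  induction N with
  | zero => simp
  | succ N ih =>
    simp only [c_succ]
    rw [Finset.sum_comm]
    have : ∀ a, ∑ x, p a * c p N (x - a) = p a * (∑ a, p a) ^ N := by
      intro a
      rw [← Finset.mul_sum, ← ih]
      congr 1
      exact Fintype.sum_equiv (Equiv.subRight a) _ _ (fun x => rfl)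
    rw [Finset.sum_congr rfl (fun a _ => this a), ← Finset.sum_mul, pow_succ, mul_comm]

theorem c_continuous (N : ℕ) : ∀ x, Continuous (fun p : ZMod n → ℝ => c p N x) := by
  induction N with
  | zero => intro x; simp only [c_zero]; exact continuous_const
  | succ N ih =>
    intro x
    simp only [c_succ]
    exact continuous_finsetSum _ (fun a _ => (continuous_apply a).mul (ih _))

/-- Derivative of the convolution power in the direction `q`. -/
theorem c_hasDerivAt (p q : ZMod n → ℝ) (N : ℕ) : ∀ x,
    HasDerivAt (fun s : ℝ => c (fun a => p a + s * q a) N x)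
      (N * ∑ a, q a * c p (N - 1) (x - a)) 0 := by
  induction N with
  | zero =>
    intro x
    simp only [c_zero, Nat.cast_zero, zero_mul]
    exact hasDerivAt_const _ _
  | succ N ih =>
    intro x
    simp only [c_succ]
    have h1 : ∀ a, HasDerivAt (fun s : ℝ => (p a + s * q a) * c (fun a => p a + s * q a) N (x - a))
        (q a * c p N (x - a) + p a * (N * ∑ b, q b * c p (N - 1) (x - a - b))) 0 := by
      intro a
      have h2 : HasDerivAt (fun s : ℝ => p a + s * q a) (q a) 0 := by
        have := ((hasDerivAt_id (0 : ℝ)).mul_const (q a)).const_add (p a)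
        simpa using this
      have h3 := h2.fun_mul (ih (x - a))
      simpa using h3
    have h4 := HasDerivAt.fun_sum (u := Finset.univ) (fun a _ => h1 a)
    suffices hval : ∑ i, (q i * c p N (x - i) + p i * (↑N * ∑ b, q b * c p (N - 1) (x - i - b)))
        = ((N + 1 : ℕ) : ℝ) * ∑ a, q a * c p (N + 1 - 1) (x - a) by
      rw [← hval]; exact h4
    rw [Finset.sum_add_distrib]
    have h5 : ∑ a, p a * (N * ∑ b, q b * c p (N - 1) (x - a - b))
        = N * ∑ b, q b * c p N (x - b) := by
      rcases Nat.eq_zero_or_pos N with h0 | hpos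
      · subst h0; simp
      · obtain ⟨K, rfl⟩ : ∃ K, N = K + 1 := ⟨N - 1, by omega⟩
        have : ∀ b, c p (K + 1) (x - b) = ∑ a, p a * c p K (x - b - a) := fun b => c_succ p K _
        simp only [this, Nat.add_sub_cancel]
        have h6 : ∀ a, p a * (((K + 1 : ℕ) : ℝ) * ∑ b, q b * c p K (x - a - b))
            = ∑ b, ((K + 1 : ℕ) : ℝ) * (q b * (p a * c p K (x - b - a))) := by
          intro a
          rw [Finset.mul_sum, Finset.mul_sum]
          refine Finset.sum_congr rfl (fun b _ => ?_)
          rw [sub_right_comm]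
          ring
        rw [Finset.sum_congr rfl (fun a _ => h6 a), Finset.sum_comm, Finset.mul_sum]
        refine Finset.sum_congr rfl (fun b _ => ?_)
        rw [Finset.mul_sum, Finset.mul_sum]
    rw [h5]
    simp only [Nat.add_sub_cancel]
    push_cast
    ring

/-- Convolution powers of a two-point distribution. -/
theorem c_two (a b : ZMod n) (t : ℝ) (N : ℕ) : ∀ x,
    c (fun y => (1 - t) * (if y = a then 1 else 0) + t * (if y = b then 1 else 0)) N x
      = ∑ i ∈ Finset.range (N + 1), (N.choose i : ℝ) *
        (t ^ i * (1 - t) ^ (N - i) * (if x = ((N - i : ℕ) : ZMod n) * a + (i : ZMod n) * b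
          then 1 else 0)) := by
  induction N with
  | zero => intro x; simp
  | succ N ih =>
    intro x
    rw [c_succ]
    have h1 : ∀ y, ((1 - t) * (if y = a then 1 else 0) + t * (if y = b then 1 else 0)) *
        c (fun y => (1 - t) * (if y = a then 1 else 0) + t * (if y = b then 1 else 0)) N (x - y)
        = (if y = a then (1 - t) * c (fun y => (1 - t) * (if y = a then 1 else 0)
            + t * (if y = b then 1 else 0)) N (x - y) else 0)
          + (if y = b then t * c (fun y => (1 - t) * (if y = a then 1 else 0)
            + t * (if y = b then 1 else 0)) N (x - y) else 0) := by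
      intro y
      split_ifs <;> ring
    rw [Finset.sum_congr rfl (fun y _ => h1 y), Finset.sum_add_distrib, Finset.sum_ite_eq',
      Finset.sum_ite_eq', if_pos (Finset.mem_univ _), if_pos (Finset.mem_univ _), ih, ih]
    have h2 := Finset.sum_choose_succ_mul (R := ℝ) (fun i j => t ^ i * (1 - t) ^ j *
      (if x = ((j : ℕ) : ZMod n) * a + (i : ZMod n) * b then 1 else 0)) N
    rw [h2, Finset.mul_sum, Finset.mul_sum]
    congr 1
    · refine Finset.sum_congr rfl (fun i hi => ?_)
      rw [Finset.mem_range] at hi
      have e1 : N + 1 - i = (N - i) + 1 := by omega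
      have e2 : (x - a = ((N - i : ℕ) : ZMod n) * a + (i : ZMod n) * b) ↔
          (x = ((N + 1 - i : ℕ) : ZMod n) * a + (i : ZMod n) * b) := by
        rw [e1]; push_cast
        constructor
        · intro h; linear_combination h
        · intro h; linear_combination h
      simp only [e2]
      rw [e1, pow_succ]
      ring
    · refine Finset.sum_congr rfl (fun i hi => ?_)
      have e2 : (x - b = ((N - i : ℕ) : ZMod n) * a + (i : ZMod n) * b) ↔
          (x = ((N - i : ℕ) : ZMod n) * a + ((i + 1 : ℕ) : ZMod n) * b) := by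
        push_cast
        constructor
        · intro h; linear_combination h
        · intro h; linear_combination h
      simp only [e2]
      ring

/-- Counting dice outcomes. -/
theorem count_eq {m : ℕ} (hm : 0 < m) (L : Fin m → ZMod n) (N : ℕ) : ∀ x : ZMod n,
    ((Finset.univ.filter (fun f : Fin N → Fin m => ∑ i, L (f i) = x)).card : ℝ)
      = (m : ℝ) ^ N * c (fun y => ((Finset.univ.filter (fun j => L j = y)).card : ℝ) / m) N x := by
  have hm' : (m : ℝ) ≠ 0 := by positivity
  induction N with
  | zero =>
    intro x
    simp only [Finset.univ_eq_empty, Finset.sum_empty, pow_zero, one_mul, c_zero]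
    by_cases h : x = 0
    · subst h; simp
    · rw [if_neg h]
      have : (Finset.univ.filter (fun _ : Fin 0 → Fin m => (0 : ZMod n) = x)) = ∅ := by
        apply Finset.filter_eq_empty_iff.2
        intro f _ h0
        exact h h0.symm
      rw [this]; simp
  | succ N ih =>
    intro x
    have h1 : ((Finset.univ.filter (fun f : Fin (N + 1) → Fin m => ∑ i, L (f i) = x)).card : ℝ)
        = ∑ j : Fin m, ((Finset.univ.filter
          (fun f : Fin N → Fin m => ∑ i, L (f i) = x - L j)).card : ℝ) := by
      have h2 : ∀ j : Fin m, ((Finset.univ.filter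
          (fun f : Fin N → Fin m => ∑ i, L (f i) = x - L j)).card : ℝ)
          = ∑ f : Fin N → Fin m, if ∑ i, L (f i) = x - L j then (1 : ℝ) else 0 := by
        intro j
        rw [Finset.sum_boole]
      rw [Finset.sum_congr rfl (fun j _ => h2 j)]
      rw [← Fintype.sum_prod_type' (f := fun (j : Fin m) (f : Fin N → Fin m) =>
        if ∑ i, L (f i) = x - L j then (1 : ℝ) else 0)]
      rw [Finset.card_filter]
      push_cast
      refine (Fintype.sum_equiv (Fin.consEquiv (fun _ => Fin m)) _ _ ?_).symm
      rintro ⟨j, f⟩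
      simp only [Fin.consEquiv, Equiv.coe_fn_mk, Fin.sum_univ_succ, Fin.cons_zero, Fin.cons_succ]
      congr 1
      rw [eq_iff_iff]
      constructor
      · intro h; rw [h]; ring
      · intro h; rw [← h]; ring
    rw [h1, Finset.sum_congr rfl (fun j _ => ih (x - L j)), c_succ, ← Finset.mul_sum, pow_succ,
      mul_assoc]
    congr 1
    rw [Finset.mul_sum]
    set g : ZMod n → ℝ := fun y => c (fun y => ((Finset.univ.filter (fun j => L j = y)).card : ℝ) / m)
      N (x - y) with hg
    have h3 : ∑ j : Fin m, g (L j) = ∑ y, ∑ j ∈ Finset.univ.filter (fun j => L j = y), g (L j) := by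
      rw [Finset.sum_fiberwise]
    have h4 : ∀ j, c (fun y => ((Finset.univ.filter (fun j => L j = y)).card : ℝ) / m) N (x - L j)
        = g (L j) := fun j => rfl
    rw [Finset.sum_congr rfl (fun j _ => h4 j), h3]
    refine Finset.sum_congr rfl (fun y _ => ?_)
    have h5 : ∑ j ∈ Finset.univ.filter (fun j => L j = y), g (L j)
        = ((Finset.univ.filter (fun j => L j = y)).card : ℝ) * g y := by
      rw [Finset.sum_congr rfl (fun j hj => by rw [(Finset.mem_filter.1 hj).2]), Finset.sum_const,
        nsmul_eq_mul]
    rw [h5]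
    simp only [hg]
    field_simp

end Pool.Agent.R97.DiceConv
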