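import Mathlib

/-!
# Binomial probabilities of a residue class

If `R ∣ n`, `R ≥ 4`, `2 ≤ j ≤ R - 2`, then `P(Bin(n,t) ≡ j mod R) ≤ (1 - 1/n)^(n-1)`.
-/

namespace Pool.Agent.R97.DiceIneq

open Finset

/-- binomial probabilities -/
noncomputable def bt (n : ℕ) (t : ℝ) (i : ℕ) : ℝ := (n.choose i : ℝ) * t ^ i * (1 - t) ^ (n - i)

theorem bt_nonneg {n : ℕ} {t : ℝ} (h0 : 0 ≤ t) (h1 : t ≤ 1) (i : ℕ) : 0 ≤ bt n t i := by
  unfold bt
  have : 0 ≤ 1 - t := by linarith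
  positivity

theorem bt_sum (n : ℕ) (t : ℝ) : ∑ i ∈ Finset.range (n + 1), bt n t i = 1 := by
  have h := add_pow t (1 - t) n
  rw [add_sub_cancel, one_pow] at h
  rw [h]
  exact Finset.sum_congr rfl (fun i _ => by unfold bt; ring)

theorem bt_mul1 (u v : ℕ) (t : ℝ) :
    bt (u + v + 2) t u * bt (u + v + 2) t (u + 2) * ((u + 2 : ℝ) * (v + 2))
      = bt (u + v + 2) t (u + 1) ^ 2 * ((u + 1 : ℝ) * (v + 1)) := by
  have c1 : ((u + v + 2).choose (u + 1) : ℝ) * (u + 1) = ((u + v + 2).choose u : ℝ) * (v + 2) := by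
    have := Nat.choose_succ_right_eq (u + v + 2) u
    have e : u + v + 2 - u = v + 2 := by omega
    rw [e] at this
    exact_mod_cast this
  have c2 : ((u + v + 2).choose (u + 2) : ℝ) * (u + 2)
      = ((u + v + 2).choose (u + 1) : ℝ) * (v + 1) := by
    have := Nat.choose_succ_right_eq (u + v + 2) (u + 1)
    have e : u + v + 2 - (u + 1) = v + 1 := by omega
    rw [e] at this
    exact_mod_cast this
  unfold bt
  have e0 : u + v + 2 - u = v + 2 := by omega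
  have e1 : u + v + 2 - (u + 1) = v + 1 := by omega
  have e2 : u + v + 2 - (u + 2) = v := by omega
  rw [e0, e1, e2]
  set s := 1 - t
  calc _ = (((u + v + 2).choose u : ℝ) * (v + 2)) * (((u + v + 2).choose (u + 2) : ℝ) * (u + 2)) *
        (t ^ (2 * u + 2) * s ^ (2 * v + 2)) := by ring
    _ = (((u + v + 2).choose (u + 1) : ℝ) * (u + 1)) * (((u + v + 2).choose (u + 1) : ℝ) * (v + 1)) *
        (t ^ (2 * u + 2) * s ^ (2 * v + 2)) := by rw [c1, c2]
    _ = _ := by ring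

theorem bt_mul2 (u v : ℕ) (t : ℝ) :
    bt (u + v + 4) t u * bt (u + v + 4) t (u + 4) *
        (((u + 3 : ℝ) * (u + 4)) * ((v + 3) * (v + 4)))
      = bt (u + v + 4) t (u + 2) ^ 2 * (((u + 1 : ℝ) * (u + 2)) * ((v + 1) * (v + 2))) := by
  have c1 : ((u + v + 4).choose (u + 1) : ℝ) * (u + 1) = ((u + v + 4).choose u : ℝ) * (v + 4) := by
    have := Nat.choose_succ_right_eq (u + v + 4) u
    have e : u + v + 4 - u = v + 4 := by omega
    rw [e] at this
    exact_mod_cast this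
  have c2 : ((u + v + 4).choose (u + 2) : ℝ) * (u + 2)
      = ((u + v + 4).choose (u + 1) : ℝ) * (v + 3) := by
    have := Nat.choose_succ_right_eq (u + v + 4) (u + 1)
    have e : u + v + 4 - (u + 1) = v + 3 := by omega
    rw [e] at this
    exact_mod_cast this
  have c3 : ((u + v + 4).choose (u + 3) : ℝ) * (u + 3)
      = ((u + v + 4).choose (u + 2) : ℝ) * (v + 2) := by
    have := Nat.choose_succ_right_eq (u + v + 4) (u + 2)
    have e : u + v + 4 - (u + 2) = v + 2 := by omega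
    rw [e] at this
    exact_mod_cast this
  have c4 : ((u + v + 4).choose (u + 4) : ℝ) * (u + 4)
      = ((u + v + 4).choose (u + 3) : ℝ) * (v + 1) := by
    have := Nat.choose_succ_right_eq (u + v + 4) (u + 3)
    have e : u + v + 4 - (u + 3) = v + 1 := by omega
    rw [e] at this
    exact_mod_cast this
  have d1 : ((u + v + 4).choose u : ℝ) * ((v + 3) * (v + 4))
      = ((u + v + 4).choose (u + 2) : ℝ) * ((u + 1) * (u + 2)) := by
    calc _ = (((u + v + 4).choose u : ℝ) * (v + 4)) * (v + 3) := by ring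
      _ = (((u + v + 4).choose (u + 1) : ℝ) * (v + 3)) * (u + 1) := by rw [← c1]; ring
      _ = _ := by rw [← c2]; ring
  have d2 : ((u + v + 4).choose (u + 4) : ℝ) * ((u + 3) * (u + 4))
      = ((u + v + 4).choose (u + 2) : ℝ) * ((v + 1) * (v + 2)) := by
    calc _ = (((u + v + 4).choose (u + 4) : ℝ) * (u + 4)) * (u + 3) := by ring
      _ = (((u + v + 4).choose (u + 3) : ℝ) * (u + 3)) * (v + 1) := by rw [c4]; ring
      _ = _ := by rw [c3]; ring
  unfold bt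
  have e0 : u + v + 4 - u = v + 4 := by omega
  have e1 : u + v + 4 - (u + 2) = v + 2 := by omega
  have e2 : u + v + 4 - (u + 4) = v := by omega
  rw [e0, e1, e2]
  set s := 1 - t
  calc _ = (((u + v + 4).choose u : ℝ) * ((v + 3) * (v + 4))) *
          (((u + v + 4).choose (u + 4) : ℝ) * ((u + 3) * (u + 4))) *
        (t ^ (2 * u + 4) * s ^ (2 * v + 4)) := by ring
    _ = (((u + v + 4).choose (u + 2) : ℝ) * ((u + 1) * (u + 2))) *
          (((u + v + 4).choose (u + 2) : ℝ) * ((v + 1) * (v + 2))) *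
        (t ^ (2 * u + 4) * s ^ (2 * v + 4)) := by rw [d1, d2]
    _ = _ := by ring

theorem amgm {x y a r : ℝ} (hx : 0 ≤ x) (hy : 0 ≤ y) (_ha : 0 ≤ a) (_hr : 0 ≤ r)
    (h : r ^ 2 * a ^ 2 ≤ x * y) : 2 * r * a ≤ x + y := by
  by_contra hcon
  push Not at hcon
  have h1 := pow_lt_pow_left₀ hcon (by positivity) two_ne_zero
  nlinarith [sq_nonneg (x - y)]

theorem pair1 {n : ℕ} {t r : ℝ} (h0 : 0 ≤ t) (h1 : t ≤ 1) (hr : 0 ≤ r)
    (hr2 : r ^ 2 * (3 * ((n : ℝ) - 1)) ≤ 2 * ((n : ℝ) - 2)) {i : ℕ} (hi : 2 ≤ i) (hin : i + 2 ≤ n) :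
    2 * r * bt n t i ≤ bt n t (i - 1) + bt n t (i + 1) := by
  obtain ⟨u, rfl⟩ : ∃ u, i = u + 2 := ⟨i - 2, by omega⟩
  obtain ⟨v, rfl⟩ : ∃ v, n = u + v + 4 := ⟨n - (u + 4), by omega⟩
  have hm := bt_mul1 (u + 1) (v + 1) t
  have e : u + 1 + (v + 1) + 2 = u + v + 4 := by ring
  rw [e] at hm
  have e3 : u + 2 - 1 = u + 1 := by omega
  rw [e3]
  have hu : (0 : ℝ) ≤ u := by positivity
  have hv : (0 : ℝ) ≤ v := by positivity
  apply amgm (bt_nonneg h0 h1 _) (bt_nonneg h0 h1 _) (bt_nonneg h0 h1 _) hr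
  set a := bt (u + v + 4) t (u + 2)
  set x := bt (u + v + 4) t (u + 1)
  have e5 : u + 1 + 2 = u + 2 + 1 := by ring
  rw [e5] at hm
  set y := bt (u + v + 4) t (u + 2 + 1)
  push_cast at hm hr2
  -- hm : x * y * ((u+3)(v+3)) = a^2 * ((u+2)(v+2))
  have hpos : (0 : ℝ) < (3 * ((u : ℝ) + v + 3)) * (((u : ℝ) + 3) * (v + 3)) := by positivity
  have ha2 : 0 ≤ a ^ 2 := sq_nonneg a
  have k1 : r ^ 2 * (3 * ((u : ℝ) + v + 3)) ≤ 2 * ((u : ℝ) + v + 2) := by
    have := hr2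
    ring_nf at this ⊢
    linarith
  have k2 : 2 * ((u : ℝ) + v + 2) * (((u : ℝ) + 3) * (v + 3)) ≤
      (3 * ((u : ℝ) + v + 3)) * (((u : ℝ) + 2) * (v + 2)) := by
    have : 0 ≤ (u : ℝ) * v * (u + v + 5) := by positivity
    nlinarith
  have k3 : r ^ 2 * (3 * ((u : ℝ) + v + 3)) * (((u : ℝ) + 3) * (v + 3)) ≤
      (3 * ((u : ℝ) + v + 3)) * (((u : ℝ) + 2) * (v + 2)) :=
    (mul_le_mul_of_nonneg_right k1 (by positivity)).trans k2
  have k4 := mul_le_mul_of_nonneg_left k3 ha2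
  have k5 : a ^ 2 * ((3 * ((u : ℝ) + v + 3)) * (((u : ℝ) + 2) * (v + 2)))
      = (x * y) * ((3 * ((u : ℝ) + v + 3)) * (((u : ℝ) + 3) * (v + 3))) := by
    have : x * y * (((u : ℝ) + 3) * (v + 3)) = a ^ 2 * (((u : ℝ) + 2) * (v + 2)) := by
      have := hm
      ring_nf at this ⊢
      linarith
    linear_combination (-(3 * ((u : ℝ) + v + 3))) * this
  have k6 : (r ^ 2 * a ^ 2) * ((3 * ((u : ℝ) + v + 3)) * (((u : ℝ) + 3) * (v + 3))) ≤
      (x * y) * ((3 * ((u : ℝ) + v + 3)) * (((u : ℝ) + 3) * (v + 3))) := by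
    rw [← k5]
    calc _ = a ^ 2 * (r ^ 2 * (3 * ((u : ℝ) + v + 3)) * (((u : ℝ) + 3) * (v + 3))) := by ring
      _ ≤ _ := k4
  exact le_of_mul_le_mul_right k6 hpos

theorem pair2 {n : ℕ} {t r : ℝ} (h0 : 0 ≤ t) (h1 : t ≤ 1) (hr : 0 ≤ r)
    (hr2 : r ^ 2 * (6 * (n : ℝ) * ((n : ℝ) - 1)) ≤ ((n : ℝ) - 2) * ((n : ℝ) - 3)) {i : ℕ}
    (hi : 2 ≤ i) (hin : i + 2 ≤ n) :
    2 * r * bt n t i ≤ bt n t (i - 2) + bt n t (i + 2) := by
  obtain ⟨u, rfl⟩ : ∃ u, i = u + 2 := ⟨i - 2, by omega⟩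
  obtain ⟨v, rfl⟩ : ∃ v, n = u + v + 4 := ⟨n - (u + 4), by omega⟩
  have hm := bt_mul2 u v t
  have e3 : u + 2 - 2 = u := by omega
  have e4 : u + 2 + 2 = u + 4 := by omega
  rw [e3, e4]
  have hu : (0 : ℝ) ≤ u := by positivity
  have hv : (0 : ℝ) ≤ v := by positivity
  apply amgm (bt_nonneg h0 h1 _) (bt_nonneg h0 h1 _) (bt_nonneg h0 h1 _) hr
  set a := bt (u + v + 4) t (u + 2)
  set x := bt (u + v + 4) t u
  set y := bt (u + v + 4) t (u + 4)
  push_cast at hr2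
  set A : ℝ := ((u + 3 : ℝ) * (u + 4)) * ((v + 3) * (v + 4)) with hA
  set B : ℝ := ((u + 1 : ℝ) * (u + 2)) * ((v + 1) * (v + 2)) with hB
  set P : ℝ := 6 * ((u : ℝ) + v + 4) * ((u : ℝ) + v + 3) with hP
  set Q : ℝ := ((u : ℝ) + v + 2) * ((u : ℝ) + v + 1) with hQ
  have hApos : 0 < A := by positivity
  have hPpos : 0 < P := by positivity
  have k1 : r ^ 2 * P ≤ Q := by
    have e1 : r ^ 2 * (6 * ((u : ℝ) + v + 4) * ((u : ℝ) + v + 4 - 1)) = r ^ 2 * P := by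
      rw [hP]; ring
    have e2 : ((u : ℝ) + v + 4 - 2) * ((u : ℝ) + v + 4 - 3) = Q := by rw [hQ]; ring
    rw [e1, e2] at hr2
    exact hr2
  have k2 : Q * A ≤ P * B := by
    have key : P * B - Q * A = (u : ℝ) * v * ((5 * ((u : ℝ) + v) + 14) * ((u : ℝ) + v + 5) * (u * v)
        + (11 * ((u : ℝ) + v) ^ 3 + 110 * ((u : ℝ) + v) ^ 2 + 337 * ((u : ℝ) + v) + 310)) := by
      rw [hP, hB, hQ, hA]; ring
    have : 0 ≤ P * B - Q * A := by rw [key]; positivity
    linarith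
  have ha2 : 0 ≤ a ^ 2 := sq_nonneg a
  have k3 : (r ^ 2 * a ^ 2) * (P * A) ≤ (x * y) * (P * A) := by
    calc (r ^ 2 * a ^ 2) * (P * A) = a ^ 2 * ((r ^ 2 * P) * A) := by ring
      _ ≤ a ^ 2 * (Q * A) := by gcongr
      _ ≤ a ^ 2 * (P * B) := by gcongr
      _ = P * (a ^ 2 * B) := by ring
      _ = P * (x * y * A) := by rw [hm]
      _ = _ := by ring
  exact le_of_mul_le_mul_right k3 (by positivity)

/-- the class of `j` modulo `R` in `{0,…,n}` -/
def cls (n R j : ℕ) : Finset ℕ := (Finset.range (n + 1)).filter (fun i => i ≡ j [MOD R])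

theorem mem_cls {n R j i : ℕ} (hRn : R ∣ n) (hj2 : 2 ≤ j) (hjR : j + 2 ≤ R) (h : i ∈ cls n R j) :
    2 ≤ i ∧ i + 2 ≤ n := by
  unfold cls at h
  rw [Finset.mem_filter, Finset.mem_range] at h
  obtain ⟨h1, h2⟩ := h
  have h3 : i % R = j := by
    have : i % R = j % R := h2
    rw [this, Nat.mod_eq_of_lt (by omega)]
  have h4 := Nat.div_add_mod i R
  obtain ⟨m, rfl⟩ := hRn
  have h5 : i / R < m := by
    by_contra hcon
    push Not at hcon
    have : R * m ≤ R * (i / R) := Nat.mul_le_mul_left _ hcon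
    omega
  have h6 : R * (i / R + 1) ≤ R * m := Nat.mul_le_mul_left _ h5
  rw [mul_add, mul_one] at h6
  constructor
  · have := Nat.mod_le i R
    omega
  · omega

theorem block_sum {n R j o : ℕ} {t : ℝ} (h0 : 0 ≤ t) (h1 : t ≤ 1) (hRn : R ∣ n) (hj2 : 2 ≤ j)
    (hjR : j + 2 ≤ R) (ho : 1 ≤ o) (ho2 : o ≤ 2) :
    ∑ i ∈ cls n R j, ∑ e ∈ Finset.range 4, bt n t (i - o + e) ≤ 1 := by
  classical
  rw [← Finset.sum_product']
  rw [← bt_sum n t]
  have hinj : Set.InjOn (fun x : ℕ × ℕ => x.1 - o + x.2) (cls n R j ×ˢ Finset.range 4 : Finset _) := by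
    rintro ⟨i, e⟩ hx ⟨i', e'⟩ hx' heq
    rw [Finset.mem_coe, Finset.mem_product, Finset.mem_range] at hx hx'
    simp only at hx hx' heq
    obtain ⟨a1, a2⟩ := mem_cls hRn hj2 hjR hx.1
    obtain ⟨b1, b2⟩ := mem_cls hRn hj2 hjR hx'.1
    have m1 : i ≡ i' [MOD R] := by
      have c1 := (Finset.mem_filter.1 hx.1).2
      have c2 := (Finset.mem_filter.1 hx'.1).2
      exact c1.trans c2.symm
    have m2 : i + e' ≡ i' + e' [MOD R] := Nat.ModEq.add_right _ m1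
    have e3 : i' + e' = i + e := by omega
    rw [e3] at m2
    have m3 : e' ≡ e [MOD R] := Nat.ModEq.add_left_cancel' i m2
    have m4 : e' % R = e % R := m3
    rw [Nat.mod_eq_of_lt (by omega), Nat.mod_eq_of_lt (by omega)] at m4
    subst m4
    have : i = i' := by omega
    rw [this]
  rw [← Finset.sum_image (f := fun y => bt n t y) hinj]
  apply Finset.sum_le_sum_of_subset_of_nonneg
  · intro y hy
    rw [Finset.mem_image] at hy
    obtain ⟨⟨i, e⟩, hx, rfl⟩ := hy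
    rw [Finset.mem_product, Finset.mem_range] at hx
    obtain ⟨a1, a2⟩ := mem_cls hRn hj2 hjR hx.1
    rw [Finset.mem_range]
    simp only at hx ⊢
    omega
  · intro y _ _
    exact bt_nonneg h0 h1 y

theorem class_bound {n R j : ℕ} {t r₁ r₂ : ℝ} (h0 : 0 ≤ t) (h1 : t ≤ 1) (hRn : R ∣ n) (hj2 : 2 ≤ j)
    (hjR : j + 2 ≤ R) (hr₁ : 0 ≤ r₁) (hr₂ : 0 ≤ r₂)
    (k₁ : r₁ ^ 2 * (3 * ((n : ℝ) - 1)) ≤ 2 * ((n : ℝ) - 2))
    (k₂ : r₂ ^ 2 * (6 * (n : ℝ) * ((n : ℝ) - 1)) ≤ ((n : ℝ) - 2) * ((n : ℝ) - 3)) :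
    (∑ i ∈ cls n R j, bt n t i) * (1 + 2 * r₁ + r₂) ≤ 1 := by
  have b1 := block_sum (n := n) (R := R) (j := j) (o := 1) h0 h1 hRn hj2 hjR (by norm_num)
    (by norm_num)
  have b2 := block_sum (n := n) (R := R) (j := j) (o := 2) h0 h1 hRn hj2 hjR (by norm_num)
    (by norm_num)
  have hb := add_le_add b1 b2
  rw [← Finset.sum_add_distrib] at hb
  have hterm : ∀ i ∈ cls n R j, bt n t i * (2 * (1 + 2 * r₁ + r₂)) ≤
      ∑ e ∈ Finset.range 4, bt n t (i - 1 + e) + ∑ e ∈ Finset.range 4, bt n t (i - 2 + e) := by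
    intro i hi
    obtain ⟨a1, a2⟩ := mem_cls hRn hj2 hjR hi
    have p1 := pair1 h0 h1 hr₁ k₁ a1 a2
    have p2 := pair2 h0 h1 hr₂ k₂ a1 a2
    obtain ⟨u, rfl⟩ : ∃ u, i = u + 2 := ⟨i - 2, by omega⟩
    simp only [Finset.sum_range_succ, Finset.sum_range_zero]
    have e1 : u + 2 - 1 = u + 1 := by omega
    have e2 : u + 2 - 2 = u := by omega
    rw [e1] at p1 ⊢
    rw [e2] at p2 ⊢
    have f1 : u + 1 + 1 = u + 2 := by omega
    have f2 : u + 1 + 2 = u + 2 + 1 := by omega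
    have f3 : u + 1 + 3 = u + 2 + 2 := by omega
    have f4 : u + 1 + 0 = u + 1 := by omega
    have f5 : u + 3 = u + 2 + 1 := by omega
    have f6 : u + 0 = u := by omega
    rw [f1, f2, f3, f4, f5, f6]
    linarith
  have hs := Finset.sum_le_sum hterm
  rw [← Finset.sum_mul] at hs
  linarith

/-- **The inequality**: `P(Bin(n,t) ≡ j mod R) ≤ (1 - 1/n)^(n-1)` for `R ∣ n` and
`2 ≤ j ≤ R - 2`. -/
theorem class_le {n R j : ℕ} {t : ℝ} (hn : 1 ≤ n) (h0 : 0 ≤ t) (h1 : t ≤ 1) (hRn : R ∣ n)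
    (hj2 : 2 ≤ j) (hjR : j + 2 ≤ R) :
    ∑ i ∈ cls n R j, bt n t i ≤ (1 - 1 / (n : ℝ)) ^ (n - 1) := by
  have hRn' : R ≤ n := Nat.le_of_dvd hn hRn
  have hn4 : 4 ≤ n := by omega
  set W := ∑ i ∈ cls n R j, bt n t i with hW
  rcases Nat.lt_or_ge n 7 with h7 | h7
  · have hW' : W ≤ 2 / 5 := by
      have hcb := class_bound (n := n) (R := R) (j := j) (t := t) (r₁ := 2 / 3) (r₂ := 1 / 6) h0 h1
        hRn hj2 hjR (by norm_num) (by norm_num) (by interval_cases n <;> norm_num)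
        (by interval_cases n <;> norm_num)
      rw [← hW] at hcb
      linarith
    refine hW'.trans ?_
    interval_cases n <;> norm_num
  · have hn7 : (7 : ℝ) ≤ n := by exact_mod_cast h7
    have hW' : W * (277 / 100) ≤ 1 := by
      have hcb := class_bound (n := n) (R := R) (j := j) (t := t) (r₁ := 149 / 200) (r₂ := 28 / 100)
        h0 h1 hRn hj2 hjR (by norm_num) (by norm_num) (by nlinarith) (by nlinarith)
      rw [← hW] at hcb
      linarith
    have hexp : (1 : ℝ) ≤ (1 - 1 / (n : ℝ)) ^ (n - 1) * Real.exp 1 := by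
      obtain ⟨m, rfl⟩ : ∃ m, n = m + 1 := ⟨n - 1, by omega⟩
      have hm : (0 : ℝ) < m := by
        have : 0 < m := by omega
        exact_mod_cast this
      rw [Nat.add_sub_cancel]
      have e1 : (1 - 1 / ((m + 1 : ℕ) : ℝ)) = m / (m + 1) := by
        push_cast
        field_simp
        ring
      rw [e1]
      have e2 : ((m : ℝ) + 1) / m ≤ Real.exp (1 / m) := by
        have := Real.add_one_le_exp (1 / (m : ℝ))
        have e3 : 1 / (m : ℝ) + 1 = ((m : ℝ) + 1) / m := by field_simp; ring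
        rw [e3] at this
        exact this
      have e4 : (((m : ℝ) + 1) / m) ^ m ≤ Real.exp 1 := by
        have := pow_le_pow_left₀ (by positivity) e2 m
        rw [← Real.exp_nat_mul] at this
        have e5 : (m : ℝ) * (1 / m) = 1 := by field_simp
        rwa [e5] at this
      calc (1 : ℝ) = ((m : ℝ) / (m + 1)) ^ m * (((m : ℝ) + 1) / m) ^ m := by
            rw [← mul_pow]
            have : (m : ℝ) / (m + 1) * (((m : ℝ) + 1) / m) = 1 := by field_simp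
            rw [this, one_pow]
        _ ≤ _ := by gcongr
    have he := Real.exp_one_lt_d9
    have hpos : 0 ≤ (1 - 1 / (n : ℝ)) ^ (n - 1) := by
      apply pow_nonneg
      have : 1 / (n : ℝ) ≤ 1 := by
        rw [div_le_one (by linarith)]; linarith
      linarith
    have h3 : (1 : ℝ) ≤ (1 - 1 / (n : ℝ)) ^ (n - 1) * (277 / 100) := by
      refine hexp.trans ?_
      apply mul_le_mul_of_nonneg_left _ hpos
      linarith
    linarith

end Pool.Agent.R97.DiceIneq
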