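import Mathlib

/-!
# Erdős–Heilbronn for two summands (Dias da Silva–Hamidoune), via the combinatorial
Nullstellensatz

`|{a + b : a, b ∈ A, a ≠ b}| ≥ 2|A| - 3` whenever `A ⊆ ℤ_p` and `2|A| ≤ p + 3`.
-/

namespace Pool.Agent.R97.ErdosHeilbronn

open Finset MvPolynomial

/-- restricted sumset -/
def rs {R : Type*} [Add R] [DecidableEq R] (A : Finset R) : Finset R :=
  A.offDiag.image (fun x => x.1 + x.2)

theorem coeff_diff_pow {R : Type*} [CommRing R] (s i : ℕ) (t : Fin 2 →₀ ℕ) (h0 : t 0 = s + 1)
    (h1 : t 1 = s) :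
    coeff t ((X 0 - X 1 : MvPolynomial (Fin 2) R) * (X 0 + X 1) ^ i)
      = if i = 2 * s then ((i.choose s : R) - (i.choose (s + 1) : R)) else 0 := by
  rw [sub_mul, coeff_sub, coeff_X_mul', coeff_X_mul']
  have m0 : (0 : Fin 2) ∈ t.support := by rw [Finsupp.mem_support_iff, h0]; omega
  rw [if_pos m0, coeff_add_pow]
  have e0 : (t - Finsupp.single 0 1 : Fin 2 →₀ ℕ) 0 = s := by
    rw [Finsupp.tsub_apply, h0]; simp
  have e1 : (t - Finsupp.single 0 1 : Fin 2 →₀ ℕ) 1 = s := by
    rw [Finsupp.tsub_apply, h1]; simp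
  rw [e0, e1]
  have hA : ((if (s, s) ∈ Finset.HasAntidiagonal.antidiagonal i then (i.choose s : ℕ) else 0 : ℕ) : R)
      = if i = 2 * s then (i.choose s : R) else 0 := by
    by_cases h : i = 2 * s
    · rw [if_pos h, if_pos (Finset.HasAntidiagonal.mem_antidiagonal.2 (by omega))]
    · rw [if_neg h, if_neg (fun hm => h (by
        have := Finset.HasAntidiagonal.mem_antidiagonal.1 hm
        simp only at this
        omega))]
      simp
  have hB : (if (1 : Fin 2) ∈ t.support then
        coeff (t - Finsupp.single 1 1) ((X 0 + X 1 : MvPolynomial (Fin 2) R) ^ i) else 0)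
      = if i = 2 * s then (i.choose (s + 1) : R) else 0 := by
    by_cases hs : s = 0
    · have : (1 : Fin 2) ∉ t.support := by rw [Finsupp.mem_support_iff, h1, hs]; simp
      rw [if_neg this]
      by_cases h : i = 2 * s
      · rw [if_pos h, h, hs]; simp
      · rw [if_neg h]
    · have : (1 : Fin 2) ∈ t.support := by rw [Finsupp.mem_support_iff, h1]; exact hs
      rw [if_pos this, coeff_add_pow]
      have e0 : (t - Finsupp.single 1 1 : Fin 2 →₀ ℕ) 0 = s + 1 := by
        rw [Finsupp.tsub_apply, h0]; simp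
      have e1 : (t - Finsupp.single 1 1 : Fin 2 →₀ ℕ) 1 = s - 1 := by
        rw [Finsupp.tsub_apply, h1]; simp
      rw [e0, e1]
      by_cases h : i = 2 * s
      · rw [if_pos h, if_pos (Finset.HasAntidiagonal.mem_antidiagonal.2 (by
          show s + 1 + (s - 1) = i
          omega))]
      · rw [if_neg h, if_neg (fun hm => h (by
          have := Finset.HasAntidiagonal.mem_antidiagonal.1 hm
          simp only at this
          omega))]
        simp
  rw [hA, hB]
  by_cases h : i = 2 * s
  · simp [h]
  · simp [h]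

theorem choose_ne_zero {p : ℕ} [Fact p.Prime] (s : ℕ) (hs : 2 * s < p) :
    (((2 * s).choose s : ZMod p) - ((2 * s).choose (s + 1) : ZMod p)) ≠ 0 := by
  have hp := Fact.out (p := p.Prime)
  intro h
  have e1 : (2 * s).choose (s + 1) * (s + 1) = (2 * s).choose s * s := by
    have := Nat.choose_succ_right_eq (2 * s) s
    rw [this]; congr 1; omega
  have e1' : ((2 * s).choose (s + 1) : ZMod p) * (s + 1) = ((2 * s).choose s : ZMod p) * s := by
    exact_mod_cast congrArg (fun z : ℕ => (z : ZMod p)) e1
  have e2 : ((2 * s).choose s : ZMod p) = 0 := by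
    linear_combination (s + 1 : ZMod p) * h + e1'
  rw [ZMod.natCast_eq_zero_iff] at e2
  have e3 : p ∣ (2 * s).factorial := by
    have := Nat.choose_mul_factorial_mul_factorial (n := 2 * s) (k := s) (by omega)
    rw [← this, mul_assoc]
    exact e2.mul_right _
  rw [hp.dvd_factorial] at e3
  omega

/-- **Erdős–Heilbronn** for two equal summands. -/
theorem erdos_heilbronn {p : ℕ} [Fact p.Prime] (A : Finset (ZMod p)) (hk : 2 ≤ A.card)
    (hp : 2 * A.card ≤ p + 3) : 2 * A.card ≤ (rs A).card + 3 := by
  classical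
  by_contra hcon
  push Not at hcon
  obtain ⟨s, hs⟩ : ∃ s, A.card = s + 2 := ⟨A.card - 2, by omega⟩
  have hN : (rs A).card ≤ 2 * s := by omega
  obtain ⟨a₀, ha₀⟩ : A.Nonempty := Finset.card_pos.1 (by omega)
  let P : Polynomial (ZMod p) :=
    Polynomial.X ^ (2 * s - (rs A).card) * ∏ c ∈ rs A, (Polynomial.X - Polynomial.C c)
  have hPm : P.Monic := (Polynomial.monic_X_pow _).mul
    (Polynomial.monic_prod_of_monic _ _ (fun c _ => Polynomial.monic_X_sub_C c))
  have hPd : P.natDegree = 2 * s := by
    have h1 : (∏ c ∈ rs A, (Polynomial.X - Polynomial.C c)).natDegree = (rs A).card := by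
      rw [Polynomial.natDegree_prod_of_monic _ _ (fun c _ => Polynomial.monic_X_sub_C c)]
      simp
    rw [Polynomial.Monic.natDegree_mul (Polynomial.monic_X_pow _)
      (Polynomial.monic_prod_of_monic _ _ (fun c _ => Polynomial.monic_X_sub_C c)), h1,
      Polynomial.natDegree_X_pow]
    omega
  let L : MvPolynomial (Fin 2) (ZMod p) := X 0 + X 1
  let F : MvPolynomial (Fin 2) (ZMod p) := (X 0 - X 1) * Polynomial.aeval L P
  let t : Fin 2 →₀ ℕ := Finsupp.single 0 (s + 1) + Finsupp.single 1 s
  have ht0 : t 0 = s + 1 := by simp [t]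
  have ht1 : t 1 = s := by simp [t]
  have hFsum : F = ∑ i ∈ Finset.range (2 * s + 1), P.coeff i • ((X 0 - X 1) * L ^ i) := by
    simp only [F]
    rw [Polynomial.aeval_eq_sum_range, hPd, Finset.mul_sum]
    exact Finset.sum_congr rfl (fun i _ => by rw [mul_smul_comm])
  have hcoeff : F.coeff t ≠ 0 := by
    rw [hFsum, coeff_sum]
    have : ∑ i ∈ Finset.range (2 * s + 1), coeff t (P.coeff i • ((X 0 - X 1) * L ^ i))
        = (((2 * s).choose s : ZMod p) - ((2 * s).choose (s + 1) : ZMod p)) := by
      rw [Finset.sum_eq_single (2 * s)]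
      · rw [coeff_smul, coeff_diff_pow s (2 * s) t ht0 ht1, if_pos rfl]
        have : P.coeff (2 * s) = 1 := by
          have := hPm.coeff_natDegree
          rwa [hPd] at this
        rw [this, one_smul]
      · intro i _ hi
        rw [coeff_smul, coeff_diff_pow s i t ht0 ht1, if_neg hi, smul_zero]
      · intro h
        exact absurd (Finset.mem_range.2 (by omega)) h
    rw [this]
    exact choose_ne_zero s (by omega)
  have htdeg : t.degree = 2 * s + 1 := by
    simp only [t, map_add, Finsupp.degree_single]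
    omega
  have hdeg : F.totalDegree = t.degree := by
    apply le_antisymm
    · rw [htdeg, hFsum]
      refine (totalDegree_finsetSum _ _).trans (Finset.sup_le (fun i hi => ?_))
      refine (totalDegree_smul_le _ _).trans ?_
      refine (totalDegree_mul _ _).trans ?_
      have h1 : (X 0 - X 1 : MvPolynomial (Fin 2) (ZMod p)).totalDegree ≤ 1 := by
        refine (totalDegree_sub _ _).trans ?_
        rw [totalDegree_X, totalDegree_X, max_self]
      have h2 : (L ^ i).totalDegree ≤ i := by
        refine (totalDegree_pow _ _).trans ?_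
        have : L.totalDegree ≤ 1 := by
          refine (totalDegree_add _ _).trans ?_
          rw [totalDegree_X, totalDegree_X, max_self]
        calc i * L.totalDegree ≤ i * 1 := Nat.mul_le_mul_left _ this
          _ = i := mul_one i
      rw [Finset.mem_range] at hi
      omega
    · have := le_totalDegree (p := F) (s := t) (mem_support_iff.2 hcoeff)
      rw [Finsupp.degree_apply]
      exact this
  obtain ⟨x, hx, hxF⟩ := combinatorial_nullstellensatz_exists_eval_nonzero F t hcoeff hdeg
    (![A, A.erase a₀]) (by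
      intro i
      fin_cases i
      · simp only [Fin.zero_eta, Matrix.cons_val_zero]
        rw [ht0, hs]; omega
      · simp only [Fin.mk_one, Matrix.cons_val_one, Matrix.cons_val_zero]
        rw [ht1, Finset.card_erase_of_mem ha₀, hs]; omega)
  have hx0 : x 0 ∈ A := hx 0
  have hx1 : x 1 ∈ A.erase a₀ := hx 1
  have heval : eval x F = (x 0 - x 1) * P.eval (x 0 + x 1) := by
    simp only [F]
    rw [map_mul, map_sub, eval_X, eval_X]
    congr 1
    have h1 : eval x (Polynomial.aeval L P) = (MvPolynomial.aeval x : _ →ₐ[ZMod p] ZMod p)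
        (Polynomial.aeval L P) := by
      rw [MvPolynomial.aeval_eq_eval]
    rw [h1, ← Polynomial.aeval_algHom_apply]
    have h2 : (MvPolynomial.aeval x : _ →ₐ[ZMod p] ZMod p) L = x 0 + x 1 := by
      simp [L]
    rw [h2]
    simp [Polynomial.aeval_def, Polynomial.eval₂_eq_eval_map]
  apply hxF
  rw [heval]
  by_cases hne : x 0 = x 1
  · rw [hne, sub_self, zero_mul]
  · have hmem : x 0 + x 1 ∈ rs A := by
      unfold rs
      rw [Finset.mem_image]
      exact ⟨(x 0, x 1), by
        rw [Finset.mem_offDiag]
        exact ⟨hx0, Finset.mem_of_mem_erase hx1, hne⟩, rfl⟩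
    have : P.eval (x 0 + x 1) = 0 := by
      simp only [P]
      rw [Polynomial.eval_mul, Polynomial.eval_prod, Finset.prod_eq_zero hmem (by simp), mul_zero]
    rw [this, mul_zero]

end Pool.Agent.R97.ErdosHeilbronn
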