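import Pool.Agent.R495.MP.Defs

/-!
MP-LINE (MP_849d81_co): a `2 × 3j` strip with `2j + 1` sites
-/

set_option autoImplicit false

namespace Pool.Agent.R97.MPLine

open R495.MP

/-- the sites -/
def TT (j : ℕ) : Finset (ℤ × ℤ) :=
  insert ((3 * (j : ℤ), 1) : ℤ × ℤ)
    ((Finset.range j).image (fun i : ℕ => ((3 * (i : ℤ) + 1, 2) : ℤ × ℤ)) ∪
      (Finset.range j).image (fun i : ℕ => ((3 * (i : ℤ) + 3, 2) : ℤ × ℤ)))

theorem mem_TT (j : ℕ) (v : ℤ × ℤ) : v ∈ TT j ↔ (v.1 = 3 * (j : ℤ) ∧ v.2 = 1) ∨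
    (v.2 = 2 ∧ 1 ≤ v.1 ∧ v.1 ≤ 3 * (j : ℤ) ∧ v.1 % 3 ≠ 2) := by
  obtain ⟨x, y⟩ := v
  simp only [TT, Finset.mem_insert, Finset.mem_union, Finset.mem_image, Finset.mem_range,
    Prod.mk.injEq]
  constructor
  · rintro (h | ⟨i, hi, h1, h2⟩ | ⟨i, hi, h1, h2⟩)
    · left; exact h
    · right; omega
    · right; omega
  · rintro (h | ⟨h1, h2, h3, h4⟩)
    · left; exact h
    · right
      by_cases h5 : x % 3 = 1
      · left
        refine ⟨(x / 3).toNat, ?_, ?_, ?_⟩ <;> omega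
      · right
        refine ⟨(x / 3 - 1).toNat, ?_, ?_, ?_⟩ <;> omega

theorem card_TT (j : ℕ) : (TT j).card = 2 * j + 1 := by
  unfold TT
  rw [Finset.card_insert_of_notMem, Finset.card_union_of_disjoint,
    Finset.card_image_of_injective, Finset.card_image_of_injective, Finset.card_range]
  · ring
  · intro a b h
    simp only [Prod.mk.injEq] at h
    omega
  · intro a b h
    simp only [Prod.mk.injEq] at h
    omega
  · rw [Finset.disjoint_left]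
    intro v hv hw
    simp only [Finset.mem_image, Finset.mem_range] at hv hw
    obtain ⟨a, ha, rfl⟩ := hv
    obtain ⟨b, hb, h⟩ := hw
    simp only [Prod.mk.injEq] at h
    omega
  · intro h
    simp only [Finset.mem_union, Finset.mem_image, Finset.mem_range, Prod.mk.injEq] at h
    omega

theorem closed1 (j : ℕ) (p r : ℤ) (h : r + 3 ≤ p) :
    Closed {v : ℤ × ℤ | 1 ≤ v.1 ∧ v.1 ≤ 3 * (j : ℤ) ∧ 1 ≤ v.2 ∧ v.2 ≤ 2 ∧
      ((v.2 = 2 ∧ v.1 ≤ r) ∨ p ≤ v.1)} := by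
  rintro ⟨v1, v2⟩ ⟨u1, u2⟩ ⟨w1, w2⟩ huw hu hw h1 h2
  simp only [Adj, Set.mem_ofPred_eq, ne_eq, Prod.mk.injEq] at *
  rcases hu with ⟨hu, hu' | hu'⟩ | ⟨hu, hu' | hu'⟩ <;>
  rcases hw with ⟨hw, hw' | hw'⟩ | ⟨hw, hw' | hw'⟩ <;> omega

theorem closed2 (j : ℕ) :
    Closed {v : ℤ × ℤ | (v.1 = 3 * (j : ℤ) ∧ v.2 = 1) ∨
      (v.2 = 2 ∧ 1 ≤ v.1 ∧ v.1 ≤ 3 * (j : ℤ) - 2)} := by
  rintro ⟨v1, v2⟩ ⟨u1, u2⟩ ⟨w1, w2⟩ huw hu hw h1 h2
  simp only [Adj, Set.mem_ofPred_eq, ne_eq, Prod.mk.injEq] at *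
  rcases hu with ⟨hu, hu' | hu'⟩ | ⟨hu, hu' | hu'⟩ <;>
  rcases hw with ⟨hw, hw' | hw'⟩ | ⟨hw, hw' | hw'⟩ <;> omega

theorem closed3 (j : ℕ) :
    Closed {v : ℤ × ℤ | v.2 = 2 ∧ 1 ≤ v.1 ∧ v.1 ≤ 3 * (j : ℤ)} := by
  rintro ⟨v1, v2⟩ ⟨u1, u2⟩ ⟨w1, w2⟩ huw hu hw h1 h2
  simp only [Adj, Set.mem_ofPred_eq, ne_eq, Prod.mk.injEq] at *
  rcases hu with ⟨hu, hu' | hu'⟩ | ⟨hu, hu' | hu'⟩ <;>
  rcases hw with ⟨hw, hw' | hw'⟩ | ⟨hw, hw' | hw'⟩ <;> omega

theorem span_TT (j : ℕ) (X : Set (ℤ × ℤ)) (hX : Closed X) (hT : ∀ v ∈ TT j, v ∈ X) :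
    Rect 1 (3 * (j : ℤ)) 1 2 ⊆ X := by
  have h2 : ∀ x : ℤ, 1 ≤ x → x ≤ 3 * (j : ℤ) → ((x, 2) : ℤ × ℤ) ∈ X := by
    intro x hx hx'
    by_cases h : x % 3 = 2
    · refine hX (x, 2) (x - 1, 2) (x + 1, 2) ?_ ?_ ?_ ?_ ?_
      · simp only [ne_eq, Prod.mk.injEq]; omega
      · unfold Adj; dsimp only; omega
      · unfold Adj; dsimp only; omega
      · apply hT
        rw [mem_TT]
        right
        refine ⟨rfl, ?_, ?_, ?_⟩ <;> simp only <;> omega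
      · apply hT
        rw [mem_TT]
        right
        refine ⟨rfl, ?_, ?_, ?_⟩ <;> simp only <;> omega
    · apply hT
      rw [mem_TT]
      right
      exact ⟨rfl, hx, hx', h⟩
  have h1 : ∀ k : ℕ, (k : ℤ) < 3 * (j : ℤ) → ((3 * (j : ℤ) - k, 1) : ℤ × ℤ) ∈ X := by
    intro k
    induction k with
    | zero =>
      intro _
      apply hT
      rw [mem_TT]
      left
      simp
    | succ k ih =>
      intro hk
      push_cast at hk ⊢
      refine hX _ (3 * (j : ℤ) - k, 1) (3 * (j : ℤ) - (k + 1), 2) ?_ ?_ ?_ (ih (by omega))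
        (h2 _ (by omega) (by omega))
      · simp only [ne_eq, Prod.mk.injEq]; omega
      · unfold Adj; dsimp only; omega
      · unfold Adj; dsimp only; omega
  rintro ⟨x, y⟩ hv
  simp only [Rect, Set.mem_ofPred_eq] at hv
  obtain ⟨ha, hb, hc, hd⟩ := hv
  by_cases hy : y = 2
  · rw [hy]
    exact h2 x ha hb
  · have hy1 : y = 1 := by omega
    rw [hy1]
    have h3 := h1 (3 * (j : ℤ) - x).toNat (by omega)
    have h4 : 3 * (j : ℤ) - ((3 * (j : ℤ) - x).toNat : ℤ) = x := by omega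
    rw [h4] at h3
    exact h3

theorem avoid_TT (j : ℕ) (hj : 1 ≤ j) (s : ℤ × ℤ) (hs : s ∈ TT j) :
    ∃ X : Set (ℤ × ℤ), Closed X ∧ X ⊆ Rect 1 (3 * (j : ℤ)) 1 2 ∧
      (∀ v ∈ TT j, v ≠ s → v ∈ X) ∧ ∀ v ∈ X, v ∉ ({((1, 1) : ℤ × ℤ)} : Set (ℤ × ℤ)) := by
  rw [mem_TT] at hs
  obtain ⟨a, b⟩ := s
  simp only at hs
  rcases hs with ⟨h1, h2⟩ | ⟨h1, h2, h3, h4⟩
  · refine ⟨_, closed3 j, ?_, ?_, ?_⟩
    · rintro ⟨x, y⟩ hv
      simp only [Rect, Set.mem_ofPred_eq] at hv ⊢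
      omega
    · rintro ⟨x, y⟩ hv hne
      rw [mem_TT] at hv
      simp only [Set.mem_ofPred_eq, ne_eq, Prod.mk.injEq] at *
      omega
    · rintro ⟨x, y⟩ hv hw
      simp only [Set.mem_ofPred_eq, Set.mem_singleton_iff, Prod.mk.injEq] at *
      omega
  · by_cases h5 : a = 3 * (j : ℤ)
    · refine ⟨_, closed2 j, ?_, ?_, ?_⟩
      · rintro ⟨x, y⟩ hv
        simp only [Rect, Set.mem_ofPred_eq] at hv ⊢
        omega
      · rintro ⟨x, y⟩ hv hne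
        rw [mem_TT] at hv
        simp only [Set.mem_ofPred_eq, ne_eq, Prod.mk.injEq] at *
        omega
      · rintro ⟨x, y⟩ hv hw
        simp only [Set.mem_ofPred_eq, Set.mem_singleton_iff, Prod.mk.injEq] at *
        omega
    · by_cases h6 : a % 3 = 1
      · refine ⟨_, closed1 j (a + 2) (a - 1) (by omega), ?_, ?_, ?_⟩
        · rintro ⟨x, y⟩ hv
          simp only [Rect, Set.mem_ofPred_eq] at hv ⊢
          omega
        · rintro ⟨x, y⟩ hv hne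
          rw [mem_TT] at hv
          simp only [Set.mem_ofPred_eq, ne_eq, Prod.mk.injEq] at *
          omega
        · rintro ⟨x, y⟩ hv hw
          simp only [Set.mem_ofPred_eq, Set.mem_singleton_iff, Prod.mk.injEq] at *
          omega
      · refine ⟨_, closed1 j (a + 1) (a - 2) (by omega), ?_, ?_, ?_⟩
        · rintro ⟨x, y⟩ hv
          simp only [Rect, Set.mem_ofPred_eq] at hv ⊢
          omega
        · rintro ⟨x, y⟩ hv hne
          rw [mem_TT] at hv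
          simp only [Set.mem_ofPred_eq, ne_eq, Prod.mk.injEq] at *
          omega
        · rintro ⟨x, y⟩ hv hw
          simp only [Set.mem_ofPred_eq, Set.mem_singleton_iff, Prod.mk.injEq] at *
          omega

/-- MP-LINE -/
theorem t_Line : S_Line := by
  intro j hj
  refine ⟨TT j, ⟨?_, ?_, ?_⟩, card_TT j⟩
  · rintro ⟨x, y⟩ hv
    rw [mem_TT] at hv
    simp only [Rect, Set.mem_ofPred_eq] at *
    omega
  · intro X hX hT
    exact span_TT j X hX hT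
  · intro s hs
    exact avoid_TT j hj s hs

end Pool.Agent.R97.MPLine
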