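import Mathlib

/-!
# Extended promotion on labelings of a finite poset (Defant and Kravitz)

Definitions, in the generality of an arbitrary finite poset.
-/

namespace Pool.Agent.R97.Promo

variable {P : Type*} [PartialOrder P] [Fintype P]

/-- A labeling of `P`: a bijection from `P` onto `{1, ..., n}`, where `n` is the number of elements
of `P`. -/
def IsLabeling (L : P → ℕ) : Prop := Set.BijOn L Set.univ (Set.Icc 1 (Fintype.card P))

/-- A linear extension is an order preserving labeling. -/
def IsLinExt (L : P → ℕ) : Prop := ∀ x y : P, x ≤ y → L x ≤ L y

/-- `y` is the `L`-successor of `x`: the element of smallest label among the elements above `x`. -/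
def IsSucc (L : P → ℕ) (x y : P) : Prop := x < y ∧ ∀ z : P, x < z → L y ≤ L z

/-- `x` is on the promotion chain `v_1, v_2, ..., v_m`: `v_1` has label `1` and `v_{i+1}` is the
`L`-successor of `v_i`, as long as `v_i` is not maximal. -/
inductive InChain (L : P → ℕ) : P → Prop
  | base (v : P) (hv : L v = 1) : InChain L v
  | step (v w : P) (hv : InChain L v) (hw : IsSucc L v w) : InChain L w

open Classical in
/-- Extended promotion. -/
noncomputable def promote (L : P → ℕ) (x : P) : ℕ :=
  if InChain L x then
    (if h : ∃ y, IsSucc L x y then L h.choose - 1 else Fintype.card P)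
  else L x - 1

variable (P) in
/-- `a_k(P)`: the number of labelings `L` such that `∂^k(L)` is a linear extension. -/
noncomputable def sortCount (k : ℕ) : ℕ :=
  Set.ncard {L : P → ℕ | IsLabeling L ∧ IsLinExt (promote^[k] L)}

end Pool.Agent.R97.Promo
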