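import Pool.Agent.R97.TriFin

set_option autoImplicit false

namespace Pool.Agent.R97.Tri

open Finset

/-! ## Definitions -/

/-- The triangle degree: the number of triangles of `G` that contain `v`. -/
noncomputable def triDeg {V : Type*} (G : SimpleGraph V) (v : V) : ℕ :=
  Set.ncard {s : Finset V | G.IsNClique 3 s ∧ v ∈ s}

/-- Every vertex has triangle degree at least `t(t-1)/2`. -/
def InG {V : Type*} (t : ℕ) (G : SimpleGraph V) : Prop := ∀ v, t.choose 2 ≤ triDeg G v

/-- Extremal graphs: least number of edges. -/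
def Extremal {V : Type*} (t : ℕ) (G : SimpleGraph V) : Prop :=
  InG t G ∧ ∀ H : SimpleGraph V, InG t H → G.edgeSet.ncard ≤ H.edgeSet.ncard

/-- `G` has a connected component which is a complete graph on `k` vertices. -/
def IsolatedClique {V : Type*} (k : ℕ) (G : SimpleGraph V) : Prop :=
  ∃ c : G.ConnectedComponent, c.supp.ncard = k ∧
    ∀ u ∈ c.supp, ∀ v ∈ c.supp, u ≠ v → G.Adj u v

section count

variable {V : Type*} [Fintype V] [DecidableEq V] (G : SimpleGraph V) [DecidableRel G.Adj]

theorem two_mul_triDeg (v : V) :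
    2 * triDeg G v = ∑ x ∈ G.neighborFinset v, (G.neighborFinset x ∩ G.neighborFinset v).card := by
  classical
  let T : Finset (Finset V) := univ.filter fun s => G.IsNClique 3 s ∧ v ∈ s
  have hT : triDeg G v = T.card := by
    unfold triDeg
    rw [← Set.ncard_coe_finset]
    congr 1
    ext s
    simp [T]
  let P : Finset (V × V) := univ.filter fun p => G.Adj v p.1 ∧ G.Adj v p.2 ∧ G.Adj p.1 p.2
  have hP : P.card = ∑ x ∈ G.neighborFinset v, (G.neighborFinset x ∩ G.neighborFinset v).card := by
    have h1 := card_eq_sum_card_fiberwise (s := P) (t := G.neighborFinset v) (f := Prod.fst)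
      (fun p hp => by
        have := (mem_filter.mp (mem_coe.mp hp)).2
        rw [mem_coe, SimpleGraph.mem_neighborFinset]
        exact this.1)
    rw [h1]
    refine sum_congr rfl fun x hx => ?_
    rw [SimpleGraph.mem_neighborFinset] at hx
    refine card_bij (fun p _ => p.2) ?_ ?_ ?_
    · intro p hp
      rw [mem_filter, mem_filter] at hp
      rw [mem_inter, SimpleGraph.mem_neighborFinset, SimpleGraph.mem_neighborFinset]
      rw [← hp.2]
      exact ⟨hp.1.2.2.2, hp.1.2.2.1⟩
    · intro p hp q hq e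
      rw [mem_filter] at hp hq
      exact Prod.ext (hp.2.trans hq.2.symm) e
    · intro y hy
      rw [mem_inter, SimpleGraph.mem_neighborFinset, SimpleGraph.mem_neighborFinset] at hy
      refine ⟨(x, y), ?_, rfl⟩
      rw [mem_filter, mem_filter]
      exact ⟨⟨mem_univ _, hx, hy.2, hy.1⟩, rfl⟩
  have h2 := card_eq_sum_card_fiberwise (s := P) (t := T) (f := fun p => {v, p.1, p.2})
    (fun p hp => by
      have := (mem_filter.mp (mem_coe.mp hp)).2
      rw [mem_coe, mem_filter]
      refine ⟨mem_univ _, ?_, by simp⟩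
      rw [SimpleGraph.is3Clique_triple_iff]
      exact this)
  have h3 : ∀ s ∈ T, (P.filter fun p => ({v, p.1, p.2} : Finset V) = s).card = 2 := by
    intro s hs
    have hs' := (mem_filter.mp hs).2
    have hc : s.card = 3 := hs'.1.card_eq
    have hce : (s.erase v).card = 2 := by rw [card_erase_of_mem hs'.2, hc]
    have he : (P.filter fun p => ({v, p.1, p.2} : Finset V) = s) = (s.erase v).offDiag := by
      ext p
      rw [mem_filter, mem_filter, mem_offDiag, mem_erase, mem_erase]
      constructor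
      · rintro ⟨⟨-, h1, h2, h3⟩, rfl⟩
        exact ⟨⟨h1.ne', by simp⟩, ⟨h2.ne', by simp⟩, h3.ne⟩
      · rintro ⟨⟨h1, h2⟩, ⟨h3, h4⟩, h5⟩
        have a1 : G.Adj v p.1 := hs'.1.isClique hs'.2 h2 (Ne.symm h1)
        have a2 : G.Adj v p.2 := hs'.1.isClique hs'.2 h4 (Ne.symm h3)
        have a3 : G.Adj p.1 p.2 := hs'.1.isClique h2 h4 h5
        refine ⟨⟨mem_univ _, a1, a2, a3⟩, ?_⟩
        refine eq_of_subset_of_card_le ?_ ?_
        · intro x hx
          simp only [mem_insert, mem_singleton] at hx
          rcases hx with rfl | rfl | rfl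
          · exact hs'.2
          · exact h2
          · exact h4
        · rw [hc, card_insert_of_notMem (by
            simp only [mem_insert, mem_singleton, not_or]
            exact ⟨Ne.symm h1, Ne.symm h3⟩), card_pair h5]
    rw [he, offDiag_card, hce]
  rw [sum_congr rfl h3, sum_const, smul_eq_mul] at h2
  rw [← hP, h2, hT, mul_comm]

theorem two_mul_choose (t : ℕ) : 2 * t.choose 2 = t * (t - 1) := by
  rw [Nat.choose_two_right]
  exact Nat.two_mul_div_two_of_even (Nat.even_mul_pred_self t)

omit [DecidableEq V] in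
theorem sum_degree_eq : ∑ v, G.degree v = 2 * G.edgeSet.ncard := by
  rw [SimpleGraph.sum_degrees_eq_twice_card_edges, Set.ncard_eq_toFinset_card',
    SimpleGraph.edgeFinset]

end count

/-! ## The comparison graph -/

section con

variable {m : ℕ}

/-- the forbidden differences -/
def AA (m : ℕ) : Finset (ZMod m) := {0, 1, -1}

theorem cast_ne (hm : 5 ≤ m) (k : ℕ) (hk : 1 ≤ k) (hk2 : k ≤ 4) : ((k : ℕ) : ZMod m) ≠ 0 := by
  rw [Ne, ZMod.natCast_eq_zero_iff]
  intro h
  have := Nat.le_of_dvd (by omega) h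
  omega

theorem ne_facts (hm : 5 ≤ m) : (1 : ZMod m) ≠ 0 ∧ (2 : ZMod m) ≠ 0 ∧ (3 : ZMod m) ≠ 0 ∧
    (4 : ZMod m) ≠ 0 := by
  have h1 := cast_ne hm 1 (by norm_num) (by norm_num)
  have h2 := cast_ne hm 2 (by norm_num) (by norm_num)
  have h3 := cast_ne hm 3 (by norm_num) (by norm_num)
  have h4 := cast_ne hm 4 (by norm_num) (by norm_num)
  push_cast at h1 h2 h3 h4
  exact ⟨h1, h2, h3, h4⟩

theorem card_AA (hm : 5 ≤ m) : (AA m).card = 3 := by
  obtain ⟨h1, h2, -, -⟩ := ne_facts hm
  have a : (1 : ZMod m) ≠ -1 := by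
    intro h
    apply h2
    linear_combination h
  have b : (0 : ZMod m) ∉ ({1, -1} : Finset (ZMod m)) := by
    simp only [mem_insert, mem_singleton, not_or]
    refine ⟨Ne.symm h1, ?_⟩
    intro h
    apply h1
    linear_combination h
  unfold AA
  rw [card_insert_of_notMem b, card_pair a]

theorem neg_mem_AA {s : ZMod m} : -s ∈ AA m ↔ s ∈ AA m := by
  unfold AA
  simp only [mem_insert, mem_singleton, neg_eq_zero, neg_inj]
  constructor
  · rintro (h | h | h)
    · left; exact h
    · right; right; rw [← h, neg_neg]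
    · right; left; exact h
  · rintro (h | h | h)
    · left; exact h
    · right; right; exact h
    · right; left; rw [h, neg_neg]

theorem two_notMem (hm : 5 ≤ m) : (2 : ZMod m) ∉ AA m := by
  obtain ⟨h1, h2, h3, -⟩ := ne_facts hm
  unfold AA
  simp only [mem_insert, mem_singleton, not_or]
  refine ⟨h2, ?_, ?_⟩
  · intro h
    apply h1
    linear_combination h
  · intro h
    apply h3
    linear_combination h

variable [NeZero m]

/-- common differences -/
def TT (s : ZMod m) : Finset (ZMod m) := univ.filter fun x => x ∉ AA m ∧ x - s ∉ AA m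

theorem card_TT (s : ZMod m) (B : Finset (ZMod m))
    (hB : ∀ x, (x ∈ AA m ∨ x - s ∈ AA m) → x ∈ B) : m ≤ (TT s).card + B.card := by
  have h1 : (univ : Finset (ZMod m)) ⊆ TT s ∪ B := by
    intro x _
    rw [mem_union]
    by_cases h : x ∈ AA m ∨ x - s ∈ AA m
    · exact Or.inr (hB x h)
    · left
      push Not at h
      exact mem_filter.mpr ⟨mem_univ _, h⟩
  have h2 := (card_le_card h1).trans (card_union_le _ _)
  rwa [card_univ, ZMod.card] at h2

theorem card_TT6 (s : ZMod m) : m ≤ (TT s).card + 6 := by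
  refine (card_TT s {0, 1, -1, s, s + 1, s - 1} ?_).trans (Nat.add_le_add_left card_le_six _)
  intro x hx
  unfold AA at hx
  simp only [mem_insert, mem_singleton] at hx ⊢
  rcases hx with (h | h | h) | (h | h | h)
  · exact Or.inl h
  · exact Or.inr (Or.inl h)
  · exact Or.inr (Or.inr (Or.inl h))
  · right; right; right; left; linear_combination h
  · right; right; right; right; left; linear_combination h
  · right; right; right; right; right; linear_combination h

theorem card_TT2 : m ≤ (TT (2 : ZMod m)).card + 5 := by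
  refine (card_TT 2 {0, 1, -1, 2, 3} ?_).trans (Nat.add_le_add_left card_le_five _)
  intro x hx
  unfold AA at hx
  simp only [mem_insert, mem_singleton] at hx ⊢
  rcases hx with (h | h | h) | (h | h | h)
  · exact Or.inl h
  · exact Or.inr (Or.inl h)
  · exact Or.inr (Or.inr (Or.inl h))
  · right; right; right; left; linear_combination h
  · right; right; right; right; linear_combination h
  · right; left; linear_combination h

theorem card_TT2' : m ≤ (TT (-2 : ZMod m)).card + 5 := by
  refine (card_TT (-2) {0, 1, -1, -2, -3} ?_).trans (Nat.add_le_add_left card_le_five _)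
  intro x hx
  unfold AA at hx
  simp only [mem_insert, mem_singleton] at hx ⊢
  rcases hx with (h | h | h) | (h | h | h)
  · exact Or.inl h
  · exact Or.inr (Or.inl h)
  · exact Or.inr (Or.inr (Or.inl h))
  · right; right; right; left; linear_combination h
  · right; right; left; linear_combination h
  · right; right; right; right; linear_combination h

theorem sum_TT (hm : 5 ≤ m) : ((m : ℤ) - 4) * (m - 5) ≤ ∑ s ∈ univ \ AA m, ((TT s).card : ℤ) := by
  obtain ⟨h1, h2, h3, h4⟩ := ne_facts hm
  have e1 : ∀ s ∈ univ \ AA m, ((m : ℤ) - 6 + (if s = 2 then 1 else 0) + (if s = -2 then 1 else 0)) ≤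
      ((TT s).card : ℤ) := by
    intro s _
    have hne : (2 : ZMod m) ≠ -2 := by
      intro h
      apply h4
      linear_combination h
    by_cases hs : s = 2
    · subst hs
      rw [if_pos rfl, if_neg hne]
      have := card_TT2 (m := m)
      omega
    · by_cases hs' : s = -2
      · subst hs'
        rw [if_pos rfl, if_neg hs]
        have := card_TT2' (m := m)
        omega
      · rw [if_neg hs, if_neg hs']
        have := card_TT6 s
        omega
  have e2 := sum_le_sum e1
  have m2 : (2 : ZMod m) ∈ univ \ AA m := mem_sdiff.mpr ⟨mem_univ _, two_notMem hm⟩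
  have m2' : (-2 : ZMod m) ∈ univ \ AA m :=
    mem_sdiff.mpr ⟨mem_univ _, fun h => two_notMem hm (neg_mem_AA.mp h)⟩
  rw [sum_add_distrib, sum_add_distrib, sum_ite_eq', sum_ite_eq', if_pos m2, if_pos m2', sum_const,
    nsmul_eq_mul, card_sdiff_of_subset (subset_univ _), card_univ, ZMod.card, card_AA hm] at e2
  have h5 : ((m - 3 : ℕ) : ℤ) = m - 3 := by omega
  rw [h5] at e2
  nlinarith

variable {V : Type*} {R : ℕ} (e : V ≃ Fin R × ZMod m)

/-- disjoint complements of cycles -/
def G0 : SimpleGraph V where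
  Adj x y := (e x).1 = (e y).1 ∧ (e y).2 - (e x).2 ∉ AA m
  symm := ⟨fun x y h => ⟨h.1.symm, by
    intro h'
    apply h.2
    rw [← neg_mem_AA, neg_sub]
    exact h'⟩⟩
  loopless := ⟨fun x h => by
    apply h.2
    rw [sub_self]
    unfold AA
    simp⟩

omit [NeZero m] in
theorem G0_adj {x y : V} : (G0 e).Adj x y ↔ (e x).1 = (e y).1 ∧ (e y).2 - (e x).2 ∉ AA m := Iff.rfl

instance : DecidableRel (G0 e).Adj := fun _ _ => inferInstanceAs (Decidable (_ ∧ _))

variable [Fintype V] [DecidableEq V]

/-- neighbours of `v` -/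
def nb (v : V) (s : ZMod m) : V := e.symm ((e v).1, (e v).2 + s)

omit [NeZero m] [Fintype V] [DecidableEq V] in
theorem nb_inj (v : V) : Function.Injective (nb e v) := by
  intro s s' h
  unfold nb at h
  have := e.symm.injective h
  have := congrArg Prod.snd this
  simpa using this

theorem G0_nf (v : V) : (G0 e).neighborFinset v = (univ \ AA m).image (nb e v) := by
  ext y
  rw [SimpleGraph.mem_neighborFinset, mem_image, G0_adj]
  constructor
  · rintro ⟨h1, h2⟩
    refine ⟨(e y).2 - (e v).2, by simp [h2], ?_⟩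
    unfold nb
    rw [add_sub_cancel, h1]
    exact e.symm_apply_apply y
  · rintro ⟨s, hs, rfl⟩
    rw [mem_sdiff] at hs
    unfold nb
    rw [Equiv.apply_symm_apply]
    refine ⟨rfl, ?_⟩
    rw [add_sub_cancel_left]
    exact hs.2

theorem G0_deg (hm : 5 ≤ m) (v : V) : (G0 e).degree v = m - 3 := by
  rw [← SimpleGraph.card_neighborFinset_eq_degree, G0_nf, card_image_of_injective _ (nb_inj e v),
    card_sdiff_of_subset (subset_univ _), card_univ, ZMod.card, card_AA hm]

theorem G0_tri (hm : 5 ≤ m) (v : V) : ((m : ℤ) - 4) * (m - 5) ≤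
    ∑ x ∈ (G0 e).neighborFinset v,
      (((G0 e).neighborFinset x ∩ (G0 e).neighborFinset v).card : ℤ) := by
  refine (sum_TT hm).trans ?_
  rw [G0_nf e v, sum_image (fun a _ b _ h => nb_inj e v h)]
  refine sum_le_sum fun s _ => ?_
  have h1 : (TT s).image (nb e v) ⊆
      (G0 e).neighborFinset (nb e v s) ∩ (univ \ AA m).image (nb e v) := by
    intro y hy
    rw [mem_image] at hy
    obtain ⟨x, hx, rfl⟩ := hy
    unfold TT at hx
    rw [mem_filter] at hx
    rw [mem_inter, mem_image]
    refine ⟨?_, x, by simp [hx.2.1], rfl⟩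
    rw [SimpleGraph.mem_neighborFinset, G0_adj]
    unfold nb
    rw [Equiv.apply_symm_apply, Equiv.apply_symm_apply]
    refine ⟨rfl, ?_⟩
    rw [add_sub_add_left_eq_sub]
    exact hx.2.2
  have h2 := card_le_card h1
  rw [card_image_of_injective _ (nb_inj e v)] at h2
  exact_mod_cast h2

theorem G0_inG {t : ℕ} (ht : 1 ≤ t) (hmt : m = t + 4) : InG t (G0 e) := by
  intro v
  have h1 := G0_tri e (by omega) v
  have h2 := two_mul_triDeg (G0 e) v
  have h3 := two_mul_choose t
  have h4 : ((t : ℤ)) * (t - 1) ≤ ((2 * triDeg (G0 e) v : ℕ) : ℤ) := by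
    rw [h2]
    push_cast
    have : ((m : ℤ) - 4) * (m - 5) = t * (t - 1) := by rw [hmt]; push_cast; ring
    rw [← this]
    exact h1
  have h5 : ((t * (t - 1) : ℕ) : ℤ) = (t : ℤ) * (t - 1) := by
    push_cast [Nat.cast_sub ht]
    ring
  rw [← h5] at h4
  have h6 : t * (t - 1) ≤ 2 * triDeg (G0 e) v := by exact_mod_cast h4
  omega

end con

/-- Every degree of an extremal graph on `R(t+4)` vertices is at least `t+1`. -/
theorem extremal_deg {V : Type*} [Fintype V] {R t : ℕ} (hR : 1 ≤ R) (ht : 244800000 * R ^ 7 ≤ t)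
    (hV : Fintype.card V = R * (t + 4)) {G : SimpleGraph V} (hG : Extremal t G) [DecidableRel G.Adj]
    (v : V) : t + 1 ≤ G.degree v := by
  classical
  have r1 : ∀ k : ℕ, 1 ≤ R ^ k := fun k => Nat.one_le_pow _ _ hR
  have ht1 : 244800000 ≤ t := by
    have := r1 7
    nlinarith
  have hpos : 0 < 100 * R ^ 2 := by
    have := r1 2
    omega
  have hE20 : 20 * (600 * R ^ 2 * (204 * R ^ 3)) ≤ t / (100 * R ^ 2) := by
    rw [Nat.le_div_iff_mul_le hpos]
    calc 20 * (600 * R ^ 2 * (204 * R ^ 3)) * (100 * R ^ 2) = 244800000 * R ^ 7 := by ring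
      _ ≤ t := ht
  have hcard : Fintype.card V = Fintype.card (Fin R × ZMod (t + 4)) := by
    rw [hV, Fintype.card_prod, Fintype.card_fin, ZMod.card]
  obtain ⟨e⟩ : Nonempty (V ≃ Fin R × ZMod (t + 4)) := ⟨Fintype.equivOfCardEq hcard⟩
  have hG0 : InG t (G0 e) := G0_inG e (by omega) rfl
  have hedges := hG.2 (G0 e) hG0
  have hyp : Hyp G R t (t / (100 * R ^ 2)) (204 * R ^ 3) (600 * R ^ 2 * (204 * R ^ 3)) := by
    refine ⟨hR, Nat.mul_div_le t _, ?_, le_rfl, le_rfl, hE20, hV, ?_, ?_⟩
    · have h1 := Nat.lt_mul_div_succ t hpos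
      have h2 : 1 ≤ t / (100 * R ^ 2) := by
        have := r1 2
        have := r1 3
        have : 1 ≤ 20 * (600 * R ^ 2 * (204 * R ^ 3)) := by
          have : 1 ≤ R ^ 2 * R ^ 3 := Nat.one_le_iff_ne_zero.mpr (by positivity)
          nlinarith
        omega
      calc t ≤ 100 * R ^ 2 * (t / (100 * R ^ 2) + 1) := h1.le
        _ ≤ 100 * R ^ 2 * (2 * (t / (100 * R ^ 2))) := Nat.mul_le_mul_left _ (by omega)
        _ = 200 * R ^ 2 * (t / (100 * R ^ 2)) := by ring
    · intro v
      rw [← two_mul_triDeg, ← two_mul_choose]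
      exact Nat.mul_le_mul_left 2 (hG.1 v)
    · rw [sum_degree_eq]
      calc 2 * G.edgeSet.ncard ≤ 2 * (G0 e).edgeSet.ncard := Nat.mul_le_mul_left 2 hedges
        _ = ∑ v, (G0 e).degree v := (sum_degree_eq _).symm
        _ = ∑ v : V, (t + 1) := sum_congr rfl fun v _ => by
            rw [G0_deg e (by omega) v]
            omega
        _ = R * (t + 4) * (t + 1) := by rw [sum_const, card_univ, hV, smul_eq_mul]
  exact hyp.deg_ge_succ v

theorem no_isolated {V : Type*} [Fintype V] {t : ℕ} {G : SimpleGraph V} [DecidableRel G.Adj]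
    (h : ∀ v, t + 1 ≤ G.degree v) : ¬ IsolatedClique (t + 1) G := by
  classical
  rintro ⟨c, hc, -⟩
  obtain ⟨v, hv⟩ := c.nonempty_supp
  have h1 : cn G v ⊆ c.supp.toFinset := by
    intro w hw
    rw [Set.mem_toFinset]
    rcases mem_cn.mp hw with rfl | hw
    · exact hv
    · rw [SimpleGraph.ConnectedComponent.mem_supp_iff] at hv ⊢
      rw [← hv]
      exact (SimpleGraph.ConnectedComponent.sound hw.reachable).symm
  have h2 := card_le_card h1
  rw [card_cn, ← Set.ncard_eq_toFinset_card', hc] at h2
  have := h v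
  omega

end Pool.Agent.R97.Tri
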