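import Pool.Agent.R97.TriMain

set_option autoImplicit false

namespace Pool.Agent.R97.Tri

open Finset

theorem arith (t E R i d S Z Y : ℤ) (hR : 1 ≤ R) (hE : 100 * R ^ 2 * E ≤ t) (hE1 : 1 ≤ E)
    (hd0 : 0 ≤ d) (hdE : d ≤ E) (hi : 0 ≤ t + 1 + i) (h1 : d * (t + 1 + i) ≤ S)
    (h2 : 2 * d - d * t - Z * d + Y * (t - 4 * E) ≤ S) (hY : Y = i - d + Z) (hZ0 : 0 ≤ Z)
    (h3 : S ≤ R * (t + 4)) :
    (t + 7) * i - 9 ≤ 3 * S ∧ (d = 0 → (t + 7) * i - 8 ≤ 3 * S) := by
  have hR2 : 1 ≤ R ^ 2 := one_le_pow₀ hR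
  have ht : 100 * E ≤ t := by nlinarith
  have htpos : 0 ≤ t := by linarith
  rcases lt_or_ge i 0 with hneg | hi0
  · -- `i < 0`
    have hS : 0 ≤ S := (mul_nonneg hd0 hi).trans h1
    have : (t + 7) * i ≤ 0 := mul_nonpos_of_nonneg_of_nonpos (by linarith) hneg.le
    exact ⟨by linarith, fun _ => by linarith⟩
  · rcases lt_trichotomy (3 * d) i with hlt | heq | hgt
    · -- `3 d < i`
      have hm : 1 ≤ i - 3 * d := by omega
      have hdR : d ≤ 2 * R := by
        by_contra hcon
        push Not at hcon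
        have a1 : (2 * R + 1) * (t + 1) ≤ d * (t + 1 + i) :=
          mul_le_mul (by omega) (by linarith) (by linarith) hd0
        nlinarith
      have a1 : -(d * t) + (i - d) * (t - 4 * E) ≤ S := by
        have : 0 ≤ Z * (t - 4 * E - d) := mul_nonneg hZ0 (by linarith)
        subst hY
        nlinarith
      -- it remains to compare
      have b1 : E ≤ R ^ 2 * E := by nlinarith
      have b2 : R * E ≤ R ^ 2 * E := by nlinarith
      have b3 : R ≤ R * E := by nlinarith
      have key : 12 * E * (i - d) + 7 * i ≤ 2 * (i - 3 * d) * t := by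
        set m := i - 3 * d with hmdef
        have e1 : i = 3 * d + m := by omega
        rw [e1]
        have c1 : E * d ≤ E * (2 * R) := mul_le_mul_of_nonneg_left hdR (by linarith)
        have c2 : 24 * (E * d) + 21 * d ≤ t := by nlinarith
        have c3 : (12 * E + 7) * m ≤ t * m := mul_le_mul_of_nonneg_right (by linarith) (by linarith)
        have c4 : t ≤ t * m := by nlinarith
        nlinarith
      constructor
      · nlinarith
      · intro _
        nlinarith
    · -- `3 d = i`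
      subst heq
      have a1 : 0 ≤ (d - 1) ^ 2 := sq_nonneg _
      constructor
      · nlinarith
      · intro hd
        subst hd
        nlinarith
    · -- `3 d > i`
      have a1 : (i + 1) * (t + 1 + i) ≤ 3 * d * (t + 1 + i) :=
        mul_le_mul_of_nonneg_right (by omega) hi
      constructor
      · nlinarith [sq_nonneg (2 * i - 5)]
      · intro hd
        nlinarith [sq_nonneg (2 * i - 5)]

variable {V : Type*} [Fintype V] [DecidableEq V] {G : SimpleGraph V} [DecidableRel G.Adj]

/-- Every degree is at least `t + 1`. -/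
theorem Hyp.deg_ge_succ {R t E L K : ℕ} (h : Hyp G R t E L K) (v0 : V) : t + 1 ≤ G.degree v0 := by
  classical
  obtain ⟨p1, p2, p3, p4, p5, p6, p7⟩ := h.pos
  by_contra hcon
  have hv0 : G.degree v0 = t := by
    have := h.deg_ge v0
    omega
  obtain ⟨Hd, c, hh⟩ := h.exists_heads
  let B : V → Finset V := fun w => univ.filter fun x => c x = w
  let S : V → ℤ := fun w => ∑ u ∈ B w, ((G.degree u : ℤ) - t)
  have hSsum : ∑ w ∈ Hd, S w = ∑ v, ((G.degree v : ℤ) - t) :=
    sum_fiberwise_of_maps_to (fun x _ => hh.C1 x) _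
  have hBsum : ∑ w ∈ Hd, ((B w).card : ℤ) = R * (t + 4) := by
    have := card_eq_sum_card_fiberwise (s := univ) (t := Hd) (f := c) (fun x _ => hh.C1 x)
    rw [card_univ, h.hcard] at this
    have h2 : ((R * (t + 4) : ℕ) : ℤ) = ((∑ b ∈ Hd, (B b).card : ℕ) : ℤ) := by exact_mod_cast this
    push_cast at h2
    rw [h2]
  have hSnn : ∀ w ∈ Hd, 0 ≤ S w := fun w _ => sum_nonneg fun u _ => h.ex_nonneg u
  have hSle : ∀ w ∈ Hd, S w ≤ R * (t + 4) := by
    intro w hw
    have h1 : S w ≤ ∑ w ∈ Hd, S w := single_le_sum hSnn hw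
    rw [hSsum] at h1
    exact h1.trans h.sum_ex
  have key : ∀ w ∈ Hd, ((t : ℤ) + 1 - 2 * E ≤ (B w).card) ∧
      ((t : ℤ) + 7) * ((B w).card - (t + 1)) - 9 ≤ 3 * S w ∧
      (w = c v0 → ((t : ℤ) + 7) * ((B w).card - (t + 1)) - 8 ≤ 3 * S w) := by
    intro w hw
    have hwB : w ∈ B w := mem_filter.mpr ⟨mem_univ _, h.c_head hh hw⟩
    obtain ⟨v, hvB, hvmin⟩ := exists_min_image (B w) (fun u => G.degree u) ⟨w, hwB⟩
    have hcv : c v = w := (mem_filter.mp hvB).2
    have hwg := hh.H1 w hw
    have hvw : G.degree v ≤ t + L := by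
      have a1 := hvmin w hwB
      have a2 : G.degree w ≤ t + L := by
        unfold bad at hwg
        rw [mem_filter] at hwg
        push Not at hwg
        exact hwg (mem_univ _)
      exact a1.trans a2
    have hvg : v ∉ bad G t L := by
      unfold bad
      rw [mem_filter]
      push Not
      exact fun _ => hvw
    obtain ⟨Z, Y, hZ0, hZ2, hY0, hBc, hlow⟩ := h.cluster hh hvg
    rw [hcv] at hBc hlow
    have hBc' : ((B w).card : ℤ) = (G.degree v + 1 - Z) + Y := hBc
    have hlow' : 2 * ((G.degree v : ℤ) - t) - ((G.degree v : ℤ) - t) * t -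
        Z * ((G.degree v : ℤ) - t) + Y * (t - 4 * E) ≤ S w := hlow
    have hd0 := h.ex_nonneg v
    have hmin : ((G.degree v : ℤ) - t) * (B w).card ≤ S w := by
      have : ∀ u ∈ B w, ((G.degree v : ℤ) - t) ≤ (G.degree u : ℤ) - t := by
        intro u hu
        have := hvmin u hu
        omega
      have h2 := sum_le_sum this
      rw [sum_const, nsmul_eq_mul] at h2
      rw [mul_comm]
      exact h2
    have hR' : (1 : ℤ) ≤ R := by exact_mod_cast h.hR
    have hE1' : 100 * (R : ℤ) ^ 2 * E ≤ t := by exact_mod_cast h.hE1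
    have har := arith (t : ℤ) E R ((B w).card - (t + 1)) ((G.degree v : ℤ) - t) (S w) Z Y hR' hE1'
      (by omega) hd0 (by omega) (by
        have : (0 : ℤ) ≤ (B w).card := by positivity
        linarith)
      (by
        have e : (t : ℤ) + 1 + ((B w).card - (t + 1)) = (B w).card := by ring
        rw [e]; exact hmin)
      hlow' (by rw [hBc']; ring) hZ0 (hSle w hw)
    refine ⟨by omega, har.1, fun hwc => har.2 ?_⟩
    have hv0B : v0 ∈ B w := mem_filter.mpr ⟨mem_univ _, hwc.symm⟩
    have := hvmin v0 hv0B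
    omega
  -- the number of clusters
  have hk1 : (Hd.card : ℤ) * ((t : ℤ) + 1 - 2 * E) ≤ R * (t + 4) := by
    rw [← hBsum]
    have := sum_le_sum fun w hw => (key w hw).1
    rw [sum_const, nsmul_eq_mul] at this
    exact this
  have hR' : (1 : ℤ) ≤ R := by exact_mod_cast h.hR
  have hE1' : 100 * (R : ℤ) ^ 2 * E ≤ t := by exact_mod_cast h.hE1
  have hk : (Hd.card : ℤ) ≤ R := by
    by_contra hc
    have hc' : (R : ℤ) + 1 ≤ Hd.card := by omega
    have a1 : ((R : ℤ) + 1) * ((t : ℤ) + 1 - 2 * E) ≤ Hd.card * ((t : ℤ) + 1 - 2 * E) :=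
      mul_le_mul_of_nonneg_right hc' (by omega)
    have b1 : (R : ℤ) * E ≤ R ^ 2 * E := by
      have : (R : ℤ) ≤ R ^ 2 := by nlinarith
      exact mul_le_mul_of_nonneg_right this (by positivity)
    have b2 : (R : ℤ) ≤ R * E := by
      have : (1 : ℤ) ≤ E := by omega
      nlinarith
    nlinarith
  -- sum over the clusters
  have hsum : ∑ w ∈ Hd, (((t : ℤ) + 7) * ((B w).card - (t + 1)) - 9 + if w = c v0 then 1 else 0) ≤
      ∑ w ∈ Hd, 3 * S w := by
    refine sum_le_sum fun w hw => ?_
    split_ifs with hwc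
    · have := (key w hw).2.2 hwc
      linarith
    · have := (key w hw).2.1
      linarith
  rw [sum_add_distrib, sum_ite_eq' Hd (c v0), if_pos (hh.C1 v0), ← mul_sum, hSsum,
    sum_sub_distrib, ← mul_sum, sum_sub_distrib, hBsum, sum_const, sum_const, nsmul_eq_mul,
    nsmul_eq_mul] at hsum
  have htot := h.sum_ex
  have hfin : (0 : ℤ) ≤ ((R : ℤ) - Hd.card) * ((t + 4) * (t + 4)) :=
    mul_nonneg (by linarith) (by positivity)
  nlinarith

end Pool.Agent.R97.Tri
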