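import Mathlib

/-!
Graphs in which every vertex lies in at least `t(t-1)/2` triangles and whose number of edges is at
most that of `R` disjoint complements of the cycle `C_{t+4}`: every degree is at least `t+1`.
Paper proof by helper86.
-/

set_option autoImplicit false

namespace Pool.Agent.R97.Tri

open Finset

variable {V : Type*} [Fintype V] [DecidableEq V]

/-- closed neighbourhood -/
def cn (G : SimpleGraph V) [DecidableRel G.Adj] (v : V) : Finset V := insert v (G.neighborFinset v)

/-- The standing hypotheses. -/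
structure Hyp (G : SimpleGraph V) [DecidableRel G.Adj] (R t E L K : ℕ) : Prop where
  hR : 1 ≤ R
  hE1 : 100 * R ^ 2 * E ≤ t
  hE2 : t ≤ 200 * R ^ 2 * E
  hL : 204 * R ^ 3 ≤ L
  hK : 600 * R ^ 2 * L ≤ K
  hEK : 20 * K ≤ E
  hcard : Fintype.card V = R * (t + 4)
  htri : ∀ v, t * (t - 1) ≤ ∑ x ∈ G.neighborFinset v, (G.neighborFinset x ∩ G.neighborFinset v).card
  hS : ∑ v, G.degree v ≤ R * (t + 4) * (t + 1)

variable {G : SimpleGraph V} [DecidableRel G.Adj]

theorem mem_cn {v w : V} : w ∈ cn G v ↔ w = v ∨ G.Adj v w := by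
  unfold cn
  rw [mem_insert, SimpleGraph.mem_neighborFinset]

theorem self_mem_cn (v : V) : v ∈ cn G v := mem_cn.mpr (Or.inl rfl)

theorem card_cn (v : V) : (cn G v).card = G.degree v + 1 := by
  unfold cn
  rw [card_insert_of_notMem (by simp), SimpleGraph.card_neighborFinset_eq_degree]

theorem nb_sub_cn (v : V) : G.neighborFinset v ⊆ cn G v := subset_insert _ _

omit [Fintype V] in
/-- triangle inequality for one-sided differences -/
theorem sdiff_tri (A B C : Finset V) : (A \ C).card ≤ (A \ B).card + (B \ C).card := by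
  refine (card_le_card ?_).trans (card_union_le _ _)
  intro x hx
  rw [mem_sdiff] at hx
  rw [mem_union, mem_sdiff, mem_sdiff]
  by_cases hB : x ∈ B
  · exact Or.inr ⟨hB, hx.2⟩
  · exact Or.inl ⟨hx.1, hB⟩

namespace Hyp

variable {R t E L K : ℕ}

theorem pos (h : Hyp G R t E L K) : 1 ≤ L ∧ 204 ≤ L ∧ 600 * L ≤ K ∧ 20 * K ≤ E ∧ 100 * E ≤ t ∧
    1 ≤ K ∧ L ≤ K := by
  have hR := h.hR
  have hL := h.hL
  have hK := h.hK
  have hEK := h.hEK
  have hE1 := h.hE1
  have r2 : 1 ≤ R ^ 2 := Nat.one_le_pow _ _ hR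
  have r3 : 1 ≤ R ^ 3 := Nat.one_le_pow _ _ hR
  have a1 : 204 ≤ L := by omega
  have a2 : 600 * L ≤ K := by nlinarith
  have a3 : 100 * E ≤ t := by nlinarith
  refine ⟨by omega, a1, a2, hEK, a3, by omega, by omega⟩

theorem tt (h : Hyp G R t E L K) (v : V) : (t : ℤ) * (t - 1) ≤
    ∑ x ∈ G.neighborFinset v, ((G.neighborFinset x ∩ G.neighborFinset v).card : ℤ) := by
  have h1 := h.htri v
  have ht : 1 ≤ t := by
    have := h.pos
    omega
  have : ((t * (t - 1) : ℕ) : ℤ) ≤ ((∑ x ∈ G.neighborFinset v,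
      (G.neighborFinset x ∩ G.neighborFinset v).card : ℕ) : ℤ) := by exact_mod_cast h1
  push_cast [Nat.cast_sub ht] at this
  exact this

theorem deg_ge (h : Hyp G R t E L K) (v : V) : t ≤ G.degree v := by
  have h1 := h.tt v
  have h2 : ∀ x ∈ G.neighborFinset v,
      ((G.neighborFinset x ∩ G.neighborFinset v).card : ℤ) ≤ (G.degree v : ℤ) - 1 := by
    intro x hx
    have hsub : G.neighborFinset x ∩ G.neighborFinset v ⊆ (G.neighborFinset v).erase x := by
      intro y hy
      rw [mem_inter] at hy
      rw [mem_erase]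
      refine ⟨?_, hy.2⟩
      rintro rfl
      simp at hy
    have := card_le_card hsub
    rw [card_erase_of_mem hx, SimpleGraph.card_neighborFinset_eq_degree] at this
    have hpos : 1 ≤ G.degree v := by
      rw [← SimpleGraph.card_neighborFinset_eq_degree]
      exact card_pos.mpr ⟨x, hx⟩
    omega
  have h3 := (h1.trans (sum_le_sum h2))
  rw [sum_const, SimpleGraph.card_neighborFinset_eq_degree, nsmul_eq_mul] at h3
  by_contra hcon
  have h4 : (G.degree v : ℤ) ≤ t - 1 := by omega
  have h5 : (0 : ℤ) ≤ G.degree v := by positivity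
  have ht : (2 : ℤ) ≤ t := by
    have := h.pos
    omega
  nlinarith

/-- excess as an integer -/
theorem ex_nonneg (h : Hyp G R t E L K) (v : V) : (0 : ℤ) ≤ (G.degree v : ℤ) - t := by
  have := h.deg_ge v
  omega

theorem sum_ex (h : Hyp G R t E L K) : ∑ v, ((G.degree v : ℤ) - t) ≤ R * (t + 4) := by
  rw [sum_sub_distrib, sum_const, card_univ, h.hcard, nsmul_eq_mul]
  have := h.hS
  have h2 : ((∑ v, G.degree v : ℕ) : ℤ) ≤ ((R * (t + 4) * (t + 1) : ℕ) : ℤ) := by exact_mod_cast this
  push_cast at h2 ⊢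
  linarith

/-- vertices of large degree -/
def bad (G : SimpleGraph V) [DecidableRel G.Adj] (t L : ℕ) : Finset V :=
  univ.filter fun v => t + L < G.degree v

theorem bad_le (h : Hyp G R t E L K) : (bad G t L).card ≤ E := by
  have h1 : ∑ v ∈ bad G t L, ((L : ℤ) + 1) ≤ ∑ v ∈ bad G t L, ((G.degree v : ℤ) - t) := by
    refine sum_le_sum fun v hv => ?_
    have := (mem_filter.mp hv).2
    omega
  have h2 : ∑ v ∈ bad G t L, ((G.degree v : ℤ) - t) ≤ ∑ v, ((G.degree v : ℤ) - t) :=
    sum_le_sum_of_subset_of_nonneg (subset_univ _) fun v _ _ => h.ex_nonneg v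
  have h3 := (h1.trans h2).trans h.sum_ex
  rw [sum_const, nsmul_eq_mul] at h3
  have hE2 : (t : ℤ) ≤ 200 * R ^ 2 * E := by exact_mod_cast h.hE2
  have hL : 204 * (R : ℤ) ^ 3 ≤ L := by exact_mod_cast h.hL
  have hR : (1 : ℤ) ≤ R := by exact_mod_cast h.hR
  have hE : (1 : ℤ) ≤ E := by
    have := h.pos
    omega
  have h4 : (R : ℤ) * (t + 4) ≤ L * E := by
    have e1 : (R : ℤ) * t ≤ 200 * R ^ 3 * E := by nlinarith
    have e2 : (R : ℤ) * 4 ≤ 4 * R ^ 3 * E := by
      have : (R : ℤ) ≤ R ^ 3 := by nlinarith [sq_nonneg (R : ℤ), mul_self_nonneg ((R : ℤ) - 1)]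
      nlinarith
    have e3 : 204 * (R : ℤ) ^ 3 * E ≤ L * E := mul_le_mul_of_nonneg_right hL (by omega)
    nlinarith
  by_contra hcon
  have h5 : (E : ℤ) + 1 ≤ (bad G t L).card := by
    push Not at hcon
    exact_mod_cast hcon
  have h6 : ((E : ℤ) + 1) * (L + 1) ≤ (bad G t L).card * ((L : ℤ) + 1) :=
    mul_le_mul_of_nonneg_right h5 (by positivity)
  have h7 : (0 : ℤ) ≤ L := by positivity
  nlinarith

/-- sum of the numbers of missing neighbours -/
theorem sum_miss (h : Hyp G R t E L K) (u : V) :
    ∑ x ∈ cn G u, ((cn G u \ cn G x).card : ℤ) ≤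
      (G.degree u : ℤ) * ((G.degree u : ℤ) - 1) - t * (t - 1) := by
  have h1 := h.tt u
  unfold cn
  rw [sum_insert (by simp), Finset.sdiff_self, card_empty]
  have h2 : ∀ x ∈ G.neighborFinset u,
      ((insert u (G.neighborFinset u) \ insert x (G.neighborFinset x)).card : ℤ) ≤
        ((G.degree u : ℤ) - 1) - (G.neighborFinset x ∩ G.neighborFinset u).card := by
    intro x hx
    have hadj : G.Adj u x := by simpa using hx
    have hdis : Disjoint (insert u (G.neighborFinset u) \ insert x (G.neighborFinset x))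
        (insert u (insert x (G.neighborFinset x ∩ G.neighborFinset u))) := by
      rw [disjoint_left]
      intro y hy hy2
      rw [mem_sdiff] at hy
      rw [mem_insert, mem_insert, mem_inter] at hy2
      apply hy.2
      rw [mem_insert]
      rcases hy2 with rfl | rfl | hy2
      · right; rw [SimpleGraph.mem_neighborFinset]; exact hadj.symm
      · left; rfl
      · right; exact hy2.1
    have hsub : (insert u (G.neighborFinset u) \ insert x (G.neighborFinset x)) ∪
        (insert u (insert x (G.neighborFinset x ∩ G.neighborFinset u))) ⊆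
          insert u (G.neighborFinset u) := by
      intro y hy
      simp only [mem_union, mem_sdiff, mem_insert, mem_inter] at hy
      rw [mem_insert]
      rcases hy with hy | rfl | rfl | hy
      · exact hy.1
      · left; rfl
      · right; exact hx
      · right; exact hy.2
    have h3 := card_le_card hsub
    rw [card_union_of_disjoint hdis, card_insert_of_notMem (s := G.neighborFinset u) (by simp),
      SimpleGraph.card_neighborFinset_eq_degree,
      card_insert_of_notMem (a := u) (by
        rw [mem_insert, mem_inter]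
        rintro (e | e)
        · exact hadj.ne e
        · simp at e),
      card_insert_of_notMem (a := x) (by
        rw [mem_inter]
        rintro ⟨e, -⟩
        simp at e)] at h3
    omega
  have h3 := sum_le_sum h2
  rw [sum_sub_distrib, sum_const, SimpleGraph.card_neighborFinset_eq_degree, nsmul_eq_mul] at h3
  push_cast
  linarith

/-- atypical members of a closed neighbourhood -/
def aty (G : SimpleGraph V) [DecidableRel G.Adj] (K : ℕ) (u : V) : Finset V :=
  (cn G u).filter fun x => K < (cn G u \ cn G x).card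

theorem aty_le (h : Hyp G R t E L K) {u : V} (hu : u ∉ bad G t L) : (aty G K u).card ≤ E := by
  have hu' : G.degree u ≤ t + L := by
    unfold bad at hu
    rw [mem_filter] at hu
    push Not at hu
    exact hu (mem_univ _)
  have hd := h.deg_ge u
  have h1 := h.sum_miss u
  have h2 : ∑ x ∈ aty G K u, (K : ℤ) ≤ ∑ x ∈ cn G u, ((cn G u \ cn G x).card : ℤ) := by
    calc ∑ x ∈ aty G K u, (K : ℤ) ≤ ∑ x ∈ aty G K u, ((cn G u \ cn G x).card : ℤ) := by
          refine sum_le_sum fun x hx => ?_
          have := (mem_filter.mp hx).2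
          omega
      _ ≤ _ := sum_le_sum_of_subset_of_nonneg (filter_subset _ _) fun _ _ _ => by positivity
  rw [sum_const, nsmul_eq_mul] at h2
  obtain ⟨p1, p2, p3, p4, p5, p6, p7⟩ := h.pos
  have hE2 : (t : ℤ) ≤ 200 * R ^ 2 * E := by exact_mod_cast h.hE2
  have hK : 600 * (R : ℤ) ^ 2 * L ≤ K := by exact_mod_cast h.hK
  have e0 : (0 : ℤ) ≤ (G.degree u : ℤ) - t := h.ex_nonneg u
  have e1 : (G.degree u : ℤ) - t ≤ L := by omega
  have e2 : (L : ℤ) ≤ t := by omega
  have e3 : (G.degree u : ℤ) * ((G.degree u : ℤ) - 1) - t * (t - 1) ≤ 3 * L * t := by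
    set e : ℤ := (G.degree u : ℤ) - t with he
    have hdeg : (G.degree u : ℤ) = t + e := by omega
    rw [hdeg]
    have : e * t ≤ L * t := mul_le_mul_of_nonneg_right e1 (by positivity)
    have : e * e ≤ L * t := mul_le_mul e1 (e1.trans e2) e0 (by positivity)
    nlinarith
  have e4 : 3 * (L : ℤ) * t ≤ K * E := by
    have a1 : 3 * (L : ℤ) * t ≤ 3 * L * (200 * R ^ 2 * E) :=
      mul_le_mul_of_nonneg_left hE2 (by positivity)
    have a2 : 600 * (R : ℤ) ^ 2 * L * E ≤ K * E := mul_le_mul_of_nonneg_right hK (by positivity)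
    nlinarith
  have e5 : ((aty G K u).card : ℤ) * K ≤ E * K := by linarith
  have hKpos : (0 : ℤ) < K := by omega
  have := le_of_mul_le_mul_right e5 hKpos
  exact_mod_cast this

/-- a good typical member -/
theorem typ (h : Hyp G R t E L K) {u x : V} (hx : x ∉ bad G t L)
    (hxu : x ∈ cn G u) (hxa : x ∉ aty G K u) :
    (cn G u \ cn G x).card ≤ K ∧ (cn G x \ cn G u).card ≤ 2 * K := by
  have h1 : (cn G u \ cn G x).card ≤ K := by
    by_contra hcon
    push Not at hcon
    exact hxa (mem_filter.mpr ⟨hxu, hcon⟩)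
  have hx' : G.degree x ≤ t + L := by
    unfold bad at hx
    rw [mem_filter] at hx
    push Not at hx
    exact hx (mem_univ _)
  refine ⟨h1, ?_⟩
  have a1 := card_sdiff_add_card_inter (cn G u) (cn G x)
  have a2 := card_sdiff_add_card_inter (cn G x) (cn G u)
  rw [card_cn] at a1 a2
  rw [inter_comm] at a2
  have := h.deg_ge u
  obtain ⟨p1, p2, p3, p4, p5, p6, p7⟩ := h.pos
  omega

/-- dichotomy for good vertices -/
theorem dich (h : Hyp G R t E L K) {u v : V} (hu : u ∉ bad G t L) (hv : v ∉ bad G t L)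
    (hI : 3 * E < (cn G u ∩ cn G v).card) : (cn G u \ cn G v).card ≤ 3 * K := by
  have hex : ∃ x ∈ cn G u ∩ cn G v, x ∉ bad G t L ∪ aty G K u ∪ aty G K v := by
    by_contra hcon
    push Not at hcon
    have h1 : (cn G u ∩ cn G v).card ≤ (bad G t L ∪ aty G K u ∪ aty G K v).card :=
      card_le_card hcon
    have h2 := card_union_le (bad G t L ∪ aty G K u) (aty G K v)
    have h3 := card_union_le (bad G t L) (aty G K u)
    have h4 := h.bad_le
    have h5 := h.aty_le hu
    have h6 := h.aty_le hv
    omega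
  obtain ⟨x, hx, hx2⟩ := hex
  rw [mem_inter] at hx
  simp only [mem_union, not_or] at hx2
  obtain ⟨⟨hx3, hx4⟩, hx5⟩ := hx2
  have a1 := h.typ hx3 hx.1 hx4
  have a2 := h.typ hx3 hx.2 hx5
  have := sdiff_tri (cn G u) (cn G x) (cn G v)
  omega

/-! ### Clusters -/

/-- heads and the assignment of the vertices to the heads -/
structure Heads (G : SimpleGraph V) [DecidableRel G.Adj] (t E L : ℕ) (Hd : Finset V) (c : V → V) :
    Prop where
  H1 : ∀ v ∈ Hd, v ∉ bad G t L
  H2 : ∀ v ∈ Hd, ∀ w ∈ Hd, v ≠ w → (cn G v ∩ cn G w).card ≤ 3 * E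
  H3 : ∀ u, u ∉ bad G t L → ∃ v ∈ Hd, 3 * E < (cn G u ∩ cn G v).card
  C1 : ∀ w, c w ∈ Hd
  C2 : ∀ w, ∀ v ∈ Hd, (G.neighborFinset w ∩ cn G v).card ≤ (G.neighborFinset w ∩ cn G (c w)).card

theorem exists_heads (h : Hyp G R t E L K) : ∃ (Hd : Finset V) (c : V → V), Heads G t E L Hd c := by
  classical
  obtain ⟨p1, p2, p3, p4, p5, p6, p7⟩ := h.pos
  let P : Finset V → Prop := fun S => (∀ v ∈ S, v ∉ bad G t L) ∧
    ∀ v ∈ S, ∀ w ∈ S, v ≠ w → (cn G v ∩ cn G w).card ≤ 3 * E
  have hne : (univ.filter P).Nonempty := ⟨∅, by simp [P]⟩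
  obtain ⟨Hd, hHd, hmax⟩ := exists_max_image (univ.filter P) card hne
  have hP : P Hd := (mem_filter.mp hHd).2
  have H3 : ∀ u, u ∉ bad G t L → ∃ v ∈ Hd, 3 * E < (cn G u ∩ cn G v).card := by
    intro u hu
    by_cases huH : u ∈ Hd
    · refine ⟨u, huH, ?_⟩
      rw [inter_self, card_cn]
      have := h.deg_ge u
      omega
    · by_contra hcon
      push Not at hcon
      have hP2 : P (insert u Hd) := by
        refine ⟨?_, ?_⟩
        · intro v hv
          rw [mem_insert] at hv
          rcases hv with rfl | hv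
          · exact hu
          · exact hP.1 v hv
        · intro v hv w hw hvw
          rw [mem_insert] at hv hw
          rcases hv with rfl | hv <;> rcases hw with rfl | hw
          · exact absurd rfl hvw
          · exact hcon w hw
          · rw [inter_comm]; exact hcon v hv
          · exact hP.2 v hv w hw hvw
      have := hmax (insert u Hd) (mem_filter.mpr ⟨mem_univ _, hP2⟩)
      rw [card_insert_of_notMem huH] at this
      omega
  have hgood : ∃ u, u ∉ bad G t L := by
    by_contra hcon
    push Not at hcon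
    have h1 : (univ : Finset V).card ≤ (bad G t L).card := card_le_card fun v _ => hcon v
    rw [card_univ, h.hcard] at h1
    have h2 := h.bad_le
    have h3 : 1 * (t + 4) ≤ R * (t + 4) := Nat.mul_le_mul_right _ h.hR
    omega
  obtain ⟨u0, hu0⟩ := hgood
  obtain ⟨v0, hv0, -⟩ := H3 u0 hu0
  have hex : ∀ w, ∃ v ∈ Hd, ∀ v' ∈ Hd,
      (G.neighborFinset w ∩ cn G v').card ≤ (G.neighborFinset w ∩ cn G v).card := by
    intro w
    exact exists_max_image Hd (fun v => (G.neighborFinset w ∩ cn G v).card) ⟨v0, hv0⟩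
  choose c hc1 hc2 using hex
  exact ⟨Hd, c, ⟨hP.1, hP.2, H3, hc1, hc2⟩⟩

variable {Hd : Finset V} {c : V → V}

theorem c_eq (h : Hyp G R t E L K) (hh : Heads G t E L Hd c) {v w : V} (hv : v ∈ Hd)
    (hw : (cn G w \ cn G v).card ≤ 6 * K) : c w = v := by
  by_contra hne
  obtain ⟨p1, p2, p3, p4, p5, p6, p7⟩ := h.pos
  have a1 := hh.C2 w v hv
  have a2 := hh.H2 _ (hh.C1 w) v hv hne
  have a3 : (G.neighborFinset w ∩ cn G (c w)).card ≤
      (cn G w \ cn G v).card + (cn G (c w) ∩ cn G v).card := by
    refine (card_le_card ?_).trans (card_union_le _ _)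
    intro x hx
    rw [mem_inter] at hx
    rw [mem_union, mem_sdiff, mem_inter]
    by_cases hB : x ∈ cn G v
    · exact Or.inr ⟨hx.2, hB⟩
    · exact Or.inl ⟨nb_sub_cn w hx.1, hB⟩
  have a4 : (cn G w ∩ cn G v).card ≤ (G.neighborFinset w ∩ cn G v).card + 1 := by
    refine (card_le_card ?_).trans (card_insert_le w _)
    intro x hx
    rw [mem_inter] at hx
    rw [mem_insert, mem_inter]
    have := hx.1
    unfold cn at this
    rw [mem_insert] at this
    rcases this with e | e
    · exact Or.inl e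
    · exact Or.inr ⟨e, hx.2⟩
  have a5 := card_sdiff_add_card_inter (cn G w) (cn G v)
  rw [card_cn] at a5
  have a6 := h.deg_ge w
  omega

theorem good_c (h : Hyp G R t E L K) (hh : Heads G t E L Hd c) {u : V} (hu : u ∉ bad G t L) :
    (cn G u \ cn G (c u)).card ≤ 3 * K ∧ (cn G (c u) \ cn G u).card ≤ 3 * K := by
  obtain ⟨v, hv, hI⟩ := hh.H3 u hu
  have hvg := hh.H1 v hv
  have a1 := h.dich hu hvg hI
  have a2 := h.dich hvg hu (by rwa [inter_comm])
  have : c u = v := h.c_eq hh hv (by omega)
  rw [this]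
  exact ⟨a1, a2⟩

theorem c_head (h : Hyp G R t E L K) (hh : Heads G t E L Hd c) {v : V} (hv : v ∈ Hd) : c v = v :=
  h.c_eq hh hv (by simp)

theorem far (h : Hyp G R t E L K) (hh : Heads G t E L Hd c) {v y : V} (hv : v ∉ bad G t L)
    (hc : c v = c y) :
    2 * (t : ℤ) - 1 ≤ G.degree y + (G.neighborFinset y ∩ cn G v).card + 6 * K + E := by
  classical
  obtain ⟨p1, p2, p3, p4, p5, p6, p7⟩ := h.pos
  set a : ℕ := (G.neighborFinset y ∩ cn G v).card with ha
  have h1 : ∀ u ∈ G.neighborFinset y, ((G.neighborFinset u ∩ G.neighborFinset y).card : ℤ) ≤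
      (a + 6 * K : ℕ) + (if u ∈ bad G t L then (G.degree y : ℤ) else 0) := by
    intro u hu
    split_ifs with hb
    · have : (G.neighborFinset u ∩ G.neighborFinset y).card ≤ G.degree y := by
        rw [← SimpleGraph.card_neighborFinset_eq_degree]
        exact card_le_card inter_subset_right
      omega
    · have b1 := (h.good_c hh hb).1
      have b2 := hh.C2 y (c u) (hh.C1 u)
      have b3 := (h.good_c hh hv).2
      rw [hc] at b3
      have b4 : (G.neighborFinset u ∩ G.neighborFinset y).card ≤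
          (cn G u \ cn G (c u)).card + (G.neighborFinset y ∩ cn G (c u)).card := by
        refine (card_le_card ?_).trans (card_union_le _ _)
        intro x hx
        rw [mem_inter] at hx
        rw [mem_union, mem_sdiff, mem_inter]
        by_cases hB : x ∈ cn G (c u)
        · exact Or.inr ⟨hx.2, hB⟩
        · exact Or.inl ⟨nb_sub_cn u hx.1, hB⟩
      have b5 : (G.neighborFinset y ∩ cn G (c y)).card ≤
          (cn G (c y) \ cn G v).card + (G.neighborFinset y ∩ cn G v).card := by
        refine (card_le_card ?_).trans (card_union_le _ _)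
        intro x hx
        rw [mem_inter] at hx
        rw [mem_union, mem_sdiff, mem_inter]
        by_cases hB : x ∈ cn G v
        · exact Or.inr ⟨hx.1, hB⟩
        · exact Or.inl ⟨hx.2, hB⟩
      push_cast
      omega
  have h2 := (h.tt y).trans (sum_le_sum h1)
  rw [sum_add_distrib, sum_const, SimpleGraph.card_neighborFinset_eq_degree, nsmul_eq_mul,
    ← sum_filter, sum_const, nsmul_eq_mul] at h2
  have h3 : ((filter (fun u => u ∈ bad G t L) (G.neighborFinset y)).card : ℤ) ≤ E := by
    have : (filter (fun u => u ∈ bad G t L) (G.neighborFinset y)).card ≤ (bad G t L).card :=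
      card_le_card fun x hx => (mem_filter.mp hx).2
    have := h.bad_le
    omega
  have h4 : ((filter (fun u => u ∈ bad G t L) (G.neighborFinset y)).card : ℤ) * G.degree y ≤
      E * G.degree y := mul_le_mul_of_nonneg_right h3 (by positivity)
  push_cast at h2
  set D : ℤ := (G.degree y : ℤ) with hD
  set m : ℤ := (a : ℤ) + 6 * K + E with hm
  have h5 : (t : ℤ) * (t - 1) ≤ D * m := by
    have : D * m = D * (a + 6 * K) + E * D := by rw [hm]; ring
    linarith
  have hD0 : 0 ≤ D := by positivity
  have hm0 : 0 ≤ m := by positivity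
  have ht : (2 : ℤ) ≤ t := by omega
  by_contra hcon
  have h6 : D + m ≤ 2 * t - 2 := by
    rw [hm]
    omega
  have h7 : (D + m) * (D + m) ≤ (2 * t - 2) * (2 * t - 2) :=
    mul_le_mul h6 h6 (by positivity) (by omega)
  nlinarith [sq_nonneg (D - m)]

theorem Zle (h : Hyp G R t E L K) (hh : Heads G t E L Hd c) {v : V} (hv : v ∉ bad G t L) :
    (cn G v \ univ.filter fun w => c w = c v).card ≤ 2 * E := by
  have hsub : (cn G v \ univ.filter fun w => c w = c v) ⊆ bad G t L ∪ aty G K v := by
    intro w hw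
    rw [mem_sdiff, mem_filter] at hw
    rw [mem_union]
    by_contra hcon
    push Not at hcon
    apply hw.2
    refine ⟨mem_univ _, ?_⟩
    have a1 := (h.typ hcon.1 hw.1 hcon.2).2
    have a2 := (h.good_c hh hv).1
    have a3 := sdiff_tri (cn G w) (cn G v) (cn G (c v))
    exact h.c_eq hh (hh.C1 v) (by omega)
  have a1 := card_le_card hsub
  have a2 := card_union_le (bad G t L) (aty G K v)
  have a3 := h.bad_le
  have a4 := h.aty_le hv
  omega

/-- double counting -/
theorem dcount (X Y : Finset V) : ∑ x ∈ X, (G.neighborFinset x ∩ Y).card =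
    ∑ y ∈ Y, (G.neighborFinset y ∩ X).card := by
  classical
  have e1 : ∀ (A B : Finset V), ∑ x ∈ A, (G.neighborFinset x ∩ B).card =
      ∑ x ∈ A, ∑ y ∈ B, if G.Adj x y then 1 else 0 := by
    intro A B
    refine sum_congr rfl fun x _ => ?_
    rw [← card_filter]
    congr 1
    ext y
    rw [mem_inter, mem_filter, SimpleGraph.mem_neighborFinset, and_comm]
  rw [e1, e1, sum_comm]
  refine sum_congr rfl fun y _ => sum_congr rfl fun x _ => ?_
  have : G.Adj x y ↔ G.Adj y x := G.adj_comm x y
  simp only [this]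

theorem cluster (h : Hyp G R t E L K) (hh : Heads G t E L Hd c) {v : V} (hv : v ∉ bad G t L) :
    ∃ Z Y : ℤ, 0 ≤ Z ∧ Z ≤ 2 * E ∧ 0 ≤ Y ∧
      ((univ.filter fun w => c w = c v).card : ℤ) = (G.degree v + 1 - Z) + Y ∧
      2 * ((G.degree v : ℤ) - t) - ((G.degree v : ℤ) - t) * t - Z * ((G.degree v : ℤ) - t) +
        Y * (t - 4 * E) ≤ ∑ u ∈ univ.filter (fun w => c w = c v), ((G.degree u : ℤ) - t) := by
  classical
  obtain ⟨p1, p2, p3, p4, p5, p6, p7⟩ := h.pos
  set B : Finset V := univ.filter fun w => c w = c v with hB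
  set X : Finset V := cn G v ∩ B with hX
  set Yf : Finset V := B \ cn G v with hY
  set Zf : Finset V := cn G v \ B with hZ
  have hZle : Zf.card ≤ 2 * E := h.Zle hh hv
  have hcX : X.card + Zf.card = G.degree v + 1 := by
    have := card_sdiff_add_card_inter (cn G v) B
    rw [card_cn, ← hX, ← hZ] at this
    omega
  have hcB : B.card = X.card + Yf.card := by
    have := card_sdiff_add_card_inter B (cn G v)
    rw [inter_comm, ← hX, ← hY] at this
    omega
  have hBsplit : ∑ u ∈ B, (G.degree u : ℤ) = ∑ u ∈ X, (G.degree u : ℤ) +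
      ∑ u ∈ Yf, (G.degree u : ℤ) := by
    have := sum_inter_add_sum_sdiff B (cn G v) (fun u => (G.degree u : ℤ))
    rw [inter_comm, ← hX, ← hY] at this
    linarith
  -- degrees of the members of `X`
  have hX1 : ∀ x ∈ X, ((G.neighborFinset x ∩ cn G v).card : ℤ) + (G.neighborFinset x ∩ Yf).card ≤
      G.degree x := by
    intro x _
    have hdis : Disjoint (G.neighborFinset x ∩ cn G v) (G.neighborFinset x ∩ Yf) := by
      rw [disjoint_left]
      intro y hy hy2
      rw [mem_inter] at hy hy2
      exact (mem_sdiff.mp hy2.2).2 hy.2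
    have hsub : (G.neighborFinset x ∩ cn G v) ∪ (G.neighborFinset x ∩ Yf) ⊆ G.neighborFinset x :=
      union_subset inter_subset_left inter_subset_left
    have := card_le_card hsub
    rw [card_union_of_disjoint hdis, SimpleGraph.card_neighborFinset_eq_degree] at this
    exact_mod_cast this
  have hXs := sum_le_sum hX1
  rw [sum_add_distrib] at hXs
  have hdc : ∑ x ∈ X, ((G.neighborFinset x ∩ Yf).card : ℤ) =
      ∑ y ∈ Yf, ((G.neighborFinset y ∩ X).card : ℤ) := by
    have := dcount (G := G) X Yf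
    exact_mod_cast this
  have hXZ : ∑ x ∈ cn G v, ((G.neighborFinset x ∩ cn G v).card : ℤ) =
      ∑ x ∈ X, ((G.neighborFinset x ∩ cn G v).card : ℤ) +
        ∑ x ∈ Zf, ((G.neighborFinset x ∩ cn G v).card : ℤ) := by
    have := sum_inter_add_sum_sdiff (cn G v) B
      (fun x => ((G.neighborFinset x ∩ cn G v).card : ℤ))
    rw [← hX, ← hZ] at this
    linarith
  have hZs : ∑ x ∈ Zf, ((G.neighborFinset x ∩ cn G v).card : ℤ) ≤ Zf.card * (G.degree v : ℤ) := by
    have : ∀ x ∈ Zf, ((G.neighborFinset x ∩ cn G v).card : ℤ) ≤ (G.degree v : ℤ) := by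
      intro x hx
      have hxv : x ∈ cn G v := (mem_sdiff.mp hx).1
      have hsub : G.neighborFinset x ∩ cn G v ⊆ (cn G v).erase x := by
        intro y hy
        rw [mem_inter] at hy
        rw [mem_erase]
        refine ⟨?_, hy.2⟩
        rintro rfl
        simp at hy
      have := card_le_card hsub
      rw [card_erase_of_mem hxv, card_cn] at this
      omega
    have h2 := sum_le_sum this
    rw [sum_const, nsmul_eq_mul] at h2
    exact h2
  have hfull : 2 * (G.degree v : ℤ) + t * (t - 1) ≤
      ∑ x ∈ cn G v, ((G.neighborFinset x ∩ cn G v).card : ℤ) := by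
    have e1 : ∑ x ∈ cn G v, ((G.neighborFinset x ∩ cn G v).card : ℤ) =
        ((G.neighborFinset v ∩ cn G v).card : ℤ) +
          ∑ x ∈ G.neighborFinset v, ((G.neighborFinset x ∩ cn G v).card : ℤ) := by
      conv_lhs => rw [show cn G v = insert v (G.neighborFinset v) from rfl]
      rw [sum_insert (by simp)]
      rfl
    have e2 : G.neighborFinset v ∩ cn G v = G.neighborFinset v :=
      inter_eq_left.mpr (nb_sub_cn v)
    have e3 : ∀ x ∈ G.neighborFinset v,
        ((G.neighborFinset x ∩ G.neighborFinset v).card : ℤ) + 1 ≤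
          (G.neighborFinset x ∩ cn G v).card := by
      intro x hx
      have hvx : v ∈ G.neighborFinset x := by
        rw [SimpleGraph.mem_neighborFinset] at hx ⊢
        exact hx.symm
      have hsub : insert v (G.neighborFinset x ∩ G.neighborFinset v) ⊆
          G.neighborFinset x ∩ cn G v := by
        intro y hy
        rw [mem_insert, mem_inter] at hy
        rw [mem_inter]
        rcases hy with rfl | hy
        · exact ⟨hvx, self_mem_cn _⟩
        · exact ⟨hy.1, nb_sub_cn v hy.2⟩
      have := card_le_card hsub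
      rw [card_insert_of_notMem (by
        rw [mem_inter]
        rintro ⟨-, e⟩
        simp at e)] at this
      exact_mod_cast this
    have e4 := sum_le_sum e3
    rw [sum_add_distrib, sum_const, SimpleGraph.card_neighborFinset_eq_degree, nsmul_eq_mul,
      mul_one] at e4
    rw [e1, e2, SimpleGraph.card_neighborFinset_eq_degree]
    have := h.tt v
    linarith
  have hYs : ∀ y ∈ Yf, (2 * (t : ℤ) - 4 * E) ≤
      ((G.neighborFinset y ∩ X).card : ℤ) + G.degree y := by
    intro y hy
    have hyB : y ∈ B := (mem_sdiff.mp hy).1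
    have hcy : c y = c v := (mem_filter.mp hyB).2
    have a1 := h.far hh hv hcy.symm
    have a2 : (G.neighborFinset y ∩ cn G v).card ≤ (G.neighborFinset y ∩ X).card + Zf.card := by
      refine (card_le_card ?_).trans (card_union_le _ _)
      intro x hx
      rw [mem_inter] at hx
      rw [mem_union, mem_inter, mem_inter, mem_sdiff]
      by_cases hxB : x ∈ B
      · exact Or.inl ⟨hx.1, hx.2, hxB⟩
      · exact Or.inr ⟨hx.2, hxB⟩
    omega
  have hYs2 := sum_le_sum hYs
  rw [sum_const, nsmul_eq_mul, sum_add_distrib] at hYs2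
  refine ⟨Zf.card, Yf.card, by positivity, by exact_mod_cast hZle, by positivity, ?_, ?_⟩
  · have : (X.card : ℤ) = G.degree v + 1 - Zf.card := by omega
    rw [hcB]
    push_cast
    rw [this]
  · rw [sum_sub_distrib, sum_const, nsmul_eq_mul, hBsplit, hcB]
    push_cast
    have hXc : (X.card : ℤ) = G.degree v + 1 - Zf.card := by omega
    rw [hXc]
    nlinarith

end Hyp

end Pool.Agent.R97.Tri
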