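import Mathlib

/-!
# Signed versus absolute three term recursions on one block
-/

namespace Pool.Agent.R97.WalkCore

section defs

variable {K : Type*} [Field K]

/-- Solution of the recursion with given initial values. -/
def sol (γ : ℕ → K) (a b c x0 x1 x2 : K) : ℕ → K
  | 0 => x0
  | 1 => x1
  | 2 => x2
  | (i + 3) => γ i * (a * sol γ a b c x0 x1 x2 (i + 2) + b * sol γ a b c x0 x1 x2 (i + 1)
      + c * sol γ a b c x0 x1 x2 i)

/-- Walks with steps `3` only. -/
def bas (γ : ℕ → K) (c x0 x1 x2 : K) : ℕ → K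
  | 0 => x0
  | 1 => x1
  | 2 => x2
  | (i + 3) => γ i * (c * bas γ c x0 x1 x2 i)

/-- One more step `2`. -/
def lift (γ : ℕ → K) (b c : K) (h : ℕ → K) : ℕ → K
  | 0 => 0
  | 1 => 0
  | 2 => 0
  | (i + 3) => γ i * (c * lift γ b c h i + b * h (i + 1))

/-- Walks with exactly `k` steps `2` and no step `1`. -/
def PP (γ : ℕ → K) (b c x0 x1 x2 : K) : ℕ → ℕ → K
  | 0 => bas γ c x0 x1 x2
  | (k + 1) => lift γ b c (PP γ b c x0 x1 x2 k)

theorem sol_succ (γ : ℕ → K) (a b c x0 x1 x2 : K) (i : ℕ) :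
    sol γ a b c x0 x1 x2 (i + 3) = γ i * (a * sol γ a b c x0 x1 x2 (i + 2)
      + b * sol γ a b c x0 x1 x2 (i + 1) + c * sol γ a b c x0 x1 x2 i) := rfl

theorem bas_succ (γ : ℕ → K) (c x0 x1 x2 : K) (i : ℕ) :
    bas γ c x0 x1 x2 (i + 3) = γ i * (c * bas γ c x0 x1 x2 i) := rfl

theorem lift_succ (γ : ℕ → K) (b c : K) (h : ℕ → K) (i : ℕ) :
    lift γ b c h (i + 3) = γ i * (c * lift γ b c h i + b * h (i + 1)) := rfl

theorem PP_zero_succ (γ : ℕ → K) (b c x0 x1 x2 : K) (i : ℕ) :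
    PP γ b c x0 x1 x2 0 (i + 3) = γ i * (c * PP γ b c x0 x1 x2 0 i) := rfl

theorem PP_succ_succ (γ : ℕ → K) (b c x0 x1 x2 : K) (k i : ℕ) :
    PP γ b c x0 x1 x2 (k + 1) (i + 3) =
      γ i * (c * PP γ b c x0 x1 x2 (k + 1) i + b * PP γ b c x0 x1 x2 k (i + 1)) := rfl

end defs

theorem three_ind {P : ℕ → Prop} (h0 : P 0) (h1 : P 1) (h2 : P 2)
    (h : ∀ i, P i → P (i + 1) → P (i + 2) → P (i + 3)) : ∀ i, P i := by
  have : ∀ i, P i ∧ P (i + 1) ∧ P (i + 2) := by
    intro i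
    induction i with
    | zero => exact ⟨h0, h1, h2⟩
    | succ i ih => exact ⟨ih.2.1, ih.2.2, h i ih.1 ih.2.1 ih.2.2⟩
  exact fun i => (this i).1

/-! ## Linearity -/

theorem sol_lin {K : Type*} [Field K] (γ : ℕ → K) (a b c x0 x1 x2 : K) (i : ℕ) :
    sol γ a b c x0 x1 x2 i = x0 * sol γ a b c 1 0 0 i + x1 * sol γ a b c 0 1 0 i
      + x2 * sol γ a b c 0 0 1 i := by
  induction i using three_ind with
  | h0 => simp [sol]
  | h1 => simp [sol]
  | h2 => simp [sol]
  | h i ih0 ih1 ih2 =>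
    simp only [sol_succ]
    rw [ih0, ih1, ih2]
    ring

theorem sol_smul {K : Type*} [Field K] (γ : ℕ → K) (a b c x0 x1 x2 t : K) (i : ℕ) :
    sol γ a b c (t * x0) (t * x1) (t * x2) i = t * sol γ a b c x0 x1 x2 i := by
  rw [sol_lin, sol_lin γ a b c x0 x1 x2]
  ring

/-! ## Comparison of signed and absolute solutions -/

section compare

variable {γ : ℕ → ℝ} (hγ : ∀ i, 0 ≤ γ i) (a b c : ℂ) {x0 x1 x2 : ℝ}
  (h0 : 0 ≤ x0) (h1 : 0 ≤ x1) (h2 : 0 ≤ x2)

include hγ h0 h1 h2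

theorem solR_nonneg {A B C : ℝ} (hA : 0 ≤ A) (hB : 0 ≤ B) (hC : 0 ≤ C) (i : ℕ) :
    0 ≤ sol γ A B C x0 x1 x2 i := by
  induction i using three_ind with
  | h0 => exact h0
  | h1 => exact h1
  | h2 => exact h2
  | h i ih0 ih1 ih2 =>
    rw [sol_succ]
    have := hγ i
    positivity

theorem PPR_nonneg {B C : ℝ} (hB : 0 ≤ B) (hC : 0 ≤ C) (k i : ℕ) :
    0 ≤ PP γ B C x0 x1 x2 k i := by
  induction k generalizing i with
  | zero =>
    induction i using three_ind with
    | h0 => exact h0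
    | h1 => exact h1
    | h2 => exact h2
    | h i ih0 ih1 ih2 =>
      rw [PP_zero_succ]
      have := hγ i
      positivity
  | succ k ihk =>
    induction i using three_ind with
    | h0 => exact le_refl _
    | h1 => exact le_refl _
    | h2 => exact le_refl _
    | h i ih0 ih1 ih2 =>
      rw [PP_succ_succ]
      have := hγ i
      have := ihk (i + 1)
      positivity

theorem norm_sol_le (i : ℕ) :
    ‖sol (fun i => (γ i : ℂ)) a b c (x0 : ℂ) x1 x2 i‖ ≤ sol γ ‖a‖ ‖b‖ ‖c‖ x0 x1 x2 i := by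
  induction i using three_ind with
  | h0 => simp [sol, abs_of_nonneg h0]
  | h1 => simp [sol, abs_of_nonneg h1]
  | h2 => simp [sol, abs_of_nonneg h2]
  | h i ih0 ih1 ih2 =>
    rw [sol_succ, sol_succ, norm_mul, Complex.norm_real, Real.norm_of_nonneg (hγ i)]
    apply mul_le_mul_of_nonneg_left _ (hγ i)
    refine (norm_add₃_le).trans ?_
    rw [norm_mul, norm_mul, norm_mul]
    gcongr

theorem norm_PP_le (k i : ℕ) :
    ‖PP (fun i => (γ i : ℂ)) b c (x0 : ℂ) x1 x2 k i‖ ≤ PP γ ‖b‖ ‖c‖ x0 x1 x2 k i := by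
  induction k generalizing i with
  | zero =>
    induction i using three_ind with
    | h0 => simp [PP, bas, abs_of_nonneg h0]
    | h1 => simp [PP, bas, abs_of_nonneg h1]
    | h2 => simp [PP, bas, abs_of_nonneg h2]
    | h i ih0 ih1 ih2 =>
      rw [PP_zero_succ, PP_zero_succ, norm_mul, norm_mul, Complex.norm_real,
        Real.norm_of_nonneg (hγ i)]
      apply mul_le_mul_of_nonneg_left _ (hγ i)
      gcongr
  | succ k ihk =>
    induction i using three_ind with
    | h0 => simp [PP, lift]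
    | h1 => simp [PP, lift]
    | h2 => simp [PP, lift]
    | h i ih0 ih1 ih2 =>
      rw [PP_succ_succ, PP_succ_succ, norm_mul, Complex.norm_real, Real.norm_of_nonneg (hγ i)]
      apply mul_le_mul_of_nonneg_left _ (hγ i)
      refine (norm_add_le _ _).trans ?_
      rw [norm_mul, norm_mul]
      have := ihk (i + 1)
      gcongr

/-- The part of the solution with at least one step `1` or at least six steps `2`. -/
theorem rest_le (i : ℕ) :
    ‖sol (fun i => (γ i : ℂ)) a b c (x0 : ℂ) x1 x2 i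
        - ∑ k ∈ Finset.range 6, PP (fun i => (γ i : ℂ)) b c (x0 : ℂ) x1 x2 k i‖ ≤
      sol γ ‖a‖ ‖b‖ ‖c‖ x0 x1 x2 i - ∑ k ∈ Finset.range 6, PP γ ‖b‖ ‖c‖ x0 x1 x2 k i := by
  induction i using three_ind with
  | h0 => simp [sol, Finset.sum_range_succ, PP, bas, lift]
  | h1 => simp [sol, Finset.sum_range_succ, PP, bas, lift]
  | h2 => simp [sol, Finset.sum_range_succ, PP, bas, lift]
  | h i ih0 ih1 ih2 =>
    have e1 : sol (fun i => (γ i : ℂ)) a b c (x0 : ℂ) x1 x2 (i + 3)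
        - ∑ k ∈ Finset.range 6, PP (fun i => (γ i : ℂ)) b c (x0 : ℂ) x1 x2 k (i + 3) =
        (γ i : ℂ) * (a * sol (fun i => (γ i : ℂ)) a b c (x0 : ℂ) x1 x2 (i + 2) +
          b * (sol (fun i => (γ i : ℂ)) a b c (x0 : ℂ) x1 x2 (i + 1)
            - ∑ k ∈ Finset.range 6, PP (fun i => (γ i : ℂ)) b c (x0 : ℂ) x1 x2 k (i + 1)) +
          b * PP (fun i => (γ i : ℂ)) b c (x0 : ℂ) x1 x2 5 (i + 1) +
          c * (sol (fun i => (γ i : ℂ)) a b c (x0 : ℂ) x1 x2 i
            - ∑ k ∈ Finset.range 6, PP (fun i => (γ i : ℂ)) b c (x0 : ℂ) x1 x2 k i)) := by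
      simp only [Finset.sum_range_succ, Finset.sum_range_zero, sol_succ, PP_zero_succ,
        PP_succ_succ, zero_add]
      ring
    have e2 : sol γ ‖a‖ ‖b‖ ‖c‖ x0 x1 x2 (i + 3)
        - ∑ k ∈ Finset.range 6, PP γ ‖b‖ ‖c‖ x0 x1 x2 k (i + 3) =
        γ i * (‖a‖ * sol γ ‖a‖ ‖b‖ ‖c‖ x0 x1 x2 (i + 2) +
          ‖b‖ * (sol γ ‖a‖ ‖b‖ ‖c‖ x0 x1 x2 (i + 1)
            - ∑ k ∈ Finset.range 6, PP γ ‖b‖ ‖c‖ x0 x1 x2 k (i + 1)) +
          ‖b‖ * PP γ ‖b‖ ‖c‖ x0 x1 x2 5 (i + 1) +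
          ‖c‖ * (sol γ ‖a‖ ‖b‖ ‖c‖ x0 x1 x2 i
            - ∑ k ∈ Finset.range 6, PP γ ‖b‖ ‖c‖ x0 x1 x2 k i)) := by
      simp only [Finset.sum_range_succ, Finset.sum_range_zero, sol_succ, PP_zero_succ,
        PP_succ_succ, zero_add]
      ring
    rw [e1, e2, norm_mul, Complex.norm_real, Real.norm_of_nonneg (hγ i)]
    apply mul_le_mul_of_nonneg_left _ (hγ i)
    have n1 := norm_sol_le hγ a b c h0 h1 h2 (i + 2)
    have n2 := norm_PP_le hγ b c h0 h1 h2 5 (i + 1)
    refine (norm_add_le _ _).trans (add_le_add ((norm_add_le _ _).trans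
      (add_le_add ((norm_add_le _ _).trans (add_le_add ?_ ?_)) ?_)) ?_) <;> rw [norm_mul]
    · exact mul_le_mul_of_nonneg_left n1 (norm_nonneg _)
    · exact mul_le_mul_of_nonneg_left ih1 (norm_nonneg _)
    · exact mul_le_mul_of_nonneg_left n2 (norm_nonneg _)
    · exact mul_le_mul_of_nonneg_left ih0 (norm_nonneg _)

end compare

/-! ## Vanishing and phases for the initial vector concentrated at `r` -/

/-- The initial vector `y * e_r`. -/
def ev {K : Type*} [Field K] (r : ℕ) (y : K) (s : ℕ) : K := if s = r then y else 0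

theorem PP_below {K : Type*} [Field K] (γ : ℕ → K) (b c y : K) {r : ℕ} (hr : r < 3) :
    ∀ k i, i < r + 2 * k → PP γ b c (ev r y 0) (ev r y 1) (ev r y 2) k i = 0 := by
  intro k
  induction k with
  | zero =>
    intro i hi
    have : i = 0 ∨ i = 1 := by omega
    rcases this with rfl | rfl
    · have : (0 : ℕ) ≠ r := by omega
      simp [PP, bas, ev, this]
    · have : (1 : ℕ) ≠ r := by omega
      simp [PP, bas, ev, this]
  | succ k ihk =>
    intro i
    induction i using three_ind with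
    | h0 => intro _; rfl
    | h1 => intro _; rfl
    | h2 => intro _; rfl
    | h i ih0 ih1 ih2 =>
      intro hi
      rw [PP_succ_succ, ih0 (by omega), ihk (i + 1) (by omega)]
      ring

theorem PP_class {K : Type*} [Field K] (γ : ℕ → K) (b c y : K) {r : ℕ} (hr : r < 3) :
    ∀ k i, i % 3 ≠ (r + 2 * k) % 3 → PP γ b c (ev r y 0) (ev r y 1) (ev r y 2) k i = 0 := by
  intro k
  induction k with
  | zero =>
    intro i
    induction i using three_ind with
    | h0 =>
      intro h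
      have : (0 : ℕ) ≠ r := by rintro rfl; simp at h
      simp [PP, bas, ev, this]
    | h1 =>
      intro h
      have : (1 : ℕ) ≠ r := by rintro rfl; simp at h
      simp [PP, bas, ev, this]
    | h2 =>
      intro h
      have : (2 : ℕ) ≠ r := by rintro rfl; simp at h
      simp [PP, bas, ev, this]
    | h i ih0 ih1 ih2 =>
      intro h
      rw [PP_zero_succ, ih0 (by omega)]
      ring
  | succ k ihk =>
    intro i
    induction i using three_ind with
    | h0 => intro _; rfl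
    | h1 => intro _; rfl
    | h2 => intro _; rfl
    | h i ih0 ih1 ih2 =>
      intro hi
      rw [PP_succ_succ, ih0 (by omega), ihk (i + 1) (by omega)]
      ring

theorem PP_phase (γ : ℕ → ℝ) {b c u v : ℂ} (hu : b = ‖b‖ * u) (hv : c = ‖c‖ * v) (y : ℝ) {r : ℕ}
    (hr : r < 3) : ∀ k m,
      PP (fun i => (γ i : ℂ)) b c ((ev r y 0 : ℝ) : ℂ) ((ev r y 1 : ℝ) : ℂ) ((ev r y 2 : ℝ) : ℂ)
        k (r + 2 * k + 3 * m) =
      u ^ k * v ^ m * ((PP γ ‖b‖ ‖c‖ (ev r y 0) (ev r y 1) (ev r y 2) k (r + 2 * k + 3 * m) : ℝ) : ℂ)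
      := by
  have hev : ∀ s, ((ev r y s : ℝ) : ℂ) = ev r (y : ℂ) s := by
    intro s; unfold ev; split_ifs <;> simp
  intro k
  induction k with
  | zero =>
    intro m
    induction m with
    | zero =>
      have : r = 0 ∨ r = 1 ∨ r = 2 := by omega
      rcases this with rfl | rfl | rfl <;> simp [PP, bas]
    | succ m ih =>
      have e : r + 2 * 0 + 3 * (m + 1) = (r + 2 * 0 + 3 * m) + 3 := by ring
      rw [e, PP_zero_succ, PP_zero_succ, ih]
      push_cast
      nth_rewrite 1 [hv]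
      ring
  | succ k ihk =>
    intro m
    induction m with
    | zero =>
      by_cases hlt : r + 2 * (k + 1) + 3 * 0 < 3
      · have : r + 2 * (k + 1) + 3 * 0 = 2 := by omega
        rw [this]
        simp [PP, lift]
      · obtain ⟨j, hj⟩ : ∃ j, r + 2 * (k + 1) + 3 * 0 = j + 3 := ⟨r + 2 * (k + 1) - 3, by omega⟩
        have hj1 : j + 1 = r + 2 * k + 3 * 0 := by omega
        rw [hj, PP_succ_succ, PP_succ_succ, hj1, ihk 0]
        have z1 := PP_below (fun i => (γ i : ℂ)) b c (y : ℂ) hr (k + 1) j (by omega)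
        have z2 := PP_below γ ‖b‖ ‖c‖ y hr (k + 1) j (by omega)
        rw [hev, hev, hev, z1, z2]
        push_cast
        nth_rewrite 1 [hu]
        ring
    | succ m ih =>
      have e : r + 2 * (k + 1) + 3 * (m + 1) = (r + 2 * (k + 1) + 3 * m) + 3 := by ring
      have e2 : r + 2 * (k + 1) + 3 * m + 1 = r + 2 * k + 3 * (m + 1) := by ring
      rw [e, PP_succ_succ, PP_succ_succ, e2, ih, ihk (m + 1)]
      push_cast
      nth_rewrite 1 [hv]
      nth_rewrite 2 [hu]
      ring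

end Pool.Agent.R97.WalkCore
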