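import Mathlib
import Pool.Agent.R97.WalkCore

/-!
# Estimates on one block: the signed solution is smaller by a definite factor
-/

namespace Pool.Agent.R97.WalkEst

open Pool.Agent.R97.WalkCore

/-- Hypotheses on the vertex weights of a block of length `N`. -/
structure Hyp (γ : ℕ → ℝ) (N : ℕ) (Q x : ℝ) : Prop where
  nonneg : ∀ i, 0 ≤ γ i
  one_le : 1 ≤ Q
  lo : ∀ i ≤ N, 1 ≤ γ i * Q ^ 3
  hi : ∀ i ≤ N, γ i * Q ^ 3 ≤ 2
  hx : 0 ≤ x
  up : ∀ i ≤ N, γ (i + 1) ≤ (1 + x) * γ i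
  dn : ∀ i ≤ N, γ i ≤ (1 + x) * γ (i + 1)
  pw : (1 + x) ^ (N + 3) ≤ 2

/-- The reference function. -/
noncomputable def D (γ : ℕ → ℝ) (C Q : ℝ) : ℕ → ℝ := bas γ C (Q ^ 2) Q 1

theorem D_zero (γ : ℕ → ℝ) (C Q : ℝ) : D γ C Q 0 = Q ^ 2 := rfl
theorem D_one (γ : ℕ → ℝ) (C Q : ℝ) : D γ C Q 1 = Q := rfl
theorem D_two (γ : ℕ → ℝ) (C Q : ℝ) : D γ C Q 2 = 1 := rfl
theorem D_succ (γ : ℕ → ℝ) (C Q : ℝ) (i : ℕ) :
    D γ C Q (i + 3) = γ i * (C * D γ C Q i) := rfl

section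

variable {γ : ℕ → ℝ} {N : ℕ} {Q x : ℝ} (H : Hyp γ N Q x) {C : ℝ} (hC : 0 < C)

include H

theorem γ_pos {i : ℕ} (hi : i ≤ N) : 0 < γ i := by
  have h1 := H.lo i hi
  have h2 := H.one_le
  have h3 : 0 < Q ^ 3 := by positivity
  by_contra h
  push Not at h
  nlinarith

include hC

theorem D_pos : ∀ i, i ≤ N + 3 → 0 < D γ C Q i := by
  have hQ : 0 < Q := lt_of_lt_of_le one_pos H.one_le
  intro i
  induction i using three_ind with
  | h0 => intro _; rw [D_zero]; positivity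
  | h1 => intro _; rw [D_one]; exact hQ
  | h2 => intro _; rw [D_two]; exact one_pos
  | h i ih0 ih1 ih2 =>
    intro hi
    rw [D_succ]
    have h1 := γ_pos H (i := i) (by omega)
    have h2 := ih0 (by omega)
    positivity

theorem D_up : ∀ i, i ≤ N + 2 →
    D γ C Q (i + 1) * Q ≤ max 1 (2 * C) * (1 + x) ^ i * D γ C Q i := by
  have hQ : 0 < Q := lt_of_lt_of_le one_pos H.one_le
  have hx := H.hx
  have hM : (1 : ℝ) ≤ max 1 (2 * C) := le_max_left _ _
  have hM2 : 2 * C ≤ max 1 (2 * C) := le_max_right _ _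
  intro i
  induction i using three_ind with
  | h0 =>
    intro _
    rw [zero_add, D_one, D_zero, pow_zero, mul_one]
    nlinarith [sq_nonneg Q]
  | h1 =>
    intro _
    show D γ C Q 2 * Q ≤ _
    rw [D_two, D_one, one_mul, pow_one]
    nlinarith [mul_nonneg (mul_nonneg (by linarith : (0:ℝ) ≤ max 1 (2 * C)) hx) hQ.le]
  | h2 =>
    intro hN
    show D γ C Q (0 + 3) * Q ≤ _
    rw [D_succ, D_two, D_zero, mul_one]
    have h1 := H.hi 0 (by omega)
    have h2 : (1 : ℝ) ≤ (1 + x) ^ 2 := one_le_pow₀ (by linarith)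
    have h3 : γ 0 * (C * Q ^ 2) * Q = C * (γ 0 * Q ^ 3) := by ring
    rw [h3]
    calc C * (γ 0 * Q ^ 3) ≤ C * 2 := mul_le_mul_of_nonneg_left h1 hC.le
      _ = 2 * C := by ring
      _ ≤ max 1 (2 * C) := hM2
      _ = max 1 (2 * C) * 1 := by ring
      _ ≤ max 1 (2 * C) * (1 + x) ^ 2 := mul_le_mul_of_nonneg_left h2 (by linarith)
  | h i ih0 ih1 ih2 =>
    intro hi
    have e : i + 3 + 1 = (i + 1) + 3 := by ring
    rw [e, D_succ, D_succ]
    have h0 := ih0 (by omega)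
    have h1 := H.up i (by omega)
    have hg := γ_pos H (i := i) (by omega)
    have hg1 := H.nonneg (i + 1)
    have hD := D_pos H hC i (by omega)
    have hD1 := D_pos H hC (i + 1) (by omega)
    have hp : (0 : ℝ) < (1 + x) ^ i := by positivity
    calc γ (i + 1) * (C * D γ C Q (i + 1)) * Q = (γ (i + 1) * C) * (D γ C Q (i + 1) * Q) := by ring
      _ ≤ (γ (i + 1) * C) * (max 1 (2 * C) * (1 + x) ^ i * D γ C Q i) :=
          mul_le_mul_of_nonneg_left h0 (by positivity)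
      _ = γ (i + 1) * (C * (max 1 (2 * C) * (1 + x) ^ i * D γ C Q i)) := by ring
      _ ≤ ((1 + x) * γ i) * (C * (max 1 (2 * C) * (1 + x) ^ i * D γ C Q i)) :=
          mul_le_mul_of_nonneg_right h1 (by positivity)
      _ = max 1 (2 * C) * (1 + x) ^ (i + 1) * (γ i * (C * D γ C Q i)) := by ring
      _ ≤ max 1 (2 * C) * (1 + x) ^ (i + 3) * (γ i * (C * D γ C Q i)) := by
          apply mul_le_mul_of_nonneg_right _ (by positivity)
          apply mul_le_mul_of_nonneg_left _ (by positivity)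
          exact pow_le_pow_right₀ (by linarith) (by omega)

theorem D_dn : ∀ i, i ≤ N + 2 →
    min 1 C * D γ C Q i ≤ D γ C Q (i + 1) * Q * (1 + x) ^ i := by
  have hQ : 0 < Q := lt_of_lt_of_le one_pos H.one_le
  have hx := H.hx
  have hM : min 1 C ≤ (1 : ℝ) := min_le_left _ _
  have hM2 : min 1 C ≤ C := min_le_right _ _
  have hM0 : 0 < min 1 C := lt_min one_pos hC
  intro i
  induction i using three_ind with
  | h0 =>
    intro _
    rw [zero_add, D_one, D_zero, pow_zero, mul_one]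
    nlinarith [sq_nonneg Q]
  | h1 =>
    intro _
    show _ ≤ D γ C Q 2 * Q * _
    rw [D_two, D_one, one_mul, pow_one]
    nlinarith [mul_nonneg hx hQ.le]
  | h2 =>
    intro hN
    show _ ≤ D γ C Q (0 + 3) * Q * _
    rw [D_succ, D_two, D_zero, mul_one]
    have h1 := H.lo 0 (by omega)
    have h2 : (1 : ℝ) ≤ (1 + x) ^ 2 := one_le_pow₀ (by linarith)
    have h3 : γ 0 * (C * Q ^ 2) * Q = C * (γ 0 * Q ^ 3) := by ring
    rw [h3]
    calc min 1 C ≤ C := hM2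
      _ = C * 1 * 1 := by ring
      _ ≤ C * (γ 0 * Q ^ 3) * (1 + x) ^ 2 := by gcongr
  | h i ih0 ih1 ih2 =>
    intro hi
    have e : i + 3 + 1 = (i + 1) + 3 := by ring
    rw [e, D_succ, D_succ]
    have h0 := ih0 (by omega)
    have h1 := H.dn i (by omega)
    have hg := γ_pos H (i := i) (by omega)
    have hg1 := H.nonneg (i + 1)
    have hD := D_pos H hC i (by omega)
    have hD1 := D_pos H hC (i + 1) (by omega)
    have hp : (0 : ℝ) < (1 + x) ^ i := by positivity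
    calc min 1 C * (γ i * (C * D γ C Q i)) = (γ i * C) * (min 1 C * D γ C Q i) := by ring
      _ ≤ (γ i * C) * (D γ C Q (i + 1) * Q * (1 + x) ^ i) :=
          mul_le_mul_of_nonneg_left h0 (by positivity)
      _ = γ i * (C * (D γ C Q (i + 1) * Q * (1 + x) ^ i)) := by ring
      _ ≤ ((1 + x) * γ (i + 1)) * (C * (D γ C Q (i + 1) * Q * (1 + x) ^ i)) :=
          mul_le_mul_of_nonneg_right h1 (by positivity)
      _ = γ (i + 1) * (C * D γ C Q (i + 1)) * Q * (1 + x) ^ (i + 1) := by ring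
      _ ≤ γ (i + 1) * (C * D γ C Q (i + 1)) * Q * (1 + x) ^ (i + 3) := by
          apply mul_le_mul_of_nonneg_left _ (by positivity)
          exact pow_le_pow_right₀ (by linarith) (by omega)

omit hC in
theorem pw_le {i : ℕ} (hi : i ≤ N + 3) : (1 + x) ^ i ≤ 2 :=
  le_trans (pow_le_pow_right₀ (by linarith [H.hx]) hi) H.pw

/-- Upper ratio. -/
theorem D_up' {i : ℕ} (hi : i ≤ N + 2) :
    D γ C Q (i + 1) * Q ≤ (2 * max 1 (2 * C)) * D γ C Q i := by
  refine (D_up H hC i hi).trans ?_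
  apply mul_le_mul_of_nonneg_right _ (D_pos H hC i (by omega)).le
  have h1 := pw_le H (i := i) (by omega)
  have hM : (1 : ℝ) ≤ max 1 (2 * C) := le_max_left _ _
  nlinarith

/-- Lower ratio. -/
theorem D_dn' {i : ℕ} (hi : i ≤ N + 2) :
    (min 1 C / 2) * D γ C Q i ≤ D γ C Q (i + 1) * Q := by
  have h0 := D_dn H hC i hi
  have h1 := pw_le H (i := i) (by omega)
  have hQ : 0 < Q := lt_of_lt_of_le one_pos H.one_le
  have hD1 := D_pos H hC (i + 1) (by omega)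
  have h2 : D γ C Q (i + 1) * Q * (1 + x) ^ i ≤ D γ C Q (i + 1) * Q * 2 :=
    mul_le_mul_of_nonneg_left h1 (by positivity)
  linarith

/-- Upper bound for the absolute solution. -/
theorem sol_upper {A B : ℝ} (hA : 0 ≤ A) (hB : 0 ≤ B) {r : ℕ} (hr : r < 3) :
    ∀ i, i ≤ N + 3 → sol γ A B C (ev r (D γ C Q r) 0) (ev r (D γ C Q r) 1) (ev r (D γ C Q r) 2) i ≤
      (1 + ((B * (2 * max 1 (2 * C)) + A * (2 * max 1 (2 * C)) ^ 2) / C) / Q) ^ i * D γ C Q i := by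
  have hQ : 0 < Q := lt_of_lt_of_le one_pos H.one_le
  have hQ1 := H.one_le
  set ρ := 2 * max 1 (2 * C) with hρ
  have hρ0 : 0 < ρ := by
    have : (1 : ℝ) ≤ max 1 (2 * C) := le_max_left _ _
    rw [hρ]; linarith
  set cu := (B * ρ + A * ρ ^ 2) / C with hcu
  have hcu0 : 0 ≤ cu := by positivity
  set K := 1 + cu / Q with hK
  have hK1 : 1 ≤ K := by
    have : 0 ≤ cu / Q := by positivity
    linarith
  intro i
  have hinit : ∀ s, s < 3 → s ≤ N + 3 → ev r (D γ C Q r) s ≤ K ^ s * D γ C Q s := by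
    intro s hs hsN
    have h1 : (1 : ℝ) ≤ K ^ s := one_le_pow₀ hK1
    have h2 := D_pos H hC s hsN
    unfold ev
    split_ifs with h
    · rw [← h]; nlinarith
    · positivity
  induction i using three_ind with
  | h0 => exact fun h => hinit 0 (by omega) h
  | h1 => exact fun h => hinit 1 (by omega) h
  | h2 => exact fun h => hinit 2 (by omega) h
  | h i ih0 ih1 ih2 =>
    intro hi
    rw [sol_succ, D_succ]
    have g0 := ih0 (by omega)
    have g1 := ih1 (by omega)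
    have g2 := ih2 (by omega)
    have d0 := D_pos H hC i (by omega)
    have d1 := D_up' H hC (i := i) (by omega)
    have d2 := D_up' H hC (i := i + 1) (by omega)
    have d1p := D_pos H hC (i + 1) (by omega)
    have d2p := D_pos H hC (i + 2) (by omega)
    rw [← hρ] at d1 d2
    have e1 : D γ C Q (i + 1) ≤ ρ / Q * D γ C Q i := by
      rw [div_mul_eq_mul_div, le_div_iff₀ hQ]; exact d1
    have e2 : D γ C Q (i + 2) ≤ ρ ^ 2 / Q * D γ C Q i := by
      have h3 : D γ C Q (i + 2) ≤ ρ / Q * D γ C Q (i + 1) := by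
        rw [div_mul_eq_mul_div, le_div_iff₀ hQ]; exact d2
      have h4 : ρ / Q * D γ C Q (i + 1) ≤ ρ / Q * (ρ / Q * D γ C Q i) :=
        mul_le_mul_of_nonneg_left e1 (by positivity)
      have h5 : ρ / Q * (ρ / Q * D γ C Q i) = ρ ^ 2 / Q * D γ C Q i * (1 / Q) := by
        field_simp
      have h6 : 1 / Q ≤ 1 := by rw [div_le_one hQ]; exact hQ1
      have h7 : ρ ^ 2 / Q * D γ C Q i * (1 / Q) ≤ ρ ^ 2 / Q * D γ C Q i * 1 :=
        mul_le_mul_of_nonneg_left h6 (by positivity)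
      linarith
    have k1 : K ^ (i + 1) ≤ K ^ (i + 2) := pow_le_pow_right₀ hK1 (by omega)
    have k0 : K ^ i ≤ K ^ (i + 2) := pow_le_pow_right₀ hK1 (by omega)
    have hKp : 0 < K ^ (i + 2) := by positivity
    have f2 : A * sol γ A B C (ev r (D γ C Q r) 0) (ev r (D γ C Q r) 1) (ev r (D γ C Q r) 2) (i + 2)
        ≤ K ^ (i + 2) * (A * (ρ ^ 2 / Q) * D γ C Q i) := by
      calc _ ≤ A * (K ^ (i + 2) * D γ C Q (i + 2)) := mul_le_mul_of_nonneg_left g2 hA
        _ ≤ A * (K ^ (i + 2) * (ρ ^ 2 / Q * D γ C Q i)) := by gcongr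
        _ = _ := by ring
    have f1 : B * sol γ A B C (ev r (D γ C Q r) 0) (ev r (D γ C Q r) 1) (ev r (D γ C Q r) 2) (i + 1)
        ≤ K ^ (i + 2) * (B * (ρ / Q) * D γ C Q i) := by
      calc _ ≤ B * (K ^ (i + 1) * D γ C Q (i + 1)) := mul_le_mul_of_nonneg_left g1 hB
        _ ≤ B * (K ^ (i + 2) * (ρ / Q * D γ C Q i)) := by gcongr
        _ = _ := by ring
    have f0 : C * sol γ A B C (ev r (D γ C Q r) 0) (ev r (D γ C Q r) 1) (ev r (D γ C Q r) 2) i
        ≤ K ^ (i + 2) * (C * D γ C Q i) := by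
      calc _ ≤ C * (K ^ i * D γ C Q i) := mul_le_mul_of_nonneg_left g0 hC.le
        _ ≤ C * (K ^ (i + 2) * D γ C Q i) := by gcongr
        _ = _ := by ring
    have hgi := H.nonneg i
    have htot : K ^ (i + 2) * (A * (ρ ^ 2 / Q) * D γ C Q i) + K ^ (i + 2) * (B * (ρ / Q) * D γ C Q i)
        + K ^ (i + 2) * (C * D γ C Q i) = K ^ (i + 3) * (C * D γ C Q i) := by
      have : K ^ (i + 3) = K ^ (i + 2) * (1 + cu / Q) := by rw [pow_succ K (i + 2)]
      rw [this, hcu]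
      field_simp
      ring
    calc γ i * (A * sol γ A B C (ev r (D γ C Q r) 0) (ev r (D γ C Q r) 1) (ev r (D γ C Q r) 2) (i + 2)
          + B * sol γ A B C (ev r (D γ C Q r) 0) (ev r (D γ C Q r) 1) (ev r (D γ C Q r) 2) (i + 1)
          + C * sol γ A B C (ev r (D γ C Q r) 0) (ev r (D γ C Q r) 1) (ev r (D γ C Q r) 2) i)
        ≤ γ i * (K ^ (i + 3) * (C * D γ C Q i)) := by
          apply mul_le_mul_of_nonneg_left _ hgi
          linarith
      _ = K ^ (i + 3) * (γ i * (C * D γ C Q i)) := by ring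

/-- Lower bound for the number of walks with `k` steps `2`. -/
theorem PP_lower {B : ℝ} (hB : 0 ≤ B) {r : ℕ} (hr : r < 3) :
    ∀ k t, r + 2 * k + 3 * t ≤ N + 3 →
      (B * (min 1 C / 2) / (C * Q)) ^ k * ((t : ℝ) ^ k / k.factorial) *
        D γ C Q (r + 2 * k + 3 * t) ≤
      PP γ B C (ev r (D γ C Q r) 0) (ev r (D γ C Q r) 1) (ev r (D γ C Q r) 2) k
        (r + 2 * k + 3 * t) := by
  have hQ : 0 < Q := lt_of_lt_of_le one_pos H.one_le
  set ρ := min 1 C / 2 with hρ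
  have hρ0 : 0 < ρ := by
    have : 0 < min 1 C := lt_min one_pos hC
    rw [hρ]; positivity
  have hev0 : ∀ s, s < 3 → s ≤ N + 3 → 0 ≤ ev r (D γ C Q r) s := by
    intro s hs hN
    unfold ev
    split_ifs with h
    · rw [← h]; exact (D_pos H hC s hN).le
    · exact le_refl _
  intro k
  induction k with
  | zero =>
    intro t
    have hD0 : ∀ t, PP γ B C (ev r (D γ C Q r) 0) (ev r (D γ C Q r) 1) (ev r (D γ C Q r) 2) 0
        (r + 2 * 0 + 3 * t) = D γ C Q (r + 2 * 0 + 3 * t) := by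
      intro t
      induction t with
      | zero =>
        have : r = 0 ∨ r = 1 ∨ r = 2 := by omega
        rcases this with rfl | rfl | rfl <;> simp [PP, bas, ev]
      | succ t ih =>
        have e : r + 2 * 0 + 3 * (t + 1) = (r + 2 * 0 + 3 * t) + 3 := by ring
        rw [e, PP_zero_succ, D_succ, ih]
    intro _
    rw [hD0]
    simp
  | succ k ihk =>
    intro t
    induction t with
    | zero =>
      intro hN
      have hn : 0 ≤ PP γ B C (ev r (D γ C Q r) 0) (ev r (D γ C Q r) 1) (ev r (D γ C Q r) 2) (k + 1)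
          (r + 2 * (k + 1) + 3 * 0) :=
        PPR_nonneg H.nonneg (hev0 0 (by omega) (by omega)) (hev0 1 (by omega) (by omega))
          (hev0 2 (by omega) (by omega)) hB hC.le _ _
      simpa using hn
    | succ t ih =>
      intro hN
      have e : r + 2 * (k + 1) + 3 * (t + 1) = (r + 2 * (k + 1) + 3 * t) + 3 := by ring
      have e2 : r + 2 * (k + 1) + 3 * t + 1 = r + 2 * k + 3 * (t + 1) := by ring
      have g1 := ih (by omega)
      have g2 := ihk (t + 1) (by omega)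
      rw [e, PP_succ_succ, D_succ, e2]
      set i := r + 2 * (k + 1) + 3 * t with hi
      have hdi := D_pos H hC i (by omega)
      have hdn := D_dn' H hC (i := i) (by omega)
      rw [← hρ, e2] at hdn
      set j := r + 2 * k + 3 * (t + 1) with hj
      have hgi := H.nonneg i
      set β := B * ρ / (C * Q) with hβ
      have hβ0 : 0 ≤ β := by positivity
      -- B * D j ≥ C * β * D i
      have h1 : C * β * D γ C Q i ≤ B * D γ C Q j := by
        have : C * β * D γ C Q i = B * (ρ * D γ C Q i) / Q := by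
          rw [hβ]; field_simp
        rw [this, div_le_iff₀ hQ]
        calc B * (ρ * D γ C Q i) ≤ B * (D γ C Q j * Q) := mul_le_mul_of_nonneg_left hdn hB
          _ = B * D γ C Q j * Q := by ring
      have hfac : (0 : ℝ) < k.factorial := by positivity
      have h2 : C * (β ^ (k + 1) * ((t : ℝ) ^ (k + 1) / (k + 1).factorial) * D γ C Q i) ≤
          C * PP γ B C (ev r (D γ C Q r) 0) (ev r (D γ C Q r) 1) (ev r (D γ C Q r) 2) (k + 1) i :=
        mul_le_mul_of_nonneg_left g1 hC.le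
      have h3 : β ^ k * (((t + 1 : ℕ) : ℝ) ^ k / k.factorial) * (C * β * D γ C Q i) ≤
          B * PP γ B C (ev r (D γ C Q r) 0) (ev r (D γ C Q r) 1) (ev r (D γ C Q r) 2) k j := by
        calc β ^ k * (((t + 1 : ℕ) : ℝ) ^ k / k.factorial) * (C * β * D γ C Q i)
            ≤ β ^ k * (((t + 1 : ℕ) : ℝ) ^ k / k.factorial) * (B * D γ C Q j) :=
              mul_le_mul_of_nonneg_left h1 (by positivity)
          _ = B * (β ^ k * (((t + 1 : ℕ) : ℝ) ^ k / k.factorial) * D γ C Q j) := by ring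
          _ ≤ _ := mul_le_mul_of_nonneg_left g2 hB
      -- binomial type inequality
      have hbin : ∀ m : ℕ, ((t : ℝ) + 1) ^ (m + 1) ≤ (t : ℝ) ^ (m + 1) + (m + 1) * ((t : ℝ) + 1) ^ m := by
        intro m
        induction m with
        | zero => simp
        | succ m ihm =>
          have ht : (t : ℝ) ^ (m + 1) ≤ ((t : ℝ) + 1) ^ (m + 1) :=
            pow_le_pow_left₀ (by positivity) (by linarith) _
          have e3 : ((t : ℝ) + 1) ^ (m + 1 + 1) = ((t : ℝ) + 1) ^ (m + 1) * (t + 1) := by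
            rw [pow_succ]
          rw [e3]
          calc ((t : ℝ) + 1) ^ (m + 1) * (t + 1)
              ≤ ((t : ℝ) ^ (m + 1) + (m + 1) * ((t : ℝ) + 1) ^ m) * (t + 1) :=
                mul_le_mul_of_nonneg_right ihm (by positivity)
            _ = (t : ℝ) ^ (m + 1 + 1) + (t : ℝ) ^ (m + 1) + (m + 1) * ((t : ℝ) + 1) ^ (m + 1) := by
                rw [pow_succ ((t : ℝ) + 1) m, pow_succ (t : ℝ) (m + 1)]; ring
            _ ≤ (t : ℝ) ^ (m + 1 + 1) + ((m + 1 : ℕ) + 1) * ((t : ℝ) + 1) ^ (m + 1) := by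
                push_cast
                linarith
      have h4 : (((t + 1 : ℕ) : ℝ) ^ (k + 1) / (k + 1).factorial) ≤
          ((t : ℝ) ^ (k + 1) / (k + 1).factorial) + (((t + 1 : ℕ) : ℝ) ^ k / k.factorial) := by
        have e4 : ((k + 1).factorial : ℝ) = (k + 1) * k.factorial := by
          rw [Nat.factorial_succ]; push_cast; ring
        rw [e4, div_add_div _ _ (by positivity) (by positivity), div_le_div_iff₀ (by positivity)
          (by positivity)]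
        have := hbin k
        push_cast
        have hk2 : (0 : ℝ) ≤ (k + 1) * k.factorial * k.factorial := by positivity
        nlinarith [mul_le_mul_of_nonneg_right this hk2]
      calc β ^ (k + 1) * (((t + 1 : ℕ) : ℝ) ^ (k + 1) / (k + 1).factorial) *
            (γ i * (C * D γ C Q i))
          = (γ i * (C * D γ C Q i) * β ^ (k + 1)) *
              (((t + 1 : ℕ) : ℝ) ^ (k + 1) / (k + 1).factorial) := by ring
        _ ≤ (γ i * (C * D γ C Q i) * β ^ (k + 1)) *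
              (((t : ℝ) ^ (k + 1) / (k + 1).factorial) +
                (((t + 1 : ℕ) : ℝ) ^ k / k.factorial)) :=
            mul_le_mul_of_nonneg_left h4 (by positivity)
        _ = γ i * (C * (β ^ (k + 1) * ((t : ℝ) ^ (k + 1) / (k + 1).factorial) * D γ C Q i) +
              β ^ k * (((t + 1 : ℕ) : ℝ) ^ k / k.factorial) * (C * β * D γ C Q i)) := by ring
        _ ≤ _ := by
            apply mul_le_mul_of_nonneg_left _ hgi
            linarith

end

/-! ## The gain on one block -/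

theorem norm_add_lt_two {x y : ℂ} (hx : ‖x‖ = 1) (hy : ‖y‖ = 1) (hxy : x ≠ y) : ‖x + y‖ < 2 := by
  have h := parallelogram_law_with_norm ℝ x y
  rw [hx, hy] at h
  have h2 : 0 < ‖x - y‖ := norm_pos_iff.2 (sub_ne_zero.2 hxy)
  nlinarith [norm_nonneg (x + y)]

theorem norm_comb_le {x y : ℂ} (hx : ‖x‖ = 1) (hy : ‖y‖ = 1) {P P' m : ℝ} (hm : m ≤ P)
    (hm' : m ≤ P') (hm0 : 0 ≤ m) :
    ‖x * (P : ℂ) + y * (P' : ℂ)‖ ≤ P + P' - m * (2 - ‖x + y‖) := by
  have e : x * (P : ℂ) + y * (P' : ℂ) =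
      (m : ℂ) * (x + y) + (x * ((P - m : ℝ) : ℂ) + y * ((P' - m : ℝ) : ℂ)) := by
    push_cast; ring
  rw [e]
  refine (norm_add_le _ _).trans ?_
  have h1 : ‖(m : ℂ) * (x + y)‖ = m * ‖x + y‖ := by
    rw [norm_mul, Complex.norm_real, Real.norm_of_nonneg hm0]
  have h2 : ‖x * ((P - m : ℝ) : ℂ) + y * ((P' - m : ℝ) : ℂ)‖ ≤ (P - m) + (P' - m) := by
    refine (norm_add_le _ _).trans ?_
    rw [norm_mul, norm_mul, hx, hy, one_mul, one_mul, Complex.norm_real, Complex.norm_real,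
      Real.norm_of_nonneg (by linarith), Real.norm_of_nonneg (by linarith)]
  rw [h1]
  linarith

/-- **Core estimate.** -/
theorem core (a : ℂ) {b c u v : ℂ} (hu : b = ‖b‖ * u) (hv : c = ‖c‖ * v) (hun : ‖u‖ = 1)
    (hvn : ‖v‖ = 1) (hb : b ≠ 0) (hc : c ≠ 0) (huv : v ^ 2 ≠ u ^ 3) :
    ∃ δ : ℝ, 0 < δ ∧ δ < 1 ∧ ∀ (L : ℕ), 48 ≤ L → ∀ (γ : ℕ → ℝ) (x : ℝ), Hyp γ L (L : ℝ) x →
      ∀ r < 3, ∀ i, L ≤ i → i ≤ L + 2 →
        ‖sol (fun i => (γ i : ℂ)) a b c (ev r 1 0) (ev r 1 1) (ev r 1 2) i‖ ≤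
          (1 - δ) * sol γ ‖a‖ ‖b‖ ‖c‖ (ev r 1 0) (ev r 1 1) (ev r 1 2) i := by
  have hB : 0 < ‖b‖ := norm_pos_iff.2 hb
  have hC : 0 < ‖c‖ := norm_pos_iff.2 hc
  have hA : 0 ≤ ‖a‖ := norm_nonneg a
  set ρ2 := 2 * max 1 (2 * ‖c‖) with hρ2
  set ρ1 := min 1 ‖c‖ / 2 with hρ1
  have hρ2p : 0 < ρ2 := by
    have : (1 : ℝ) ≤ max 1 (2 * ‖c‖) := le_max_left _ _
    rw [hρ2]; linarith
  have hρ1p : 0 < ρ1 := by
    have : 0 < min 1 ‖c‖ := lt_min one_pos hC
    rw [hρ1]; positivity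
  set cu := (‖b‖ * ρ2 + ‖a‖ * ρ2 ^ 2) / ‖c‖ with hcu
  have hcu0 : 0 ≤ cu := by positivity
  set X := ‖b‖ * ρ1 / ‖c‖ / 4 with hX
  have hXp : 0 < X := by positivity
  set y := min 1 X with hy
  have hyp : 0 < y := lt_min one_pos hXp
  have hy1 : y ≤ 1 := min_le_left _ _
  set τ := 2 - ‖v ^ 2 + u ^ 3‖ with hτ
  have hτp : 0 < τ := by
    have := norm_add_lt_two (x := v ^ 2) (y := u ^ 3) (by rw [norm_pow, hvn, one_pow])
      (by rw [norm_pow, hun, one_pow]) huv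
    rw [hτ]; linarith
  set c1 := y ^ 5 / 120 with hc1
  have hc1p : 0 < c1 := by positivity
  set δ0 := c1 * τ / Real.exp (2 * cu) with hδ0
  have hδ0p : 0 < δ0 := by positivity
  refine ⟨min δ0 (1 / 2), lt_min hδ0p (by norm_num),
    lt_of_le_of_lt (min_le_right _ _) (by norm_num), ?_⟩
  intro L hL γ x H r hr i hiL hiL2
  have hLp : (0 : ℝ) < L := by
    have : 0 < L := by omega
    exact_mod_cast this
  -- reduce to the scaled initial vector
  set Dr := D γ ‖c‖ L r with hDr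
  have hDrp : 0 < Dr := D_pos H hC r (by omega)
  have hsc : ∀ s, ev r Dr s = Dr * ev r 1 s := by
    intro s; unfold ev; split_ifs <;> simp
  have hscC : ∀ s, ((ev r Dr s : ℝ) : ℂ) = (Dr : ℂ) * ev r (1 : ℂ) s := by
    intro s; unfold ev; split_ifs <;> simp
  have hev : ∀ s, ((ev r Dr s : ℝ) : ℂ) = ev r (Dr : ℂ) s := by
    intro s; unfold ev; split_ifs <;> simp
  have hev0 : ∀ s, 0 ≤ ev r Dr s := by
    intro s; unfold ev; split_ifs
    · exact hDrp.le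
    · exact le_refl _
  suffices hmain : ‖sol (fun i => (γ i : ℂ)) a b c ((ev r Dr 0 : ℝ) : ℂ) ((ev r Dr 1 : ℝ) : ℂ)
      ((ev r Dr 2 : ℝ) : ℂ) i‖ ≤
      (1 - min δ0 (1 / 2)) * sol γ ‖a‖ ‖b‖ ‖c‖ (ev r Dr 0) (ev r Dr 1) (ev r Dr 2) i by
    rw [hscC, hscC, hscC, sol_smul, norm_mul, Complex.norm_real, Real.norm_of_nonneg hDrp.le,
      hsc, hsc, hsc, sol_smul] at hmain
    have h3 : (1 - min δ0 (1 / 2)) * (Dr * sol γ ‖a‖ ‖b‖ ‖c‖ (ev r 1 0) (ev r 1 1) (ev r 1 2) i) =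
        Dr * ((1 - min δ0 (1 / 2)) * sol γ ‖a‖ ‖b‖ ‖c‖ (ev r 1 0) (ev r 1 1) (ev r 1 2) i) := by
      ring
    rw [h3] at hmain
    exact le_of_mul_le_mul_left hmain hDrp
  set Φ := sol γ ‖a‖ ‖b‖ ‖c‖ (ev r Dr 0) (ev r Dr 1) (ev r Dr 2) i with hΦ
  have hrest := rest_le H.nonneg a b c (hev0 0) (hev0 1) (hev0 2) i
  -- upper bound for Φ
  have hup : Φ ≤ Real.exp (2 * cu) * D γ ‖c‖ L i := by
    have h1 := sol_upper H hC hA hB.le hr i (by omega)
    rw [← hρ2, ← hcu] at h1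
    refine h1.trans ?_
    apply mul_le_mul_of_nonneg_right _ (D_pos H hC i (by omega)).le
    have h2 : 1 + cu / L ≤ Real.exp (cu / L) := by
      have := Real.add_one_le_exp (cu / L)
      linarith
    calc (1 + cu / L) ^ i ≤ (Real.exp (cu / L)) ^ i := pow_le_pow_left₀ (by positivity) h2 i
      _ = Real.exp (i * (cu / L)) := by rw [← Real.exp_nat_mul]
      _ ≤ Real.exp (2 * cu) := by
          apply Real.exp_le_exp.2
          have h4 : (i : ℝ) ≤ 2 * L := by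
            have : i ≤ 2 * L := by omega
            exact_mod_cast this
          rw [← mul_div_assoc, div_le_iff₀ hLp]
          nlinarith
  -- lower bounds for P_k
  have hlow : ∀ k ≤ 5, ∀ t, i = r + 2 * k + 3 * t →
      c1 * D γ ‖c‖ L i ≤ PP γ ‖b‖ ‖c‖ (ev r Dr 0) (ev r Dr 1) (ev r Dr 2) k i := by
    intro k hk t hit
    have h1 := PP_lower H hC hB.le hr k t (by omega)
    rw [← hρ1, ← hit] at h1
    refine le_trans ?_ h1
    apply mul_le_mul_of_nonneg_right _ (D_pos H hC i (by omega)).le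
    have ht : (L : ℝ) / 4 ≤ t := by
      have : L ≤ 4 * t := by omega
      have h5 : (L : ℝ) ≤ 4 * t := by exact_mod_cast this
      linarith
    have h2 : X ≤ (‖b‖ * ρ1 / (‖c‖ * L)) * t := by
      calc X = (‖b‖ * ρ1 / (‖c‖ * L)) * (L / 4) := by rw [hX]; field_simp
        _ ≤ _ := mul_le_mul_of_nonneg_left ht (by positivity)
    have h3 : y ^ 5 ≤ ((‖b‖ * ρ1 / (‖c‖ * L)) * t) ^ k := by
      calc y ^ 5 ≤ y ^ k := pow_le_pow_of_le_one hyp.le hy1 hk
        _ ≤ ((‖b‖ * ρ1 / (‖c‖ * L)) * t) ^ k :=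
          pow_le_pow_left₀ hyp.le (le_trans (min_le_right _ _) h2) k
    have h4 : (k.factorial : ℝ) ≤ 120 := by
      have : k.factorial ≤ (5 : ℕ).factorial := Nat.factorial_le hk
      have h5 : (5 : ℕ).factorial = 120 := rfl
      rw [h5] at this
      exact_mod_cast this
    have hfac : (0 : ℝ) < k.factorial := by positivity
    calc c1 = y ^ 5 / 120 := rfl
      _ ≤ ((‖b‖ * ρ1 / (‖c‖ * L)) * t) ^ k / k.factorial := by
          apply div_le_div₀ (by positivity) h3 hfac h4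
      _ = _ := by rw [mul_pow]; ring
  -- choose κ
  obtain ⟨κ, hκ, m, him⟩ : ∃ κ, κ < 3 ∧ ∃ m, i = r + 2 * κ + 3 * (m + 2) := by
    refine ⟨(2 * (i + 3 - r)) % 3, Nat.mod_lt _ (by norm_num),
      (i - r - 2 * ((2 * (i + 3 - r)) % 3)) / 3 - 2, ?_⟩
    omega
  have him' : i = r + 2 * (κ + 3) + 3 * m := by omega
  have hP1 := hlow κ (by omega) (m + 2) him
  have hP2 := hlow (κ + 3) (by omega) m him'
  have hvan : ∀ k < 6, k ≠ κ → k ≠ κ + 3 →
      PP (fun i => (γ i : ℂ)) b c ((ev r Dr 0 : ℝ) : ℂ) ((ev r Dr 1 : ℝ) : ℂ)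
        ((ev r Dr 2 : ℝ) : ℂ) k i = 0 := by
    intro k hk h1 h2
    rw [hev, hev, hev]
    apply PP_class _ _ _ _ hr
    omega
  have hvanR : ∀ k < 6, 0 ≤ PP γ ‖b‖ ‖c‖ (ev r Dr 0) (ev r Dr 1) (ev r Dr 2) k i :=
    fun k _ => PPR_nonneg H.nonneg (hev0 0) (hev0 1) (hev0 2) hB.le hC.le k i
  have hsumC : ∑ k ∈ Finset.range 6, PP (fun i => (γ i : ℂ)) b c ((ev r Dr 0 : ℝ) : ℂ)
      ((ev r Dr 1 : ℝ) : ℂ) ((ev r Dr 2 : ℝ) : ℂ) k i =
      PP (fun i => (γ i : ℂ)) b c ((ev r Dr 0 : ℝ) : ℂ) ((ev r Dr 1 : ℝ) : ℂ)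
        ((ev r Dr 2 : ℝ) : ℂ) κ i +
      PP (fun i => (γ i : ℂ)) b c ((ev r Dr 0 : ℝ) : ℂ) ((ev r Dr 1 : ℝ) : ℂ)
        ((ev r Dr 2 : ℝ) : ℂ) (κ + 3) i := by
    have hsub : ({κ, κ + 3} : Finset ℕ) ⊆ Finset.range 6 := by
      intro k hk
      simp only [Finset.mem_insert, Finset.mem_singleton] at hk
      rw [Finset.mem_range]
      omega
    rw [← Finset.sum_subset hsub]
    · rw [Finset.sum_pair (by omega)]
    · intro k hk hk2
      simp only [Finset.mem_insert, Finset.mem_singleton, not_or] at hk2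
      exact hvan k (Finset.mem_range.1 hk) hk2.1 hk2.2
  have hsumR : PP γ ‖b‖ ‖c‖ (ev r Dr 0) (ev r Dr 1) (ev r Dr 2) κ i +
      PP γ ‖b‖ ‖c‖ (ev r Dr 0) (ev r Dr 1) (ev r Dr 2) (κ + 3) i ≤
      ∑ k ∈ Finset.range 6, PP γ ‖b‖ ‖c‖ (ev r Dr 0) (ev r Dr 1) (ev r Dr 2) k i := by
    have hsub : ({κ, κ + 3} : Finset ℕ) ⊆ Finset.range 6 := by
      intro k hk
      simp only [Finset.mem_insert, Finset.mem_singleton] at hk
      rw [Finset.mem_range]
      omega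
    rw [← Finset.sum_pair (f := fun k => PP γ ‖b‖ ‖c‖ (ev r Dr 0) (ev r Dr 1) (ev r Dr 2) k i)
      (by omega : κ ≠ κ + 3)]
    exact Finset.sum_le_sum_of_subset_of_nonneg hsub
      (fun k hk _ => hvanR k (Finset.mem_range.1 hk))
  have hph1 := PP_phase γ hu hv Dr hr κ (m + 2)
  have hph2 := PP_phase γ hu hv Dr hr (κ + 3) m
  rw [← him] at hph1
  rw [← him'] at hph2
  have hcomb : ‖∑ k ∈ Finset.range 6, PP (fun i => (γ i : ℂ)) b c ((ev r Dr 0 : ℝ) : ℂ)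
      ((ev r Dr 1 : ℝ) : ℂ) ((ev r Dr 2 : ℝ) : ℂ) k i‖ ≤
      PP γ ‖b‖ ‖c‖ (ev r Dr 0) (ev r Dr 1) (ev r Dr 2) κ i +
      PP γ ‖b‖ ‖c‖ (ev r Dr 0) (ev r Dr 1) (ev r Dr 2) (κ + 3) i - c1 * D γ ‖c‖ L i * τ := by
    rw [hsumC, hph1, hph2]
    have e : u ^ κ * v ^ (m + 2) *
        ((PP γ ‖b‖ ‖c‖ (ev r Dr 0) (ev r Dr 1) (ev r Dr 2) κ i : ℝ) : ℂ) +
        u ^ (κ + 3) * v ^ m *
        ((PP γ ‖b‖ ‖c‖ (ev r Dr 0) (ev r Dr 1) (ev r Dr 2) (κ + 3) i : ℝ) : ℂ) =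
        (u ^ κ * v ^ m) * (v ^ 2 *
        ((PP γ ‖b‖ ‖c‖ (ev r Dr 0) (ev r Dr 1) (ev r Dr 2) κ i : ℝ) : ℂ) + u ^ 3 *
        ((PP γ ‖b‖ ‖c‖ (ev r Dr 0) (ev r Dr 1) (ev r Dr 2) (κ + 3) i : ℝ) : ℂ)) := by ring
    rw [e, norm_mul, norm_mul, norm_pow, norm_pow, hun, hvn, one_pow, one_pow, one_mul, one_mul]
    exact norm_comb_le (by rw [norm_pow, hvn, one_pow]) (by rw [norm_pow, hun, one_pow]) hP1 hP2
      (mul_nonneg hc1p.le (D_pos H hC i (by omega)).le)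
  have hfin : ‖sol (fun i => (γ i : ℂ)) a b c ((ev r Dr 0 : ℝ) : ℂ) ((ev r Dr 1 : ℝ) : ℂ)
      ((ev r Dr 2 : ℝ) : ℂ) i‖ ≤ Φ - c1 * D γ ‖c‖ L i * τ := by
    have e : sol (fun i => (γ i : ℂ)) a b c ((ev r Dr 0 : ℝ) : ℂ) ((ev r Dr 1 : ℝ) : ℂ)
      ((ev r Dr 2 : ℝ) : ℂ) i = (sol (fun i => (γ i : ℂ)) a b c ((ev r Dr 0 : ℝ) : ℂ)
      ((ev r Dr 1 : ℝ) : ℂ) ((ev r Dr 2 : ℝ) : ℂ) i -
      ∑ k ∈ Finset.range 6, PP (fun i => (γ i : ℂ)) b c ((ev r Dr 0 : ℝ) : ℂ)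
      ((ev r Dr 1 : ℝ) : ℂ) ((ev r Dr 2 : ℝ) : ℂ) k i) +
      ∑ k ∈ Finset.range 6, PP (fun i => (γ i : ℂ)) b c ((ev r Dr 0 : ℝ) : ℂ)
      ((ev r Dr 1 : ℝ) : ℂ) ((ev r Dr 2 : ℝ) : ℂ) k i := by ring
    rw [e]
    refine (norm_add_le _ _).trans ?_
    linarith
  have hΦ0 : 0 ≤ Φ := solR_nonneg H.nonneg (hev0 0) (hev0 1) (hev0 2) hA hB.le hC.le i
  have hgain : min δ0 (1 / 2) * Φ ≤ c1 * D γ ‖c‖ L i * τ := by
    calc min δ0 (1 / 2) * Φ ≤ δ0 * Φ := mul_le_mul_of_nonneg_right (min_le_left _ _) hΦ0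
      _ ≤ δ0 * (Real.exp (2 * cu) * D γ ‖c‖ L i) := mul_le_mul_of_nonneg_left hup hδ0p.le
      _ = c1 * D γ ‖c‖ L i * τ := by
          rw [hδ0]
          have := Real.exp_pos (2 * cu)
          field_simp
  linarith

end Pool.Agent.R97.WalkEst
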