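import Mathlib
import Pool.Agent.R97.WalkEst

/-!
# Chaining the blocks
-/

namespace Pool.Agent.R97.WalkGlobal

open Pool.Agent.R97.WalkCore Pool.Agent.R97.WalkEst

theorem sol_shift {K : Type*} [Field K] (γ : ℕ → K) (a b c x0 x1 x2 : K) (m i : ℕ) :
    sol γ a b c x0 x1 x2 (m + i) = sol (fun j => γ (m + j)) a b c (sol γ a b c x0 x1 x2 m)
      (sol γ a b c x0 x1 x2 (m + 1)) (sol γ a b c x0 x1 x2 (m + 2)) i := by
  induction i using three_ind with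
  | h0 => rfl
  | h1 => rfl
  | h2 => rfl
  | h i ih0 ih1 ih2 =>
    have e : m + (i + 3) = (m + i) + 3 := by ring
    rw [e, sol_succ, sol_succ]
    rw [show m + i + 2 = m + (i + 2) by ring, show m + i + 1 = m + (i + 1) by ring, ih0, ih1, ih2]

/-- If the bound holds on a window then it holds from then on. -/
theorem propagate {γ : ℕ → ℝ} (hγ : ∀ i, 0 ≤ γ i) (a b c : ℂ) {ρ : ℝ} {x0 x1 x2 : ℂ}
    {y0 y1 y2 : ℝ} (h0 : ‖x0‖ ≤ ρ * y0) (h1 : ‖x1‖ ≤ ρ * y1) (h2 : ‖x2‖ ≤ ρ * y2) (i : ℕ) :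
    ‖sol (fun i => (γ i : ℂ)) a b c x0 x1 x2 i‖ ≤ ρ * sol γ ‖a‖ ‖b‖ ‖c‖ y0 y1 y2 i := by
  induction i using three_ind with
  | h0 => exact h0
  | h1 => exact h1
  | h2 => exact h2
  | h i ih0 ih1 ih2 =>
    rw [sol_succ, sol_succ, norm_mul, Complex.norm_real, Real.norm_of_nonneg (hγ i)]
    have key : ‖a * sol (fun i => (γ i : ℂ)) a b c x0 x1 x2 (i + 2)
        + b * sol (fun i => (γ i : ℂ)) a b c x0 x1 x2 (i + 1)
        + c * sol (fun i => (γ i : ℂ)) a b c x0 x1 x2 i‖ ≤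
        ρ * (‖a‖ * sol γ ‖a‖ ‖b‖ ‖c‖ y0 y1 y2 (i + 2) + ‖b‖ * sol γ ‖a‖ ‖b‖ ‖c‖ y0 y1 y2 (i + 1)
        + ‖c‖ * sol γ ‖a‖ ‖b‖ ‖c‖ y0 y1 y2 i) := by
      refine (norm_add₃_le).trans ?_
      rw [norm_mul, norm_mul, norm_mul]
      have g0 := mul_le_mul_of_nonneg_left ih0 (norm_nonneg c)
      have g1 := mul_le_mul_of_nonneg_left ih1 (norm_nonneg b)
      have g2 := mul_le_mul_of_nonneg_left ih2 (norm_nonneg a)
      linarith
    calc _ ≤ γ i * (ρ * (‖a‖ * sol γ ‖a‖ ‖b‖ ‖c‖ y0 y1 y2 (i + 2)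
          + ‖b‖ * sol γ ‖a‖ ‖b‖ ‖c‖ y0 y1 y2 (i + 1)
          + ‖c‖ * sol γ ‖a‖ ‖b‖ ‖c‖ y0 y1 y2 i)) := mul_le_mul_of_nonneg_left key (hγ i)
      _ = _ := by ring

/-- One block. -/
theorem block {a b c : ℂ} {δ : ℝ} {L : ℕ} {γ : ℕ → ℝ}
    (hcore : ∀ r < 3, ∀ i, L ≤ i → i ≤ L + 2 →
        ‖sol (fun i => (γ i : ℂ)) a b c (ev r 1 0) (ev r 1 1) (ev r 1 2) i‖ ≤
          (1 - δ) * sol γ ‖a‖ ‖b‖ ‖c‖ (ev r 1 0) (ev r 1 1) (ev r 1 2) i) {ρ : ℝ}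
    {x0 x1 x2 : ℂ} {y0 y1 y2 : ℝ} (h0 : ‖x0‖ ≤ ρ * y0) (h1 : ‖x1‖ ≤ ρ * y1)
    (h2 : ‖x2‖ ≤ ρ * y2) {i : ℕ} (hi : L ≤ i) (hi2 : i ≤ L + 2) :
    ‖sol (fun i => (γ i : ℂ)) a b c x0 x1 x2 i‖ ≤
      ((1 - δ) * ρ) * sol γ ‖a‖ ‖b‖ ‖c‖ y0 y1 y2 i := by
  have e0 := hcore 0 (by norm_num) i hi hi2
  have e1 := hcore 1 (by norm_num) i hi hi2
  have e2 := hcore 2 (by norm_num) i hi hi2
  simp only [ev] at e0 e1 e2
  norm_num at e0 e1 e2
  rw [sol_lin, sol_lin γ]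
  refine (norm_add₃_le).trans ?_
  rw [norm_mul, norm_mul, norm_mul]
  have n0 := norm_nonneg (sol (fun i => (γ i : ℂ)) a b c 1 0 0 i)
  have n1 := norm_nonneg (sol (fun i => (γ i : ℂ)) a b c 0 1 0 i)
  have n2 := norm_nonneg (sol (fun i => (γ i : ℂ)) a b c 0 0 1 i)
  have f0 := mul_le_mul h0 e0 n0 ((norm_nonneg _).trans h0)
  have f1 := mul_le_mul h1 e1 n1 ((norm_nonneg _).trans h1)
  have f2 := mul_le_mul h2 e2 n2 ((norm_nonneg _).trans h2)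
  linarith

/-- The vertex weights. -/
noncomputable def gg (n : ℕ) (k : ℕ) : ℝ := if k < n then (4 * (k : ℝ) * ((n : ℝ) - k))⁻¹ else 0

theorem gg_nonneg (n k : ℕ) : 0 ≤ gg n k := by
  unfold gg
  split_ifs with h
  · have : (k : ℝ) < n := by exact_mod_cast h
    have : (0 : ℝ) ≤ (n : ℝ) - k := by linarith
    positivity
  · exact le_refl _

/-- The hypotheses hold in the bulk. -/
theorem hyp_bulk {p : ℕ} (hp : 4 ≤ p) {m : ℕ} (h1 : 16 * p ^ 3 ≤ m)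
    (h2 : m + 16 * p ^ 2 ≤ 32 * p ^ 3) :
    Hyp (fun j => gg (64 * p ^ 3) (m + j + 1)) (16 * p ^ 2) ((16 * p ^ 2 : ℕ) : ℝ)
      (6 / ((64 * p ^ 3 : ℕ) : ℝ)) := by
  set n : ℕ := 64 * p ^ 3 with hn
  have hp2 : 16 * p ^ 2 ≤ 4 * p ^ 3 := by
    have : p ^ 3 = p * p ^ 2 := by ring
    rw [this]; nlinarith [sq_nonneg p]
  have hp3 : 64 ≤ p ^ 3 := by
    calc 64 = 4 ^ 3 := by norm_num
      _ ≤ p ^ 3 := Nat.pow_le_pow_left hp 3
  have hnpos : (0 : ℝ) < n := by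
    have : 0 < n := by omega
    exact_mod_cast this
  have hn5 : (4096 : ℝ) ≤ n := by
    have : 4096 ≤ n := by omega
    exact_mod_cast this
  -- basic facts for the bulk positions
  have bulk : ∀ j ≤ 16 * p ^ 2 + 1, ∃ k : ℕ, m + j + 1 = k ∧ k < n ∧ (n : ℝ) / 4 ≤ k ∧
      (k : ℝ) ≤ n / 2 + 2 ∧ gg n (m + j + 1) = (4 * (k : ℝ) * ((n : ℝ) - k))⁻¹ := by
    intro j hj
    refine ⟨m + j + 1, rfl, by omega, ?_, ?_, ?_⟩
    · have : n ≤ 4 * (m + j + 1) := by omega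
      have h5 : (n : ℝ) ≤ 4 * ((m + j + 1 : ℕ) : ℝ) := by exact_mod_cast this
      linarith
    · have : 2 * (m + j + 1) ≤ n + 4 := by omega
      have h5 : 2 * ((m + j + 1 : ℕ) : ℝ) ≤ n + 4 := by exact_mod_cast this
      linarith
    · unfold gg
      rw [if_pos (by omega)]
  have hQ3 : (((16 * p ^ 2 : ℕ) : ℝ)) ^ 3 = (n : ℝ) ^ 2 := by
    rw [hn]; push_cast; ring
  refine ⟨fun j => gg_nonneg _ _, ?_, ?_, ?_, ?_, ?_, ?_, ?_⟩
  · have : 1 ≤ 16 * p ^ 2 := by nlinarith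
    exact_mod_cast this
  · intro j hj
    obtain ⟨k, hk, hkn, hk1, hk2, hg⟩ := bulk j (by omega)
    show 1 ≤ gg n (m + j + 1) * _
    rw [hg, hQ3, ← div_eq_inv_mul]
    have hpos : 0 < 4 * (k : ℝ) * ((n : ℝ) - k) := by
      have : (k : ℝ) < n := by exact_mod_cast hkn
      have h3 : (0 : ℝ) < (n : ℝ) - k := by linarith
      have h4 : (0 : ℝ) < k := by linarith
      positivity
    rw [le_div_iff₀ hpos]
    nlinarith [sq_nonneg ((n : ℝ) - 2 * k)]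
  · intro j hj
    obtain ⟨k, hk, hkn, hk1, hk2, hg⟩ := bulk j (by omega)
    show gg n (m + j + 1) * _ ≤ 2
    rw [hg, hQ3, ← div_eq_inv_mul]
    have hpos : 0 < 4 * (k : ℝ) * ((n : ℝ) - k) := by
      have : (k : ℝ) < n := by exact_mod_cast hkn
      have h3 : (0 : ℝ) < (n : ℝ) - k := by linarith
      have h4 : (0 : ℝ) < k := by linarith
      positivity
    rw [div_le_iff₀ hpos]
    have h5 : 0 ≤ ((k : ℝ) - n / 4) * (3 * n / 4 - k) := by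
      apply mul_nonneg <;> linarith
    nlinarith
  · positivity
  · intro j hj
    obtain ⟨k, hk, hkn, hk1, hk2, hg⟩ := bulk j (by omega)
    obtain ⟨k', hk', hkn', hk1', hk2', hg'⟩ := bulk (j + 1) (by omega)
    have hkk : k' = k + 1 := by omega
    subst hkk
    show gg n (m + (j + 1) + 1) ≤ _ * gg n (m + j + 1)
    rw [hg, hg']
    push_cast at *
    have hpos : 0 < 4 * (k : ℝ) * ((n : ℝ) - k) := by
      have h3 : (0 : ℝ) < (n : ℝ) - k := by linarith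
      have h4 : (0 : ℝ) < k := by linarith
      positivity
    have hpos' : 0 < 4 * ((k : ℝ) + 1) * ((n : ℝ) - (k + 1)) := by
      have h3 : (0 : ℝ) < (n : ℝ) - (k + 1) := by linarith
      have h4 : (0 : ℝ) < (k : ℝ) + 1 := by linarith
      positivity
    rw [inv_eq_one_div, inv_eq_one_div, mul_one_div, div_le_div_iff₀ hpos' hpos, one_mul]
    have h5 : 0 ≤ ((k : ℝ) - n / 4) * (3 * n / 4 - k) := by
      apply mul_nonneg <;> linarith
    have h6 : 3 * (n : ℝ) ^ 2 / 16 ≤ k * (n - k) := by nlinarith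
    have h7 : (1 + 6 / (n : ℝ)) * (4 * ((k : ℝ) + 1) * ((n : ℝ) - (k + 1))) =
        4 * ((k : ℝ) + 1) * ((n : ℝ) - (k + 1)) + 24 * (((k : ℝ) + 1) * ((n : ℝ) - (k + 1))) / n := by
      field_simp
      ring
    rw [h7]
    have h8 : (n : ℝ) ≤ 24 * (((k : ℝ) + 1) * ((n : ℝ) - (k + 1))) / n := by
      rw [le_div_iff₀ hnpos]
      nlinarith
    nlinarith
  · intro j hj
    obtain ⟨k, hk, hkn, hk1, hk2, hg⟩ := bulk j (by omega)
    obtain ⟨k', hk', hkn', hk1', hk2', hg'⟩ := bulk (j + 1) (by omega)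
    have hkk : k' = k + 1 := by omega
    subst hkk
    show gg n (m + j + 1) ≤ _ * gg n (m + (j + 1) + 1)
    rw [hg, hg']
    push_cast at *
    have hpos : 0 < 4 * (k : ℝ) * ((n : ℝ) - k) := by
      have h3 : (0 : ℝ) < (n : ℝ) - k := by linarith
      have h4 : (0 : ℝ) < k := by linarith
      positivity
    have hpos' : 0 < 4 * ((k : ℝ) + 1) * ((n : ℝ) - (k + 1)) := by
      have h3 : (0 : ℝ) < (n : ℝ) - (k + 1) := by linarith
      have h4 : (0 : ℝ) < (k : ℝ) + 1 := by linarith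
      positivity
    rw [inv_eq_one_div, inv_eq_one_div, mul_one_div, div_le_div_iff₀ hpos hpos', one_mul]
    have h5 : 0 ≤ ((k : ℝ) - n / 4) * (3 * n / 4 - k) := by
      apply mul_nonneg <;> linarith
    have h6 : 3 * (n : ℝ) ^ 2 / 16 ≤ k * (n - k) := by nlinarith
    have h7 : (1 + 6 / (n : ℝ)) * (4 * (k : ℝ) * ((n : ℝ) - k)) =
        4 * (k : ℝ) * ((n : ℝ) - k) + 24 * ((k : ℝ) * ((n : ℝ) - k)) / n := by
      field_simp
      ring
    rw [h7]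
    have h8 : 4 * (n : ℝ) ≤ 24 * ((k : ℝ) * ((n : ℝ) - k)) / n := by
      rw [le_div_iff₀ hnpos]
      nlinarith
    nlinarith
  · -- (1 + 6/n)^(L+3) ≤ 2
    have h3 : 1 + 6 / (n : ℝ) ≤ Real.exp (6 / n) := by
      have := Real.add_one_le_exp (6 / (n : ℝ))
      linarith
    calc (1 + 6 / (n : ℝ)) ^ (16 * p ^ 2 + 3) ≤ (Real.exp (6 / n)) ^ (16 * p ^ 2 + 3) :=
          pow_le_pow_left₀ (by positivity) h3 _
      _ = Real.exp (((16 * p ^ 2 + 3 : ℕ) : ℝ) * (6 / n)) := by rw [← Real.exp_nat_mul]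
      _ ≤ Real.exp (1 / 2) := by
          apply Real.exp_le_exp.2
          rw [mul_div_assoc', div_le_iff₀ hnpos]
          have h4 : 12 * (16 * p ^ 2 + 3) ≤ n := by
            have : p ^ 3 = p * p ^ 2 := by ring
            have h6 : 4 * p ^ 2 ≤ p ^ 3 := by rw [this]; exact Nat.mul_le_mul_right _ hp
            have h7 : 16 ≤ p ^ 2 := by nlinarith
            omega
          have h5 : 12 * (((16 * p ^ 2 + 3 : ℕ) : ℝ)) ≤ n := by exact_mod_cast h4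
          linarith
      _ ≤ 2 := by
          have h4 : Real.exp (1 / 2) * Real.exp (1 / 2) = Real.exp 1 := by
            rw [← Real.exp_add]; norm_num
          have h5 := Real.exp_one_lt_d9
          nlinarith [Real.exp_pos (1 / 2)]

/-- The global comparison. -/
theorem global (a : ℂ) {b c u v : ℂ} (hu : b = ‖b‖ * u) (hv : c = ‖c‖ * v) (hun : ‖u‖ = 1)
    (hvn : ‖v‖ = 1) (hb : b ≠ 0) (hc : c ≠ 0) (huv : v ^ 2 ≠ u ^ 3) :
    ∃ δ : ℝ, 0 < δ ∧ δ < 1 ∧ ∀ p : ℕ, 4 ≤ p → ∀ i, 32 * p ^ 3 ≤ i →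
      ‖sol (fun j => ((gg (64 * p ^ 3) (j + 1) : ℝ) : ℂ)) a b c 0 0 1 i‖ ≤
      (1 - δ) ^ p * sol (fun j => gg (64 * p ^ 3) (j + 1)) ‖a‖ ‖b‖ ‖c‖ 0 0 1 i := by
  obtain ⟨δ, hδ0, hδ1, hcore⟩ := core a hu hv hun hvn hb hc huv
  refine ⟨δ, hδ0, hδ1, fun p hp => ?_⟩
  set us := sol (fun j => ((gg (64 * p ^ 3) (j + 1) : ℝ) : ℂ)) a b c 0 0 1 with hus
  set ua := sol (fun j => gg (64 * p ^ 3) (j + 1)) ‖a‖ ‖b‖ ‖c‖ 0 0 1 with hua
  have hγ : ∀ j, 0 ≤ gg (64 * p ^ 3) (j + 1) := fun j => gg_nonneg _ _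
  have hbase : ∀ i, ‖us i‖ ≤ 1 * ua i := by
    intro i
    exact propagate hγ a b c (ρ := 1) (by simp) (by simp) (by simp) i
  have hchain : ∀ j ≤ p, ∀ s < 3, ‖us (16 * p ^ 3 + 16 * p ^ 2 * j + s)‖ ≤
      (1 - δ) ^ j * ua (16 * p ^ 3 + 16 * p ^ 2 * j + s) := by
    intro j
    induction j with
    | zero =>
      intro _ s _
      simpa using hbase _
    | succ j ih =>
      intro hj s hs
      have ih' := ih (by omega)
      set m := 16 * p ^ 3 + 16 * p ^ 2 * j with hm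
      have hm2 : m + 16 * p ^ 2 ≤ 32 * p ^ 3 := by
        have : 16 * p ^ 2 * (j + 1) ≤ 16 * p ^ 2 * p := Nat.mul_le_mul_left _ hj
        have e : 16 * p ^ 2 * p = 16 * p ^ 3 := by ring
        rw [e] at this
        have e2 : 16 * p ^ 2 * (j + 1) = 16 * p ^ 2 * j + 16 * p ^ 2 := by ring
        omega
      have hyp := hyp_bulk hp (m := m) (by omega) hm2
      have hL48 : 48 ≤ 16 * p ^ 2 := by nlinarith
      have hc2 := hcore (16 * p ^ 2) hL48 _ _ hyp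
      have e : 16 * p ^ 3 + 16 * p ^ 2 * (j + 1) + s = m + (16 * p ^ 2 + s) := by rw [hm]; ring
      rw [e]
      have h0 := ih' 0 (by norm_num)
      have h1 := ih' 1 (by norm_num)
      have h2 := ih' 2 (by norm_num)
      rw [add_zero] at h0
      have hb2 := block (ρ := (1 - δ) ^ j) hc2 h0 h1 h2 (i := 16 * p ^ 2 + s) (by omega) (by omega)
      have s1 := sol_shift (fun j => ((gg (64 * p ^ 3) (j + 1) : ℝ) : ℂ)) a b c 0 0 1 m
        (16 * p ^ 2 + s)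
      have s2 := sol_shift (fun j => gg (64 * p ^ 3) (j + 1)) ‖a‖ ‖b‖ ‖c‖ 0 0 1 m (16 * p ^ 2 + s)
      rw [hus, hua, s1, s2]
      have e3 : (1 - δ) ^ (j + 1) = (1 - δ) * (1 - δ) ^ j := by rw [pow_succ]; ring
      rw [e3]
      exact hb2
  intro i hi
  have hlast := hchain p (le_refl p)
  have e : 16 * p ^ 3 + 16 * p ^ 2 * p = 32 * p ^ 3 := by ring
  rw [e] at hlast
  obtain ⟨t, rfl⟩ : ∃ t, i = 32 * p ^ 3 + t := ⟨i - 32 * p ^ 3, by omega⟩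
  have h0 := hlast 0 (by norm_num)
  have h1 := hlast 1 (by norm_num)
  have h2 := hlast 2 (by norm_num)
  rw [add_zero] at h0
  have s1 := sol_shift (fun j => ((gg (64 * p ^ 3) (j + 1) : ℝ) : ℂ)) a b c 0 0 1 (32 * p ^ 3) t
  have s2 := sol_shift (fun j => gg (64 * p ^ 3) (j + 1)) ‖a‖ ‖b‖ ‖c‖ 0 0 1 (32 * p ^ 3) t
  rw [hus, hua, s1, s2]
  exact propagate (fun j => hγ (32 * p ^ 3 + j)) a b c h0 h1 h2 t

/-- The absolute solution is positive at even positions. -/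
theorem ua_pos {n : ℕ} {A B C : ℝ} (hA : 0 ≤ A) (hB : 0 < B) (hC : 0 ≤ C) :
    ∀ j, 2 * j < n → 0 < sol (fun j => gg n (j + 1)) A B C 0 0 1 (2 + 2 * j) := by
  have hpos : ∀ j, j + 1 < n → 0 < gg n (j + 1) := by
    intro j hj
    unfold gg
    rw [if_pos hj]
    have : ((j + 1 : ℕ) : ℝ) < n := by exact_mod_cast hj
    have h2 : (0 : ℝ) < (n : ℝ) - ((j + 1 : ℕ) : ℝ) := by linarith
    positivity
  have hnn : ∀ i, 0 ≤ sol (fun j => gg n (j + 1)) A B C 0 0 1 i :=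
    fun i => solR_nonneg (fun j => gg_nonneg _ _) (le_refl 0) (le_refl 0) zero_le_one hA hB.le
      hC i
  intro j
  induction j with
  | zero => intro _; simp [sol]
  | succ j ih =>
    intro hj
    have e : 2 + 2 * (j + 1) = (2 * j + 1) + 3 := by ring
    rw [e, sol_succ]
    have h1 := hpos (2 * j + 1) (by omega)
    have h2 := ih (by omega)
    have e2 : 2 * j + 1 + 1 = 2 + 2 * j := by ring
    rw [e2]
    have h3 := hnn (2 * j + 1 + 2)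
    have h4 := hnn (2 * j + 1)
    have e3 : 2 * j + 1 + 1 = 2 + 2 * j := by ring
    rw [e3] at h1
    apply mul_pos h1
    have h5 : 0 < B * sol (fun j => gg n (j + 1)) A B C 0 0 1 (2 + 2 * j) := mul_pos hB h2
    have h6 := mul_nonneg hA h3
    have h7 := mul_nonneg hC h4
    linarith

end Pool.Agent.R97.WalkGlobal
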