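import Pool.Agent.R126.Ix.Glue

set_option autoImplicit false

namespace Pool.Agent.R97.Xi

open Pool.Agent.R126.Ix

universe u v w

section cob

variable {G : Type u} [Group G]

/-- A `g0`-invariant additive integer cochain on `P`, bounded by `M`, which is the coboundary of a
labelling modulo the order of `g0`. -/
def Cob (g0 : G) (P : Type v) [PartialOrder P] [MulAction G P] (M : ℕ) : Prop :=
  ∃ (c : ∀ x y : P, x ≤ y → ℤ) (θ : P → G),
    (∀ x y z (h1 : x ≤ y) (h2 : y ≤ z), c x z (h1.trans h2) = c x y h1 + c y z h2) ∧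
    (∀ x y h, |c x y h| ≤ M) ∧
    (∀ x y h, g0 ^ c x y h = (θ x)⁻¹ * θ y) ∧
    (∀ x y h (h' : g0 • x ≤ g0 • y), c _ _ h' = c x y h) ∧
    (∀ x, θ (g0 • x) = g0 * θ x) ∧ (∀ x, Commute g0 (θ x))

/-- equivariant labels -/
theorem exists_label (X : Type v) [MulAction G X] [IsFree G X] :
    ∃ c : X → G, ∀ (g : G) x, c (g • x) = g * c x := by
  classical
  let r : X → X := fun x => (Quotient.mk (MulAction.orbitRel G X) x).out
  have hr : ∀ x, ∃ g : G, g • r x = x := by
    intro x
    have h : (MulAction.orbitRel G X) (r x) x := Quotient.exact (Quotient.out_eq _)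
    rw [MulAction.orbitRel_apply] at h
    obtain ⟨g, hg⟩ := h
    refine ⟨g⁻¹, ?_⟩
    have hg' : g • x = r x := hg
    rw [← hg', inv_smul_smul]
  have hr2 : ∀ (g : G) x, r (g • x) = r x := by
    intro g x
    show (Quotient.mk (MulAction.orbitRel G X) (g • x)).out =
      (Quotient.mk (MulAction.orbitRel G X) x).out
    congr 1
    refine Quotient.sound ?_
    show (MulAction.orbitRel G X) (g • x) x
    rw [MulAction.orbitRel_apply]
    exact ⟨g, rfl⟩
  choose c hc using hr
  refine ⟨c, fun g x => ?_⟩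
  have h1 : c (g • x) • r x = (g * c x) • r x := by
    rw [mul_smul, hc]
    have := hc (g • x)
    rw [hr2] at this
    exact this
  have h2 : ((g * c x)⁻¹ * c (g • x)) • r x = r x := by
    rw [mul_smul, h1, inv_smul_smul]
  exact (inv_mul_eq_one.mp (IsFree.eq_one _ _ h2)).symm

/-- coset labels -/
theorem exists_rho (g0 : G) : ∃ ρ : G → G, (∀ x, ρ (g0 * x) = g0 * ρ x) ∧
    ∀ x, ρ x ∈ Subgroup.zpowers g0 := by
  have : IsFree (Subgroup.zpowers g0) G := ⟨fun g x h => by
    have h1 : (g : G) * x = x := h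
    exact Subtype.ext (mul_eq_right.mp h1)⟩
  obtain ⟨c, hc⟩ := exists_label (G := Subgroup.zpowers g0) G
  refine ⟨fun x => (c x : G), fun x => ?_, fun x => (c x).2⟩
  have := hc ⟨g0, Subgroup.mem_zpowers g0⟩ x
  exact congrArg Subtype.val this

theorem exists_len [Finite G] (g0 : G) : ∃ L : G → ℕ, ∀ h ∈ Subgroup.zpowers g0,
    g0 ^ (L h) = h ∧ L h < orderOf g0 := by
  classical
  have : ∀ h : G, ∃ n : ℕ, h ∈ Subgroup.zpowers g0 → g0 ^ n = h ∧ n < orderOf g0 := by
    intro h
    by_cases hh : h ∈ Subgroup.zpowers g0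
    · rw [mem_zpowers_iff_mem_range_orderOf, Finset.mem_image] at hh
      obtain ⟨n, hn, e⟩ := hh
      exact ⟨n, fun _ => ⟨e, Finset.mem_range.mp hn⟩⟩
    · exact ⟨0, fun h' => absurd h' hh⟩
  choose L hL using this
  exact ⟨L, hL⟩

theorem cob_of_xind [Finite G] (g0 : G) {P : Type v} [PartialOrder P] [MulAction G P]
    (h : XindLE G P 1) : Cob g0 P (orderOf g0) := by
  classical
  obtain ⟨ψ, hm, he⟩ := h
  obtain ⟨ρ, hρ1, hρ2⟩ := exists_rho g0
  obtain ⟨L, hL⟩ := exists_len g0
  have hmem : ∀ x y : P, (ρ (ψ x).g)⁻¹ * ρ (ψ y).g ∈ Subgroup.zpowers g0 := fun x y =>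
    Subgroup.mul_mem _ (Subgroup.inv_mem _ (hρ2 _)) (hρ2 _)
  have hcomm : ∀ z ∈ Subgroup.zpowers g0, Commute g0 z := by
    intro z hz
    obtain ⟨n, rfl⟩ := Subgroup.mem_zpowers_iff.mp hz
    exact (Commute.refl g0).zpow_right n
  refine ⟨fun x y _ => if ψ x = ψ y then 0 else (L ((ρ (ψ x).g)⁻¹ * ρ (ψ y).g) : ℤ),
    fun x => ρ (ψ x).g, ?_, ?_, ?_, ?_, ?_, ?_⟩
  · intro x y z h1 h2
    have h1' := hm h1
    have h2' := hm h2
    by_cases e1 : ψ x = ψ y
    · simp only [e1, if_true, zero_add]
    · by_cases e2 : ψ y = ψ z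
      · simp only [e2, if_true, add_zero]
      · exfalso
        rcases h1' with h1' | h1'
        · exact e1 h1'
        · rcases h2' with h2' | h2'
          · exact e2 h2'
          · have := (ψ x).lev.2
            have := (ψ z).lev.2
            have a1 : ((ψ x).lev : ℕ) < (ψ y).lev := h1'
            have a2 : ((ψ y).lev : ℕ) < (ψ z).lev := h2'
            omega
  · intro x y h
    dsimp only
    split_ifs
    · simp
    · have := (hL _ (hmem x y)).2
      rw [abs_of_nonneg (by positivity)]
      exact_mod_cast this.le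
  · intro x y h
    dsimp only
    split_ifs with e
    · rw [e]; simp
    · rw [zpow_natCast]
      exact (hL _ (hmem x y)).1
  · intro x y h h'
    dsimp only
    have e1 : ψ (g0 • x) = g0 • ψ x := he _ _
    have e2 : ψ (g0 • y) = g0 • ψ y := he _ _
    have e3 : (ψ (g0 • x) = ψ (g0 • y)) ↔ (ψ x = ψ y) := by
      rw [e1, e2]
      exact (MulAction.injective g0).eq_iff
    have e4 : (ρ (ψ (g0 • x)).g)⁻¹ * ρ (ψ (g0 • y)).g = (ρ (ψ x).g)⁻¹ * ρ (ψ y).g := by
      rw [e1, e2, QG.smul_g, QG.smul_g, hρ1, hρ1]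
      group
    simp only [e3, e4]
  · intro x
    dsimp only
    rw [he, QG.smul_g, hρ1]
  · intro x
    exact hcomm _ (hρ2 _)

/-- a pair as a chain -/
def chain2 {P : Type v} [PartialOrder P] [DecidableEq P] (x y : P) (h : x ≤ y) :
    (orderComplex P).FP :=
  ⟨{x, y}, ⟨x, by simp⟩, by
    intro a ha b hb
    simp only [Finset.mem_insert, Finset.mem_singleton] at ha hb
    rcases ha with rfl | rfl <;> rcases hb with rfl | rfl
    · exact Or.inl le_rfl
    · exact Or.inl h
    · exact Or.inr h
    · exact Or.inl le_rfl⟩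

/-- a point as a chain -/
def chain1 {P : Type v} [PartialOrder P] (x : P) : (orderComplex P).FP :=
  ⟨{x}, ⟨x, by simp⟩, by
    intro a ha b hb
    simp only [Finset.mem_singleton] at ha hb
    rw [ha, hb]; exact Or.inl le_rfl⟩

/-- a triple as a chain -/
def chain3 {P : Type v} [PartialOrder P] [DecidableEq P] (x y z : P) (h : x ≤ y) (h2 : y ≤ z) :
    (orderComplex P).FP :=
  ⟨{x, y, z}, ⟨x, by simp⟩, by
    intro a ha b hb
    simp only [Finset.mem_insert, Finset.mem_singleton] at ha hb
    have h3 := h.trans h2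
    rcases ha with rfl | rfl | rfl <;> rcases hb with rfl | rfl | rfl <;>
      first
      | exact Or.inl le_rfl
      | exact Or.inl h
      | exact Or.inl h2
      | exact Or.inl h3
      | exact Or.inr h
      | exact Or.inr h2
      | exact Or.inr h3⟩

theorem cob_descent (g0 : G) {P : Type v} [PartialOrder P] [MulAction G P] [IsGPoset G P] {M : ℕ}
    (h : Cob g0 (orderComplex P).FP M) : Cob g0 P (2 * M) := by
  classical
  obtain ⟨c, θ, h1, h2, h3, h4, h5, h6⟩ := h
  have hl : ∀ (x y : P) (h : x ≤ y), chain1 x ≤ chain2 x y h := by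
    intro x y h a ha
    have : a = x := by simpa [chain1] using ha
    subst this
    simp [chain2]
  have hr : ∀ (x y : P) (h : x ≤ y), chain1 y ≤ chain2 x y h := by
    intro x y h a ha
    have : a = y := by simpa [chain1] using ha
    subst this
    simp [chain2]
  -- comparison with a larger chain
  have key : ∀ (x y : P) (h : x ≤ y) (t : (orderComplex P).FP) (hx : chain1 x ≤ t)
      (hy : chain1 y ≤ t), c _ _ (hl x y h) - c _ _ (hr x y h) = c _ _ hx - c _ _ hy := by
    intro x y h t hx hy
    have hxy : chain2 x y h ≤ t := by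
      intro a ha
      have : a = x ∨ a = y := by simpa [chain2] using ha
      rcases this with rfl | rfl
      · exact hx (by simp [chain1])
      · exact hy (by simp [chain1])
    have e1 := h1 _ _ _ (hl x y h) hxy
    have e2 := h1 _ _ _ (hr x y h) hxy
    linarith
  have hs1 : ∀ x : P, g0 • chain1 x = chain1 (g0 • x) := by
    intro x
    apply Subtype.ext
    show tr g0 {x} = {g0 • x}
    ext a
    rw [mem_tr, Finset.mem_singleton, Finset.mem_singleton, inv_smul_eq_iff]
  have hs2 : ∀ (x y : P) (h : x ≤ y) (h' : g0 • x ≤ g0 • y),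
      g0 • chain2 x y h = chain2 (g0 • x) (g0 • y) h' := by
    intro x y h h'
    apply Subtype.ext
    show tr g0 {x, y} = {g0 • x, g0 • y}
    ext a
    rw [mem_tr]
    simp only [Finset.mem_insert, Finset.mem_singleton, inv_smul_eq_iff]
  have tc : ∀ (s t s' t' : (orderComplex P).FP) (hst : s ≤ t) (hst' : s' ≤ t') (es : s = s')
      (et : t = t'), c s t hst = c s' t' hst' := by
    rintro s t _ _ hst hst' rfl rfl
    rfl
  refine ⟨fun x y h => c _ _ (hl x y h) - c _ _ (hr x y h), fun x => θ (chain1 x),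
    ?_, ?_, ?_, ?_, ?_, ?_⟩
  · intro x y z hxy hyz
    dsimp only
    have a1 : chain1 x ≤ chain3 x y z hxy hyz := by
      intro a ha
      have : a = x := by simpa [chain1] using ha
      subst this
      simp [chain3]
    have a2 : chain1 y ≤ chain3 x y z hxy hyz := by
      intro a ha
      have : a = y := by simpa [chain1] using ha
      subst this
      simp [chain3]
    have a3 : chain1 z ≤ chain3 x y z hxy hyz := by
      intro a ha
      have : a = z := by simpa [chain1] using ha
      subst this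
      simp [chain3]
    rw [key x z _ _ a1 a3, key x y _ _ a1 a2, key y z _ _ a2 a3]
    ring
  · intro x y h
    dsimp only
    have b1 := abs_le.mp (h2 _ _ (hl x y h))
    have b2 := abs_le.mp (h2 _ _ (hr x y h))
    rw [abs_le]
    push_cast
    constructor <;> linarith [b1.1, b1.2, b2.1, b2.2]
  · intro x y h
    dsimp only
    rw [zpow_sub, h3, h3]
    group
  · intro x y h h'
    dsimp only
    have e1 : c _ _ (hl (g0 • x) (g0 • y) h') = c _ _ (hl x y h) := by
      have m := IsGPoset.smul_le g0 (hl x y h)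
      rw [← h4 _ _ (hl x y h) m]
      exact tc _ _ _ _ _ _ (hs1 x).symm (hs2 x y h h').symm
    have e2 : c _ _ (hr (g0 • x) (g0 • y) h') = c _ _ (hr x y h) := by
      have m := IsGPoset.smul_le g0 (hr x y h)
      rw [← h4 _ _ (hr x y h) m]
      exact tc _ _ _ _ _ _ (hs1 y).symm (hs2 x y h h').symm
    rw [e1, e2]
  · intro x
    dsimp only
    rw [← hs1, h5]
  · intro x
    exact h6 _

/-- `T(P)`: the poset of nonempty chains -/
noncomputable def TT (Y : FreePoset G) : FreePoset G := Y.Δ.face

theorem sd_iter (Y : FreePoset G) (r : ℕ) : FreeSC.sd^[r] Y.Δ = (TT^[r] Y).Δ := by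
  induction r with
  | zero => rfl
  | succ r ih => rw [Function.iterate_succ_apply', ih, Function.iterate_succ_apply']; rfl

theorem face_sd_iter (Y : FreePoset G) (r : ℕ) : (FreeSC.sd^[r] Y.Δ).face = TT^[r + 1] Y := by
  rw [sd_iter, Function.iterate_succ_apply']; rfl

theorem cob_iter (g0 : G) (r : ℕ) (Y : FreePoset G) (M : ℕ) (h : Cob g0 (TT^[r] Y).P M) :
    Cob g0 Y.P (2 ^ r * M) := by
  induction r generalizing M with
  | zero =>
    rw [pow_zero, one_mul]
    exact h
  | succ r ih =>
    rw [Function.iterate_succ_apply'] at h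
    have h' : Cob g0 (orderComplex (TT^[r] Y).P).FP M := h
    have := ih _ (cob_descent g0 h')
    have e : 2 ^ r * (2 * M) = 2 ^ (r + 1) * M := by ring
    rwa [e] at this

theorem cob_of_sd [Finite G] (g0 : G) (r : ℕ) (Y : FreePoset G)
    (h : XindLE G (FreeSC.sd^[r] Y.Δ).face.P 1) : Cob g0 Y.P (2 ^ (r + 1) * orderOf g0) := by
  have h2 : Cob g0 (FreeSC.sd^[r] Y.Δ).face.P (orderOf g0) := cob_of_xind g0 h
  rw [face_sd_iter] at h2
  exact cob_iter g0 (r + 1) Y _ h2

/-- a finite free `G`-poset has a finite cross-index -/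
theorem exists_xindLE {P : Type v} [Finite P] [PartialOrder P] [MulAction G P] [IsGPoset G P]
    [IsFree G P] : ∃ n, XindLE G P n := by
  classical
  have := Fintype.ofFinite P
  obtain ⟨γ, hγ⟩ := exists_label (G := G) P
  let ht : P → ℕ := fun x => (Finset.univ.filter fun y : P => y < x).card
  have hlt : ∀ x, ht x < Fintype.card P + 1 := fun x =>
    Nat.lt_succ_of_le (Finset.card_le_univ _)
  have hmono : ∀ x y, x < y → ht x < ht y := by
    intro x y hxy
    apply Finset.card_lt_card
    constructor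
    · intro z hz
      rw [Finset.mem_filter] at hz ⊢
      exact ⟨hz.1, hz.2.trans hxy⟩
    · intro hcon
      have : x ∈ Finset.univ.filter fun z : P => z < x := hcon (by simp [hxy])
      rw [Finset.mem_filter] at this
      exact lt_irrefl _ this.2
  have hle : ∀ (g : G) (x y : P), g • x ≤ g • y → x ≤ y := by
    intro g x y h
    have := IsGPoset.smul_le g⁻¹ h
    rwa [inv_smul_smul, inv_smul_smul] at this
  have hinv : ∀ (g : G) x, ht (g • x) = ht x := by
    intro g x
    symm
    refine Finset.card_bij (fun y _ => g • y) ?_ ?_ ?_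
    · intro y hy
      rw [Finset.mem_filter] at hy ⊢
      refine ⟨Finset.mem_univ _, lt_of_le_of_ne (IsGPoset.smul_le g hy.2.le) ?_⟩
      intro e
      exact hy.2.ne (MulAction.injective g e)
    · intro a _ b _ e
      exact MulAction.injective g e
    · intro b hb
      rw [Finset.mem_filter] at hb
      refine ⟨g⁻¹ • b, ?_, smul_inv_smul g b⟩
      rw [Finset.mem_filter]
      refine ⟨Finset.mem_univ _, lt_of_le_of_ne (hle g _ _ (by rw [smul_inv_smul]; exact hb.2.le)) ?_⟩
      intro e
      apply hb.2.ne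
      rw [← e, smul_inv_smul]
  refine ⟨Fintype.card P, fun x => ⟨γ x, ⟨ht x, hlt x⟩⟩, ?_, ?_⟩
  · intro x y hxy
    rcases hxy.eq_or_lt with rfl | h
    · exact le_rfl
    · exact Or.inr (hmono x y h)
  · intro g x
    apply QG.ext
    · exact hγ g x
    · apply Fin.ext
      exact hinv g x

end cob

end Pool.Agent.R97.Xi
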