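import Pool.Agent.R126.Ix.Glue

set_option autoImplicit false

namespace Pool.Agent.R97.Xi

open Pool.Agent.R126.Ix
open scoped BigOperators Topology
open Set

universe u v w

section ind

variable {G : Type u} [Group G] [Fintype G]

/-- the line winding around `E_1 G` -/
noncomputable def Gam (g0 g : G) (t : ℝ) : QG G 1 → ℝ :=
  gam (g * g0 ^ ⌊t⌋) (g * g0 ^ (⌊t⌋ + 1)) (Int.fract t)

omit [Fintype G] in
theorem Gam_add (g0 g : G) (t : ℝ) (n : ℤ) : Gam g0 g (t + n) = Gam g0 (g * g0 ^ n) t := by
  unfold Gam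
  rw [Int.floor_add_intCast, Int.fract_add_intCast]
  have e1 : g * g0 ^ (⌊t⌋ + n) = g * g0 ^ n * g0 ^ ⌊t⌋ := by
    rw [mul_assoc, ← zpow_add, add_comm]
  have e2 : g * g0 ^ (⌊t⌋ + n + 1) = g * g0 ^ n * g0 ^ (⌊t⌋ + 1) := by
    rw [mul_assoc, ← zpow_add]; congr 2; ring
  rw [e1, e2]

theorem Gam_mem (g0 g : G) (t : ℝ) : Gam g0 g t ∈ (EG G 1).real :=
  gam_mem _ _ (Int.fract_nonneg t) (Int.fract_lt_one t).le

omit [Fintype G] in
theorem act_Gam (g0 a g : G) (t : ℝ) : act a (Gam g0 g t) = Gam g0 (a * g) t := by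
  unfold Gam
  rw [act_gam, mul_assoc, mul_assoc]

omit [Fintype G] in
theorem continuous_Gam (g0 g : G) : Continuous (Gam g0 g) := by
  rw [continuous_iff_continuousAt]
  intro t
  set m : ℤ := ⌊t⌋ with hm
  have hm1 : (m : ℝ) ≤ t := Int.floor_le t
  have hm2 : t < m + 1 := Int.lt_floor_add_one t
  -- local formula
  let F : ℝ → QG G 1 → ℝ := fun s =>
    gam (g * g0 ^ (m - 1)) (g * g0 ^ m) (min (s - m + 1) 1) +
      gam (g * g0 ^ m) (g * g0 ^ (m + 1)) (max (s - m) 0) - pt ⟨g * g0 ^ m, 0⟩
  have hF : Continuous F := by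
    have c1 := continuous_gam (g * g0 ^ (m - 1)) (g * g0 ^ m)
    have c2 := continuous_gam (g * g0 ^ m) (g * g0 ^ (m + 1))
    have c3 : Continuous fun s : ℝ => min (s - m + 1) 1 := by fun_prop
    have c4 : Continuous fun s : ℝ => max (s - m) 0 := by fun_prop
    exact ((c1.comp c3).add (c2.comp c4)).sub continuous_const
  have heq : Gam g0 g =ᶠ[𝓝 t] F := by
    have hn : Ioo ((m : ℝ) - 1) (m + 1) ∈ 𝓝 t := Ioo_mem_nhds (by linarith) hm2
    filter_upwards [hn] with s hs
    rcases lt_or_ge s m with h | h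
    · have fl : ⌊s⌋ = m - 1 := by
        rw [Int.floor_eq_iff]
        push_cast
        exact ⟨hs.1.le, by linarith⟩
      have fr : Int.fract s = s - m + 1 := by
        rw [Int.fract, fl]; push_cast; ring
      show Gam g0 g s = _
      simp only [F]
      rw [min_eq_left (by linarith), max_eq_right (by linarith), gam_zero]
      unfold Gam
      rw [fl, fr, sub_add_cancel, add_sub_cancel_right]
    · have fl : ⌊s⌋ = m := by
        rw [Int.floor_eq_iff]
        exact ⟨h, hs.2⟩
      have fr : Int.fract s = s - m := by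
        rw [Int.fract, fl]
      show Gam g0 g s = _
      simp only [F]
      rw [min_eq_right (by linarith), max_eq_left (by linarith), gam_one]
      unfold Gam
      rw [fl, fr, add_sub_cancel_left]
  exact (hF.continuousAt.congr heq.symm)

/-- A map to `E_1 G` from an integer cochain. -/
theorem indLE_of_cochain {P : Type v} [Fintype P] [PartialOrder P] [MulAction G P] [IsGPoset G P]
    (g0 : G) (n : P → P → ℤ) (γ : P → G)
    (hadd : ∀ x y z, x ≤ y → y ≤ z → n x z = n x y + n y z)
    (hinv : ∀ (g : G) x y, n (g • x) (g • y) = n x y)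
    (hγ : ∀ x y, x ≤ y → γ y = γ x * g0 ^ n x y)
    (hγ2 : ∀ (g : G) x, γ (g • x) = g * γ x) :
    IndLE G (orderComplex P) 1 := by
  classical
  -- antisymmetric extension
  let N : P → P → ℤ := fun x y => if x ≤ y then n x y else - n y x
  have hxx : ∀ x, n x x = 0 := by
    intro x
    have := hadd x x x le_rfl le_rfl
    omega
  have N1 : ∀ x y, x ≤ y → N x y = n x y := fun x y h => if_pos h
  have N2 : ∀ x y, y ≤ x → N x y = - n y x := by
    intro x y h
    by_cases h' : x ≤ y
    · have : x = y := le_antisymm h' h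
      subst this
      rw [N1 x x le_rfl, hxx]; rfl
    · exact if_neg h'
  have Nadd : ∀ x y z, (x ≤ y ∨ y ≤ x) → (y ≤ z ∨ z ≤ y) → (x ≤ z ∨ z ≤ x) →
      N x z = N x y + N y z := by
    intro x y z h1 h2 h3
    rcases h1 with h1 | h1 <;> rcases h2 with h2 | h2 <;> rcases h3 with h3 | h3
    · rw [N1 _ _ h1, N1 _ _ h2, N1 _ _ h3]; exact hadd _ _ _ h1 h2
    · have e : x = z := le_antisymm (h1.trans h2) h3
      subst e
      have e : x = y := le_antisymm h1 h2
      subst e
      rw [N1 x x le_rfl, hxx]; rfl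
    · rw [N1 _ _ h1, N2 _ _ h2, N1 _ _ h3, hadd x z y h3 h2]; ring
    · rw [N1 _ _ h1, N2 _ _ h2, N2 _ _ h3, hadd z x y h3 h1]; ring
    · rw [N2 _ _ h1, N1 _ _ h2, N1 _ _ h3, hadd y x z h1 h3]; ring
    · rw [N2 _ _ h1, N1 _ _ h2, N2 _ _ h3, hadd y z x h2 h3]; ring
    · have e : x = z := le_antisymm h3 (h2.trans h1)
      subst e
      have e : x = y := le_antisymm h2 h1
      subst e
      rw [N1 x x le_rfl, hxx]; rfl
    · rw [N2 _ _ h1, N2 _ _ h2, N2 _ _ h3, hadd z y x h2 h1]; ring
  have Nγ : ∀ x y, (x ≤ y ∨ y ≤ x) → γ y = γ x * g0 ^ N x y := by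
    intro x y h
    rcases h with h | h
    · rw [N1 _ _ h]; exact hγ _ _ h
    · rw [N2 _ _ h, hγ _ _ h, zpow_neg, mul_assoc, mul_inv_cancel, mul_one]
  have hle : ∀ (g : G) (x y : P), g • x ≤ g • y ↔ x ≤ y := by
    intro g x y
    constructor
    · intro h
      have := IsGPoset.smul_le g⁻¹ h
      rwa [inv_smul_smul, inv_smul_smul] at this
    · exact fun h => IsGPoset.smul_le g h
  have Ninv : ∀ (g : G) x y, N (g • x) (g • y) = N x y := by
    intro g x y
    simp only [N, hle, hinv]
  by_cases hP : Nonempty P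
  swap
  · -- empty poset
    refine ⟨fun x => ?_, ?_, ?_⟩
    · exfalso
      have h1 := x.2.2.1
      rw [Finset.sum_eq_zero] at h1
      · exact zero_ne_one h1
      · intro v _
        exact absurd ⟨v⟩ hP
    · rw [continuous_iff_continuousAt]
      intro x
      exfalso
      have h1 := x.2.2.1
      rw [Finset.sum_eq_zero] at h1
      · exact zero_ne_one h1
      · intro v _
        exact absurd ⟨v⟩ hP
    · intro g x
      exfalso
      have h1 := x.2.2.1
      rw [Finset.sum_eq_zero] at h1
      · exact zero_ne_one h1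
      · intro v _
        exact absurd ⟨v⟩ hP
  have hcard : (0 : ℝ) < Fintype.card P := by
    have : 0 < Fintype.card P := Fintype.card_pos_iff.mpr hP
    exact_mod_cast this
  let C : P → Set (P → ℝ) := fun q => {x | 1 / (Fintype.card P : ℝ) ≤ x q}
  let f : P → (P → ℝ) → (QG G 1 → ℝ) := fun q x => Gam g0 (γ q) (∑ v, x v * (N q v : ℝ))
  have hCpos : ∀ q x, x ∈ C q → x q ≠ 0 := by
    intro q x hx
    have : 0 < x q := lt_of_lt_of_le (by positivity) hx
    exact this.ne'
  obtain ⟨F, hF, -⟩ := glueMap (G := G) (K := orderComplex P) (L := EG G 1) C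
    (fun q => isClosed_le continuous_const (continuous_apply q)) f
    (by
      intro x hx
      by_contra hcon
      push Not at hcon
      have h1 := hx.2.1
      have h2 : ∑ v, x v < ∑ v : P, 1 / (Fintype.card P : ℝ) := by
        refine Finset.sum_lt_sum_of_nonempty ?_ ?_
        · obtain ⟨p⟩ := hP
          exact ⟨p, Finset.mem_univ p⟩
        · intro i _
          have := hcon i
          simp only [C, Set.mem_ofPred_eq, not_le] at this
          exact this
      rw [h1, Finset.sum_const, Finset.card_univ, nsmul_eq_mul, mul_one_div_cancel hcard.ne'] at h2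
      exact lt_irrefl _ h2)
    (by
      intro q
      refine Continuous.continuousOn ?_
      refine (continuous_Gam g0 (γ q)).comp ?_
      fun_prop)
    (fun q x _ _ => Gam_mem _ _ _)
    (by
      intro p q x hx hp hq
      have hx' := mem_real_order.mp hx
      have hp' := hCpos p x hp
      have hq' := hCpos q x hq
      have hpq := hx'.2.2 p q hp' hq'
      have e1 : ∑ v, x v * (N p v : ℝ) = ∑ v, x v * (N q v : ℝ) + (N p q : ℤ) := by
        have e2 : ∀ v, x v * (N p v : ℝ) = x v * (N q v : ℝ) + x v * (N p q : ℝ) := by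
          intro v
          by_cases hv : x v = 0
          · rw [hv]; ring
          · have hqv := hx'.2.2 q v hq' hv
            have hpv := hx'.2.2 p v hp' hv
            have := Nadd p q v hpq hqv hpv
            rw [this]
            push_cast
            ring
        rw [Finset.sum_congr rfl fun v _ => e2 v, Finset.sum_add_distrib, ← Finset.sum_mul,
          hx'.2.1, one_mul]
      show Gam g0 (γ p) _ = Gam g0 (γ q) _
      rw [e1, Gam_add, ← Nγ p q hpq])
    (by
      intro g q x hx hq
      refine ⟨g • q, ?_, ?_⟩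
      · show 1 / (Fintype.card P : ℝ) ≤ act g x (g • q)
        rw [act_apply, inv_smul_smul]
        exact hq
      · show Gam g0 (γ (g • q)) _ = act g (Gam g0 (γ q) _)
        rw [act_Gam, hγ2]
        congr 1
        rw [← Equiv.sum_comp (MulAction.toPerm g : P ≃ P)]
        refine Finset.sum_congr rfl fun v _ => ?_
        have e1 : (MulAction.toPerm g : Equiv.Perm P) v = g • v := rfl
        rw [e1, act_apply, inv_smul_smul, Ninv])
  exact ctsMap_of_onMap hF

end ind

end Pool.Agent.R97.Xi
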