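import Pool.Agent.R97.XiPos

set_option autoImplicit false

namespace Pool.Agent.R97.Xi

open Pool.Agent.R126.Ix

universe u v w

section main

variable {G : Type u} [Group G]

/-- `f` bundled -/
def ff {g0 : G} {m : ℕ} (hm : g0 ^ (m + 1) = 1) : Fen (sQ G m) →o Fen (sB g0) :=
  ⟨fC g0 m, fC_mono hm⟩

/-- `h` bundled -/
def hh (G : Type u) [Group G] (m : ℕ) : Fen (sQ G m) →o Fen (sQ G 1) := ⟨hC G m, hC_mono⟩

theorem fC_smul (g0 : G) (m : ℕ) (g : G) (x : Fen (sQ G m)) : fC g0 m (g • x) = g • fC g0 m x := by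
  cases x with
  | v x => exact congrArg Fen.v (mul_assoc _ _ _)
  | e x => exact congrArg Fen.e (mul_assoc _ _ _)

theorem hC_smul (m : ℕ) (g : G) (x : Fen (sQ G m)) : hC G m (g • x) = g • hC G m x := by
  cases x with
  | v x => rfl
  | e x =>
    have e1 : g • (Fen.e x : Fen (sQ G m)) = Fen.e (g • x) := rfl
    rw [e1]
    unfold hC
    dsimp only
    rw [QG.smul_lev]
    split_ifs <;> rfl

/-- the poset, as a free `G`-poset -/
noncomputable def YY [Finite G] {g0 : G} {m : ℕ} (hm : g0 ^ (m + 1) = 1) : FreePoset G where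
  P := Cyl (ff hm) (hh G m)
  fin := Fintype.ofFinite _
  po := inferInstance
  act := inferInstance
  isG := by
    have i1 : IsGPoset G (Fen (sQ G m)) := Fen.isG (sQ_smul m)
    have i2 : IsGPoset G (Fen (sB g0)) := Fen.isG (sB_smul g0)
    have i3 : IsGPoset G (Fen (sQ G 1)) := Fen.isG (sQ_smul 1)
    exact Cyl.isG (fC_smul g0 m) (hC_smul m)
  free := ⟨fun g x h => by
    cases x with
    | c x =>
      cases x with
      | v x => exact IsFree.eq_one g x (Fen.v.inj (Cyl.c.inj h))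
      | e x => exact IsFree.eq_one g x (Fen.e.inj (Cyl.c.inj h))
    | b x =>
      cases x with
      | v x => exact mul_eq_right.mp (Fen.v.inj (Cyl.b.inj h))
      | e x => exact mul_eq_right.mp (Fen.e.inj (Cyl.b.inj h))
    | a x =>
      cases x with
      | v x => exact IsFree.eq_one g x (Fen.v.inj (Cyl.a.inj h))
      | e x => exact IsFree.eq_one g x (Fen.e.inj (Cyl.a.inj h))⟩

/-! ### Lower bound -/

/-- indices modulo `m+1` -/
def ix (m t : ℕ) : Fin (m + 1) := ⟨t % (m + 1), Nat.mod_lt _ (Nat.succ_pos m)⟩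

theorem ix_succ (m t : ℕ) : ix m (t + 1) = ix m t + 1 := by
  apply Fin.ext
  rw [Fin.val_add, Fin.val_one']
  show (t + 1) % (m + 1) = (t % (m + 1) + 1 % (m + 1)) % (m + 1)
  rw [Nat.add_mod]

theorem no_cob {g0 : G} {m : ℕ} (hm : g0 ^ (m + 1) = 1) (hg : g0 ≠ 1) (hm2 : 2 ≤ m) {M : ℕ}
    (hM : 4 * M < m + 1) : ¬ Cob g0 (Cyl (ff hm) (hh G m)) M := by
  classical
  rintro ⟨c, θ, h1, h2, h3, h4, h5, -⟩
  have tc : ∀ (s t s' t' : Cyl (ff hm) (hh G m)) (hst : s ≤ t) (hst' : s' ≤ t') (es : s = s')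
      (et : t = t'), c s t hst = c s' t' hst' := by
    rintro s t _ _ hst hst' rfl rfl
    rfl
  have hself : ∀ x (h : x ≤ x), c x x h = 0 := by
    intro x h
    have := h1 x x x h h
    omega
  -- the comparison of the two cylinders
  let W : Fen (sQ G m) → ℤ := fun x =>
    c (Cyl.c x) (Cyl.a (hh G m x)) (Cyl.ca.mpr le_rfl) -
      c (Cyl.c x) (Cyl.b (ff hm x)) (Cyl.cb.mpr le_rfl)
  have hW : ∀ x y (h : x ≤ y),
      c (Cyl.b (ff hm x)) (Cyl.b (ff hm y)) (Cyl.bb.mpr ((ff hm).monotone h)) -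
        c (Cyl.a (hh G m x)) (Cyl.a (hh G m y)) (Cyl.aa.mpr ((hh G m).monotone h)) = W x - W y := by
    intro x y h
    have a1 := h1 (Cyl.c x) (Cyl.c y) (Cyl.b (ff hm y)) (Cyl.cc.mpr h) (Cyl.cb.mpr le_rfl)
    have a2 := h1 (Cyl.c x) (Cyl.b (ff hm x)) (Cyl.b (ff hm y)) (Cyl.cb.mpr le_rfl)
      (Cyl.bb.mpr ((ff hm).monotone h))
    have a3 := h1 (Cyl.c x) (Cyl.c y) (Cyl.a (hh G m y)) (Cyl.cc.mpr h) (Cyl.ca.mpr le_rfl)
    have a4 := h1 (Cyl.c x) (Cyl.a (hh G m x)) (Cyl.a (hh G m y)) (Cyl.ca.mpr le_rfl)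
      (Cyl.aa.mpr ((hh G m).monotone h))
    simp only [W]
    linarith
  -- the long cycle
  let vt : ℕ → Fen (sQ G m) := fun t => Fen.v ⟨1, ix m t⟩
  let et : ℕ → Fen (sQ G m) := fun t => Fen.e ⟨1, ix m t⟩
  have ve1 : ∀ t, vt t ≤ et t := fun t => Fen.ve.mpr (Or.inl rfl)
  have ve2 : ∀ t, vt (t + 1) ≤ et t := fun t => Fen.ve.mpr (Or.inr (by
    show (⟨1, ix m (t + 1)⟩ : QG G m) = ⟨1, ix m t + 1⟩
    rw [ix_succ]))
  let bv : ℕ → Cyl (ff hm) (hh G m) := fun t => Cyl.b (Fen.v (g0 ^ t))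
  let be : ℕ → Cyl (ff hm) (hh G m) := fun t => Cyl.b (Fen.e (g0 ^ t))
  have bve1 : ∀ t, bv t ≤ be t := fun t => Cyl.bb.mpr (Fen.ve.mpr (Or.inl rfl))
  have bve2 : ∀ t, bv (t + 1) ≤ be t := fun t =>
    Cyl.bb.mpr (Fen.ve.mpr (Or.inr (pow_succ g0 t)))
  have sbv : ∀ t, g0 • bv t = bv (t + 1) := fun t =>
    congrArg (fun z => Cyl.b (Fen.v z)) (pow_succ' g0 t).symm
  have sbe : ∀ t, g0 • be t = be (t + 1) := fun t =>
    congrArg (fun z => Cyl.b (Fen.e z)) (pow_succ' g0 t).symm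
  let δ : ℕ → ℤ := fun t => c _ _ (bve1 t) - c _ _ (bve2 t)
  have hδ : ∀ t, δ (t + 1) = δ t := by
    intro t
    have m1 : g0 • bv t ≤ g0 • be t := by rw [sbv, sbe]; exact bve1 _
    have m2 : g0 • bv (t + 1) ≤ g0 • be t := by rw [sbv, sbe]; exact bve2 _
    have e1 : c _ _ (bve1 (t + 1)) = c _ _ (bve1 t) := by
      rw [← h4 _ _ (bve1 t) m1]
      exact tc _ _ _ _ _ _ (sbv t).symm (sbe t).symm
    have e2 : c _ _ (bve2 (t + 1)) = c _ _ (bve2 t) := by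
      rw [← h4 _ _ (bve2 t) m2]
      exact tc _ _ _ _ _ _ (sbv (t + 1)).symm (sbe t).symm
    simp only [δ]
    rw [e1, e2]
  have hδ0 : ∀ t, δ t = δ 0 := by
    intro t
    induction t with
    | zero => rfl
    | succ t ih => rw [hδ, ih]
  have hne : δ 0 ≠ 0 := by
    intro h0
    have h0' : c _ _ (bve1 0) = c _ _ (bve2 0) := sub_eq_zero.mp h0
    have e1 := h3 _ _ (bve1 0)
    have e2 := h3 _ _ (bve2 0)
    rw [h0', e2] at e1
    have e3 : θ (bv (0 + 1)) = θ (bv 0) := inv_injective (mul_right_cancel e1)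
    rw [← sbv, h5] at e3
    exact hg (mul_eq_right.mp e3)
  have hpw : ∀ t, g0 ^ ((ix m t : Fin (m + 1)) : ℕ) = g0 ^ t := by
    intro t
    show g0 ^ (t % (m + 1)) = g0 ^ t
    conv_rhs => rw [← Nat.mod_add_div t (m + 1), pow_add, pow_mul, hm, one_pow, mul_one]
  have fv : ∀ t, (Cyl.b (ff hm (vt t)) : Cyl (ff hm) (hh G m)) = bv t := by
    intro t
    show (Cyl.b (Fen.v (1 * g0 ^ ((ix m t : Fin (m + 1)) : ℕ))) : Cyl (ff hm) (hh G m)) = _
    rw [one_mul, hpw]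
  have fe : ∀ t, (Cyl.b (ff hm (et t)) : Cyl (ff hm) (hh G m)) = be t := by
    intro t
    show (Cyl.b (Fen.e (1 * g0 ^ ((ix m t : Fin (m + 1)) : ℕ))) : Cyl (ff hm) (hh G m)) = _
    rw [one_mul, hpw]
  let η : ℕ → ℤ := fun t =>
    c (Cyl.a (hh G m (vt t))) (Cyl.a (hh G m (et t))) (Cyl.aa.mpr ((hh G m).monotone (ve1 t))) -
      c (Cyl.a (hh G m (vt (t + 1)))) (Cyl.a (hh G m (et t)))
        (Cyl.aa.mpr ((hh G m).monotone (ve2 t)))
  have hstep : ∀ t, δ t - η t = W (vt t) - W (vt (t + 1)) := by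
    intro t
    have w1 := hW _ _ (ve1 t)
    have w2 := hW _ _ (ve2 t)
    have e1 := tc _ _ _ _ (Cyl.bb.mpr ((ff hm).monotone (ve1 t))) (bve1 t) (fv t) (fe t)
    have e2 := tc _ _ _ _ (Cyl.bb.mpr ((ff hm).monotone (ve2 t))) (bve2 t) (fv (t + 1)) (fe t)
    rw [e1] at w1
    rw [e2] at w2
    simp only [δ, η]
    linarith
  have hη : ∀ t, |η t| ≤ 2 * M := by
    intro t
    have b1 := abs_le.mp (h2 _ _ (Cyl.aa.mpr ((hh G m).monotone (ve1 t))))
    have b2 := abs_le.mp (h2 _ _ (Cyl.aa.mpr ((hh G m).monotone (ve2 t))))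
    rw [abs_le]
    simp only [η]
    constructor <;> linarith [b1.1, b1.2, b2.1, b2.2]
  have hη0 : ∀ t, 2 ≤ t → t ≤ m → η t = 0 := by
    intro t ht1 ht2
    have i1 : ((ix m t : Fin (m + 1)) : ℕ) = t := Nat.mod_eq_of_lt (by omega)
    have i2 : ((ix m (t + 1) : Fin (m + 1)) : ℕ) ≠ 1 := by
      show (t + 1) % (m + 1) ≠ 1
      rcases Nat.lt_or_ge t m with h | h
      · rw [Nat.mod_eq_of_lt (by omega)]; omega
      · have : t = m := le_antisymm ht2 h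
        rw [this, Nat.mod_self]; omega
    have a1 : hh G m (vt t) = Fen.v ⟨1, 0⟩ := by
      show (Fen.v ⟨1, if ((ix m t : Fin (m + 1)) : ℕ) = 1 then 1 else 0⟩ : Fen (sQ G 1)) = _
      rw [i1, if_neg (by omega)]
    have a2 : hh G m (vt (t + 1)) = Fen.v ⟨1, 0⟩ := by
      show (Fen.v ⟨1, if ((ix m (t + 1) : Fin (m + 1)) : ℕ) = 1 then 1 else 0⟩ : Fen (sQ G 1)) = _
      rw [if_neg i2]
    have a3 : hh G m (et t) = Fen.v ⟨1, 0⟩ := by
      show (if ((ix m t : Fin (m + 1)) : ℕ) = 0 then Fen.e ⟨1, 0⟩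
        else if ((ix m t : Fin (m + 1)) : ℕ) = 1 then Fen.e ⟨1, 1⟩ else Fen.v ⟨1, 0⟩ :
          Fen (sQ G 1)) = _
      rw [i1, if_neg (by omega), if_neg (by omega)]
    have z1 : c _ _ (Cyl.aa.mpr ((hh G m).monotone (ve1 t))) = 0 := by
      rw [tc _ _ _ _ _ (le_refl (Cyl.a (Fen.v ⟨1, 0⟩) : Cyl (ff hm) (hh G m)))
        (congrArg Cyl.a a1) (congrArg Cyl.a a3)]
      exact hself _ _
    have z2 : c _ _ (Cyl.aa.mpr ((hh G m).monotone (ve2 t))) = 0 := by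
      rw [tc _ _ _ _ _ (le_refl (Cyl.a (Fen.v ⟨1, 0⟩) : Cyl (ff hm) (hh G m)))
        (congrArg Cyl.a a2) (congrArg Cyl.a a3)]
      exact hself _ _
    simp only [η]
    rw [z1, z2]; rfl
  have hsum : ∑ t ∈ Finset.range (m + 1), (δ t - η t) = 0 := by
    rw [Finset.sum_congr rfl fun t _ => hstep t, Finset.sum_range_sub']
    have e : vt (m + 1) = vt 0 := by
      show (Fen.v ⟨1, ix m (m + 1)⟩ : Fen (sQ G m)) = Fen.v ⟨1, ix m 0⟩
      have : ix m (m + 1) = ix m 0 := Fin.ext (by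
        show (m + 1) % (m + 1) = 0 % (m + 1)
        simp)
      rw [this]
    rw [e, sub_self]
  have hsumη : ∑ t ∈ Finset.range (m + 1), η t = η 0 + η 1 := by
    have hsub : Finset.range 2 ⊆ Finset.range (m + 1) := by
      intro a ha
      rw [Finset.mem_range] at ha ⊢
      omega
    rw [← Finset.sum_subset hsub, Finset.sum_range_succ, Finset.sum_range_one]
    intro t ht ht2
    rw [Finset.mem_range] at ht ht2
    exact hη0 t (by omega) (by omega)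
  rw [Finset.sum_sub_distrib, hsumη, Finset.sum_congr rfl fun t _ => hδ0 t, Finset.sum_const,
    Finset.card_range, nsmul_eq_mul] at hsum
  have b0 := abs_le.mp (hη 0)
  have b1 := abs_le.mp (hη 1)
  have hM' : (4 * M : ℤ) < m + 1 := by exact_mod_cast hM
  push_cast at hsum
  rcases lt_or_gt_of_ne hne with h | h
  · have : ((m : ℤ) + 1) * δ 0 ≤ ((m : ℤ) + 1) * (-1) :=
      mul_le_mul_of_nonneg_left (by omega) (by positivity)
    linarith [b0.1, b0.2, b1.1, b1.2]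
  · have : ((m : ℤ) + 1) * 1 ≤ ((m : ℤ) + 1) * δ 0 :=
      mul_le_mul_of_nonneg_left (by omega) (by positivity)
    linarith [b0.1, b0.2, b1.1, b1.2]

end main

end Pool.Agent.R97.Xi
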