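import Pool.Agent.R97.XiCob
import Pool.Agent.R97.XiInd

set_option autoImplicit false

namespace Pool.Agent.R97.Xi

open Pool.Agent.R126.Ix

universe u v w

/-! ## Fences -/

/-- The face poset of the graph with vertices `x : V` and edges `e x` from `x` to `σ x`. -/
inductive Fen {V : Type u} (σ : V → V) : Type u
  | v (x : V) : Fen σ
  | e (x : V) : Fen σ

namespace Fen

variable {V : Type u} {σ : V → V}

/-- order of a fence -/
def le : Fen σ → Fen σ → Prop
  | v x, v y => x = y
  | e x, e y => x = y
  | v x, e y => x = y ∨ x = σ y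
  | e _, v _ => False

instance : PartialOrder (Fen σ) where
  le := le
  le_refl x := by cases x <;> exact rfl
  le_trans x y z h1 h2 := by
    cases x <;> cases y <;> cases z <;> simp only [le] at h1 h2 ⊢
    · exact h1.trans h2
    · rw [h1]; exact h2
    · rw [← h2]; exact h1
    · exact h1.trans h2
  le_antisymm x y h1 h2 := by
    cases x <;> cases y <;> simp only [le] at h1 h2
    · rw [h1]
    · rw [h1]

theorem vv {x y : V} : (v x : Fen σ) ≤ v y ↔ x = y := Iff.rfl
theorem ee {x y : V} : (e x : Fen σ) ≤ e y ↔ x = y := Iff.rfl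
theorem ve {x y : V} : (v x : Fen σ) ≤ e y ↔ x = y ∨ x = σ y := Iff.rfl
theorem ev {x y : V} : (e x : Fen σ) ≤ v y ↔ False := Iff.rfl

theorem eq_or_eq {x y z : Fen σ} (h1 : x ≤ y) (h2 : y ≤ z) : x = y ∨ y = z := by
  cases x <;> cases y <;> cases z <;> simp only [vv, ee, ve, ev] at h1 h2 ⊢
  · left; rw [h1]
  · left; rw [h1]
  · right; rw [h2]
  · left; rw [h1]

/-- equivalence with a product -/
def equiv : Fen σ ≃ V × Bool where
  toFun x := match x with
    | v x => (x, false)
    | e x => (x, true)
  invFun x := match x with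
    | (x, false) => v x
    | (x, true) => e x
  left_inv x := by cases x <;> rfl
  right_inv x := by rcases x with ⟨x, _ | _⟩ <;> rfl

instance [Finite V] : Finite (Fen σ) := Finite.of_equiv _ (equiv (σ := σ)).symm

variable {G : Type w} [Group G] [MulAction G V]

instance : MulAction G (Fen σ) where
  smul g x := match x with
    | v x => v (g • x)
    | e x => e (g • x)
  one_smul x := by
    cases x with
    | v x => exact congrArg v (one_smul G x)
    | e x => exact congrArg e (one_smul G x)
  mul_smul g h x := by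
    cases x with
    | v x => exact congrArg v (mul_smul g h x)
    | e x => exact congrArg e (mul_smul g h x)

theorem smul_v (g : G) (x : V) : g • (v x : Fen σ) = v (g • x) := rfl
theorem smul_e (g : G) (x : V) : g • (e x : Fen σ) = e (g • x) := rfl

theorem isG (hσ : ∀ (g : G) (x : V), σ (g • x) = g • σ x) : IsGPoset G (Fen σ) where
  smul_le g x y h := by
    cases x <;> cases y <;> simp only [smul_v, smul_e, vv, ee, ve, ev] at h ⊢
    · rw [h]
    · rcases h with h | h
      · left; rw [h]
      · right; rw [hσ, h]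
    · rw [h]

end Fen

/-! ## Double mapping cylinders -/

/-- The double mapping cylinder of `f : C → B` and `h : C → A`. -/
inductive Cyl {C B A : Type u} [PartialOrder C] [PartialOrder B] [PartialOrder A] (f : C →o B)
    (h : C →o A) : Type u
  | c (x : C) : Cyl f h
  | b (x : B) : Cyl f h
  | a (x : A) : Cyl f h

namespace Cyl

variable {C B A : Type u} [PartialOrder C] [PartialOrder B] [PartialOrder A] {f : C →o B}
    {h : C →o A}

/-- order of a double cylinder -/
def le : Cyl f h → Cyl f h → Prop
  | c x, c y => x ≤ y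
  | b x, b y => x ≤ y
  | a x, a y => x ≤ y
  | c x, b y => f x ≤ y
  | c x, a y => h x ≤ y
  | b _, c _ => False
  | b _, a _ => False
  | a _, c _ => False
  | a _, b _ => False

instance : PartialOrder (Cyl f h) where
  le := le
  le_refl x := by cases x <;> exact le_rfl
  le_trans x y z h1 h2 := by
    cases x <;> cases y <;> cases z <;> simp only [le] at h1 h2 ⊢
    · exact h1.trans h2
    · exact (f.monotone h1).trans h2
    · exact (h.monotone h1).trans h2
    · exact h1.trans h2
    · exact h1.trans h2
    · exact h1.trans h2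
    · exact h1.trans h2
  le_antisymm x y h1 h2 := by
    cases x <;> cases y <;> simp only [le] at h1 h2
    · rw [le_antisymm h1 h2]
    · rw [le_antisymm h1 h2]
    · rw [le_antisymm h1 h2]

theorem cc {x y : C} : (c x : Cyl f h) ≤ c y ↔ x ≤ y := Iff.rfl
theorem bb {x y : B} : (b x : Cyl f h) ≤ b y ↔ x ≤ y := Iff.rfl
theorem aa {x y : A} : (a x : Cyl f h) ≤ a y ↔ x ≤ y := Iff.rfl
theorem cb {x : C} {y : B} : (c x : Cyl f h) ≤ b y ↔ f x ≤ y := Iff.rfl
theorem ca {x : C} {y : A} : (c x : Cyl f h) ≤ a y ↔ h x ≤ y := Iff.rfl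
theorem bc {x : B} {y : C} : (b x : Cyl f h) ≤ c y ↔ False := Iff.rfl
theorem ba {x : B} {y : A} : (b x : Cyl f h) ≤ a y ↔ False := Iff.rfl
theorem ac {x : A} {y : C} : (a x : Cyl f h) ≤ c y ↔ False := Iff.rfl
theorem ab {x : A} {y : B} : (a x : Cyl f h) ≤ b y ↔ False := Iff.rfl

/-- equivalence with a sum -/
def equiv : Cyl f h ≃ C ⊕ (B ⊕ A) where
  toFun x := match x with
    | c x => Sum.inl x
    | b x => Sum.inr (Sum.inl x)
    | a x => Sum.inr (Sum.inr x)
  invFun x := match x with
    | Sum.inl x => c x
    | Sum.inr (Sum.inl x) => b x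
    | Sum.inr (Sum.inr x) => a x
  left_inv x := by cases x <;> rfl
  right_inv x := by rcases x with x | x | x <;> rfl

instance [Finite C] [Finite B] [Finite A] : Finite (Cyl f h) :=
  Finite.of_equiv _ (equiv (f := f) (h := h)).symm

variable {G : Type w} [Group G] [MulAction G C] [MulAction G B] [MulAction G A]

instance : MulAction G (Cyl f h) where
  smul g x := match x with
    | c x => c (g • x)
    | b x => b (g • x)
    | a x => a (g • x)
  one_smul x := by
    cases x with
    | c x => exact congrArg c (one_smul G x)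
    | b x => exact congrArg b (one_smul G x)
    | a x => exact congrArg a (one_smul G x)
  mul_smul g h x := by
    cases x with
    | c x => exact congrArg c (mul_smul g h x)
    | b x => exact congrArg b (mul_smul g h x)
    | a x => exact congrArg a (mul_smul g h x)

theorem smul_c (g : G) (x : C) : g • (c x : Cyl f h) = c (g • x) := rfl
theorem smul_b (g : G) (x : B) : g • (b x : Cyl f h) = b (g • x) := rfl
theorem smul_a (g : G) (x : A) : g • (a x : Cyl f h) = a (g • x) := rfl

theorem isG [IsGPoset G C] [IsGPoset G B] [IsGPoset G A]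
    (hf : ∀ (g : G) (x : C), f (g • x) = g • f x) (hh : ∀ (g : G) (x : C), h (g • x) = g • h x) :
    IsGPoset G (Cyl f h) where
  smul_le g x y H := by
    cases x <;> cases y <;> simp only [smul_c, smul_b, smul_a, cc, bb, aa, cb, ca, bc, ba, ac, ab]
      at H ⊢
    · exact IsGPoset.smul_le g H
    · rw [hf]; exact IsGPoset.smul_le g H
    · rw [hh]; exact IsGPoset.smul_le g H
    · exact IsGPoset.smul_le g H
    · exact IsGPoset.smul_le g H

end Cyl

/-! ## The poset -/

section poset

variable {G : Type u} [Group G]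

/-- successor on `G` -/
def sB (g0 : G) : G → G := fun g => g * g0

/-- successor on `G × Fin (n+1)` -/
def sQ (G : Type u) (n : ℕ) : QG G n → QG G n := fun x => ⟨x.g, x.lev + 1⟩

theorem sB_smul (g0 g x : G) : sB g0 (g • x) = g • sB g0 x := mul_assoc g x g0

theorem sQ_smul (n : ℕ) (g : G) (x : QG G n) : sQ G n (g • x) = g • sQ G n x := rfl

theorem pw_succ {g0 : G} {m : ℕ} (hm : g0 ^ (m + 1) = 1) (i : Fin (m + 1)) :
    g0 ^ ((i + 1 : Fin (m + 1)) : ℕ) = g0 ^ (i : ℕ) * g0 := by
  rw [Fin.val_add_one]
  split_ifs with h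
  · rw [h, Fin.val_last, ← pow_succ, hm, pow_zero]
  · rw [pow_succ]

/-- the map `f : C → B` -/
def fC (g0 : G) (m : ℕ) : Fen (sQ G m) → Fen (sB g0)
  | Fen.v x => Fen.v (x.g * g0 ^ (x.lev : ℕ))
  | Fen.e x => Fen.e (x.g * g0 ^ (x.lev : ℕ))

theorem fC_mono {g0 : G} {m : ℕ} (hm : g0 ^ (m + 1) = 1) : Monotone (fC g0 m) := by
  intro x y h
  cases x <;> cases y <;> simp only [Fen.vv, Fen.ee, Fen.ve, Fen.ev, fC] at h ⊢
  · rw [h]
  · rcases h with h | h
    · left; rw [h]
    · right
      rw [h]
      show _ * g0 ^ (((_ : QG G m).lev + 1 : Fin (m + 1)) : ℕ) = _ * g0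
      rw [pw_succ hm, mul_assoc]
      rfl
  · rw [h]

/-- the map `h : C → A` -/
def hC (G : Type u) (m : ℕ) : Fen (sQ G m) → Fen (sQ G 1)
  | Fen.v x => Fen.v ⟨x.g, if (x.lev : ℕ) = 1 then 1 else 0⟩
  | Fen.e x => if (x.lev : ℕ) = 0 then Fen.e ⟨x.g, 0⟩
      else if (x.lev : ℕ) = 1 then Fen.e ⟨x.g, 1⟩ else Fen.v ⟨x.g, 0⟩

omit [Group G] in
theorem A_le (g : G) (i j : Fin 2) : (Fen.v ⟨g, i⟩ : Fen (sQ G 1)) ≤ Fen.e ⟨g, j⟩ := by
  rw [Fen.ve]
  fin_cases i <;> fin_cases j
  · left; rfl
  · right; rfl
  · right; rfl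
  · left; rfl

theorem hC_mono {m : ℕ} : Monotone (hC G m) := by
  intro x y h
  cases x with
  | v x =>
    cases y with
    | v y => rw [Fen.vv] at h; rw [h]
    | e y =>
      rw [Fen.ve] at h
      have hg : x.g = y.g := by
        rcases h with h | h
        · rw [h]
        · rw [h]; rfl
      have hlev : x.lev = y.lev ∨ x.lev = y.lev + 1 := by
        rcases h with h | h
        · left; rw [h]
        · right; rw [h]; rfl
      unfold hC
      dsimp only
      rw [hg]
      split_ifs with h1 h2 h3 h4 h5
      all_goals first | exact A_le _ _ _ | skip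
      · exfalso
        rcases hlev with h' | h'
        · rw [h'] at h1; omega
        · rw [h', Fin.val_add_one] at h1
          split_ifs at h1 with h6
          · omega
      · exact le_rfl
  | e x =>
    cases y with
    | v y => rw [Fen.ev] at h; exact h.elim
    | e y => rw [Fen.ee] at h; rw [h]

end poset

end Pool.Agent.R97.Xi
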