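import Pool.Agent.R97.XiMain

set_option autoImplicit false

namespace Pool.Agent.R97.Xi

open Pool.Agent.R126.Ix

universe u v w

section up

variable {G : Type u} [Group G]

open Classical in
/-- integer cochain on `B` -/
noncomputable def nB {g0 : G} : Fen (sB g0) → Fen (sB g0) → ℤ
  | Fen.v x, Fen.e y => if x = y then 0 else -1
  | _, _ => 0

/-- integer cochain on `A` -/
def nA (m : ℕ) : Fen (sQ G 1) → Fen (sQ G 1) → ℤ
  | Fen.v x, Fen.e y => if x.lev = 0 ∧ y.lev = 1 then -((m : ℤ) + 1) else 0
  | _, _ => 0

/-- height function of the cylinder -/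
def E0 (m i : ℕ) : ℤ := if i ≤ 1 then -(i : ℤ) else (m : ℤ) + 1 - i

/-- height function of the cylinder -/
def EC (m : ℕ) : Fen (sQ G m) → ℤ
  | Fen.v x => E0 m x.lev
  | Fen.e x => E0 m x.lev

/-- label -/
def gB {g0 : G} : Fen (sB g0) → G
  | Fen.v x => x
  | Fen.e x => x

/-- label -/
def gA {n : ℕ} : Fen (sQ G n) → G
  | Fen.v x => x.g
  | Fen.e x => x.g

theorem nB_self {g0 : G} (x : Fen (sB g0)) : nB x x = 0 := by cases x <;> rfl

omit [Group G] in
theorem nA_self (m : ℕ) (x : Fen (sQ G 1)) : nA m x x = 0 := by cases x <;> rfl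

theorem add_of_self {V : Type u} {σ : V → V} {n : Fen σ → Fen σ → ℤ} (h0 : ∀ x, n x x = 0)
    {x y z : Fen σ} (h1 : x ≤ y) (h2 : y ≤ z) : n x z = n x y + n y z := by
  rcases Fen.eq_or_eq h1 h2 with rfl | rfl
  · rw [h0, zero_add]
  · rw [h0, add_zero]

theorem gB_eq {g0 : G} (hg : g0 ≠ 1) {x y : Fen (sB g0)} (h : x ≤ y) :
    gB y = gB x * g0 ^ nB x y := by
  cases x <;> cases y
  · rw [Fen.vv] at h; subst h; simp [gB, nB]
  · rw [Fen.ve] at h
    rcases h with h | h
    · subst h; simp [gB, nB]
    · subst h
      rename_i y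
      have hne : sB g0 y ≠ y := by
        intro h'
        exact hg (mul_eq_left.mp h')
      simp only [gB, nB, if_neg hne]
      unfold sB
      simp
  · exact h.elim
  · rw [Fen.ee] at h; subst h; simp [gB, nB]

theorem gA_eq {g0 : G} {m : ℕ} (hm : g0 ^ (m + 1) = 1) {x y : Fen (sQ G 1)} (h : x ≤ y) :
    gA y = gA x * g0 ^ nA m x y := by
  have hz : g0 ^ (-((m : ℤ) + 1)) = 1 := by
    rw [zpow_neg, inv_eq_one]
    exact_mod_cast hm
  cases x <;> cases y
  · rw [Fen.vv] at h; subst h; simp [gA, nA]
  · rw [Fen.ve] at h
    rename_i x y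
    have hg : x.g = y.g := by
      rcases h with h | h
      · rw [h]
      · rw [h]; rfl
    simp only [gA, nA]
    split_ifs
    · rw [hz, mul_one, hg]
    · rw [zpow_zero, mul_one, hg]
  · exact h.elim
  · rw [Fen.ee] at h; subst h; simp [gA, nA]

/-- compatibility of the two cylinders -/
theorem EC_eq {g0 : G} (hg : g0 ≠ 1) {m : ℕ} (hm : g0 ^ (m + 1) = 1) (hm2 : 2 ≤ m)
    {x y : Fen (sQ G m)} (h : x ≤ y) :
    nB (fC g0 m x) (fC g0 m y) + EC m y = EC m x + nA m (hC G m x) (hC G m y) := by
  cases x with
  | v x =>
    cases y with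
    | v y => rw [Fen.vv] at h; subst h; rw [nB_self, nA_self]; ring
    | e y =>
      rw [Fen.ve] at h
      rcases h with h | h
      · subst h
        have e1 : nB (fC g0 m (Fen.v x)) (fC g0 m (Fen.e x)) = 0 := if_pos rfl
        rw [e1]
        show 0 + E0 m x.lev = E0 m x.lev + _
        rw [zero_add]
        have e2 : nA m (hC G m (Fen.v x)) (hC G m (Fen.e x)) = 0 := by
          unfold hC
          dsimp only
          split_ifs with h1 h2 h3
          · omega
          · rfl
          · simp [nA]
          · rfl
        rw [e2, add_zero]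
      · have hlev : x.lev = y.lev + 1 := by rw [h]; rfl
        have hxg : x.g = y.g := by rw [h]; rfl
        have e1 : nB (fC g0 m (Fen.v x)) (fC g0 m (Fen.e y)) = -1 := by
          refine if_neg ?_
          rw [hlev, pw_succ hm, hxg, ← mul_assoc]
          intro h'
          exact hg (mul_eq_left.mp h')
        rw [e1]
        show -1 + E0 m y.lev = E0 m x.lev + _
        have hx : (x.lev : ℕ) = if y.lev = Fin.last m then 0 else (y.lev : ℕ) + 1 := by
          rw [hlev, Fin.val_add_one]
        have hylt : (y.lev : ℕ) < m + 1 := y.lev.2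
        by_cases hlast : y.lev = Fin.last m
        · rw [if_pos hlast] at hx
          have hy : (y.lev : ℕ) = m := by rw [hlast]; rfl
          have e2 : nA m (hC G m (Fen.v x)) (hC G m (Fen.e y)) = 0 := by
            unfold hC
            dsimp only
            rw [hx, hy, if_neg (by omega), if_neg (by omega), if_neg (by omega)]
            rfl
          rw [e2, hx, hy]
          unfold E0
          rw [if_neg (by omega), if_pos (by omega)]
          push_cast
          ring
        · rw [if_neg hlast] at hx
          rcases Nat.lt_or_ge (y.lev : ℕ) 2 with h2 | h2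
          · have h3 : (y.lev : ℕ) = 0 ∨ (y.lev : ℕ) = 1 := by omega
            rcases h3 with h3 | h3
            · have e2 : nA m (hC G m (Fen.v x)) (hC G m (Fen.e y)) = 0 := by
                unfold hC
                dsimp only
                rw [hx, h3, if_pos rfl, if_pos rfl]
                simp [nA]
              rw [e2, hx, h3]
              unfold E0
              norm_num
            · have e2 : nA m (hC G m (Fen.v x)) (hC G m (Fen.e y)) = -((m : ℤ) + 1) := by
                unfold hC
                dsimp only
                rw [hx, h3, if_neg (by omega), if_neg (by omega), if_pos rfl]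
                simp [nA]
              rw [e2, hx, h3]
              unfold E0
              norm_num
              ring
          · have e2 : nA m (hC G m (Fen.v x)) (hC G m (Fen.e y)) = 0 := by
              unfold hC
              dsimp only
              rw [hx, if_neg (by omega), if_neg (by omega), if_neg (by omega)]
              rfl
            rw [e2, hx]
            unfold E0
            rw [if_neg (by omega), if_neg (by omega)]
            push_cast
            ring
  | e x =>
    cases y with
    | v y => exact h.elim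
    | e y => rw [Fen.ee] at h; subst h; rw [nB_self, nA_self]; ring

/-- the integer cochain on the double cylinder -/
noncomputable def nP {g0 : G} {m : ℕ} (hm : g0 ^ (m + 1) = 1) :
    Cyl (ff hm) (hh G m) → Cyl (ff hm) (hh G m) → ℤ
  | Cyl.c x, Cyl.c y => nB (ff hm x) (ff hm y)
  | Cyl.c x, Cyl.b y => nB (ff hm x) y
  | Cyl.b x, Cyl.b y => nB x y
  | Cyl.a x, Cyl.a y => nA m x y
  | Cyl.c x, Cyl.a y => EC m x + nA m (hh G m x) y
  | _, _ => 0

/-- the label on the double cylinder -/
def gP {g0 : G} {m : ℕ} (hm : g0 ^ (m + 1) = 1) : Cyl (ff hm) (hh G m) → G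
  | Cyl.c x => gB (ff hm x)
  | Cyl.b x => gB x
  | Cyl.a x => gA x

theorem nB_smul {g0 : G} (g : G) (x y : Fen (sB g0)) : nB (g • x) (g • y) = nB x y := by
  classical
  cases x <;> cases y
  · rfl
  · rename_i x y
    show (if g * x = g * y then (0 : ℤ) else -1) = if x = y then 0 else -1
    simp only [mul_right_inj]
  · rfl
  · rfl

theorem nA_smul (m : ℕ) (g : G) (x y : Fen (sQ G 1)) : nA m (g • x) (g • y) = nA m x y := by
  cases x <;> cases y <;> rfl

theorem EC_smul (m : ℕ) (g : G) (x : Fen (sQ G m)) : EC m (g • x) = EC m x := by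
  cases x <;> rfl

omit [Group G] in
theorem gA_hC (m : ℕ) (x : Fen (sQ G m)) : gA (hC G m x) = gA x := by
  cases x with
  | v x => rfl
  | e x =>
    unfold hC
    dsimp only
    split_ifs <;> rfl

theorem gB_fC {g0 : G} {m : ℕ} (hm : g0 ^ (m + 1) = 1) (x : Fen (sQ G m)) :
    gA x = gB (fC g0 m x) * g0 ^ EC m x := by
  have key : ∀ i : ℕ, g0 ^ i * g0 ^ E0 m i = 1 := by
    intro i
    unfold E0
    split_ifs
    · rw [zpow_neg, zpow_natCast, mul_inv_cancel]
    · rw [← zpow_natCast, ← zpow_add]
      have : (i : ℤ) + ((m : ℤ) + 1 - i) = ((m + 1 : ℕ) : ℤ) := by push_cast; ring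
      rw [this, zpow_natCast, hm]
  cases x with
  | v x =>
    show x.g = x.g * g0 ^ (x.lev : ℕ) * g0 ^ E0 m x.lev
    rw [mul_assoc, key, mul_one]
  | e x =>
    show x.g = x.g * g0 ^ (x.lev : ℕ) * g0 ^ E0 m x.lev
    rw [mul_assoc, key, mul_one]

theorem indLE_YY [Fintype G] {g0 : G} (hg : g0 ≠ 1) {m : ℕ} (hm : g0 ^ (m + 1) = 1)
    (hm2 : 2 ≤ m) : IndLE G (YY hm).Δ.K 1 := by
  have main : IndLE G (orderComplex (YY hm).P) 1 := by
    refine indLE_of_cochain g0 (nP hm) (gP hm) ?_ ?_ ?_ ?_
    · intro x y z h1 h2
      cases x <;> cases y <;> cases z <;>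
        first
        | exact (h1 : False).elim
        | exact (h2 : False).elim
        | skip
      · exact add_of_self nB_self ((ff hm).monotone h1) ((ff hm).monotone h2)
      · exact add_of_self nB_self ((ff hm).monotone h1) h2
      · rename_i x y z
        show EC m x + nA m (hh G m x) z = nB (ff hm x) (ff hm y) + (EC m y + nA m (hh G m y) z)
        have e1 := EC_eq hg hm hm2 (h1 : x ≤ y)
        have e2 := add_of_self (nA_self m) ((hh G m).monotone (h1 : x ≤ y)) (h2 : hh G m y ≤ z)
        have e1' : nB (ff hm x) (ff hm y) + EC m y = EC m x + nA m (hh G m x) (hh G m y) := e1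
        linarith
      · exact add_of_self nB_self h1 h2
      · rename_i x y z
        show EC m x + nA m (hh G m x) z = EC m x + nA m (hh G m x) y + nA m y z
        have e2 := add_of_self (nA_self m) (h1 : hh G m x ≤ y) (h2 : y ≤ z)
        linarith
      · exact add_of_self nB_self h1 h2
      · exact add_of_self (nA_self m) h1 h2
    · intro g x y
      cases x <;> cases y
      · rename_i x y
        show nB (fC g0 m (g • x)) (fC g0 m (g • y)) = nB (fC g0 m x) (fC g0 m y)
        rw [fC_smul, fC_smul, nB_smul]
      · rename_i x y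
        show nB (fC g0 m (g • x)) (g • y) = nB (fC g0 m x) y
        rw [fC_smul, nB_smul]
      · rename_i x y
        show EC m (g • x) + nA m (hC G m (g • x)) (g • y) = EC m x + nA m (hC G m x) y
        rw [hC_smul, EC_smul, nA_smul]
      · rfl
      · exact nB_smul g _ _
      · rfl
      · rfl
      · rfl
      · exact nA_smul m g _ _
    · intro x y h
      cases x <;> cases y
      · exact gB_eq hg ((ff hm).monotone h)
      · exact gB_eq hg h
      · rename_i x y
        show gA y = gB (fC g0 m x) * g0 ^ (EC m x + nA m (hC G m x) y)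
        have e : gA y = gA (hC G m x) * g0 ^ nA m (hC G m x) y := gA_eq hm h
        rw [e, gA_hC, gB_fC hm x, mul_assoc, ← zpow_add]
      · exact (h : False).elim
      · exact gB_eq hg h
      · exact (h : False).elim
      · exact (h : False).elim
      · exact (h : False).elim
      · exact gA_eq hm h
    · intro g x
      cases x
      · rename_i x
        show gB (fC g0 m (g • x)) = g * gB (fC g0 m x)
        rw [fC_smul]
        cases fC g0 m x <;> rfl
      · rename_i x
        cases x <;> rfl
      · rename_i x
        cases x <;> rfl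
  exact main

end up

end Pool.Agent.R97.Xi
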